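import Mathlib

/-!
# Intrinsic diameter of smooth surfaces in the complex projective 3-space: definitions
-/

set_option autoImplicit false
open MeasureTheory Set Filter
open scoped ENNReal NNReal Topology ContDiff

namespace Pool.Agent.Results.MP_a3b544_ag.Growth

/-- `ℂ⁴` with its standard hermitian structure. -/
abbrev C4 := EuclideanSpace ℂ (Fin 4)

/-- `F` is the equation, homogeneous of degree `d`, of a smooth surface in `ℂP³`. -/
def IsSmoothSurface (d : ℕ) (F : MvPolynomial (Fin 4) ℂ) : Prop :=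
  F.IsHomogeneous d ∧ ∀ x : Fin 4 → ℂ, x ≠ 0 → MvPolynomial.eval x F = 0 →
    ∃ i, MvPolynomial.eval x (MvPolynomial.pderiv i F) ≠ 0

/-- Homogeneous coordinates of the points of the surface. -/
def Cone (F : MvPolynomial (Fin 4) ℂ) : Set C4 :=
  {x | x ≠ 0 ∧ MvPolynomial.eval (fun i => x i) F = 0}

/-- The Fubini-Study norm of the tangent vector at `[x]` given by the vector `v` at `x`. -/
noncomputable def fsSpeed (x v : C4) : ℝ :=
  √(‖x‖ ^ 2 * ‖v‖ ^ 2 - ‖inner ℂ x v‖ ^ 2) / ‖x‖ ^ 2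

/-- Piecewise smooth curves, defined on `[0,1]`. -/
def PiecewiseSmooth (γ : ℝ → C4) : Prop :=
  ContinuousOn γ (Icc 0 1) ∧ ∃ (n : ℕ) (τ : ℕ → ℝ), Monotone τ ∧ τ 0 = 0 ∧ τ n = 1 ∧
    ∀ i < n, ContDiffOn ℝ ∞ γ (Icc (τ i) (τ (i + 1)))

/-- The Fubini-Study length of the curve `[γ]`. -/
noncomputable def fsLength (γ : ℝ → C4) : ℝ≥0∞ :=
  ∫⁻ t in Icc (0 : ℝ) 1, ENNReal.ofReal (fsSpeed (γ t) (deriv γ t))

/-- `γ` is a lift to `ℂ⁴ ∖ 0` of a piecewise smooth curve in the surface that joins `[x]` to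
`[y]`. -/
def Joins (F : MvPolynomial (Fin 4) ℂ) (γ : ℝ → C4) (x y : C4) : Prop :=
  PiecewiseSmooth γ ∧ (∀ t ∈ Icc (0 : ℝ) 1, γ t ∈ Cone F) ∧
    (∃ c : ℂ, c ≠ 0 ∧ γ 0 = c • x) ∧ ∃ c : ℂ, c ≠ 0 ∧ γ 1 = c • y

/-- Intrinsic distance of two points of the surface. -/
noncomputable def fsDist (F : MvPolynomial (Fin 4) ℂ) (x y : C4) : ℝ≥0∞ :=
  ⨅ (γ : ℝ → C4) (_ : Joins F γ x y), fsLength γ

/-- Intrinsic diameter of the surface. -/
noncomputable def diamS (F : MvPolynomial (Fin 4) ℂ) : ℝ≥0∞ :=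
  ⨆ (x ∈ Cone F) (y ∈ Cone F), fsDist F x y

/-- The supremum `D(d)` of the intrinsic diameters of the smooth surfaces of degree `d`. -/
noncomputable def DD (d : ℕ) : ℝ≥0∞ :=
  ⨆ (F : MvPolynomial (Fin 4) ℂ) (_ : IsSmoothSurface d F), diamS F

end Pool.Agent.Results.MP_a3b544_ag.Growth
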