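import Pool.Agent.MP_a3b544_ag.Defs

set_option autoImplicit false
open MeasureTheory Set Filter
open scoped ENNReal NNReal Topology ContDiff

namespace Pool.Agent.Results.MP_a3b544_ag.Growth

/-! ### the examples -/

/-- The variable used in the `i`-th term. -/
def rr (i : ℕ) : Fin 4 := ⟨i % 3, by omega⟩

/-- The unperturbed equation. -/
noncomputable def F0 (ε : ℝ) (d : ℕ) : MvPolynomial (Fin 4) ℂ :=
  ∑ i ∈ Finset.range (d + 1),
    MvPolynomial.C (((ε ^ (i ^ 2) : ℝ)) : ℂ) * MvPolynomial.X (rr i) ^ i *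
      MvPolynomial.X 3 ^ (d - i)

/-- The perturbed equation. -/
noncomputable def Fa (ε : ℝ) (d : ℕ) (a : Fin 4 → ℂ) : MvPolynomial (Fin 4) ℂ :=
  F0 ε d + ∑ j, MvPolynomial.C (a j) * MvPolynomial.X j ^ d

/-- Squared relative size of a coordinate. -/
noncomputable def gsq (j : Fin 4) (x : C4) : ℝ := ‖x j‖ ^ 2 / ‖x‖ ^ 2


theorem LB1_ptwise (j : Fin 4) (x v : C4) (h0 : x ≠ 0) :
    |(2 * (starRingEnd ℂ (x j) * v j).re * ‖x‖ ^ 2 - ‖x j‖ ^ 2 * (2 * (inner ℂ x v).re)) /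
      (‖x‖ ^ 2) ^ 2| ≤ 2 * fsSpeed x v := by
  have hx : 0 < ‖x‖ := norm_pos_iff.2 h0
  set c : ℂ := inner ℂ x v with hc
  have hxx : inner ℂ x x = ((‖x‖ ^ 2 : ℝ) : ℂ) := by
    rw [inner_self_eq_norm_sq_to_K]
    norm_cast
  set u : C4 := ((‖x‖ ^ 2 : ℝ) : ℂ) • v - c • x with hu
  have hn : ‖u‖ ^ 2 = ‖x‖ ^ 2 * (‖x‖ ^ 2 * ‖v‖ ^ 2 - ‖c‖ ^ 2) := by
    rw [hu, @norm_sub_sq ℂ, norm_smul, norm_smul, inner_smul_left, inner_smul_right,
      ← inner_conj_symm v x, ← hc]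
    simp only [Complex.norm_real, norm_pow, norm_norm, Complex.conj_ofReal]
    have h1 : RCLike.re (((‖x‖ ^ 2 : ℝ) : ℂ) * (c * (starRingEnd ℂ) c)) = ‖x‖ ^ 2 * ‖c‖ ^ 2 := by
      rw [Complex.mul_conj, Complex.normSq_eq_norm_sq]
      norm_cast
    rw [h1]
    ring
  have hQ0 : 0 ≤ ‖x‖ ^ 2 * ‖v‖ ^ 2 - ‖c‖ ^ 2 := by
    have := norm_inner_le_norm (𝕜 := ℂ) x v
    rw [← hc] at this
    have h2 : ‖c‖ ^ 2 ≤ (‖x‖ * ‖v‖) ^ 2 := by gcongr
    nlinarith
  have hnu : ‖u‖ = ‖x‖ * √(‖x‖ ^ 2 * ‖v‖ ^ 2 - ‖c‖ ^ 2) := by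
    have h3 : ‖u‖ = √(‖u‖ ^ 2) := by rw [Real.sqrt_sq (norm_nonneg _)]
    rw [h3, hn, Real.sqrt_mul (by positivity), Real.sqrt_sq hx.le]
  have huj : ‖u j‖ ≤ ‖u‖ := PiLp.norm_apply_le u j
  have hnum : 2 * (starRingEnd ℂ (x j) * v j).re * ‖x‖ ^ 2 - ‖x j‖ ^ 2 * (2 * c.re) =
      2 * (starRingEnd ℂ (x j) * u j).re := by
    have h4 : u j = ((‖x‖ ^ 2 : ℝ) : ℂ) * v j - c * x j := by simp [hu]
    rw [h4]
    have h5 : ‖x j‖ ^ 2 = (x j).re ^ 2 + (x j).im ^ 2 := by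
      rw [Complex.sq_norm, Complex.normSq_apply]
      ring
    rw [h5]
    simp only [Complex.mul_re, Complex.conj_re, Complex.conj_im, Complex.sub_re, Complex.sub_im,
      Complex.mul_im, Complex.ofReal_re, Complex.ofReal_im]
    ring
  rw [hnum, abs_div, abs_of_pos (show 0 < (‖x‖ ^ 2) ^ 2 by positivity)]
  have h6 : |2 * (starRingEnd ℂ (x j) * u j).re| ≤ 2 * (‖x‖ * (‖x‖ *
      √(‖x‖ ^ 2 * ‖v‖ ^ 2 - ‖c‖ ^ 2))) := by
    rw [abs_mul, abs_two]
    gcongr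
    refine (Complex.abs_re_le_norm _).trans ?_
    rw [norm_mul, RCLike.norm_conj]
    have h7 : ‖x j‖ ≤ ‖x‖ := PiLp.norm_apply_le x j
    rw [← hnu]
    gcongr
  unfold fsSpeed
  rw [← hc]
  calc |2 * (starRingEnd ℂ (x j) * u j).re| / (‖x‖ ^ 2) ^ 2
      ≤ (2 * (‖x‖ * (‖x‖ * √(‖x‖ ^ 2 * ‖v‖ ^ 2 - ‖c‖ ^ 2)))) / (‖x‖ ^ 2) ^ 2 := by gcongr
    _ = 2 * (√(‖x‖ ^ 2 * ‖v‖ ^ 2 - ‖c‖ ^ 2) / ‖x‖ ^ 2) := by
        field_simp

theorem LB1_deriv (j : Fin 4) {γ : ℝ → C4} {v : C4} {t : ℝ} (hd : HasDerivAt γ v t)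
    (h0 : γ t ≠ 0) :
    HasDerivAt (fun s => gsq j (γ s))
      ((2 * (starRingEnd ℂ (γ t j) * v j).re * ‖γ t‖ ^ 2 -
        ‖γ t j‖ ^ 2 * (2 * (inner ℂ (γ t) v).re)) / (‖γ t‖ ^ 2) ^ 2) t := by
  have hc : HasDerivAt (fun s => γ s j) (v j) t := by
    have := (EuclideanSpace.proj (𝕜 := ℂ) j : C4 →L[ℂ] ℂ).restrictScalars ℝ |>.hasFDerivAt
      (x := γ t)
    exact this.comp_hasDerivAt t hd
  have h1 : HasDerivAt (fun s => ‖γ s j‖ ^ 2) (2 * (starRingEnd ℂ (γ t j) * v j).re) t := by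
    have := hc.norm_sq
    convert this using 2
    rw [Complex.inner, mul_comm]
  have h2 : HasDerivAt (fun s => ‖γ s‖ ^ 2) (2 * (inner ℂ (γ t) v).re) t := by
    have := hd.norm_sq
    convert this using 2
    rw [PiLp.inner_apply, PiLp.inner_apply, Complex.re_sum]
    refine Finset.sum_congr rfl fun i _ => ?_
    rw [Complex.inner, RCLike.inner_apply, mul_comm]
  have h3 : ‖γ t‖ ^ 2 ≠ 0 := by
    have := norm_pos_iff.2 h0
    positivity
  exact h1.div h2 h3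

theorem LB1_piece {τ : ℕ → ℝ} {n : ℕ} (h0 : τ 0 = 0) (h1 : τ n = 1) {t : ℝ}
    (ht0 : 0 < t) (ht1 : t < 1) (hne : ∀ i, i ≤ n → t ≠ τ i) :
    ∃ i < n, τ i < t ∧ t < τ (i + 1) := by
  classical
  have hex : ∃ k, k ≤ n ∧ t < τ k := ⟨n, le_rfl, by rw [h1]; exact ht1⟩
  have hk := Nat.find_spec hex
  set k := Nat.find hex with hkdef
  have hkpos : k ≠ 0 := by
    intro hk0
    rw [hk0, h0] at hk
    exact absurd hk.2 (not_lt.2 ht0.le)
  obtain ⟨j, hj⟩ := Nat.exists_eq_succ_of_ne_zero hkpos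
  have hjn : j < n := by omega
  refine ⟨j, hjn, ?_, ?_⟩
  · have := Nat.find_min hex (m := j) (by omega)
    push Not at this
    have h2 := this hjn.le
    exact lt_of_le_of_ne h2 (fun h => hne j hjn.le h.symm)
  · have := hk.2
    rw [hj] at this
    exact this

/-- the relative size of a coordinate is a Lipschitz function for the Fubini-Study metric -/
theorem gsq_bound {γ : ℝ → C4} (hγ : PiecewiseSmooth γ) {a b : ℝ} (ha : 0 ≤ a) (hab : a ≤ b)
    (hb : b ≤ 1) (h : ∀ t ∈ Icc a b, γ t ≠ 0) (j : Fin 4) :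
    ENNReal.ofReal |gsq j (γ b) - gsq j (γ a)| ≤
      2 * ∫⁻ t in Icc a b, ENNReal.ofReal (fsSpeed (γ t) (deriv γ t)) := by
  obtain ⟨hcont, n, τ, hmono, hτ0, hτ1, hsm⟩ := hγ
  set S : Set ℝ := ↑((Finset.range (n + 1)).image τ) with hS
  have hScount : S.Countable := Finset.countable_toSet _
  -- derivative off S
  have hder : ∀ t ∈ Ioo a b \ S, HasDerivAt γ (deriv γ t) t := by
    rintro t ⟨ht, htS⟩
    have hne : ∀ i, i ≤ n → t ≠ τ i := by
      intro i hi he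
      apply htS
      rw [hS, he]
      simp only [Finset.coe_image, Finset.coe_range, Set.mem_image, Set.mem_Iio]
      exact ⟨i, by omega, rfl⟩
    obtain ⟨i, hi, h1, h2⟩ := LB1_piece hτ0 hτ1 (lt_of_le_of_lt ha ht.1) (lt_of_lt_of_le ht.2 hb) hne
    have hcd : ContDiffAt ℝ ∞ γ t := (hsm i hi).contDiffAt (Icc_mem_nhds h1 h2)
    exact (hcd.differentiableAt (by simp)).hasDerivAt
  have hzder : ∀ t ∈ Ioo a b \ S, HasDerivAt (fun s => gsq j (γ s)) (deriv (fun s => gsq j (γ s)) t) t ∧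
      ‖deriv (fun s => gsq j (γ s)) t‖ ≤ 2 * fsSpeed (γ t) (deriv γ t) := by
    intro t ht
    have hh := h t (Ioo_subset_Icc_self ht.1)
    have h1 := LB1_deriv j (hder t ht) hh
    refine ⟨by rw [h1.deriv]; exact h1, ?_⟩
    rw [h1.deriv]
    exact LB1_ptwise j (γ t) (deriv γ t) hh
  have hzcont : ContinuousOn (fun s => gsq j (γ s)) (Icc a b) := by
    have hγc : ContinuousOn γ (Icc a b) := hcont.mono (Icc_subset_Icc ha hb)
    have hco : ContinuousOn (fun s => γ s j) (Icc a b) :=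
      (EuclideanSpace.proj (𝕜 := ℂ) j : C4 →L[ℂ] ℂ).continuous.comp_continuousOn hγc
    refine (hco.norm.pow 2).div (hγc.norm.pow 2) fun s hs => ?_
    have := norm_pos_iff.2 (h s hs)
    positivity
  set z := fun s => gsq j (γ s) with hz
  by_cases htop : ∫⁻ t in Icc a b, ENNReal.ofReal (fsSpeed (γ t) (deriv γ t)) = ⊤
  · rw [htop, ENNReal.mul_top (by norm_num)]
    exact le_top
  -- a.e. bound
  have hae : ∀ᵐ t ∂(volume.restrict (Ioc a b)), ‖deriv z t‖ₑ ≤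
      2 * ENNReal.ofReal (fsSpeed (γ t) (deriv γ t)) := by
    rw [ae_restrict_iff' measurableSet_Ioc]
    have hnull : volume (S ∪ {b}) = 0 := by
      apply Set.Countable.measure_zero
      exact hScount.union (Set.countable_singleton b)
    filter_upwards [measure_eq_zero_iff_ae_notMem.1 hnull] with t ht htI
    have htb : t ≠ b := fun hh => ht (Or.inr hh)
    have htS : t ∉ S := fun hh => ht (Or.inl hh)
    have hb2 := (hzder t ⟨⟨htI.1, lt_of_le_of_ne htI.2 htb⟩, htS⟩).2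
    rw [← ofReal_norm]
    calc ENNReal.ofReal ‖deriv z t‖ ≤ ENNReal.ofReal (2 * fsSpeed (γ t) (deriv γ t)) :=
          ENNReal.ofReal_le_ofReal hb2
      _ = 2 * ENNReal.ofReal (fsSpeed (γ t) (deriv γ t)) := by
          rw [ENNReal.ofReal_mul (by norm_num)]
          norm_num
  have hbound : ∫⁻ t in Ioc a b, ‖deriv z t‖ₑ ≤
      2 * ∫⁻ t in Icc a b, ENNReal.ofReal (fsSpeed (γ t) (deriv γ t)) := by
    calc ∫⁻ t in Ioc a b, ‖deriv z t‖ₑ
        ≤ ∫⁻ t in Ioc a b, 2 * ENNReal.ofReal (fsSpeed (γ t) (deriv γ t)) := lintegral_mono_ae hae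
      _ = 2 * ∫⁻ t in Ioc a b, ENNReal.ofReal (fsSpeed (γ t) (deriv γ t)) :=
          lintegral_const_mul' _ _ (by norm_num)
      _ ≤ _ := by
          gcongr
          exact Ioc_subset_Icc_self
  have hint : IntegrableOn (deriv z) (Ioc a b) volume := by
    refine ⟨(stronglyMeasurable_deriv z).aestronglyMeasurable, ?_⟩
    rw [hasFiniteIntegral_iff_enorm]
    refine lt_of_le_of_lt hbound ?_
    exact ENNReal.mul_lt_top (by norm_num) (lt_top_iff_ne_top.2 htop)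
  have hii : IntervalIntegrable (deriv z) volume a b :=
    (intervalIntegrable_iff_integrableOn_Ioc_of_le hab).2 hint
  have hftc := MeasureTheory.integral_eq_of_hasDerivAt_off_countable_of_le z (deriv z) hab hScount
    hzcont (fun t ht => (hzder t ht).1) hii
  have hzz : gsq j (γ b) - gsq j (γ a) = ∫ t in Ioc a b, deriv z t := by
    rw [← intervalIntegral.integral_of_le hab, hftc]
  rw [← Real.norm_eq_abs, hzz, ofReal_norm]
  exact (enorm_integral_le_lintegral_enorm _).trans hbound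

lemma LB2_eval (ε : ℝ) (d : ℕ) (a : Fin 4 → ℂ) (x : Fin 4 → ℂ) :
    MvPolynomial.eval x (Fa ε d a) = (∑ i ∈ Finset.range (d + 1),
      ((ε ^ (i ^ 2) : ℝ) : ℂ) * x (rr i) ^ i * x 3 ^ (d - i)) + ∑ j, a j * x j ^ d := by
  unfold Fa F0
  rw [map_add, map_sum, map_sum]
  congr 1
  · refine Finset.sum_congr rfl fun i _ => ?_
    rw [map_mul, map_mul, map_pow, map_pow, MvPolynomial.eval_C, MvPolynomial.eval_X,
      MvPolynomial.eval_X]
  · refine Finset.sum_congr rfl fun i _ => ?_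
    rw [map_mul, map_pow, MvPolynomial.eval_C, MvPolynomial.eval_X]

lemma LB2_exp {d i j : ℕ} (hj : j ≤ d) (hi : i ≤ d) (hij : j ≠ i) :
    i ^ 2 + 2 * i * (d - i) + 1 ≤ j ^ 2 + 2 * i * (d - j) := by
  zify [hj, hi]
  have h0 : (i : ℤ) - j ≠ 0 := by omega
  have h : (0 : ℤ) < ((i : ℤ) - j) ^ 2 := by positivity
  nlinarith

lemma LB2_exp2 {d i : ℕ} (hi : i ≤ d) : i ^ 2 + 2 * i * (d - i) ≤ d ^ 2 := by
  zify [hi]
  nlinarith [sq_nonneg ((d : ℤ) - i)]

lemma LB2_term {d i j : ℕ} (hj : j ≤ d) {ε N : ℝ} (hε0 : 0 < ε) (hN : 0 < N) {y z : ℂ}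
    (hy : ‖y‖ ≤ N) (hz : ‖z‖ = ε ^ (2 * i) * N) :
    ‖((ε ^ (j ^ 2) : ℝ) : ℂ) * y ^ j * z ^ (d - j)‖ ≤ ε ^ (j ^ 2 + 2 * i * (d - j)) * N ^ d := by
  rw [norm_mul, norm_mul, Complex.norm_real, Real.norm_of_nonneg (by positivity), norm_pow,
    norm_pow, hz]
  calc ε ^ (j ^ 2) * ‖y‖ ^ j * (ε ^ (2 * i) * N) ^ (d - j) ≤
        ε ^ (j ^ 2) * N ^ j * (ε ^ (2 * i) * N) ^ (d - j) := by gcongr
    _ = ε ^ (j ^ 2 + 2 * i * (d - j)) * N ^ d := by
        rw [mul_pow, ← pow_mul]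
        have : N ^ d = N ^ j * N ^ (d - j) := by rw [← pow_add]; congr 1; omega
        rw [this, pow_add]; ring

lemma LB2_lower {d i : ℕ} (hi : i ≤ d) {ε N : ℝ} (hε0 : 0 < ε) (hN : 0 < N) {y z : ℂ}
    (hy : N / 4 ≤ ‖y‖) (hz : ‖z‖ = ε ^ (2 * i) * N) :
    (1 / 4) ^ d * (ε ^ (i ^ 2 + 2 * i * (d - i)) * N ^ d) ≤
      ‖((ε ^ (i ^ 2) : ℝ) : ℂ) * y ^ i * z ^ (d - i)‖ := by
  rw [norm_mul, norm_mul, Complex.norm_real, Real.norm_of_nonneg (by positivity), norm_pow,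
    norm_pow, hz]
  have h1 : ((1 : ℝ) / 4) ^ d ≤ (1 / 4) ^ i := pow_le_pow_of_le_one (by norm_num) (by norm_num) hi
  calc (1 / 4) ^ d * (ε ^ (i ^ 2 + 2 * i * (d - i)) * N ^ d) ≤
        (1 / 4) ^ i * (ε ^ (i ^ 2 + 2 * i * (d - i)) * N ^ d) :=
          mul_le_mul_of_nonneg_right h1 (by positivity)
    _ = ε ^ (i ^ 2) * (N / 4) ^ i * (ε ^ (2 * i) * N) ^ (d - i) := by
        rw [mul_pow, ← pow_mul]
        have : N ^ d = N ^ i * N ^ (d - i) := by rw [← pow_add]; congr 1; omega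
        rw [this, pow_add, div_pow, div_pow]; ring
    _ ≤ ε ^ (i ^ 2) * ‖y‖ ^ i * (ε ^ (2 * i) * N) ^ (d - i) := by gcongr

lemma LB2_rr (j : ℕ) : rr j ≠ 3 := by
  intro h
  have h1 := congrArg Fin.val h
  have h2 : (rr j).val = j % 3 := rfl
  have h3 : ((3 : Fin 4) : ℕ) = 3 := rfl
  rw [h2, h3] at h1
  omega

/-- TARGET LB2: the walls -/
theorem wall {d : ℕ} (hd : 1 ≤ d) {ε : ℝ} (hε0 : 0 < ε) (hε : ε ≤ (1 / 4) ^ d / (4 * d))
    {a : Fin 4 → ℂ} (ha : ∀ j, ‖a j‖ ≤ (1 / 4) ^ d * ε ^ (d ^ 2) / 16) {i : ℕ}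
    (hid : i ≤ d) {x : Fin 4 → ℂ} {N : ℝ} (hN : 0 < N) (hx : ∀ j, j ≠ 3 → ‖x j‖ ≤ N)
    (h3 : ‖x 3‖ = ε ^ (2 * i) * N) (hr : N / 4 ≤ ‖x (rr i)‖) :
    MvPolynomial.eval x (Fa ε d a) ≠ 0 := by
  have hd' : (1 : ℝ) ≤ d := by exact_mod_cast hd
  have h4d : (0 : ℝ) < 4 * d := by linarith
  have hq1 : ((1 : ℝ) / 4) ^ d ≤ 1 := pow_le_one₀ (by norm_num) (by norm_num)
  have hq0 : (0 : ℝ) < (1 / 4) ^ d := by positivity
  have hεd : ε * (4 * d) ≤ (1 / 4) ^ d := by rwa [le_div_iff₀ h4d] at hε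
  have hε1 : ε ≤ 1 := by nlinarith
  obtain ⟨E, hE⟩ : ∃ E, E = ε ^ (i ^ 2 + 2 * i * (d - i)) * N ^ d := ⟨_, rfl⟩
  have hE0 : 0 < E := by rw [hE]; positivity
  rw [LB2_eval]
  obtain ⟨T, hT⟩ : ∃ T : ℕ → ℂ, T = fun j =>
    ((ε ^ (j ^ 2) : ℝ) : ℂ) * x (rr j) ^ j * x 3 ^ (d - j) := ⟨_, rfl⟩
  have hsum : (∑ i ∈ Finset.range (d + 1),
      ((ε ^ (i ^ 2) : ℝ) : ℂ) * x (rr i) ^ i * x 3 ^ (d - i)) = T i +
      ∑ j ∈ (Finset.range (d + 1)).erase i, T j := by
    rw [Finset.add_sum_erase _ _ (Finset.mem_range.2 (by omega)), hT]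
  rw [hsum]
  have hTi : (1 / 4) ^ d * E ≤ ‖T i‖ := by
    rw [hE, hT]
    exact LB2_lower hid hε0 hN hr h3
  have hrest : ‖∑ j ∈ (Finset.range (d + 1)).erase i, T j‖ ≤ (1 / 4) ^ d * E / 4 := by
    have h1 : ∀ j ∈ (Finset.range (d + 1)).erase i, ‖T j‖ ≤ ε * E := by
      intro j hj
      rw [Finset.mem_erase, Finset.mem_range] at hj
      have hjd : j ≤ d := by omega
      have h2 : ‖T j‖ ≤ ε ^ (j ^ 2 + 2 * i * (d - j)) * N ^ d := by
        rw [hT]
        exact LB2_term hjd hε0 hN (hx _ (LB2_rr j)) h3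
      have h5 : ε ^ (j ^ 2 + 2 * i * (d - j)) ≤ ε ^ (i ^ 2 + 2 * i * (d - i) + 1) :=
        pow_le_pow_of_le_one hε0.le hε1 (LB2_exp hjd hid hj.1)
      calc ‖T j‖ ≤ ε ^ (j ^ 2 + 2 * i * (d - j)) * N ^ d := h2
        _ ≤ ε ^ (i ^ 2 + 2 * i * (d - i) + 1) * N ^ d :=
            mul_le_mul_of_nonneg_right h5 (by positivity)
        _ = ε * E := by rw [hE, pow_succ]; ring
    have h2 := (norm_sum_le _ _).trans (Finset.sum_le_card_nsmul _ _ _ h1)
    rw [Finset.card_erase_of_mem (Finset.mem_range.2 (by omega)), Finset.card_range,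
      Nat.add_sub_cancel, nsmul_eq_mul] at h2
    refine h2.trans ?_
    have h6 := mul_le_mul_of_nonneg_right hεd hE0.le
    have e1 : ε * (4 * d) * E = 4 * ((d : ℝ) * (ε * E)) := by ring
    rw [e1] at h6
    linarith
  have ha' : ‖∑ j, a j * x j ^ d‖ ≤ (1 / 4) ^ d * E / 4 := by
    have h1 : ∀ j ∈ (Finset.univ : Finset (Fin 4)), ‖a j * x j ^ d‖ ≤
        (1 / 4) ^ d * ε ^ (d ^ 2) / 16 * N ^ d := by
      intro j _
      have hxj : ‖x j‖ ≤ N := by
        by_cases hj : j = 3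
        · rw [hj, h3]
          have : ε ^ (2 * i) ≤ 1 := pow_le_one₀ hε0.le hε1
          nlinarith
        · exact hx j hj
      rw [norm_mul, norm_pow]
      exact mul_le_mul (ha j) (pow_le_pow_left₀ (norm_nonneg _) hxj d) (by positivity)
        (by positivity)
    have h2 := (norm_sum_le _ _).trans (Finset.sum_le_card_nsmul _ _ _ h1)
    rw [Finset.card_univ, Fintype.card_fin, nsmul_eq_mul] at h2
    refine h2.trans ?_
    have h5 : ε ^ (d ^ 2) * N ^ d ≤ E := by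
      rw [hE]
      exact mul_le_mul_of_nonneg_right (pow_le_pow_of_le_one hε0.le hε1 (LB2_exp2 hid))
        (by positivity)
    have h6 := mul_le_mul_of_nonneg_left h5 hq0.le
    have e1 : ((4 : ℕ) : ℝ) * ((1 / 4) ^ d * ε ^ (d ^ 2) / 16 * N ^ d) =
      (1 / 4) ^ d * (ε ^ (d ^ 2) * N ^ d) / 4 := by push_cast; ring
    rw [e1]
    linarith
  intro h0
  have h7 : T i = -((∑ j ∈ (Finset.range (d + 1)).erase i, T j) + ∑ j, a j * x j ^ d) := by
    linear_combination h0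
  have h8 : ‖T i‖ ≤ (1 / 4) ^ d * E / 4 + (1 / 4) ^ d * E / 4 := by
    rw [h7, norm_neg]
    exact (norm_add_le _ _).trans (add_le_add hrest ha')
  have h9 : 0 < (1 / 4 : ℝ) ^ d * E := mul_pos hq0 hE0
  linarith

theorem LB3_eval_Fa (ε : ℝ) (d : ℕ) (a x : Fin 4 → ℂ) :
    MvPolynomial.eval x (Fa ε d a) =
      (∑ i ∈ Finset.range (d + 1), (((ε ^ (i ^ 2) : ℝ)) : ℂ) * x (rr i) ^ i * x 3 ^ (d - i)) +
        ∑ j, a j * x j ^ d := by
  simp [Fa, F0]

theorem LB3_rr_ne (i : ℕ) : rr i ≠ 3 := by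
  unfold rr
  intro h
  have := congrArg Fin.val h
  simp at this
  omega

theorem LB3_one_add_ne {z : ℂ} (h : ‖z‖ < 1) : 1 + z ≠ 0 := by
  intro h0
  have : z = -1 := by linear_combination h0
  rw [this] at h
  simp at h

/-- TARGET LB3a: the equation is homogeneous -/
theorem F0_homog (ε : ℝ) (d : ℕ) : (F0 ε d).IsHomogeneous d := by
  unfold F0
  apply MvPolynomial.IsHomogeneous.sum
  intro i hi
  have hid : i ≤ d := by
    have := Finset.mem_range.mp hi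
    omega
  have h := ((MvPolynomial.isHomogeneous_C (Fin 4) (((ε ^ (i ^ 2) : ℝ)) : ℂ)).mul
    ((MvPolynomial.isHomogeneous_X ℂ (rr i)).pow i)).mul
    ((MvPolynomial.isHomogeneous_X ℂ (3 : Fin 4)).pow (d - i))
  have e : 0 + 1 * i + 1 * (d - i) = d := by omega
  rw [e] at h
  exact h

/-- TARGET LB3b: the point `[0:0:0:1]` is not on the surface -/
theorem Fa_pole {d : ℕ} (hd : 1 ≤ d) {ε : ℝ} {a : Fin 4 → ℂ} (ha : ‖a 3‖ < 1) {x : Fin 4 → ℂ}
    (h0 : x 0 = 0) (h1 : x 1 = 0) (h2 : x 2 = 0) (h3 : x 3 ≠ 0) :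
    MvPolynomial.eval x (Fa ε d a) ≠ 0 := by
  rw [LB3_eval_Fa]
  have hd0 : d ≠ 0 := by omega
  have hx : ∀ i, x (rr i) = 0 := by
    intro i
    have : rr i ≠ 3 := LB3_rr_ne i
    generalize rr i = r at this
    fin_cases r
    · exact h0
    · exact h1
    · exact h2
    · exact absurd rfl this
  rw [Finset.sum_eq_single_of_mem 0 (Finset.mem_range.mpr (by omega))]
  · rw [Fin.sum_univ_four, h0, h1, h2]
    have : (((ε ^ (0 ^ 2) : ℝ)) : ℂ) * x (rr 0) ^ 0 * x 3 ^ (d - 0) +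
        (a 0 * 0 ^ d + a 1 * 0 ^ d + a 2 * 0 ^ d + a 3 * x 3 ^ d) = (1 + a 3) * x 3 ^ d := by
      rw [zero_pow hd0]
      simp
      ring
    rw [this]
    exact mul_ne_zero (LB3_one_add_ne ha) (pow_ne_zero _ h3)
  · intro i _ hi
    rw [hx i, zero_pow hi]
    ring

open Polynomial in
/-- the polynomial of the start point -/
noncomputable def LB3_q (ε : ℝ) (d : ℕ) (a1 a3 : ℂ) : Polynomial ℂ :=
  (∑ i ∈ Finset.range (d + 1), Polynomial.C ((((ε ^ (i ^ 2) : ℝ)) : ℂ) *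
    (if i = 0 ∨ i % 3 = 1 then 1 else 0)) * Polynomial.X ^ (d - i)) + Polynomial.C a1 +
    Polynomial.C a3 * Polynomial.X ^ d

theorem LB3_q_coeff (ε : ℝ) (d : ℕ) (a1 a3 : ℂ) (j : ℕ) (hj : j ≤ d) :
    (LB3_q ε d a1 a3).coeff j = (((ε ^ ((d - j) ^ 2) : ℝ)) : ℂ) *
      (if d - j = 0 ∨ (d - j) % 3 = 1 then 1 else 0) + (if j = 0 then a1 else 0) +
      (if j = d then a3 else 0) := by
  unfold LB3_q
  rw [Polynomial.coeff_add, Polynomial.coeff_add, Polynomial.finsetSum_coeff,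
    Polynomial.coeff_C, Polynomial.coeff_C_mul_X_pow]
  congr 2
  rw [Finset.sum_eq_single_of_mem (d - j) (Finset.mem_range.mpr (by omega))]
  · rw [Polynomial.coeff_C_mul_X_pow, if_pos (by omega)]
  · intro i hi hij
    rw [Polynomial.coeff_C_mul_X_pow, if_neg]
    have := Finset.mem_range.mp hi
    omega

theorem LB3_q_natDegree_le (ε : ℝ) (d : ℕ) (a1 a3 : ℂ) : (LB3_q ε d a1 a3).natDegree ≤ d := by
  unfold LB3_q
  apply Polynomial.natDegree_add_le_of_degree_le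
  · apply Polynomial.natDegree_add_le_of_degree_le
    · apply Polynomial.natDegree_sum_le_of_forall_le
      intro i _
      exact (Polynomial.natDegree_C_mul_X_pow_le _ _).trans (Nat.sub_le _ _)
    · rw [Polynomial.natDegree_C]
      exact Nat.zero_le _
  · exact Polynomial.natDegree_C_mul_X_pow_le _ _

theorem LB3_q_eval (ε : ℝ) (d : ℕ) (hd : 1 ≤ d) (a : Fin 4 → ℂ) (X : ℂ) :
    MvPolynomial.eval (![0, 1, 0, X] : Fin 4 → ℂ) (Fa ε d a) = (LB3_q ε d (a 1) (a 3)).eval X := by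
  rw [LB3_eval_Fa]
  unfold LB3_q
  have hd0 : d ≠ 0 := by omega
  rw [Polynomial.eval_add, Polynomial.eval_add, Polynomial.eval_finsetSum, Fin.sum_univ_four]
  simp only [Polynomial.eval_C, Polynomial.eval_mul, Polynomial.eval_pow, Polynomial.eval_X]
  have e0 : (![0, 1, 0, X] : Fin 4 → ℂ) 0 = 0 := rfl
  have e1 : (![0, 1, 0, X] : Fin 4 → ℂ) 1 = 1 := rfl
  have e2 : (![0, 1, 0, X] : Fin 4 → ℂ) 2 = 0 := rfl
  have e3 : (![0, 1, 0, X] : Fin 4 → ℂ) 3 = X := rfl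
  rw [e0, e1, e2, e3, zero_pow hd0, one_pow]
  have hs : ∑ i ∈ Finset.range (d + 1), (((ε ^ (i ^ 2) : ℝ)) : ℂ) *
      (![0, 1, 0, X] : Fin 4 → ℂ) (rr i) ^ i * X ^ (d - i) =
      ∑ i ∈ Finset.range (d + 1), (((ε ^ (i ^ 2) : ℝ)) : ℂ) *
        (if i = 0 ∨ i % 3 = 1 then 1 else 0) * X ^ (d - i) := by
    apply Finset.sum_congr rfl
    intro i _
    congr 2
    by_cases h0 : i = 0
    · subst h0; simp
    · by_cases h1 : i % 3 = 1
      · rw [if_pos (Or.inr h1)]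
        have : rr i = 1 := by unfold rr; ext; simp [h1]
        rw [this, e1, one_pow]
      · rw [if_neg (by tauto)]
        have : rr i = 0 ∨ rr i = 2 := by
          have h3 : i % 3 = 0 ∨ i % 3 = 2 := by omega
          rcases h3 with h3 | h3
          · left; unfold rr; ext; simp [h3]
          · right; unfold rr; ext; simp [h3]
        rcases this with h | h
        · rw [h, e0, zero_pow h0]
        · rw [h, e2, zero_pow h0]
  rw [hs]
  ring

/-- TARGET LB3c: start point -/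
theorem start_point {d : ℕ} (hd : 2 ≤ d) {ε : ℝ} (hε0 : 0 < ε) {a : Fin 4 → ℂ}
    (ha : ‖a 3‖ < 1) :
    ∃ X : ℂ, ε / (2 * d) ≤ ‖X‖ ∧ MvPolynomial.eval (![0, 1, 0, X] : Fin 4 → ℂ) (Fa ε d a) = 0 := by
  by_contra hcon
  push Not at hcon
  set q := LB3_q ε d (a 1) (a 3) with hq
  have hc_d : q.coeff d = 1 + a 3 := by
    rw [hq, LB3_q_coeff ε d _ _ d le_rfl, if_pos (by left; omega), if_neg (by omega), if_pos rfl]
    simp
  have hc_d1 : q.coeff (d - 1) = ε := by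
    rw [hq, LB3_q_coeff ε d _ _ (d - 1) (by omega), if_pos (by right; omega), if_neg (by omega),
      if_neg (by omega)]
    have : d - (d - 1) = 1 := by omega
    rw [this]
    simp
  have hne : 1 + a 3 ≠ 0 := LB3_one_add_ne ha
  have hdeg : q.natDegree = d := by
    apply le_antisymm (LB3_q_natDegree_le _ _ _ _)
    apply Polynomial.le_natDegree_of_ne_zero
    rw [hc_d]
    exact hne
  have hq0 : q ≠ 0 := by
    intro h
    rw [h] at hc_d
    simp at hc_d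
    exact hne hc_d.symm
  have hsp : q.Splits := IsAlgClosed.splits q
  have hcard : q.roots.card = d := by rw [IsAlgClosed.card_roots_eq_natDegree, hdeg]
  have hv := hsp.nextCoeff_eq_neg_sum_roots_mul_leadingCoeff
  have hlc : q.leadingCoeff = 1 + a 3 := by
    rw [Polynomial.leadingCoeff, hdeg, hc_d]
  have hnc : q.nextCoeff = ε := by
    rw [Polynomial.nextCoeff_of_natDegree_pos (by omega), hdeg, hc_d1]
  rw [hnc, hlc] at hv
  have hdpos : (0 : ℝ) < d := by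
    have : 0 < d := by omega
    exact_mod_cast this
  have hroot : ∀ r ∈ q.roots, ‖r‖ < ε / (2 * d) := by
    intro r hr
    by_contra hc
    push Not at hc
    apply hcon r hc
    rw [LB3_q_eval ε d (by omega)]
    exact (Polynomial.mem_roots hq0).mp hr
  have hsum : ‖q.roots.sum‖ < d * (ε / (2 * d)) := by
    have h1 : ∀ s : Multiset ℂ, (∀ r ∈ s, ‖r‖ < ε / (2 * d)) → 0 < s.card →
        ‖s.sum‖ < s.card * (ε / (2 * d)) := by
      intro s
      induction s using Multiset.induction_on with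
      | empty => intro _ h; simp at h
      | cons r s ih =>
        intro hr _
        rw [Multiset.sum_cons, Multiset.card_cons]
        have h2 := hr r (Multiset.mem_cons_self r s)
        push_cast
        rcases Nat.eq_zero_or_pos s.card with h0 | h0
        · rw [Multiset.card_eq_zero] at h0
          subst h0
          simpa using h2
        · have h3 := ih (fun x hx => hr x (Multiset.mem_cons_of_mem hx)) h0
          calc ‖r + s.sum‖ ≤ ‖r‖ + ‖s.sum‖ := norm_add_le _ _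
            _ < ε / (2 * d) + s.card * (ε / (2 * d)) := by linarith
            _ = _ := by ring
    have := h1 q.roots hroot (by rw [hcard]; omega)
    rw [hcard] at this
    exact this
  have hhalf : (d : ℝ) * (ε / (2 * d)) = ε / 2 := by field_simp
  rw [hhalf] at hsum
  have hn : ε = ‖1 + a 3‖ * ‖q.roots.sum‖ := by
    have := congrArg norm hv
    simp only [norm_neg, norm_mul, Complex.norm_real, Real.norm_eq_abs, abs_of_pos hε0] at this
    exact this
  have h2 : ‖1 + a 3‖ < 2 := by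
    calc ‖1 + a 3‖ ≤ ‖(1 : ℂ)‖ + ‖a 3‖ := norm_add_le _ _
      _ < 2 := by rw [norm_one]; linarith
  nlinarith [norm_nonneg (1 + a 3), norm_nonneg q.roots.sum]

theorem LB3_binary (A B : ℂ) (d : ℕ) (hd : 1 ≤ d) :
    ∃ u v : ℂ, (u ≠ 0 ∨ v ≠ 0) ∧ A * u ^ d + B * v ^ d = 0 := by
  by_cases hB : B = 0
  · refine ⟨0, 1, Or.inr one_ne_zero, ?_⟩
    rw [hB, zero_pow (by omega)]
    ring
  · obtain ⟨v, hv⟩ := IsAlgClosed.exists_pow_nat_eq (-A / B) (show 0 < d by omega)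
    refine ⟨1, v, Or.inl one_ne_zero, ?_⟩
    rw [hv]
    field_simp
    ring

/-- TARGET LB3d: end point -/
theorem end_point {d : ℕ} (hd : 1 ≤ d) {ε : ℝ} {a : Fin 4 → ℂ} :
    ∃ y : Fin 4 → ℂ, y ≠ 0 ∧ y 3 = 0 ∧ MvPolynomial.eval y (Fa ε d a) = 0 := by
  have hd0 : d ≠ 0 := by omega
  have hev : ∀ y : Fin 4 → ℂ, y 3 = 0 → MvPolynomial.eval y (Fa ε d a) =
      (((ε ^ (d ^ 2) : ℝ)) : ℂ) * y (rr d) ^ d + (a 0 * y 0 ^ d + a 1 * y 1 ^ d + a 2 * y 2 ^ d) := by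
    intro y hy
    rw [LB3_eval_Fa, hy, Fin.sum_univ_four, hy,
      Finset.sum_eq_single_of_mem d (Finset.mem_range.mpr (by omega))]
    · rw [zero_pow hd0, Nat.sub_self, pow_zero]
      ring
    · intro i hi hid
      have := Finset.mem_range.mp hi
      rw [zero_pow (by omega), mul_zero]
  have h3 : d % 3 = 0 ∨ d % 3 = 1 ∨ d % 3 = 2 := by omega
  rcases h3 with h3 | h3 | h3
  · have hr : rr d = 0 := by unfold rr; ext; simp [h3]
    obtain ⟨u, v, huv, h⟩ := LB3_binary ((((ε ^ (d ^ 2) : ℝ)) : ℂ) + a 0) (a 1) d hd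
    refine ⟨![u, v, 0, 0], ?_, rfl, ?_⟩
    · intro h0
      rcases huv with hu | hv
      · exact hu (congrFun h0 0)
      · exact hv (congrFun h0 1)
    · rw [hev _ rfl, hr]
      show (((ε ^ (d ^ 2) : ℝ)) : ℂ) * u ^ d + (a 0 * u ^ d + a 1 * v ^ d + a 2 * 0 ^ d) = 0
      rw [zero_pow hd0]
      linear_combination h
  · have hr : rr d = 1 := by unfold rr; ext; simp [h3]
    obtain ⟨u, v, huv, h⟩ := LB3_binary ((((ε ^ (d ^ 2) : ℝ)) : ℂ) + a 1) (a 0) d hd
    refine ⟨![v, u, 0, 0], ?_, rfl, ?_⟩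
    · intro h0
      rcases huv with hu | hv
      · exact hu (congrFun h0 1)
      · exact hv (congrFun h0 0)
    · rw [hev _ rfl, hr]
      show (((ε ^ (d ^ 2) : ℝ)) : ℂ) * u ^ d + (a 0 * v ^ d + a 1 * u ^ d + a 2 * 0 ^ d) = 0
      rw [zero_pow hd0]
      linear_combination h
  · have hr : rr d = 2 := by unfold rr; ext; simp [h3]
    obtain ⟨u, v, huv, h⟩ := LB3_binary ((((ε ^ (d ^ 2) : ℝ)) : ℂ) + a 2) (a 0) d hd
    refine ⟨![v, 0, u, 0], ?_, rfl, ?_⟩
    · intro h0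
      rcases huv with hu | hv
      · exact hu (congrFun h0 2)
      · exact hv (congrFun h0 0)
    · rw [hev _ rfl, hr]
      show (((ε ^ (d ^ 2) : ℝ)) : ℂ) * u ^ d + (a 0 * v ^ d + a 1 * 0 ^ d + a 2 * u ^ d) = 0
      rw [zero_pow hd0]
      linear_combination h

theorem J5_scale (n : ℕ) (P : MvPolynomial (Fin 4) ℂ) (hP : P.IsHomogeneous n) (c : ℂ)
    (x : Fin 4 → ℂ) : MvPolynomial.eval (fun i => c * x i) P = c ^ n * MvPolynomial.eval x P := by
  rw [MvPolynomial.eval_eq', MvPolynomial.eval_eq', Finset.mul_sum]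
  apply Finset.sum_congr rfl
  intro e he
  have h1 : ∑ i, e i = n := by
    have h2 := hP (MvPolynomial.mem_support_iff.1 he)
    rw [Finsupp.weight_apply] at h2
    simp only [Pi.one_apply, smul_eq_mul, mul_one] at h2
    rw [← h2, Finsupp.sum_fintype _ _ (fun _ => rfl)]
  have h3 : ∏ i, (c * x i) ^ e i = c ^ n * ∏ i, x i ^ e i := by
    rw [← h1, ← Finset.prod_pow_eq_pow_sum, ← Finset.prod_mul_distrib]
    exact Finset.prod_congr rfl fun i _ => mul_pow _ _ _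
  rw [h3]; ring

/-- restriction to the coordinates in `I` -/
def J5_res (I : Finset (Fin 4)) (y : Fin 4 → ℂ) : Fin 4 → ℂ := fun i => if i ∈ I then y i else 0

theorem J5_diff (I : Finset (Fin 4)) (P : MvPolynomial (Fin 4) ℂ) :
    Differentiable ℝ fun y : Fin 4 → ℂ => MvPolynomial.eval (J5_res I y) P := by
  induction P using MvPolynomial.induction_on with
  | C a => simp
  | add p q hp hq =>
    simp only [map_add]
    exact hp.add hq
  | mul_X p i hp =>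
    simp only [map_mul, MvPolynomial.eval_X]
    apply hp.mul
    unfold J5_res
    by_cases h : i ∈ I
    · simp only [h, if_true]
      fun_prop
    · simp only [h, if_false]
      exact differentiable_const _

/-- the critical map -/
noncomputable def J5_psi (d : ℕ) (G : MvPolynomial (Fin 4) ℂ) (I : Finset (Fin 4)) (y : Fin 4 → ℂ) :
    Fin 4 → ℂ := fun i =>
  if i ∈ I then -(MvPolynomial.eval (J5_res I y) (MvPolynomial.pderiv i G)) * ((d : ℂ) * y i ^ (d - 1))⁻¹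
  else y i

/-- its domain -/
def J5_dom (I : Finset (Fin 4)) : Set (Fin 4 → ℂ) := {y | ∀ i ∈ I, y i ≠ 0}

theorem J5_psi_diff (d : ℕ) (hd : 1 ≤ d) (G : MvPolynomial (Fin 4) ℂ) (I : Finset (Fin 4))
    (y : Fin 4 → ℂ) (hy : y ∈ J5_dom I) : DifferentiableAt ℝ (J5_psi d G I) y := by
  rw [differentiableAt_pi]
  intro i
  unfold J5_psi
  by_cases h : i ∈ I
  · simp only [h, if_true]
    have hd0 : (d : ℂ) ≠ 0 := by
      have : d ≠ 0 := by omega
      exact_mod_cast this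
    have h1 : (d : ℂ) * y i ^ (d - 1) ≠ 0 := mul_ne_zero hd0 (pow_ne_zero _ (hy i h))
    apply DifferentiableAt.mul
    · exact ((J5_diff I _) y).neg
    · refine DifferentiableAt.inv (h := fun x : Fin 4 → ℂ => (d : ℂ) * x i ^ (d - 1)) ?_ h1
      fun_prop
  · simp only [h, if_false]
    fun_prop

theorem J5_psi_const (d : ℕ) (hd : 1 ≤ d) (G : MvPolynomial (Fin 4) ℂ) (hG : G.IsHomogeneous d)
    (I : Finset (Fin 4)) (y : Fin 4 → ℂ) (hy : y ∈ J5_dom I) (t : ℝ) (ht : -1 < t) :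
    J5_psi d G I (y + t • J5_res I y) = J5_psi d G I y := by
  have hc : ((1 + t : ℝ) : ℂ) ≠ 0 := by
    have : (1 + t : ℝ) ≠ 0 := by linarith
    exact_mod_cast this
  have hres : J5_res I (y + t • J5_res I y) = fun i => ((1 + t : ℝ) : ℂ) * J5_res I y i := by
    funext i
    unfold J5_res
    by_cases h : i ∈ I
    · simp [h]; ring
    · simp [h]
  funext i
  unfold J5_psi
  by_cases h : i ∈ I
  · simp only [h, if_true]
    rw [hres, J5_scale (d - 1) _ hG.pderiv]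
    have hyi : (y + t • J5_res I y) i = ((1 + t : ℝ) : ℂ) * y i := by
      simp only [Pi.add_apply, Pi.smul_apply, J5_res, h, if_true, Complex.real_smul]
      push_cast; ring
    rw [hyi, mul_pow]
    have hd0 : (d : ℂ) ≠ 0 := by
      have : d ≠ 0 := by omega
      exact_mod_cast this
    have h2 := hy i h
    have h3 : ((1 + t : ℝ) : ℂ) ^ (d - 1) ≠ 0 := pow_ne_zero _ hc
    have h4 : y i ^ (d - 1) ≠ 0 := pow_ne_zero _ h2
    field_simp
  · simp only [h, if_false]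
    simp [J5_res, h]

theorem J5_null (d : ℕ) (hd : 1 ≤ d) (G : MvPolynomial (Fin 4) ℂ) (hG : G.IsHomogeneous d)
    (I : Finset (Fin 4)) (hI : I.Nonempty) :
    (volume : Measure (Fin 4 → ℂ)) (J5_psi d G I '' J5_dom I) = 0 := by
  apply addHaar_image_eq_zero_of_det_fderivWithin_eq_zero volume
    (f' := fun y => fderiv ℝ (J5_psi d G I) y)
  · intro y hy
    exact (J5_psi_diff d hd G I y hy).hasFDerivAt.hasFDerivWithinAt
  · intro y hy
    have hD := (J5_psi_diff d hd G I y hy).hasFDerivAt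
    have h1 : HasDerivAt (fun t : ℝ => J5_psi d G I (y + t • J5_res I y))
        ((fderiv ℝ (J5_psi d G I) y) (J5_res I y)) 0 := by
      have h2 : HasDerivAt (fun t : ℝ => y + t • J5_res I y) (J5_res I y) 0 := by
        simpa using ((hasDerivAt_id (0:ℝ)).smul_const (J5_res I y)).const_add y
      have h3 : HasFDerivAt (J5_psi d G I) (fderiv ℝ (J5_psi d G I) y) (y + (0:ℝ) • J5_res I y) := by
        simpa using hD
      exact h3.comp_hasDerivAt (0:ℝ) h2
    have h4 : HasDerivAt (fun t : ℝ => J5_psi d G I (y + t • J5_res I y)) 0 0 := by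
      have h5 : (fun t : ℝ => J5_psi d G I (y + t • J5_res I y)) =ᶠ[𝓝 0] fun _ => J5_psi d G I y := by
        filter_upwards [lt_mem_nhds (show (-1:ℝ) < 0 by norm_num)] with t ht
        exact J5_psi_const d hd G hG I y hy t ht
      exact (hasDerivAt_const (0:ℝ) _).congr_of_eventuallyEq h5
    have h6 := h1.unique h4
    obtain ⟨i, hi⟩ := hI
    have h7 : J5_res I y ≠ 0 := by
      intro h0
      have := congrFun h0 i
      simp only [J5_res, hi, if_true, Pi.zero_apply] at this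
      exact hy i hi this
    show LinearMap.det ((fderiv ℝ (J5_psi d G I) y : (Fin 4 → ℂ) →L[ℝ] (Fin 4 → ℂ)) : (Fin 4 → ℂ) →ₗ[ℝ] (Fin 4 → ℂ)) = 0
    rw [LinearMap.det_eq_zero_iff_ker_ne_bot]
    intro hb
    apply h7
    have h8 : J5_res I y ∈ LinearMap.ker ((fderiv ℝ (J5_psi d G I) y : (Fin 4 → ℂ) →L[ℝ] (Fin 4 → ℂ)) : (Fin 4 → ℂ) →ₗ[ℝ] (Fin 4 → ℂ)) := by
      rw [LinearMap.mem_ker]
      exact h6
    rw [hb, Submodule.mem_bot] at h8
    exact h8

/-- TARGET J5: a generic diagonal perturbation of a form is smooth -/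
theorem generic_smooth (d : ℕ) (hd : 1 ≤ d) (G : MvPolynomial (Fin 4) ℂ) (hG : G.IsHomogeneous d) :
    ∀ᵐ a : Fin 4 → ℂ, IsSmoothSurface d
      (G + ∑ i, MvPolynomial.C (a i) * MvPolynomial.X i ^ d) := by
  classical
  have hnull : (volume : Measure (Fin 4 → ℂ))
      (⋃ I : {I : Finset (Fin 4) // I.Nonempty}, J5_psi d G I.1 '' J5_dom I.1) = 0 :=
    measure_iUnion_null fun I => J5_null d hd G hG I.1 I.2
  rw [ae_iff]
  refine measure_mono_null ?_ hnull
  intro a ha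
  have hhom : (G + ∑ i, MvPolynomial.C (a i) * MvPolynomial.X i ^ d).IsHomogeneous d := by
    apply hG.add
    apply MvPolynomial.IsHomogeneous.sum
    intro i _
    exact MvPolynomial.isHomogeneous_C_mul_X_pow _ _ _
  have ha' : ¬ IsSmoothSurface d (G + ∑ i, MvPolynomial.C (a i) * MvPolynomial.X i ^ d) := ha
  rw [IsSmoothSurface] at ha'
  push Not at ha'
  obtain ⟨x, hx, _, hder⟩ := ha' hhom
  have hd0 : (d : ℂ) ≠ 0 := by
    have : d ≠ 0 := by omega
    exact_mod_cast this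
  have hpd : ∀ i, MvPolynomial.eval x (MvPolynomial.pderiv i G) + a i * ((d : ℂ) * x i ^ (d - 1)) = 0 := by
    intro i
    have h1 := hder i
    rw [map_add, map_add, map_sum, map_sum, Finset.sum_eq_single i] at h1
    · rw [Derivation.leibniz, MvPolynomial.pderiv_C, smul_zero, add_zero, Derivation.leibniz_pow,
        MvPolynomial.pderiv_X_self] at h1
      simp only [smul_eq_mul, nsmul_eq_mul, mul_one, map_mul, MvPolynomial.eval_C, map_pow,
        MvPolynomial.eval_X, map_natCast] at h1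
      exact h1
    · intro j _ hj
      rw [Derivation.leibniz, MvPolynomial.pderiv_C, smul_zero, add_zero, Derivation.leibniz_pow,
        MvPolynomial.pderiv_X_of_ne hj]
      simp
    · intro h; exact absurd (Finset.mem_univ i) h
  set I : Finset (Fin 4) := Finset.univ.filter (fun i => x i ≠ 0) with hI
  have hIne : I.Nonempty := by
    by_contra hc
    rw [Finset.not_nonempty_iff_eq_empty] at hc
    apply hx
    funext i
    by_contra h
    have : i ∈ I := Finset.mem_filter.2 ⟨Finset.mem_univ _, h⟩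
    rw [hc] at this
    exact absurd this (Finset.notMem_empty i)
  have hmemI : ∀ i, i ∈ I ↔ x i ≠ 0 := fun i => by simp [hI]
  refine Set.mem_iUnion.2 ⟨⟨I, hIne⟩, ?_⟩
  refine ⟨fun i => if i ∈ I then x i else a i, ?_, ?_⟩
  · intro i hi
    simp only [hi, if_true]
    exact (hmemI i).1 hi
  · have hres : J5_res I (fun i => if i ∈ I then x i else a i) = x := by
      funext i
      unfold J5_res
      by_cases h : i ∈ I
      · simp [h]
      · simp only [h, if_false]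
        by_contra h2
        exact h ((hmemI i).2 (fun h3 => h2 h3.symm))
    funext i
    unfold J5_psi
    by_cases h : i ∈ I
    · simp only [h, if_true]
      rw [hres]
      have h2 : x i ^ (d - 1) ≠ 0 := pow_ne_zero _ ((hmemI i).1 h)
      have h3 := hpd i
      have h4 : -(MvPolynomial.eval x (MvPolynomial.pderiv i G)) = a i * ((d : ℂ) * x i ^ (d - 1)) := by
        linear_combination -h3
      rw [h4, mul_inv_cancel_right₀ (mul_ne_zero hd0 h2)]
    · simp only [h, if_false]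


/-! ### the length of a path -/

/-- the norm of the first three coordinates -/
noncomputable def n3 (x : C4) : ℝ := √(‖x 0‖ ^ 2 + ‖x 1‖ ^ 2 + ‖x 2‖ ^ 2)

lemma n3_sq (x : C4) : n3 x ^ 2 = ‖x 0‖ ^ 2 + ‖x 1‖ ^ 2 + ‖x 2‖ ^ 2 := by
  unfold n3
  rw [Real.sq_sqrt (by positivity)]

lemma n3_nonneg (x : C4) : 0 ≤ n3 x := Real.sqrt_nonneg _

lemma norm_sq_eq_n3 (x : C4) : ‖x‖ ^ 2 = n3 x ^ 2 + ‖x 3‖ ^ 2 := by
  rw [n3_sq, EuclideanSpace.norm_sq_eq, Fin.sum_univ_four]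

lemma coord_le_n3 (x : C4) (j : Fin 4) (hj : j ≠ 3) : ‖x j‖ ≤ n3 x := by
  apply le_of_sq_le_sq _ (n3_nonneg x)
  rw [n3_sq]
  have h0 : 0 ≤ ‖x 0‖ ^ 2 := by positivity
  have h1 : 0 ≤ ‖x 1‖ ^ 2 := by positivity
  have h2 : 0 ≤ ‖x 2‖ ^ 2 := by positivity
  fin_cases j
  · simp; linarith
  · simp; linarith
  · simp; linarith
  · exact absurd rfl hj

lemma n3_pos {F : MvPolynomial (Fin 4) ℂ}
    (hpole : ∀ x : Fin 4 → ℂ, x 0 = 0 → x 1 = 0 → x 2 = 0 → x 3 ≠ 0 → MvPolynomial.eval x F ≠ 0)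
    {x : C4} (hx : x ∈ Cone F) : 0 < n3 x := by
  rcases (n3_nonneg x).lt_or_eq with h | h
  · exact h
  exfalso
  have h2 := n3_sq x
  rw [← h] at h2
  have e0 : ‖x 0‖ ^ 2 = 0 := by
    have h0 : 0 ≤ ‖x 0‖ ^ 2 := by positivity
    have h1 : 0 ≤ ‖x 1‖ ^ 2 := by positivity
    have h2' : 0 ≤ ‖x 2‖ ^ 2 := by positivity
    linarith
  have e1 : ‖x 1‖ ^ 2 = 0 := by
    have h0 : 0 ≤ ‖x 0‖ ^ 2 := by positivity
    have h1 : 0 ≤ ‖x 1‖ ^ 2 := by positivity
    have h2' : 0 ≤ ‖x 2‖ ^ 2 := by positivity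
    linarith
  have e2 : ‖x 2‖ ^ 2 = 0 := by
    have h0 : 0 ≤ ‖x 0‖ ^ 2 := by positivity
    have h1 : 0 ≤ ‖x 1‖ ^ 2 := by positivity
    have h2' : 0 ≤ ‖x 2‖ ^ 2 := by positivity
    linarith
  have f0 : x 0 = 0 := by simpa using e0
  have f1 : x 1 = 0 := by simpa using e1
  have f2 : x 2 = 0 := by simpa using e2
  by_cases f3 : x 3 = 0
  · apply hx.1
    ext i
    fin_cases i
    · simpa using f0
    · simpa using f1
    · simpa using f2
    · simpa using f3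
  · exact hpole (fun i => x i) f0 f1 f2 f3 hx.2

/-- crossing times of the levels -/
lemma crossing {q : ℝ → ℝ} (hq : ContinuousOn q (Icc 0 1)) {δ : ℝ} (hδ0 : 0 < δ) (hδ1 : δ < 1)
    (h0 : δ < q 0) (h1 : q 1 = 0) :
    ∃ T : ℕ → ℝ, Monotone T ∧ (∀ i, T i ∈ Icc (0 : ℝ) 1) ∧ ∀ i, q (T i) = δ ^ (i + 1) := by
  have hstep : ∀ (i : ℕ) (t : ℝ), t ∈ Icc (0 : ℝ) 1 → q t = δ ^ (i + 1) →
      ∃ t' ∈ Icc t 1, q t' = δ ^ (i + 2) := by
    intro i t ht hqt
    have hc : ContinuousOn q (Icc t 1) := hq.mono (Icc_subset_Icc_left ht.1)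
    have := intermediate_value_Icc' ht.2 hc
    have hmem : δ ^ (i + 2) ∈ Icc (q 1) (q t) := by
      rw [h1, hqt]
      refine ⟨by positivity, ?_⟩
      exact pow_le_pow_of_le_one hδ0.le hδ1.le (by omega)
    obtain ⟨t', ht', hq'⟩ := this hmem
    exact ⟨t', ht', hq'⟩
  obtain ⟨t0, ht0, hq0⟩ : ∃ t ∈ Icc (0 : ℝ) 1, q t = δ ^ (0 + 1) := by
    have := intermediate_value_Icc' zero_le_one hq
    have hmem : δ ^ (0 + 1) ∈ Icc (q 1) (q 0) := by
      rw [h1, zero_add, pow_one]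
      exact ⟨hδ0.le, h0.le⟩
    obtain ⟨t, ht, hqt⟩ := this hmem
    exact ⟨t, ht, hqt⟩
  choose! f hf1 hf2 using hstep
  let T : ℕ → ℝ := fun n => Nat.rec t0 (fun i t => f i t) n
  have hT0 : T 0 = t0 := rfl
  have hTs : ∀ i, T (i + 1) = f i (T i) := fun i => rfl
  have hT : ∀ i, T i ∈ Icc (0 : ℝ) 1 ∧ q (T i) = δ ^ (i + 1) := by
    intro i
    induction i with
    | zero => exact ⟨ht0, hq0⟩
    | succ i ih =>
      have h2 := hf1 i (T i) ih.1 ih.2
      rw [hTs]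
      exact ⟨⟨ih.1.1.trans h2.1, h2.2⟩, hf2 i (T i) ih.1 ih.2⟩
  refine ⟨T, monotone_nat_of_le_succ fun i => ?_, fun i => (hT i).1, fun i => (hT i).2⟩
  rw [hTs]
  exact (hf1 i (T i) (hT i).1 (hT i).2).1

lemma rr_three (i : ℕ) (f : Fin 4 → ℝ) : f (rr i) + f (rr (i + 1)) + f (rr (i + 2)) =
    f 0 + f 1 + f 2 := by
  have h : i % 3 = 0 ∨ i % 3 = 1 ∨ i % 3 = 2 := by omega
  rcases h with h | h | h
  · have e0 : rr i = 0 := by
      apply Fin.ext; simp [rr, h]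
    have e1 : rr (i + 1) = 1 := by
      apply Fin.ext; simp [rr]; omega
    have e2 : rr (i + 2) = 2 := by
      apply Fin.ext; simp [rr]; omega
    rw [e0, e1, e2]
  · have e0 : rr i = 1 := by
      apply Fin.ext; simp [rr, h]
    have e1 : rr (i + 1) = 2 := by
      apply Fin.ext; simp [rr]; omega
    have e2 : rr (i + 2) = 0 := by
      apply Fin.ext; simp [rr]; omega
    rw [e0, e1, e2]; ring
  · have e0 : rr i = 2 := by
      apply Fin.ext; simp [rr, h]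
    have e1 : rr (i + 1) = 0 := by
      apply Fin.ext; simp [rr]; omega
    have e2 : rr (i + 2) = 1 := by
      apply Fin.ext; simp [rr]; omega
    rw [e0, e1, e2]; ring

lemma rr_ne_three (i : ℕ) : rr i ≠ 3 := by
  intro h
  have := congrArg Fin.val h
  simp [rr] at this
  omega

lemma asm_sum_le {f : ℝ → ℝ≥0∞} {τ : ℕ → ℝ} (hτ : Monotone τ) (K : ℕ) :
    ∑ k ∈ Finset.range K, ∫⁻ t in Icc (τ k) (τ (k + 1)), f t = ∫⁻ t in Ioc (τ 0) (τ K), f t := by
  induction K with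
  | zero => simp
  | succ K ih =>
    rw [Finset.sum_range_succ, ih]
    rw [← Ioc_union_Ioc_eq_Ioc (hτ (Nat.zero_le K)) (hτ (Nat.le_succ K)),
      lintegral_union measurableSet_Ioc]
    · congr 1
      exact setLIntegral_congr Ioc_ae_eq_Icc.symm
    · rw [Set.disjoint_left]
      intro t h1 h2
      exact absurd h1.2 (not_le.mpr h2.1)

/-- a path from the top sheet to the bottom sheet is long -/
theorem path_long {d : ℕ} (hd : 1 ≤ d) {ε : ℝ} (hε0 : 0 < ε) (hε : ε ≤ (1 / 4) ^ d / (4 * d))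
    {a : Fin 4 → ℂ} (ha : ∀ j, ‖a j‖ ≤ (1 / 4) ^ d * ε ^ (d ^ 2) / 16) {x y : C4}
    (hx : ε ^ 2 * n3 x < ‖x 3‖) (hx3 : 0 < n3 x) (hy : y 3 = 0) {γ : ℝ → C4}
    (hγ : Joins (Fa ε d a) γ x y) :
    ENNReal.ofReal (((d - 1) / 3 : ℕ) * (1 / 8 : ℝ)) ≤ fsLength γ := by
  obtain ⟨hps, hcone, ⟨c, hc, hγ0⟩, ⟨c', hc', hγ1⟩⟩ := hγ
  have hdR : (1 : ℝ) ≤ d := by exact_mod_cast hd
  have hε14 : ε ≤ 1 / 4 := by
    refine hε.trans ?_
    rw [div_le_iff₀ (by positivity)]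
    have h1 : ((1 : ℝ) / 4) ^ d ≤ 1 := pow_le_one₀ (by norm_num) (by norm_num)
    nlinarith
  have hpole : ∀ x : Fin 4 → ℂ, x 0 = 0 → x 1 = 0 → x 2 = 0 → x 3 ≠ 0 →
      MvPolynomial.eval x (Fa ε d a) ≠ 0 := by
    intro x h0 h1 h2 h3
    refine Fa_pole hd ?_ h0 h1 h2 h3
    refine (ha 3).trans_lt ?_
    have h1 : ((1 : ℝ) / 4) ^ d ≤ 1 := pow_le_one₀ (by norm_num) (by norm_num)
    have h2 : ε ^ (d ^ 2) ≤ 1 := pow_le_one₀ hε0.le (by linarith)
    have h3 : 0 ≤ ((1 : ℝ) / 4) ^ d := by positivity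
    have h4 : 0 ≤ ε ^ (d ^ 2) := by positivity
    nlinarith
  have hn3 : ∀ t ∈ Icc (0 : ℝ) 1, 0 < n3 (γ t) := fun t ht => n3_pos hpole (hcone t ht)
  have hcont : ContinuousOn γ (Icc 0 1) := hps.1
  have hco : ∀ i : Fin 4, ContinuousOn (fun t => γ t i) (Icc 0 1) := fun i =>
    (EuclideanSpace.proj (𝕜 := ℂ) i).continuous.comp_continuousOn hcont
  have hn3c : ContinuousOn (fun t => n3 (γ t)) (Icc 0 1) := by
    unfold n3
    exact Real.continuous_sqrt.comp_continuousOn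
      ((((hco 0).norm.pow 2).add ((hco 1).norm.pow 2)).add ((hco 2).norm.pow 2))
  set q : ℝ → ℝ := fun t => ‖γ t 3‖ / n3 (γ t) with hq
  have hqc : ContinuousOn q (Icc 0 1) := (hco 3).norm.div hn3c fun t ht => (hn3 t ht).ne'
  have hn3smul : ∀ (c : ℂ) (x : C4), n3 (c • x) = ‖c‖ * n3 x := by
    intro c x
    have h1 : n3 (c • x) ^ 2 = (‖c‖ * n3 x) ^ 2 := by
      rw [n3_sq, mul_pow, n3_sq]
      simp only [PiLp.smul_apply, smul_eq_mul, norm_mul, mul_pow]
      ring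
    exact (pow_left_inj₀ (n3_nonneg _) (mul_nonneg (norm_nonneg _) (n3_nonneg _)) two_ne_zero).mp h1
  have hq0 : ε ^ 2 < q 0 := by
    simp only [hq]
    rw [hγ0, hn3smul]
    have hcn : 0 < ‖c‖ := norm_pos_iff.mpr hc
    simp only [PiLp.smul_apply, smul_eq_mul, norm_mul]
    rw [mul_div_mul_left _ _ hcn.ne', lt_div_iff₀ hx3]
    exact hx
  have hq1 : q 1 = 0 := by
    simp only [hq]
    rw [hγ1]
    simp [hy]
  have hε2 : ε ^ 2 < 1 := by nlinarith
  obtain ⟨T, hTm, hTI, hTq⟩ := crossing hqc (by positivity : 0 < ε ^ 2) hε2 hq0 hq1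
  -- at the crossing times the path is near a line
  have hnear : ∀ i, i + 1 ≤ d → ‖γ (T i) (rr (i + 1))‖ < n3 (γ (T i)) / 4 := by
    intro i hi
    by_contra hneg
    push Not at hneg
    refine wall hd hε0 hε ha hi (x := fun j => γ (T i) j) (hn3 _ (hTI i))
      (fun j hj => coord_le_n3 _ j hj) ?_ hneg (hcone _ (hTI i)).2
    have := hTq i
    simp only [hq] at this
    rw [div_eq_iff (hn3 _ (hTI i)).ne'] at this
    rw [this, ← pow_mul]
  -- values of gsq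
  have hsum : ∀ i, gsq 0 (γ (T i)) + gsq 1 (γ (T i)) + gsq 2 (γ (T i)) ≥ 16 / 17 := by
    intro i
    have h3 := hn3 _ (hTI i)
    unfold gsq
    rw [← add_div, ← add_div, ← n3_sq, norm_sq_eq_n3]
    have h4 : ‖γ (T i) 3‖ ≤ n3 (γ (T i)) / 4 := by
      have := hTq i
      simp only [hq] at this
      rw [div_eq_iff h3.ne'] at this
      rw [this]
      have h5 : (ε ^ 2) ^ (i + 1) ≤ ε ^ 2 := by
        calc (ε ^ 2) ^ (i + 1) ≤ (ε ^ 2) ^ 1 := pow_le_pow_of_le_one (by positivity) hε2.le (by omega)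
          _ = ε ^ 2 := pow_one _
      have h6 : (ε ^ 2) ^ (i + 1) ≤ 1 / 4 := by nlinarith
      calc (ε ^ 2) ^ (i + 1) * n3 (γ (T i)) ≤ 1 / 4 * n3 (γ (T i)) := by gcongr
        _ = n3 (γ (T i)) / 4 := by ring
    rw [ge_iff_le, div_le_div_iff₀ (by norm_num) (by positivity)]
    have h5 : ‖γ (T i) 3‖ ^ 2 ≤ (n3 (γ (T i)) / 4) ^ 2 := by
      have := norm_nonneg (γ (T i) 3)
      gcongr
    nlinarith
  have hsmall : ∀ i, i + 1 ≤ d → gsq (rr (i + 1)) (γ (T i)) ≤ 1 / 16 := by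
    intro i hi
    have h3 := hn3 _ (hTI i)
    have h4 := hnear i hi
    unfold gsq
    rw [norm_sq_eq_n3, div_le_iff₀ (by positivity)]
    have h5 : ‖γ (T i) (rr (i + 1))‖ ^ 2 ≤ (n3 (γ (T i)) / 4) ^ 2 := by
      have := norm_nonneg (γ (T i) (rr (i + 1)))
      gcongr
    have h6 : 0 ≤ ‖γ (T i) 3‖ ^ 2 := by positivity
    nlinarith
  set f : ℝ → ℝ≥0∞ := fun t => ENNReal.ofReal (fsSpeed (γ t) (deriv γ t)) with hf
  -- three consecutive crossings
  have hthree : ∀ i, i + 3 ≤ d → ENNReal.ofReal (1 / 8) ≤ ∫⁻ t in Icc (T i) (T (i + 2)), f t := by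
    intro i hi
    by_contra hneg
    push Not at hneg
    set Λ : ℝ≥0∞ := ∫⁻ t in Icc (T i) (T (i + 2)), f t with hΛ
    have hvar : ∀ k, i ≤ k → k ≤ i + 2 → ∀ j, gsq j (γ (T i)) ≤ gsq j (γ (T k)) + 1 / 4 := by
      intro k hik hk2 j
      have hb := gsq_bound hps (hTI i).1 (hTm hik) (hTI k).2 (fun t ht =>
        (hcone t ⟨(hTI i).1.trans ht.1, ht.2.trans (hTI k).2⟩).1) j
      have h1 : 2 * ∫⁻ t in Icc (T i) (T k), f t ≤ ENNReal.ofReal (1 / 4) := by
        have h2 : ∫⁻ t in Icc (T i) (T k), f t ≤ ENNReal.ofReal (1 / 8) := by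
          refine le_trans ?_ hneg.le
          exact lintegral_mono_set (Icc_subset_Icc_right (hTm hk2))
        have h3 : ENNReal.ofReal (1 / 4) = 2 * ENNReal.ofReal (1 / 8) := by
          rw [show (2 : ℝ≥0∞) = ENNReal.ofReal 2 by simp, ← ENNReal.ofReal_mul (by norm_num)]
          norm_num
        rw [h3]
        gcongr
      have h4 := (ENNReal.ofReal_le_ofReal_iff (by norm_num)).mp (hb.trans h1)
      have h5 := abs_le.mp h4
      linarith [h5.1]
    have e0 := hsmall i (by omega)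
    have e1 := hsmall (i + 1) (by omega)
    have e2 := hsmall (i + 2) (by omega)
    have v1 := hvar (i + 1) (by omega) (by omega) (rr (i + 1 + 1))
    have v2 := hvar (i + 2) (by omega) (by omega) (rr (i + 2 + 1))
    have hs := hsum i
    have h3 := rr_three (i + 1) (fun j => gsq j (γ (T i)))
    have e3 : rr (i + 2 + 1) = rr (i + 1 + 2) := by congr 1
    rw [e3] at v2 e2
    norm_num at *
    linarith
  -- summation
  set K : ℕ := (d - 1) / 3 with hK
  have hmono : Monotone (fun k : ℕ => T (3 * k)) := fun k l hkl => hTm (by omega)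
  have hsumle := asm_sum_le (f := f) hmono K
  have h3 : ∑ k ∈ Finset.range K, ENNReal.ofReal (1 / 8) ≤
      ∑ k ∈ Finset.range K, ∫⁻ t in Icc (T (3 * k)) (T (3 * (k + 1))), f t := by
    refine Finset.sum_le_sum fun k hk => ?_
    have hk' := Finset.mem_range.mp hk
    refine (hthree (3 * k) (by omega)).trans ?_
    exact lintegral_mono_set (Icc_subset_Icc_right (hTm (by omega)))
  rw [hsumle, Finset.sum_const, Finset.card_range, nsmul_eq_mul] at h3
  rw [ENNReal.ofReal_mul (Nat.cast_nonneg _), ENNReal.ofReal_natCast]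
  refine h3.trans ?_
  unfold fsLength
  refine lintegral_mono_set ?_
  intro s hs
  exact ⟨(hTI _).1.trans hs.1.le, hs.2.trans (hTI _).2⟩

/-- the examples have large diameter -/
theorem DD_lower (d : ℕ) : ENNReal.ofReal (((d : ℝ) - 3) / 24) ≤ DD d := by
  by_cases hd4 : d < 4
  · rw [ENNReal.ofReal_eq_zero.mpr]
    · exact zero_le
    · have : (d : ℝ) ≤ 3 := by exact_mod_cast (by omega : d ≤ 3)
      have h2 : ((d : ℝ) - 3) / 24 ≤ 0 := by
        apply div_nonpos_of_nonpos_of_nonneg <;> linarith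
      exact h2
  push Not at hd4
  have hd : 1 ≤ d := by omega
  have hdR : (4 : ℝ) ≤ d := by exact_mod_cast hd4
  set ε : ℝ := (1 / 4) ^ d / (4 * d) with hε
  have hε0 : 0 < ε := by positivity
  set α : ℝ := (1 / 4) ^ d * ε ^ (d ^ 2) / 16 with hα
  have hα0 : 0 < α := by positivity
  -- generic coefficients
  obtain ⟨a, haU, ha⟩ : ∃ a : Fin 4 → ℂ, (∀ i, ‖a i‖ < α) ∧ IsSmoothSurface d (Fa ε d a) := by
    have hdense := MeasureTheory.Measure.dense_of_ae (generic_smooth d hd (F0 ε d) (F0_homog ε d))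
    have hopen : IsOpen {a : Fin 4 → ℂ | ∀ i, ‖a i‖ < α} := by
      have : {a : Fin 4 → ℂ | ∀ i, ‖a i‖ < α} = ⋂ i, {a : Fin 4 → ℂ | ‖a i‖ < α} := by
        ext a
        simp
      rw [this]
      exact isOpen_iInter_of_finite fun i =>
        isOpen_lt (continuous_apply i).norm continuous_const
    obtain ⟨a, ha1, ha2⟩ := hdense.exists_mem_open hopen ⟨0, by simpa using hα0⟩
    exact ⟨a, ha2, ha1⟩
  have haj : ∀ j, ‖a j‖ ≤ (1 / 4) ^ d * ε ^ (d ^ 2) / 16 := fun j => (haU j).le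
  have h14 : ((1 : ℝ) / 4) ^ d ≤ 1 / 4 := by
    calc ((1 : ℝ) / 4) ^ d ≤ (1 / 4) ^ 1 := pow_le_pow_of_le_one (by norm_num) (by norm_num) hd
      _ = 1 / 4 := pow_one _
  have hε1 : ε < 1 / (2 * d) := by
    rw [hε, div_lt_div_iff₀ (by positivity) (by positivity)]
    nlinarith
  have hε14 : ε ≤ 1 / 4 := by
    refine hε1.le.trans ?_
    rw [div_le_div_iff₀ (by positivity) (by positivity)]
    linarith
  have ha3 : ‖a 3‖ < 1 := by
    refine (haU 3).trans_le ?_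
    have h2 : ε ^ (d ^ 2) ≤ 1 := pow_le_one₀ hε0.le (by linarith)
    have h3 : 0 ≤ ((1 : ℝ) / 4) ^ d := by positivity
    have h4 : 0 ≤ ε ^ (d ^ 2) := by positivity
    rw [hα]
    nlinarith
  obtain ⟨X, hX, hroot⟩ := start_point (d := d) (by omega) hε0 ha3
  obtain ⟨y, hy0, hy3, hy⟩ := end_point (d := d) hd (ε := ε) (a := a)
  set x' : C4 := WithLp.toLp 2 (![0, 1, 0, X] : Fin 4 → ℂ) with hx'
  set y' : C4 := WithLp.toLp 2 y with hy'
  have hxC : x' ∈ Cone (Fa ε d a) := by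
    refine ⟨?_, hroot⟩
    intro h0
    have := congrArg (fun v : C4 => v 1) h0
    simp [hx'] at this
  have hyC : y' ∈ Cone (Fa ε d a) := by
    refine ⟨?_, hy⟩
    intro h0
    apply hy0
    funext i
    have := congrArg (fun v : C4 => v i) h0
    simpa [hy'] using this
  have hn3x : n3 x' = 1 := by
    unfold n3
    simp [hx']
  have hxx : ε ^ 2 * n3 x' < ‖x' 3‖ := by
    rw [hn3x, mul_one]
    have h1 : x' 3 = X := by simp [hx']
    rw [h1]
    refine lt_of_lt_of_le ?_ hX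
    rw [sq]
    have : ε / (2 * d) = ε * (1 / (2 * d)) := by ring
    rw [this]
    exact mul_lt_mul_of_pos_left hε1 hε0
  have h1 : ENNReal.ofReal (((d - 1) / 3 : ℕ) * (1 / 8 : ℝ)) ≤ fsDist (Fa ε d a) x' y' := by
    unfold fsDist
    refine le_iInf₂ fun γ hγ => ?_
    exact path_long hd hε0 le_rfl haj hxx (by rw [hn3x]; norm_num) hy3 hγ
  have h2 : fsDist (Fa ε d a) x' y' ≤ DD d := by
    unfold DD diamS
    refine le_trans ?_ (le_iSup₂ (f := fun F (_ : IsSmoothSurface d F) =>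
      ⨆ (x ∈ Cone F) (y ∈ Cone F), fsDist F x y) (Fa ε d a) ha)
    refine le_trans ?_ (le_iSup₂ (f := fun x (_ : x ∈ Cone (Fa ε d a)) =>
      ⨆ (y ∈ Cone (Fa ε d a)), fsDist (Fa ε d a) x y) x' hxC)
    exact le_iSup₂ (f := fun y (_ : y ∈ Cone (Fa ε d a)) => fsDist (Fa ε d a) x' y) y' hyC
  refine le_trans ?_ (h1.trans h2)
  apply ENNReal.ofReal_le_ofReal
  have h3 : ((d : ℝ) - 3) / 3 ≤ (((d - 1) / 3 : ℕ) : ℝ) := by
    rw [div_le_iff₀ (by norm_num)]
    have : d ≤ (d - 1) / 3 * 3 + 3 := by omega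
    have h4 : (d : ℝ) ≤ (((d - 1) / 3 : ℕ) : ℝ) * 3 + 3 := by exact_mod_cast this
    linarith
  linarith

end Pool.Agent.Results.MP_a3b544_ag.Growth
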