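import Pool.Agent.MP_a3b544_ag.Defs

set_option autoImplicit false
open MeasureTheory Set Filter
open scoped ENNReal NNReal Topology ContDiff

namespace Pool.Agent.Results.MP_a3b544_ag.Growth

/-! ### general notions for the upper bound -/

/-- `ℂⁿ` -/
abbrev CN (n : ℕ) := EuclideanSpace ℂ (Fin n)

/-- smooth projective hypersurfaces -/
def IsSmoothForm (n d : ℕ) (F : MvPolynomial (Fin n) ℂ) : Prop :=
  F.IsHomogeneous d ∧ ∀ x : Fin n → ℂ, x ≠ 0 → MvPolynomial.eval x F = 0 →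
    ∃ i, MvPolynomial.eval x (MvPolynomial.pderiv i F) ≠ 0

/-- their cones -/
def ConeN {n : ℕ} (F : MvPolynomial (Fin n) ℂ) : Set (CN n) :=
  {x | x ≠ 0 ∧ MvPolynomial.eval (fun i => x i) F = 0}

/-- Fubini-Study speed -/
noncomputable def spd {n : ℕ} (x v : CN n) : ℝ :=
  √(‖x‖ ^ 2 * ‖v‖ ^ 2 - ‖inner ℂ x v‖ ^ 2) / ‖x‖ ^ 2

/-- length of an arc -/
noncomputable def len {n : ℕ} (γ : ℝ → CN n) (a b : ℝ) : ℝ≥0∞ :=
  ∫⁻ t in Icc a b, ENNReal.ofReal (spd (γ t) (deriv γ t))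

/-- `x` and `y` are joined by a smooth arc in `S` of length at most `ℓ` -/
def Arc {n : ℕ} (S : Set (CN n)) (x y : CN n) (ℓ : ℝ≥0∞) : Prop :=
  ∃ γ : ℝ → CN n, ContDiffOn ℝ ∞ γ (Icc 0 1) ∧ (∀ t ∈ Icc (0 : ℝ) 1, γ t ∈ S) ∧
    γ 0 = x ∧ γ 1 = y ∧ len γ 0 1 ≤ ℓ

/-- chains of smooth arcs -/
inductive Chain {n : ℕ} (S : Set (CN n)) : CN n → CN n → ℝ≥0∞ → Prop
  | refl (x : CN n) (hx : x ∈ S) : Chain S x x 0
  | step {x y z : CN n} {ℓ ℓ' : ℝ≥0∞} (h : Chain S x y ℓ) (h' : Arc S y z ℓ') :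
      Chain S x z (ℓ + ℓ')

/-- intrinsic distance -/
noncomputable def rho {n : ℕ} (S : Set (CN n)) (x y : CN n) : ℝ≥0∞ :=
  ⨅ (ℓ : ℝ≥0∞) (_ : Chain S x y ℓ), ℓ

/-! ### plane curves in coordinates -/

/-- the affine part of a plane curve -/
def Zaff (G : MvPolynomial (Fin 3) ℂ) : Set (ℂ × ℂ) :=
  {p | MvPolynomial.eval ![1, p.1, p.2] G = 0}

/-- the affine point as a point of the cone -/
noncomputable def aff1 (p : ℂ × ℂ) : CN 3 := WithLp.toLp 2 ![1, p.1, p.2]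

/-- near `u0` the set `Z` consists of the graphs of `d` holomorphic functions of `u` -/
def Sheets (d : ℕ) (Z : Set (ℂ × ℂ)) (u0 : ℂ) : Prop :=
  ∃ δ > 0, ∃ f : Fin d → ℂ → ℂ, (∀ i, DifferentiableOn ℂ (f i) (Metric.ball u0 δ)) ∧
    (∀ u ∈ Metric.ball u0 δ, Function.Injective (fun i => f i u)) ∧
    ∀ u ∈ Metric.ball u0 δ, ∀ v, (u, v) ∈ Z ↔ ∃ i, v = f i u

/-- `f` is holomorphic on the ball and its graph lies in `Z` -/
def GraphIn (Z : Set (ℂ × ℂ)) (c : ℂ) (δ : ℝ) (f : ℂ → ℂ) : Prop :=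
  0 < δ ∧ DifferentiableOn ℂ f (Metric.ball c δ) ∧ ∀ u ∈ Metric.ball c δ, (u, f u) ∈ Z

/-- `w` is the squared slope of `Z` -/
def IsSlope (Z : Set (ℂ × ℂ)) (w : ℂ × ℂ → ℝ) : Prop :=
  ∀ (c : ℂ) (δ : ℝ) (f : ℂ → ℂ), GraphIn Z c δ f → ∀ u ∈ Metric.ball c δ,
    w (u, f u) = ‖deriv f u‖ ^ 2

/-- `t` is Lipschitz along the graphs in `Z` -/
def LipGraph (Z : Set (ℂ × ℂ)) (t : ℂ × ℂ → ℝ≥0∞) : Prop :=
  ∀ (c : ℂ) (δ : ℝ) (f : ℂ → ℂ), GraphIn Z c δ f → ∀ u ∈ Metric.ball c δ,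
    ∀ u' ∈ Metric.ball c δ, t (u', f u') ≤ t (u, f u) +
      ∫⁻ s in Icc (0 : ℝ) 1,
        ENNReal.ofReal (‖u' - u‖ * (1 + ‖deriv f (u + (s : ℂ) * (u' - u))‖ ^ 2))

/-- sum over the points of `Z` above `u` -/
noncomputable def su (Z : Set (ℂ × ℂ)) (h : ℂ × ℂ → ℝ≥0∞) (u : ℂ) : ℝ≥0∞ :=
  ∑' v : ℂ, Z.indicator h (u, v)

/-- `Z` with the coordinates exchanged -/
def Zsw (Z : Set (ℂ × ℂ)) : Set (ℂ × ℂ) := {p | (p.2, p.1) ∈ Z}

/-- the area (sum of the two projected areas) of the part of `Z` in `E` -/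
noncomputable def area (Z E : Set (ℂ × ℂ)) : ℝ≥0∞ :=
  (∫⁻ u : ℂ, su Z (E.indicator 1) u) + ∫⁻ v : ℂ, su (Zsw Z) ((Zsw E).indicator 1) v

/-- the data needed for the growth of the area: `Z` has `d` sheets over both axes, `w`, `w'` are
its slopes, `t` is Lipschitz -/
structure AreaData (d : ℕ) (Z : Set (ℂ × ℂ)) (w w' : ℂ × ℂ → ℝ) (t : ℂ × ℂ → ℝ≥0∞)
    (Nu Nv : Set ℂ) : Prop where
  closed : IsClosed Z
  cu : Nu.Countable
  cv : Nv.Countable
  shu : ∀ u, u ∉ Nu → Sheets d Z u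
  shv : ∀ v, v ∉ Nv → Sheets d (Zsw Z) v
  slu : IsSlope Z w
  slv : IsSlope (Zsw Z) w'
  lu : LipGraph Z t
  lv : LipGraph (Zsw Z) (fun p => t (p.2, p.1))


/-! ### R1a -/

/-- chains concatenate -/
theorem R1a_concat {n : ℕ} {S : Set (CN n)} {x y z : CN n} {ℓ ℓ' : ℝ≥0∞} (h : Chain S x y ℓ)
    (h' : Chain S y z ℓ') : Chain S x z (ℓ + ℓ') := by
  induction h' with
  | refl hy =>
    rw [add_zero]
    exact h
  | step h1 h2 ih =>
    rw [← add_assoc]
    exact Chain.step ih h2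

/-- an arc is a chain -/
theorem R1a_of_arc {n : ℕ} {S : Set (CN n)} {x y : CN n} {ℓ : ℝ≥0∞} (h : Arc S x y ℓ) :
    Chain S x y ℓ := by
  have hx : x ∈ S := by
    obtain ⟨γ, _, h2, h3, _⟩ := h
    rw [← h3]
    exact h2 0 ⟨le_refl _, zero_le_one⟩
  have h1 := Chain.step (Chain.refl x hx) h
  rwa [zero_add] at h1

theorem R1a_spd_neg {n : ℕ} (x v : CN n) : spd x (-v) = spd x v := by
  unfold spd
  rw [norm_neg, inner_neg_right, norm_neg]

theorem R1a_len_rev {n : ℕ} (γ : ℝ → CN n) : len (fun t => γ (1 - t)) 0 1 = len γ 0 1 := by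
  unfold len
  rw [← lintegral_indicator measurableSet_Icc, ← lintegral_indicator measurableSet_Icc,
    ← lintegral_sub_left_eq_self (μ := (volume : Measure ℝ))
      ((Icc (0 : ℝ) 1).indicator fun t => ENNReal.ofReal (spd (γ t) (deriv γ t))) 1]
  refine lintegral_congr fun t => ?_
  by_cases ht : t ∈ Icc (0 : ℝ) 1
  · have ht' : 1 - t ∈ Icc (0 : ℝ) 1 := ⟨by linarith [ht.2], by linarith [ht.1]⟩
    rw [indicator_of_mem ht, indicator_of_mem ht', deriv_comp_const_sub, R1a_spd_neg]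
  · have ht' : 1 - t ∉ Icc (0 : ℝ) 1 := fun h => ht ⟨by linarith [h.2], by linarith [h.1]⟩
    rw [indicator_of_notMem ht, indicator_of_notMem ht']

/-- an arc can be reversed -/
theorem R1a_arc_symm {n : ℕ} {S : Set (CN n)} {x y : CN n} {ℓ : ℝ≥0∞} (h : Arc S x y ℓ) :
    Arc S y x ℓ := by
  obtain ⟨γ, h1, h2, h3, h4, h5⟩ := h
  have hmaps : MapsTo (fun t : ℝ => 1 - t) (Icc 0 1) (Icc 0 1) := fun t ht =>
    ⟨by linarith [ht.2], by linarith [ht.1]⟩
  refine ⟨fun t => γ (1 - t), ?_, ?_, ?_, ?_, ?_⟩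
  · exact h1.comp (contDiff_const.sub contDiff_id).contDiffOn hmaps
  · intro t ht
    exact h2 _ (hmaps ht)
  · simpa using h4
  · simpa using h3
  · rw [R1a_len_rev]
    exact h5

/-- a chain can be reversed -/
theorem R1a_symm {n : ℕ} {S : Set (CN n)} {x y : CN n} {ℓ : ℝ≥0∞} (h : Chain S x y ℓ) :
    Chain S y x ℓ := by
  induction h with
  | refl hy => exact Chain.refl _ hy
  | step h1 h2 ih =>
    rw [add_comm]
    exact R1a_concat (R1a_of_arc (R1a_arc_symm h2)) ih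

theorem R1a_rho_le {n : ℕ} {S : Set (CN n)} (x y : CN n) : rho S x y ≤ rho S y x :=
  le_iInf₂ fun ℓ h => iInf₂_le ℓ (R1a_symm h)

/-- TARGET R1a -/
theorem rho_self {n : ℕ} {S : Set (CN n)} {x : CN n} (hx : x ∈ S) : rho S x x = 0 :=
  le_antisymm (iInf₂_le 0 (Chain.refl x hx)) zero_le

/-- TARGET R1b -/
theorem rho_symm {n : ℕ} {S : Set (CN n)} (x y : CN n) : rho S x y = rho S y x :=
  le_antisymm (R1a_rho_le x y) (R1a_rho_le y x)

/-- TARGET R1c -/
theorem rho_triangle {n : ℕ} {S : Set (CN n)} (x y z : CN n) :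
    rho S x z ≤ rho S x y + rho S y z := by
  have h : ∀ ℓ, Chain S x y ℓ → ∀ ℓ', Chain S y z ℓ' → rho S x z ≤ ℓ + ℓ' :=
    fun ℓ h1 ℓ' h2 => iInf₂_le (ℓ + ℓ') (R1a_concat h1 h2)
  have h2 : rho S x y + rho S y z
      = ⨅ (ℓ : ℝ≥0∞) (_ : Chain S x y ℓ) (ℓ' : ℝ≥0∞) (_ : Chain S y z ℓ'), (ℓ + ℓ') := by
    unfold rho
    simp_rw [ENNReal.iInf_add, ENNReal.add_iInf]
  rw [h2]
  exact le_iInf fun ℓ => le_iInf fun h1 => le_iInf fun ℓ' => le_iInf fun h3 => h ℓ h1 ℓ' h3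


/-! ### R1b -/

theorem R1b_spd_smul_self {n : ℕ} (x : CN n) (c : ℂ) : spd x (c • x) = 0 := by
  unfold spd
  have h1 : ‖x‖ ^ 2 * ‖c • x‖ ^ 2 - ‖inner ℂ x (c • x)‖ ^ 2 = 0 := by
    rw [inner_smul_right, norm_mul, norm_smul, inner_self_eq_norm_sq_to_K]
    simp only [norm_pow, RCLike.norm_ofReal, abs_norm]
    ring
  rw [h1, Real.sqrt_zero, zero_div]

theorem R1b_spd_smul {n : ℕ} (x v : CN n) {c : ℝ} (hc : 0 ≤ c) : spd x (c • v) = c * spd x v := by
  unfold spd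
  have h1 : ‖x‖ ^ 2 * ‖c • v‖ ^ 2 - ‖inner ℂ x (c • v)‖ ^ 2 =
      c ^ 2 * (‖x‖ ^ 2 * ‖v‖ ^ 2 - ‖inner ℂ x v‖ ^ 2) := by
    have h2 : (c • v : CN n) = ((c : ℂ) • v : CN n) := by
      ext i
      simp
    rw [h2, inner_smul_right, norm_mul, norm_smul, Complex.norm_real, Real.norm_of_nonneg hc]
    ring
  rw [h1, Real.sqrt_mul (sq_nonneg c), Real.sqrt_sq hc, mul_div_assoc]

theorem R1b_rho_le {n : ℕ} {S : Set (CN n)} {x y : CN n} {ℓ : ℝ≥0∞} (h : Chain S x y ℓ) :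
    rho S x y ≤ ℓ := by
  unfold rho
  exact iInf₂_le ℓ h

/-- TARGET R1d: scaling has no cost in a cone -/
theorem rho_smul {n : ℕ} {S : Set (CN n)} (hS : ∀ x ∈ S, ∀ c : ℂ, c ≠ 0 → c • x ∈ S)
    {x : CN n} (hx : x ∈ S) {c : ℂ} (hc : c ≠ 0) : rho S x (c • x) = 0 := by
  set lam := Complex.log c with hlam
  have harc : Arc S x (c • x) 0 := by
    have hcd : ContDiff ℝ ∞ (fun t : ℝ => Complex.exp ((t : ℂ) * lam) • x) := by
      have h1 : ContDiff ℝ ∞ (fun t : ℝ => (t : ℂ) * lam) :=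
        Complex.ofRealCLM.contDiff.mul contDiff_const
      have h2 : ContDiff ℝ ∞ (fun t : ℝ => Complex.exp ((t : ℂ) * lam)) := h1.cexp
      exact h2.smul contDiff_const
    refine ⟨fun t => Complex.exp ((t : ℂ) * lam) • x, hcd.contDiffOn, ?_, ?_, ?_, ?_⟩
    · intro t _
      exact hS x hx _ (Complex.exp_ne_zero _)
    · simp
    · simp only [Complex.ofReal_one, one_mul]
      rw [hlam, Complex.exp_log hc]
    · unfold len
      have h1 : ∀ t : ℝ, ENNReal.ofReal (spd (Complex.exp ((t : ℂ) * lam) • x)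
          (deriv (fun t : ℝ => Complex.exp ((t : ℂ) * lam) • x) t)) = 0 := by
        intro t
        have h2 : HasDerivAt (fun t : ℝ => Complex.exp ((t : ℂ) * lam))
            (Complex.exp ((t : ℂ) * lam) * lam) t := by
          have h3 : HasDerivAt (fun t : ℝ => (t : ℂ) * lam) lam t := by
            simpa using (Complex.ofRealCLM.hasDerivAt (x := t)).mul_const lam
          exact h3.cexp
        have h4 := (h2.smul_const x).deriv
        rw [h4, mul_comm (Complex.exp ((t : ℂ) * lam)) lam, mul_smul, R1b_spd_smul_self,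
          ENNReal.ofReal_zero]
      simp_rw [h1]
      simp
  have h := R1b_rho_le (Chain.step (Chain.refl x hx) harc)
  rw [add_zero] at h
  exact le_antisymm h bot_le

/-- TARGET R1e: a smooth arc, parametrised by any interval -/
theorem rho_le_len {n : ℕ} {S : Set (CN n)} {γ : ℝ → CN n} {a b : ℝ} (hab : a ≤ b)
    (hγ : ContDiffOn ℝ ∞ γ (Icc a b)) (hS : ∀ t ∈ Icc a b, γ t ∈ S) :
    rho S (γ a) (γ b) ≤ len γ a b := by
  rcases hab.eq_or_lt with rfl | hlt
  · exact (R1b_rho_le (Chain.refl _ (hS a ⟨le_rfl, le_rfl⟩))).trans bot_le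
  · have hba : 0 < b - a := sub_pos.mpr hlt
    have hmaps : ∀ t ∈ Icc (0:ℝ) 1, (b - a) * t + a ∈ Icc a b := by
      intro t ht
      constructor
      · nlinarith [ht.1]
      · nlinarith [ht.2]
    have harc : Arc S (γ a) (γ b) (len γ a b) := by
      refine ⟨fun t => γ ((b - a) * t + a), ?_, ?_, ?_, ?_, ?_⟩
      · refine hγ.comp ?_ hmaps
        exact ContDiff.contDiffOn (by fun_prop)
      · intro t ht
        exact hS _ (hmaps t ht)
      · simp
      · simp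
      · apply le_of_eq
        unfold len
        have himg : (fun t : ℝ => (b - a) * t + a) '' Icc 0 1 = Icc a b := by
          rw [Set.image_affine_Icc' hba]
          congr 1 <;> ring
        rw [← himg, MeasureTheory.lintegral_image_eq_lintegral_abs_deriv_mul measurableSet_Icc
          (f' := fun _ => b - a)]
        · refine lintegral_congr fun t => ?_
          have h1 : deriv (fun t : ℝ => γ ((b - a) * t + a)) t =
              (b - a) • deriv γ ((b - a) * t + a) := by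
            have h2 := deriv_comp_mul_left (b - a) (fun y : ℝ => γ (y + a)) t
            rw [h2, deriv_comp_add_const]
          rw [h1, R1b_spd_smul _ _ hba.le, ENNReal.ofReal_mul hba.le, abs_of_pos hba]
        · intro t _
          have : HasDerivAt (fun t : ℝ => (b - a) * t + a) (b - a) t := by
            simpa using ((hasDerivAt_id t).const_mul (b - a)).add_const a
          exact this.hasDerivWithinAt
        · intro s _ t _ hst
          have : (b - a) * s = (b - a) * t := by simpa using hst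
          exact mul_left_cancel₀ hba.ne' this
    have h := R1b_rho_le (Chain.step (Chain.refl _ (hS a ⟨le_rfl, hab⟩)) harc)
    rwa [zero_add] at h


/-! ### R2 -/

/-- speed is homogeneous -/
theorem R2_speed (x v : C4) : fsSpeed x ((2 : ℝ) • v) = 2 * fsSpeed x v := by
  unfold fsSpeed
  have h1 : ((2 : ℝ) • v) = (2 : ℂ) • v := by
    have := Complex.coe_smul (2 : ℝ) v
    rw [← this]; norm_num
  rw [h1, inner_smul_right, norm_smul, norm_mul]
  have h2 : ‖(2 : ℂ)‖ = 2 := by norm_num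
  rw [h2]
  have h3 : ‖x‖ ^ 2 * (2 * ‖v‖) ^ 2 - (2 * ‖inner ℂ x v‖) ^ 2 =
      2 ^ 2 * (‖x‖ ^ 2 * ‖v‖ ^ 2 - ‖inner ℂ x v‖ ^ 2) := by ring
  rw [h3, Real.sqrt_mul (by norm_num), Real.sqrt_sq (by norm_num)]
  ring

theorem R2_speed0 (x : C4) : fsSpeed x 0 = 0 := by
  unfold fsSpeed
  simp

/-- joining with exact ends -/
def R2_J (F : MvPolynomial (Fin 4) ℂ) (γ : ℝ → C4) (x y : C4) (ℓ : ℝ≥0∞) : Prop :=
  PiecewiseSmooth γ ∧ (∀ t ∈ Icc (0 : ℝ) 1, γ t ∈ Cone F) ∧ γ 0 = x ∧ γ 1 = y ∧ fsLength γ ≤ ℓ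

theorem R2_refl (F : MvPolynomial (Fin 4) ℂ) (x : C4) (hx : x ∈ Cone F) :
    R2_J F (fun _ => x) x x 0 := by
  refine ⟨⟨continuousOn_const, 1, fun i => min (i : ℝ) 1, ?_, by simp, by simp, ?_⟩,
    fun _ _ => hx, rfl, rfl, ?_⟩
  · intro i j hij
    have : (i : ℝ) ≤ j := by exact_mod_cast hij
    exact min_le_min this le_rfl
  · intro i _
    exact contDiffOn_const
  · unfold fsLength
    simp [R2_speed0]

theorem R2_glue (F : MvPolynomial (Fin 4) ℂ) (γ₁ γ₂ : ℝ → C4) (x y z : C4) (ℓ ℓ' : ℝ≥0∞)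
    (h₁ : R2_J F γ₁ x y ℓ) (hs : ContDiffOn ℝ ∞ γ₂ (Icc 0 1))
    (hm : ∀ t ∈ Icc (0 : ℝ) 1, γ₂ t ∈ Cone F) (h0 : γ₂ 0 = y) (h1 : γ₂ 1 = z)
    (hl : fsLength γ₂ ≤ ℓ') : ∃ γ, R2_J F γ x z (ℓ + ℓ') := by
  obtain ⟨⟨hc₁, n, τ, hτm, hτ0, hτn, hτs⟩, hm₁, h₁0, h₁1, hl₁⟩ := h₁
  set γ : ℝ → C4 := fun t => if t ≤ 1 / 2 then γ₁ (2 * t) else γ₂ (2 * t - 1) with hγ
  have e₁ : ∀ t ≤ (1 / 2 : ℝ), γ t = γ₁ (2 * t) := fun t ht => by rw [hγ]; simp only [if_pos ht]
  have e₂ : ∀ t, (1 / 2 : ℝ) ≤ t → γ t = γ₂ (2 * t - 1) := by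
    intro t ht
    rcases eq_or_lt_of_le ht with h | h
    · rw [← h, e₁ _ le_rfl]
      norm_num
      rw [h₁1, h0]
    · rw [hγ]; simp only [if_neg (not_le.2 h)]
  have c₁ : ContinuousOn γ (Icc 0 (1 / 2)) := by
    have h2 : ContinuousOn (fun t : ℝ => γ₁ (2 * t)) (Icc 0 (1 / 2)) := by
      refine hc₁.comp (by fun_prop) ?_
      intro t ht
      exact ⟨by linarith [ht.1], by linarith [ht.2]⟩
    exact h2.congr fun t ht => e₁ t ht.2
  have s₂ : ContDiffOn ℝ ∞ γ (Icc (1 / 2) 1) := by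
    have h2 : ContDiffOn ℝ ∞ (fun t : ℝ => γ₂ (2 * t - 1)) (Icc (1 / 2) 1) := by
      refine hs.comp (by fun_prop) ?_
      intro t ht
      exact ⟨by linarith [ht.1], by linarith [ht.2]⟩
    exact h2.congr fun t ht => e₂ t ht.1
  have hun : Icc (0 : ℝ) 1 = Icc 0 (1 / 2) ∪ Icc (1 / 2) 1 := by
    rw [Icc_union_Icc_eq_Icc] <;> norm_num
  have hcont : ContinuousOn γ (Icc 0 1) := by
    rw [hun]
    exact c₁.union_of_isClosed s₂.continuousOn isClosed_Icc isClosed_Icc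
  refine ⟨γ, ⟨hcont, n + 1, fun i => if i ≤ n then τ i / 2 else 1, ?_, ?_, ?_, ?_⟩, ?_, ?_, ?_, ?_⟩
  · intro i j hij
    simp only
    by_cases hj : j ≤ n
    · rw [if_pos hj, if_pos (hij.trans hj)]
      have := hτm hij
      linarith
    · rw [if_neg hj]
      by_cases hi : i ≤ n
      · rw [if_pos hi]
        have := hτm hi
        rw [hτn] at this
        linarith
      · rw [if_neg hi]
  · simp [hτ0]
  · simp
  · intro i hi
    simp only
    by_cases hin : i < n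
    · rw [if_pos hin.le, if_pos (show i + 1 ≤ n from hin)]
      have hle : τ (i + 1) ≤ 1 := by
        have := hτm (show i + 1 ≤ n from hin)
        rwa [hτn] at this
      have h2 : ContDiffOn ℝ ∞ (fun t : ℝ => γ₁ (2 * t)) (Icc (τ i / 2) (τ (i + 1) / 2)) := by
        refine (hτs i hin).comp (by fun_prop) ?_
        intro t ht
        exact ⟨by linarith [ht.1], by linarith [ht.2]⟩
      exact h2.congr fun t ht => e₁ t (by linarith [ht.2])
    · have hin' : i = n := by omega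
      subst hin'
      rw [if_pos le_rfl, if_neg (by omega), hτn]
      exact s₂
  · intro t ht
    rcases le_total t (1 / 2) with h | h
    · rw [e₁ t h]; exact hm₁ _ ⟨by linarith [ht.1], by linarith⟩
    · rw [e₂ t h]; exact hm _ ⟨by linarith, by linarith [ht.2]⟩
  · rw [e₁ 0 (by norm_num)]; simpa using h₁0
  · rw [e₂ 1 (by norm_num)]; norm_num; exact h1
  · -- length
    have hne : ∀ᵐ t : ℝ, t ≠ 1 / 2 := by
      rw [ae_iff]; simp
    have L1 : ∫⁻ t in Icc (0 : ℝ) (1 / 2), ENNReal.ofReal (fsSpeed (γ t) (deriv γ t)) =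
        fsLength γ₁ := by
      have himg : (fun t : ℝ => 2 * t) '' Icc (0 : ℝ) (1 / 2) = Icc 0 1 := by
        rw [image_mul_left_Icc (by norm_num) (by norm_num)]; norm_num
      unfold fsLength
      rw [← himg, lintegral_image_eq_lintegral_abs_deriv_mul measurableSet_Icc
        (f' := fun _ => (2 : ℝ)) (fun t _ => by
          have := ((hasDerivAt_id t).const_mul (2 : ℝ)).hasDerivWithinAt (s := Icc (0 : ℝ) (1 / 2))
          simpa using this)
        (fun a _ b _ h => by simpa using h)]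
      refine lintegral_congr_ae ?_
      rw [Filter.EventuallyEq, ae_restrict_iff' measurableSet_Icc]
      filter_upwards [hne] with t hne ht
      have hlt : t < 1 / 2 := lt_of_le_of_ne ht.2 hne
      have hev : γ =ᶠ[𝓝 t] fun t => γ₁ (2 * t) := by
        filter_upwards [Iio_mem_nhds hlt] with s hs'
        exact e₁ s (le_of_lt hs')
      rw [hev.deriv_eq, e₁ t ht.2, deriv_comp_mul_left, R2_speed,
        ENNReal.ofReal_mul (by norm_num)]
      norm_num
    have L2 : ∫⁻ t in Icc (1 / 2 : ℝ) 1, ENNReal.ofReal (fsSpeed (γ t) (deriv γ t)) =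
        fsLength γ₂ := by
      have himg : (fun t : ℝ => 2 * t - 1) '' Icc (1 / 2 : ℝ) 1 = Icc 0 1 := by
        ext u
        constructor
        · rintro ⟨t, ht, rfl⟩
          exact ⟨by simp only; linarith [ht.1], by simp only; linarith [ht.2]⟩
        · intro hu
          exact ⟨(u + 1) / 2, ⟨by linarith [hu.1], by linarith [hu.2]⟩, by simp only; ring⟩
      unfold fsLength
      rw [← himg, lintegral_image_eq_lintegral_abs_deriv_mul measurableSet_Icc
        (f' := fun _ => (2 : ℝ)) (fun t _ => by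
          have := (((hasDerivAt_id t).const_mul (2 : ℝ)).sub_const 1).hasDerivWithinAt
            (s := Icc (1 / 2 : ℝ) 1)
          simpa using this)
        (fun a _ b _ h => by simpa using h)]
      refine lintegral_congr_ae ?_
      rw [Filter.EventuallyEq, ae_restrict_iff' measurableSet_Icc]
      filter_upwards [hne] with t hne ht
      have hlt : 1 / 2 < t := lt_of_le_of_ne ht.1 (Ne.symm hne)
      have hev : γ =ᶠ[𝓝 t] fun t => γ₂ (2 * t - 1) := by
        filter_upwards [Ioi_mem_nhds hlt] with s hs'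
        exact e₂ s (le_of_lt hs')
      have hd : deriv (fun t : ℝ => γ₂ (2 * t - 1)) t = (2 : ℝ) • deriv γ₂ (2 * t - 1) := by
        have h3 : deriv (fun t : ℝ => γ₂ (2 * t - 1)) t =
            (2 : ℝ) • deriv (fun u : ℝ => γ₂ (u - 1)) (2 * t) :=
          deriv_comp_mul_left (2 : ℝ) (fun u : ℝ => γ₂ (u - 1)) t
        rw [h3, deriv_comp_sub_const]
      rw [hev.deriv_eq, e₂ t ht.1, hd, R2_speed, ENNReal.ofReal_mul (by norm_num)]
      norm_num
    calc fsLength γ = ∫⁻ t in Icc (0 : ℝ) (1 / 2) ∪ Icc (1 / 2) 1,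
          ENNReal.ofReal (fsSpeed (γ t) (deriv γ t)) := by
          rw [← hun]; rfl
      _ ≤ _ := lintegral_union_le _ _ _
      _ = fsLength γ₁ + fsLength γ₂ := by rw [L1, L2]
      _ ≤ ℓ + ℓ' := add_le_add hl₁ hl

theorem R2_chain (F : MvPolynomial (Fin 4) ℂ) {x y : C4} {ℓ : ℝ≥0∞}
    (h : Chain (ConeN F) x y ℓ) : ∃ γ, R2_J F γ x y ℓ := by
  induction h with
  | refl hx => exact ⟨_, R2_refl F _ hx⟩
  | step h h' ih =>
    obtain ⟨γ₁, h₁⟩ := ih
    obtain ⟨γ₂, hs, hm, h0, h1, hl⟩ := h'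
    exact R2_glue F γ₁ γ₂ _ _ _ _ _ h₁ hs hm h0 h1 hl

/-- TARGET R2: chains of smooth arcs give piecewise smooth curves -/
theorem fsDist_le_rho (F : MvPolynomial (Fin 4) ℂ) (x y : C4) :
    fsDist F x y ≤ rho (ConeN F) x y := by
  unfold rho
  refine le_iInf₂ fun ℓ h => ?_
  obtain ⟨γ, hp, hm, h0, h1, hl⟩ := R2_chain F h
  unfold fsDist
  exact iInf₂_le_of_le γ ⟨hp, hm, ⟨1, one_ne_zero, by rw [one_smul]; exact h0⟩,
    ⟨1, one_ne_zero, by rw [one_smul]; exact h1⟩⟩ hl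


/-! ### R3a -/

/-- Squared relative size of a coordinate. -/
noncomputable def R3a_gsq {n : ℕ} (j : Fin n) (x : CN n) : ℝ := ‖x j‖ ^ 2 / ‖x‖ ^ 2

theorem R3a_ptwise {n : ℕ} (j : Fin n) (x v : CN n) (h0 : x ≠ 0) :
    |(2 * (starRingEnd ℂ (x j) * v j).re * ‖x‖ ^ 2 - ‖x j‖ ^ 2 * (2 * (inner ℂ x v).re)) /
      (‖x‖ ^ 2) ^ 2| ≤ 2 * spd x v := by
  have hx : 0 < ‖x‖ := norm_pos_iff.2 h0
  set c : ℂ := inner ℂ x v with hc
  have hxx : inner ℂ x x = ((‖x‖ ^ 2 : ℝ) : ℂ) := by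
    rw [inner_self_eq_norm_sq_to_K]
    norm_cast
  set u : CN n := ((‖x‖ ^ 2 : ℝ) : ℂ) • v - c • x with hu
  have hn : ‖u‖ ^ 2 = ‖x‖ ^ 2 * (‖x‖ ^ 2 * ‖v‖ ^ 2 - ‖c‖ ^ 2) := by
    rw [hu, @norm_sub_sq ℂ, norm_smul, norm_smul, inner_smul_left, inner_smul_right,
      ← inner_conj_symm v x, ← hc]
    simp only [Complex.norm_real, norm_pow, norm_norm, Complex.conj_ofReal]
    have h1 : RCLike.re (((‖x‖ ^ 2 : ℝ) : ℂ) * (c * (starRingEnd ℂ) c)) = ‖x‖ ^ 2 * ‖c‖ ^ 2 := by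
      rw [Complex.mul_conj, Complex.normSq_eq_norm_sq]
      norm_cast
    rw [h1]
    ring
  have hQ0 : 0 ≤ ‖x‖ ^ 2 * ‖v‖ ^ 2 - ‖c‖ ^ 2 := by
    have := norm_inner_le_norm (𝕜 := ℂ) x v
    rw [← hc] at this
    have h2 : ‖c‖ ^ 2 ≤ (‖x‖ * ‖v‖) ^ 2 := by gcongr
    nlinarith
  have hnu : ‖u‖ = ‖x‖ * √(‖x‖ ^ 2 * ‖v‖ ^ 2 - ‖c‖ ^ 2) := by
    have h3 : ‖u‖ = √(‖u‖ ^ 2) := by rw [Real.sqrt_sq (norm_nonneg _)]
    rw [h3, hn, Real.sqrt_mul (by positivity), Real.sqrt_sq hx.le]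
  have huj : ‖u j‖ ≤ ‖u‖ := PiLp.norm_apply_le u j
  have hnum : 2 * (starRingEnd ℂ (x j) * v j).re * ‖x‖ ^ 2 - ‖x j‖ ^ 2 * (2 * c.re) =
      2 * (starRingEnd ℂ (x j) * u j).re := by
    have h4 : u j = ((‖x‖ ^ 2 : ℝ) : ℂ) * v j - c * x j := by simp [hu]
    rw [h4]
    have h5 : ‖x j‖ ^ 2 = (x j).re ^ 2 + (x j).im ^ 2 := by
      rw [Complex.sq_norm, Complex.normSq_apply]
      ring
    rw [h5]
    simp only [Complex.mul_re, Complex.conj_re, Complex.conj_im, Complex.sub_re, Complex.sub_im,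
      Complex.mul_im, Complex.ofReal_re, Complex.ofReal_im]
    ring
  rw [hnum, abs_div, abs_of_pos (show 0 < (‖x‖ ^ 2) ^ 2 by positivity)]
  have h6 : |2 * (starRingEnd ℂ (x j) * u j).re| ≤ 2 * (‖x‖ * (‖x‖ *
      √(‖x‖ ^ 2 * ‖v‖ ^ 2 - ‖c‖ ^ 2))) := by
    rw [abs_mul, abs_two]
    gcongr
    refine (Complex.abs_re_le_norm _).trans ?_
    rw [norm_mul, RCLike.norm_conj]
    have h7 : ‖x j‖ ≤ ‖x‖ := PiLp.norm_apply_le x j
    rw [← hnu]
    gcongr
  unfold spd
  rw [← hc]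
  calc |2 * (starRingEnd ℂ (x j) * u j).re| / (‖x‖ ^ 2) ^ 2
      ≤ (2 * (‖x‖ * (‖x‖ * √(‖x‖ ^ 2 * ‖v‖ ^ 2 - ‖c‖ ^ 2)))) / (‖x‖ ^ 2) ^ 2 := by gcongr
    _ = 2 * (√(‖x‖ ^ 2 * ‖v‖ ^ 2 - ‖c‖ ^ 2) / ‖x‖ ^ 2) := by
        field_simp

theorem R3a_deriv {n : ℕ} (j : Fin n) {γ : ℝ → CN n} {v : CN n} {t : ℝ} (hd : HasDerivAt γ v t)
    (h0 : γ t ≠ 0) :
    HasDerivAt (fun s => R3a_gsq j (γ s))
      ((2 * (starRingEnd ℂ (γ t j) * v j).re * ‖γ t‖ ^ 2 -
        ‖γ t j‖ ^ 2 * (2 * (inner ℂ (γ t) v).re)) / (‖γ t‖ ^ 2) ^ 2) t := by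
  have hc : HasDerivAt (fun s => γ s j) (v j) t := by
    have := (EuclideanSpace.proj (𝕜 := ℂ) j : CN n →L[ℂ] ℂ).restrictScalars ℝ |>.hasFDerivAt
      (x := γ t)
    exact this.comp_hasDerivAt t hd
  have h1 : HasDerivAt (fun s => ‖γ s j‖ ^ 2) (2 * (starRingEnd ℂ (γ t j) * v j).re) t := by
    have := hc.norm_sq
    convert this using 2
    rw [Complex.inner, mul_comm]
  have h2 : HasDerivAt (fun s => ‖γ s‖ ^ 2) (2 * (inner ℂ (γ t) v).re) t := by
    have := hd.norm_sq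
    convert this using 2
    rw [PiLp.inner_apply, PiLp.inner_apply, Complex.re_sum]
    refine Finset.sum_congr rfl fun i _ => ?_
    rw [Complex.inner, RCLike.inner_apply, mul_comm]
  have h3 : ‖γ t‖ ^ 2 ≠ 0 := by
    have := norm_pos_iff.2 h0
    positivity
  exact h1.div h2 h3

/-- the relative size of a coordinate is a Lipschitz function along an arc -/
theorem R3a_arc {n : ℕ} {γ : ℝ → CN n} (hγ : ContDiffOn ℝ ∞ γ (Icc 0 1))
    (h : ∀ t ∈ Icc (0 : ℝ) 1, γ t ≠ 0) (j : Fin n) :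
    ENNReal.ofReal |R3a_gsq j (γ 1) - R3a_gsq j (γ 0)| ≤ 2 * len γ 0 1 := by
  have hcont : ContinuousOn γ (Icc 0 1) := hγ.continuousOn
  have hder : ∀ t ∈ Ioo (0 : ℝ) 1, HasDerivAt γ (deriv γ t) t := by
    intro t ht
    have hcd : ContDiffAt ℝ ∞ γ t := hγ.contDiffAt (Icc_mem_nhds ht.1 ht.2)
    exact (hcd.differentiableAt (by simp)).hasDerivAt
  have hzder : ∀ t ∈ Ioo (0 : ℝ) 1,
      HasDerivAt (fun s => R3a_gsq j (γ s)) (deriv (fun s => R3a_gsq j (γ s)) t) t ∧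
      ‖deriv (fun s => R3a_gsq j (γ s)) t‖ ≤ 2 * spd (γ t) (deriv γ t) := by
    intro t ht
    have hh := h t (Ioo_subset_Icc_self ht)
    have h1 := R3a_deriv j (hder t ht) hh
    refine ⟨by rw [h1.deriv]; exact h1, ?_⟩
    rw [h1.deriv]
    exact R3a_ptwise j (γ t) (deriv γ t) hh
  have hzcont : ContinuousOn (fun s => R3a_gsq j (γ s)) (Icc 0 1) := by
    have hco : ContinuousOn (fun s => γ s j) (Icc 0 1) :=
      (EuclideanSpace.proj (𝕜 := ℂ) j : CN n →L[ℂ] ℂ).continuous.comp_continuousOn hcont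
    refine (hco.norm.pow 2).div (hcont.norm.pow 2) fun s hs => ?_
    have := norm_pos_iff.2 (h s hs)
    positivity
  unfold len
  set z := fun s => R3a_gsq j (γ s) with hz
  by_cases htop : ∫⁻ t in Icc (0 : ℝ) 1, ENNReal.ofReal (spd (γ t) (deriv γ t)) = ⊤
  · rw [htop, ENNReal.mul_top (by norm_num)]
    exact le_top
  -- a.e. bound
  have hae : ∀ᵐ t ∂(volume.restrict (Ioc (0 : ℝ) 1)), ‖deriv z t‖ₑ ≤
      2 * ENNReal.ofReal (spd (γ t) (deriv γ t)) := by
    rw [ae_restrict_iff' measurableSet_Ioc]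
    have hnull : volume ({1} : Set ℝ) = 0 := by simp
    filter_upwards [measure_eq_zero_iff_ae_notMem.1 hnull] with t ht htI
    have htb : t ≠ 1 := fun hh => ht hh
    have hb2 := (hzder t ⟨htI.1, lt_of_le_of_ne htI.2 htb⟩).2
    rw [← ofReal_norm]
    calc ENNReal.ofReal ‖deriv z t‖ ≤ ENNReal.ofReal (2 * spd (γ t) (deriv γ t)) :=
          ENNReal.ofReal_le_ofReal hb2
      _ = 2 * ENNReal.ofReal (spd (γ t) (deriv γ t)) := by
          rw [ENNReal.ofReal_mul (by norm_num)]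
          norm_num
  have hbound : ∫⁻ t in Ioc (0 : ℝ) 1, ‖deriv z t‖ₑ ≤
      2 * ∫⁻ t in Icc (0 : ℝ) 1, ENNReal.ofReal (spd (γ t) (deriv γ t)) := by
    calc ∫⁻ t in Ioc (0 : ℝ) 1, ‖deriv z t‖ₑ
        ≤ ∫⁻ t in Ioc (0 : ℝ) 1, 2 * ENNReal.ofReal (spd (γ t) (deriv γ t)) :=
          lintegral_mono_ae hae
      _ = 2 * ∫⁻ t in Ioc (0 : ℝ) 1, ENNReal.ofReal (spd (γ t) (deriv γ t)) :=
          lintegral_const_mul' _ _ (by norm_num)
      _ ≤ _ := by
          gcongr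
          exact Ioc_subset_Icc_self
  have hint : IntegrableOn (deriv z) (Ioc 0 1) volume := by
    refine ⟨(stronglyMeasurable_deriv z).aestronglyMeasurable, ?_⟩
    rw [hasFiniteIntegral_iff_enorm]
    refine lt_of_le_of_lt hbound ?_
    exact ENNReal.mul_lt_top (by norm_num) (lt_top_iff_ne_top.2 htop)
  have hii : IntervalIntegrable (deriv z) volume 0 1 :=
    (intervalIntegrable_iff_integrableOn_Ioc_of_le zero_le_one).2 hint
  have hftc := MeasureTheory.integral_eq_of_hasDerivAt_off_countable_of_le z (deriv z) zero_le_one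
    Set.countable_empty hzcont (fun t ht => (hzder t ht.1).1) hii
  have hzz : R3a_gsq j (γ 1) - R3a_gsq j (γ 0) = ∫ t in Ioc 0 1, deriv z t := by
    rw [← intervalIntegral.integral_of_le zero_le_one, hftc]
  rw [← Real.norm_eq_abs, hzz, ofReal_norm]
  exact (enorm_integral_le_lintegral_enorm _).trans hbound

theorem R3a_chain {n : ℕ} {S : Set (CN n)} (h0 : (0 : CN n) ∉ S) (j : Fin n) {x y : CN n}
    {ℓ : ℝ≥0∞} (h : Chain S x y ℓ) :
    ENNReal.ofReal |R3a_gsq j x - R3a_gsq j y| ≤ 2 * ℓ := by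
  induction h with
  | refl hx => simp
  | @step y z ℓ ℓ' h h' ih =>
    obtain ⟨γ, hγ, hS, hγ0, hγ1, hlen⟩ := h'
    have h1 := R3a_arc hγ (fun t ht hz0 => h0 (hz0 ▸ hS t ht)) j
    rw [hγ0, hγ1] at h1
    have h2 : |R3a_gsq j x - R3a_gsq j z| ≤ |R3a_gsq j x - R3a_gsq j y| +
        |R3a_gsq j z - R3a_gsq j y| := by
      rw [abs_sub_comm (R3a_gsq j z) (R3a_gsq j y)]
      exact abs_sub_le _ _ _
    calc ENNReal.ofReal |R3a_gsq j x - R3a_gsq j z|
        ≤ ENNReal.ofReal (|R3a_gsq j x - R3a_gsq j y| + |R3a_gsq j z - R3a_gsq j y|) :=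
          ENNReal.ofReal_le_ofReal h2
      _ = ENNReal.ofReal |R3a_gsq j x - R3a_gsq j y| +
          ENNReal.ofReal |R3a_gsq j z - R3a_gsq j y| :=
          ENNReal.ofReal_add (abs_nonneg _) (abs_nonneg _)
      _ ≤ 2 * ℓ + 2 * ℓ' := add_le_add ih (h1.trans (by gcongr))
      _ = 2 * (ℓ + ℓ') := by rw [mul_add]

/-- TARGET R3: the relative size of a coordinate is Lipschitz -/
theorem gsq_rho {n : ℕ} {S : Set (CN n)} (h0 : (0 : CN n) ∉ S) (j : Fin n) (x y : CN n) :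
    ENNReal.ofReal |‖x j‖ ^ 2 / ‖x‖ ^ 2 - ‖y j‖ ^ 2 / ‖y‖ ^ 2| ≤ 2 * rho S x y := by
  unfold rho
  rw [ENNReal.mul_iInf_of_ne (by norm_num) (by norm_num)]
  refine le_iInf fun ℓ => ?_
  rw [ENNReal.mul_iInf_of_ne (by norm_num) (by norm_num)]
  exact le_iInf fun h => R3a_chain h0 j h


/-! ### R3b -/





theorem R3b_chain_mem {n : ℕ} {S : Set (CN n)} {x y : CN n} {ℓ : ℝ≥0∞} (h : Chain S x y ℓ) :
    x ∈ S := by
  induction h with
  | refl hx => exact hx
  | step _ _ ih => exact ih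

theorem R3b_rho_le {n : ℕ} {S : Set (CN n)} {x y : CN n} {ℓ : ℝ≥0∞} (h : Chain S x y ℓ) :
    rho S x y ≤ ℓ := iInf₂_le ℓ h

theorem R3b_cont {n : ℕ} {S : Set (CN n)} {x : CN n} {γ : ℝ → CN n}
    (hγ : ContDiffOn ℝ ∞ γ (Icc 0 1)) (hS : ∀ t ∈ Icc (0 : ℝ) 1, γ t ∈ S)
    (hlen : len γ 0 1 ≠ ⊤) (hfin : ∀ s ∈ Icc (0 : ℝ) 1, rho S x (γ s) ≠ ⊤) :
    ContinuousOn (fun s => rho S x (γ s)) (Icc 0 1) := by
  intro s0 hs0
  have hlim : Tendsto (fun s => ∫⁻ t in Icc (min s s0) (max s s0),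
      ENNReal.ofReal (spd (γ t) (deriv γ t)) ∂(volume.restrict (Icc (0 : ℝ) 1))) (𝓝[Icc 0 1] s0)
      (𝓝 0) := by
    apply tendsto_setLIntegral_zero hlen
    have h1 : Tendsto (fun s : ℝ => ENNReal.ofReal (max s s0 - min s s0)) (𝓝[Icc 0 1] s0)
        (𝓝 0) := by
      have h2 : Continuous (fun s : ℝ => ENNReal.ofReal (max s s0 - min s s0)) :=
        ENNReal.continuous_ofReal.comp
          ((continuous_id.max continuous_const).sub (continuous_id.min continuous_const))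
      have h3 := h2.tendsto s0
      simp only [max_self, min_self, sub_self, ENNReal.ofReal_zero] at h3
      exact h3.mono_left nhdsWithin_le_nhds
    refine tendsto_of_tendsto_of_tendsto_of_le_of_le tendsto_const_nhds h1
      (fun _ => zero_le) (fun s => ?_)
    show volume.restrict (Icc (0 : ℝ) 1) (Icc (min s s0) (max s s0)) ≤ _
    refine (Measure.restrict_apply_le _ _).trans ?_
    rw [Real.volume_Icc]
  have hbd : ∀ s ∈ Icc (0 : ℝ) 1, rho S (γ s) (γ s0) ≤ ∫⁻ t in Icc (min s s0) (max s s0),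
      ENNReal.ofReal (spd (γ t) (deriv γ t)) ∂(volume.restrict (Icc (0 : ℝ) 1)) := by
    intro s hs
    have hsub : Icc (min s s0) (max s s0) ⊆ Icc (0 : ℝ) 1 :=
      Icc_subset_Icc (le_min hs.1 hs0.1) (max_le hs.2 hs0.2)
    rw [Measure.restrict_restrict measurableSet_Icc, inter_eq_left.2 hsub]
    rcases le_total s s0 with h | h
    · have h1 := rho_le_len (S := S) h (hγ.mono (by
        rw [min_eq_left h, max_eq_right h] at hsub; exact hsub)) (fun t ht => hS t (by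
        rw [min_eq_left h, max_eq_right h] at hsub; exact hsub ht))
      rw [min_eq_left h, max_eq_right h]
      exact h1
    · have h1 := rho_le_len (S := S) h (hγ.mono (by
        rw [min_eq_right h, max_eq_left h] at hsub; exact hsub)) (fun t ht => hS t (by
        rw [min_eq_right h, max_eq_left h] at hsub; exact hsub ht))
      rw [min_eq_right h, max_eq_left h, rho_symm]
      exact h1
  rw [ContinuousWithinAt, ENNReal.tendsto_nhds (hfin s0 hs0)]
  intro ε hε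
  have h1 : ∀ᶠ s in 𝓝[Icc 0 1] s0, ∫⁻ t in Icc (min s s0) (max s s0),
      ENNReal.ofReal (spd (γ t) (deriv γ t)) ∂(volume.restrict (Icc (0 : ℝ) 1)) ≤ ε := by
    exact (hlim.eventually_lt_const hε).mono fun _ h => h.le
  filter_upwards [h1, self_mem_nhdsWithin] with s hs hs1
  have h2 := (hbd s hs1).trans hs
  constructor
  · rw [tsub_le_iff_right]
    exact (rho_triangle x (γ s) (γ s0)).trans (by gcongr)
  · refine (rho_triangle x (γ s0) (γ s)).trans ?_
    rw [rho_symm (γ s0)]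
    gcongr

theorem R3b_ivt {n : ℕ} {S : Set (CN n)} {x y : CN n} {ℓ : ℝ≥0∞} (h : Chain S x y ℓ)
    (hℓ : ℓ ≠ ⊤) : ∀ c ≤ rho S x y, ∃ z ∈ S, rho S x z = c := by
  induction h with
  | refl hx =>
    intro c hc
    rw [rho_self hx] at hc
    exact ⟨_, hx, by rw [rho_self hx]; exact (le_antisymm hc zero_le).symm⟩
  | @step y z ℓ ℓ' h h' ih =>
    have hℓ1 : ℓ ≠ ⊤ := fun h0 => hℓ (by rw [h0, top_add])
    have hℓ2 : ℓ' ≠ ⊤ := fun h0 => hℓ (by rw [h0, add_top])
    intro c hc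
    by_cases hcy : c ≤ rho S x y
    · exact ih hℓ1 c hcy
    · obtain ⟨γ, hγ, hS, g0, g1, hlen⟩ := h'
      have hl : len γ 0 1 ≠ ⊤ := ne_top_of_le_ne_top hℓ2 hlen
      have hfin : ∀ s ∈ Icc (0 : ℝ) 1, rho S x (γ s) ≠ ⊤ := by
        intro s hs
        have h1 : rho S y (γ s) ≤ len γ 0 1 := by
          rw [← g0]
          refine (rho_le_len hs.1 (hγ.mono (Icc_subset_Icc_right hs.2))
            (fun t ht => hS t (Icc_subset_Icc_right hs.2 ht))).trans ?_
          exact lintegral_mono_set (Icc_subset_Icc_right hs.2)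
        have h2 := rho_triangle (S := S) x y (γ s)
        refine ne_top_of_le_ne_top ?_ (h2.trans (add_le_add (R3b_rho_le h) h1))
        exact ENNReal.add_ne_top.2 ⟨hℓ1, hl⟩
      have hcont := R3b_cont hγ hS hl hfin
      have hivt := isPreconnected_Icc.intermediate_value (left_mem_Icc.2 zero_le_one)
        (right_mem_Icc.2 zero_le_one) hcont
      have hmem : c ∈ Icc (rho S x (γ 0)) (rho S x (γ 1)) := by
        rw [g0, g1]
        exact ⟨(not_le.1 hcy).le, hc⟩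
      obtain ⟨s, hs, hsc⟩ := hivt hmem
      exact ⟨γ s, hS s hs, hsc⟩

/-- TARGET R3b: points at prescribed distances -/
theorem exists_points {n : ℕ} {S : Set (CN n)} (h0 : (0 : CN n) ∉ S) {x y : CN n}
    (hxy : rho S x y ≠ ⊤) {δ : ℝ≥0} {N : ℕ} (hN : (N : ℝ≥0∞) * δ ≤ rho S x y) :
    ∃ z : ℕ → CN n, ∀ k ≤ N, z k ∈ S ∧ rho S x (z k) = (k : ℝ≥0∞) * δ := by
  have h1 : rho S x y < ⊤ := lt_top_iff_ne_top.2 hxy
  unfold rho at h1
  obtain ⟨ℓ, hℓ⟩ := iInf_lt_iff.1 h1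
  obtain ⟨hc, hℓt⟩ := iInf_lt_iff.1 hℓ
  have h2 : ∀ k : ℕ, ∃ z : CN n, k ≤ N → z ∈ S ∧ rho S x z = (k : ℝ≥0∞) * δ := by
    intro k
    by_cases hk : k ≤ N
    · obtain ⟨z, hz, hz2⟩ := R3b_ivt hc hℓt.ne ((k : ℝ≥0∞) * δ) (le_trans (by gcongr) hN)
      exact ⟨z, fun _ => ⟨hz, hz2⟩⟩
    · exact ⟨0, fun h => absurd h hk⟩
  choose z hz using h2
  exact ⟨z, hz⟩


/-! ### R3c -/

theorem R3c_gram {n : ℕ} (x v : CN n) (a : ℂ) :
    ‖x‖ ^ 2 * ‖v - a • x‖ ^ 2 - (‖x‖ ^ 2 * ‖v‖ ^ 2 - ‖inner ℂ x v‖ ^ 2)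
      = ‖inner ℂ x v - a * (‖x‖ : ℂ) ^ 2‖ ^ 2 := by
  have h1 := @norm_sub_sq ℂ (CN n) _ _ _ v (a • x)
  rw [h1, inner_smul_right, norm_smul, ← inner_conj_symm v x]
  set b := inner ℂ x v with hb
  rw [← Complex.normSq_eq_norm_sq, ← Complex.normSq_eq_norm_sq, mul_pow,
    ← Complex.normSq_eq_norm_sq a]
  have e : (RCLike.re (a * (starRingEnd ℂ) b) : ℝ) = a.re * b.re + a.im * b.im := by
    simp
  rw [e]
  simp only [Complex.normSq_apply, Complex.sub_re, Complex.sub_im, Complex.mul_re, Complex.mul_im,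
    ← Complex.ofReal_pow, Complex.ofReal_re, Complex.ofReal_im]
  ring

theorem R3c_spd {n m : ℕ} (B : CN n →ₗ[ℂ] CN m) {c C : ℝ} (hc : 0 < c) (hC : 0 < C)
    (h1 : ∀ x, c * ‖x‖ ≤ ‖B x‖) (h2 : ∀ x, ‖B x‖ ≤ C * ‖x‖) {x : CN n} (hx : x ≠ 0) (v : CN n) :
    spd (B x) (B v) ≤ (C / c) ^ 2 * spd x v := by
  have hxn : 0 < ‖x‖ := norm_pos_iff.2 hx
  set a : ℂ := inner ℂ x v / (‖x‖ : ℂ) ^ 2 with ha
  have hG := R3c_gram x v a
  have hz : inner ℂ x v - a * (‖x‖ : ℂ) ^ 2 = 0 := by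
    rw [ha, div_mul_cancel₀, sub_self]
    exact pow_ne_zero _ (by exact_mod_cast hxn.ne')
  rw [hz, norm_zero] at hG
  have hG2 := R3c_gram (B x) (B v) a
  have hpos := sq_nonneg ‖inner ℂ (B x) (B v) - a * (‖B x‖ : ℂ) ^ 2‖
  have hBv : B v - a • B x = B (v - a • x) := by rw [map_sub, map_smul]
  rw [hBv] at hG2
  set G := ‖x‖ ^ 2 * ‖v‖ ^ 2 - ‖inner ℂ x v‖ ^ 2 with hGd
  set G' := ‖B x‖ ^ 2 * ‖B v‖ ^ 2 - ‖inner ℂ (B x) (B v)‖ ^ 2 with hGd'
  have hle : G' ≤ (C ^ 2) ^ 2 * G := by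
    have e1 : G' ≤ ‖B x‖ ^ 2 * ‖B (v - a • x)‖ ^ 2 := by linarith
    have e2 : ‖B x‖ ^ 2 * ‖B (v - a • x)‖ ^ 2 ≤ (C * ‖x‖) ^ 2 * (C * ‖v - a • x‖) ^ 2 := by
      gcongr
      · exact h2 x
      · exact h2 _
    have e3 : (C * ‖x‖) ^ 2 * (C * ‖v - a • x‖) ^ 2 = (C ^ 2) ^ 2 * G := by
      have : G = ‖x‖ ^ 2 * ‖v - a • x‖ ^ 2 := by linarith
      rw [this]; ring
    linarith
  have hBx : c * ‖x‖ ≤ ‖B x‖ := h1 x
  have hcx : 0 < c * ‖x‖ := mul_pos hc hxn
  have hs : √G' ≤ C ^ 2 * √G := by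
    calc √G' ≤ √((C ^ 2) ^ 2 * G) := Real.sqrt_le_sqrt hle
      _ = C ^ 2 * √G := by
        rw [Real.sqrt_mul (by positivity), Real.sqrt_sq (by positivity)]
  unfold spd
  rw [← hGd, ← hGd']
  calc √G' / ‖B x‖ ^ 2 ≤ (C ^ 2 * √G) / ‖B x‖ ^ 2 := by gcongr
    _ ≤ (C ^ 2 * √G) / (c * ‖x‖) ^ 2 := by gcongr
    _ = (C / c) ^ 2 * (√G / ‖x‖ ^ 2) := by
      field_simp

theorem R3c_arc {n m : ℕ} {S : Set (CN n)} {S' : Set (CN m)} (h0 : (0 : CN n) ∉ S)
    (B : CN n →ₗ[ℂ] CN m) {c C : ℝ} (hc : 0 < c) (hC : 0 < C)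
    (h1 : ∀ x, c * ‖x‖ ≤ ‖B x‖) (h2 : ∀ x, ‖B x‖ ≤ C * ‖x‖) (hB : ∀ x ∈ S, B x ∈ S')
    {x y : CN n} {l : ℝ≥0∞} (h : Arc S x y l) :
    Arc S' (B x) (B y) (ENNReal.ofReal ((C / c) ^ 2) * l) := by
  obtain ⟨γ, hγ, hS, hx, hy, hl⟩ := h
  let T : CN n →L[ℝ] CN m := (LinearMap.toContinuousLinearMap B).restrictScalars ℝ
  have hT : ∀ z, T z = B z := fun z => rfl
  refine ⟨fun t => B (γ t), ?_, fun t ht => hB _ (hS t ht), by simp only [hx], by simp only [hy], ?_⟩
  · exact T.contDiff.comp_contDiffOn hγ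
  · have hd : ∀ t ∈ Ioo (0 : ℝ) 1, deriv (fun t => B (γ t)) t = B (deriv γ t) := by
      intro t ht
      have hdiff : DifferentiableAt ℝ γ t :=
        ((hγ t (Ioo_subset_Icc_self ht)).contDiffAt (Icc_mem_nhds ht.1 ht.2)).differentiableAt
          (by simp)
      exact (T.hasFDerivAt.comp_hasDerivAt t hdiff.hasDerivAt).deriv
    have hK : ENNReal.ofReal ((C / c) ^ 2) ≠ (⊤ : ℝ≥0∞) := ENNReal.ofReal_ne_top
    calc len (fun t => B (γ t)) 0 1
        = ∫⁻ t in Ioo (0 : ℝ) 1, ENNReal.ofReal (spd (B (γ t)) (deriv (fun t => B (γ t)) t)) := by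
          unfold len
          rw [Measure.restrict_congr_set Ioo_ae_eq_Icc]
      _ ≤ ∫⁻ t in Ioo (0 : ℝ) 1, ENNReal.ofReal ((C / c) ^ 2) *
            ENNReal.ofReal (spd (γ t) (deriv γ t)) := by
          refine setLIntegral_mono' measurableSet_Ioo fun t ht => ?_
          rw [hd t ht, ← ENNReal.ofReal_mul (by positivity)]
          apply ENNReal.ofReal_le_ofReal
          apply R3c_spd B hc hC h1 h2
          intro hzero
          exact h0 (hzero ▸ hS t (Ioo_subset_Icc_self ht))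
      _ = ENNReal.ofReal ((C / c) ^ 2) * ∫⁻ t in Ioo (0 : ℝ) 1,
            ENNReal.ofReal (spd (γ t) (deriv γ t)) := lintegral_const_mul' _ _ hK
      _ = ENNReal.ofReal ((C / c) ^ 2) * len γ 0 1 := by
          unfold len
          rw [Measure.restrict_congr_set Ioo_ae_eq_Icc]
      _ ≤ _ := by gcongr

theorem R3c_chain {n m : ℕ} {S : Set (CN n)} {S' : Set (CN m)} (h0 : (0 : CN n) ∉ S)
    (B : CN n →ₗ[ℂ] CN m) {c C : ℝ} (hc : 0 < c) (hC : 0 < C)
    (h1 : ∀ x, c * ‖x‖ ≤ ‖B x‖) (h2 : ∀ x, ‖B x‖ ≤ C * ‖x‖) (hB : ∀ x ∈ S, B x ∈ S')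
    {x y : CN n} {l : ℝ≥0∞} (h : Chain S x y l) :
    Chain S' (B x) (B y) (ENNReal.ofReal ((C / c) ^ 2) * l) := by
  induction h with
  | refl hx =>
    rw [mul_zero]
    exact Chain.refl _ (hB x hx)
  | step _ h' ih =>
    rw [mul_add]
    exact Chain.step ih (R3c_arc h0 B hc hC h1 h2 hB h')

/-- TARGET R3c: linear maps with bounded distortion -/
theorem rho_map {n m : ℕ} {S : Set (CN n)} {S' : Set (CN m)} (h0 : (0 : CN n) ∉ S)
    (B : CN n →ₗ[ℂ] CN m) {c C : ℝ} (hc : 0 < c) (hC : 0 < C)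
    (h1 : ∀ x, c * ‖x‖ ≤ ‖B x‖) (h2 : ∀ x, ‖B x‖ ≤ C * ‖x‖) (hB : ∀ x ∈ S, B x ∈ S')
    (x y : CN n) :
    rho S' (B x) (B y) ≤ ENNReal.ofReal ((C / c) ^ 2) * rho S x y := by
  have hK : ENNReal.ofReal ((C / c) ^ 2) ≠ (⊤ : ℝ≥0∞) := ENNReal.ofReal_ne_top
  have hK0 : ENNReal.ofReal ((C / c) ^ 2) ≠ 0 := by
    have : 0 < (C / c) ^ 2 := by positivity
    exact (ENNReal.ofReal_pos.2 this).ne'
  unfold rho
  rw [ENNReal.mul_iInf_of_ne hK0 hK]
  refine le_iInf fun l => ?_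
  rw [ENNReal.mul_iInf_of_ne hK0 hK]
  refine le_iInf fun h => ?_
  exact iInf₂_le _ (R3c_chain h0 B hc hC h1 h2 hB h)


/-! ### H1 -/

/-- abstract clipping lemma -/
theorem H1_clip {τ H : ℝ → ℝ≥0∞} {a b : ℝ} (hab : a ≤ b) {K : ℝ≥0}
    (hK : ∀ s ∈ Icc a b, H s ≤ K)
    (hτ : ∀ s ∈ Icc a b, ∀ s' ∈ Icc a b, s ≤ s' → τ s ≤ τ s' + ∫⁻ x in Icc s s', H x) (r : ℝ≥0) :
    (r : ℝ≥0∞) - τ b ≤ (r - τ a) + ∫⁻ x in Icc a b, if τ x < r then H x else 0 := by
  by_cases hb : τ b < r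
  swap
  · rw [tsub_eq_zero_of_le (not_lt.mp hb)]
    exact bot_le
  have hbm : b ∈ Icc a b := ⟨hab, le_rfl⟩
  by_cases hA : ∃ s ∈ Icc a b, (r : ℝ≥0∞) ≤ τ s
  swap
  · push Not at hA
    have h1 : ∫⁻ x in Icc a b, (if τ x < r then H x else 0) = ∫⁻ x in Icc a b, H x := by
      apply setLIntegral_congr_fun measurableSet_Icc
      intro x hx
      show (if τ x < r then H x else 0) = H x
      rw [if_pos (hA x hx)]
    rw [h1]
    calc (r : ℝ≥0∞) - τ b ≤ (r - τ a) + (τ a - τ b) := tsub_le_tsub_add_tsub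
      _ ≤ (r - τ a) + ∫⁻ x in Icc a b, H x := by
        gcongr
        rw [tsub_le_iff_left]
        exact hτ a ⟨le_rfl, hab⟩ b hbm hab
  · set A : Set ℝ := {s | s ∈ Icc a b ∧ (r : ℝ≥0∞) ≤ τ s} with hAdef
    have hne : A.Nonempty := by
      obtain ⟨s, hs, h⟩ := hA
      exact ⟨s, hs, h⟩
    have hbdd : BddAbove A := ⟨b, fun s hs => hs.1.2⟩
    set s' := sSup A with hs'
    have hs'b : s' ≤ b := csSup_le hne (fun s hs => hs.1.2)
    have has' : a ≤ s' := by
      obtain ⟨s, hs⟩ := hne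
      exact hs.1.1.trans (le_csSup hbdd hs)
    have hgt : ∀ x ∈ Ioc s' b, τ x < r := by
      intro x hx
      by_contra h
      have : x ∈ A := ⟨⟨has'.trans hx.1.le, hx.2⟩, not_lt.mp h⟩
      exact absurd (le_csSup hbdd this) (not_le.mpr hx.1)
    have h1 : ∫⁻ x in Ioc s' b, (if τ x < r then H x else 0) = ∫⁻ x in Ioc s' b, H x := by
      apply setLIntegral_congr_fun measurableSet_Ioc
      intro x hx
      show (if τ x < r then H x else 0) = H x
      rw [if_pos (hgt x hx)]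
    have h2 : (r : ℝ≥0∞) - τ b ≤ ∫⁻ x in Ioc s' b, H x := by
      apply ENNReal.le_of_forall_pos_le_add
      intro ε hε _
      have hpos : (0 : ℝ) < ε / (K + 1) := by positivity
      obtain ⟨s, hsA, hs⟩ := exists_lt_of_lt_csSup hne (sub_lt_self s' hpos)
      have hss' : s ≤ s' := le_csSup hbdd hsA
      rw [tsub_le_iff_left]
      have h3 : τ s ≤ τ b + ∫⁻ x in Icc s b, H x := hτ s hsA.1 b hbm hsA.1.2
      have h4 : ∫⁻ x in Icc s b, H x ≤ (∫⁻ x in Ioc s' b, H x) + ε := by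
        have h5 : Icc s b = Icc s s' ∪ Ioc s' b := (Icc_union_Ioc_eq_Icc hss' hs'b).symm
        have h6 : ∫⁻ x in Icc s s', H x ≤ ε := by
          calc ∫⁻ x in Icc s s', H x ≤ ∫⁻ x in Icc s s', (K : ℝ≥0∞) := by
                apply setLIntegral_mono measurable_const
                intro x hx
                exact hK x ⟨hsA.1.1.trans hx.1, hx.2.trans hs'b⟩
            _ = K * volume (Icc s s') := by rw [setLIntegral_const]
            _ = K * ENNReal.ofReal (s' - s) := by rw [Real.volume_Icc]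
            _ ≤ ε := by
              rw [← ENNReal.ofReal_coe_nnreal (p := K), ← ENNReal.ofReal_mul (NNReal.coe_nonneg K),
                ← ENNReal.ofReal_coe_nnreal (p := ε)]
              apply ENNReal.ofReal_le_ofReal
              have h7 : s' - s ≤ ε / (K + 1) := by linarith
              have h8 : (K : ℝ) * (s' - s) ≤ K * (ε / (K + 1)) :=
                mul_le_mul_of_nonneg_left h7 (NNReal.coe_nonneg K)
              have h9 : (K : ℝ) * (ε / (K + 1)) ≤ ε := by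
                rw [mul_div_assoc', div_le_iff₀ (by positivity)]
                have h10 := NNReal.coe_nonneg ε
                have h11 := NNReal.coe_nonneg K
                nlinarith
              exact h8.trans h9
        rw [h5]
        calc ∫⁻ x in Icc s s' ∪ Ioc s' b, H x
            ≤ (∫⁻ x in Icc s s', H x) + ∫⁻ x in Ioc s' b, H x := lintegral_union_le _ _ _
          _ ≤ ε + ∫⁻ x in Ioc s' b, H x := by gcongr
          _ = _ := add_comm _ _
      calc (r : ℝ≥0∞) ≤ τ s := hsA.2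
        _ ≤ τ b + ∫⁻ x in Icc s b, H x := h3
        _ ≤ τ b + ((∫⁻ x in Ioc s' b, H x) + ε) := by gcongr
    calc (r : ℝ≥0∞) - τ b ≤ ∫⁻ x in Ioc s' b, H x := h2
      _ = ∫⁻ x in Ioc s' b, (if τ x < r then H x else 0) := h1.symm
      _ ≤ ∫⁻ x in Icc a b, (if τ x < r then H x else 0) := by
        apply lintegral_mono_set
        intro x hx
        exact ⟨has'.trans hx.1.le, hx.2⟩
      _ ≤ _ := le_add_self

theorem H1_sum_le {ι : Type} (S : Finset ι) (G : ι → ℝ → ℝ≥0∞) (μ : Measure ℝ) :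
    ∑ i ∈ S, ∫⁻ x, G i x ∂μ ≤ ∫⁻ x, ∑ i ∈ S, G i x ∂μ := by
  classical
  induction S using Finset.induction_on with
  | empty => simp
  | insert i S hi ih =>
    rw [Finset.sum_insert hi]
    calc (∫⁻ x, G i x ∂μ) + ∑ i ∈ S, ∫⁻ x, G i x ∂μ
        ≤ (∫⁻ x, G i x ∂μ) + ∫⁻ x, ∑ i ∈ S, G i x ∂μ := by gcongr
      _ ≤ ∫⁻ x, (G i x + ∑ i ∈ S, G i x) ∂μ := le_lintegral_add _ _
      _ = ∫⁻ x, ∑ i ∈ insert i S, G i x ∂μ := by
        congr 1
        funext x
        rw [Finset.sum_insert hi]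

/-- from local to global -/
theorem H1_global {Φ g : ℝ → ℝ≥0∞}
    (hloc : ∀ s : ℝ, ∃ η > 0, ∀ x y : ℝ, s - η < x → x ≤ y → y < s + η →
      Φ y ≤ Φ x + ∫⁻ z in Ioc x y, g z) {a b : ℝ} (hab : a ≤ b) :
    Φ b ≤ Φ a + ∫⁻ z in Ioc a b, g z := by
  have htrans : ∀ x y z : ℝ, x ≤ y → y ≤ z → Φ y ≤ Φ x + (∫⁻ z in Ioc x y, g z) →
      Φ z ≤ Φ y + (∫⁻ z in Ioc y z, g z) → Φ z ≤ Φ x + ∫⁻ z in Ioc x z, g z := by
    intro x y z hxy hyz h1 h2
    have h3 : ∫⁻ w in Ioc x z, g w = (∫⁻ w in Ioc x y, g w) + ∫⁻ w in Ioc y z, g w := by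
      rw [← Ioc_union_Ioc_eq_Ioc hxy hyz]
      apply lintegral_union measurableSet_Ioc
      rw [Set.disjoint_left]
      intro w hw hw'
      exact absurd hw.2 (not_le.mpr hw'.1)
    rw [h3, ← add_assoc]
    exact h2.trans (by gcongr)
  set S : Set ℝ := {x | x ∈ Icc a b ∧ Φ x ≤ Φ a + ∫⁻ z in Ioc a x, g z} with hS
  have haS : a ∈ S := ⟨⟨le_rfl, hab⟩, le_self_add⟩
  have hne : S.Nonempty := ⟨a, haS⟩
  have hbdd : BddAbove S := ⟨b, fun x hx => hx.1.2⟩
  set s := sSup S with hs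
  have hsb : s ≤ b := csSup_le hne (fun x hx => hx.1.2)
  have has : a ≤ s := le_csSup hbdd haS
  obtain ⟨η, hη, hl⟩ := hloc s
  obtain ⟨x, hxS, hx⟩ := exists_lt_of_lt_csSup hne (sub_lt_self s hη)
  have hxs : x ≤ s := le_csSup hbdd hxS
  have h1 : Φ s ≤ Φ a + ∫⁻ z in Ioc a s, g z :=
    htrans a x s hxS.1.1 hxs hxS.2 (hl x s hx hxs (by linarith))
  rcases hsb.lt_or_eq with h | h
  · exfalso
    set y := min b (s + η / 2) with hy
    have hsy : s < y := lt_min h (by linarith)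
    have hyη : y < s + η := (min_le_right _ _).trans_lt (by linarith)
    have h2 := hl s y (by linarith) hsy.le hyη
    have h3 := htrans a s y has hsy.le h1 h2
    have h4 : y ∈ S := ⟨⟨has.trans hsy.le, min_le_left _ _⟩, h3⟩
    exact absurd (le_csSup hbdd h4) (not_le.mpr hsy)
  · rw [h] at h1
    exact h1

/-- change of variables on a segment -/
theorem H1_change {f' : ℂ → ℂ} (u0 e : ℂ) (he : ‖e‖ = 1) {s s' : ℝ} (hss : s ≤ s') :
    ∫⁻ x in Icc (0 : ℝ) 1, ENNReal.ofReal (‖(u0 + s * e) - (u0 + s' * e)‖ *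
      (1 + ‖f' ((u0 + s' * e) + (x : ℂ) * ((u0 + s * e) - (u0 + s' * e)))‖ ^ 2)) ≤
    ∫⁻ x in Icc s s', ENNReal.ofReal (1 + ‖f' (u0 + x * e)‖ ^ 2) := by
  have hn : ‖(u0 + s * e) - (u0 + s' * e)‖ = s' - s := by
    have : (u0 + s * e) - (u0 + s' * e) = ((s - s' : ℝ) : ℂ) * e := by push_cast; ring
    rw [this, norm_mul, he, mul_one, Complex.norm_real, Real.norm_eq_abs, abs_sub_comm,
      abs_of_nonneg (by linarith)]
  rw [hn]
  rcases hss.eq_or_lt with h | h
  · subst h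
    simp
  · have him : (fun x : ℝ => s' - x * (s' - s)) '' Icc (0 : ℝ) 1 = Icc s s' := by
      ext y
      constructor
      · rintro ⟨x, hx, rfl⟩
        have h1 := hx.1
        have h2 := hx.2
        constructor
        · show s ≤ s' - x * (s' - s)
          nlinarith
        · show s' - x * (s' - s) ≤ s'
          nlinarith
      · intro hy
        refine ⟨(s' - y) / (s' - s), ⟨?_, ?_⟩, ?_⟩
        · exact div_nonneg (by linarith [hy.2]) (by linarith)
        · rw [div_le_one (by linarith)]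
          linarith [hy.1]
        · show s' - (s' - y) / (s' - s) * (s' - s) = y
          rw [div_mul_cancel₀ _ (by linarith : s' - s ≠ 0)]
          ring
    have hcv := lintegral_image_eq_lintegral_abs_deriv_mul (s := Icc (0 : ℝ) 1)
      (f := fun x : ℝ => s' - x * (s' - s)) (f' := fun _ => -(s' - s)) measurableSet_Icc
      (fun x _ => by
        have := ((hasDerivAt_id x).mul_const (s' - s)).const_sub s'
        simpa using this.hasDerivWithinAt)
      (fun x _ y _ hxy => by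
        have hxy' : s' - x * (s' - s) = s' - y * (s' - s) := hxy
        have : (x - y) * (s' - s) = 0 := by linarith
        rcases mul_eq_zero.mp this with h3 | h3
        · linarith
        · linarith)
      (fun x => ENNReal.ofReal (1 + ‖f' (u0 + x * e)‖ ^ 2))
    rw [him] at hcv
    rw [hcv]
    apply le_of_eq
    apply setLIntegral_congr_fun measurableSet_Icc
    intro x _
    show ENNReal.ofReal ((s' - s) * (1 + ‖f' ((u0 + s' * e) + (x : ℂ) *
      ((u0 + s * e) - (u0 + s' * e)))‖ ^ 2)) = ENNReal.ofReal |(-(s' - s))| *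
      ENNReal.ofReal (1 + ‖f' (u0 + ((s' - x * (s' - s) : ℝ) : ℂ) * e)‖ ^ 2)
    rw [abs_neg, abs_of_nonneg (by linarith : 0 ≤ s' - s), ← ENNReal.ofReal_mul (by linarith)]
    congr 5
    push_cast
    ring_nf

theorem H1_su {d : ℕ} {Z : Set (ℂ × ℂ)} {f : Fin d → ℂ → ℂ} {u : ℂ}
    (hinj : Function.Injective (fun i => f i u)) (hZ : ∀ v, (u, v) ∈ Z ↔ ∃ i, v = f i u)
    (h : ℂ × ℂ → ℝ≥0∞) : su Z h u = ∑ i, h (u, f i u) := by
  unfold su
  have h1 := hinj.tsum_eq (f := fun v : ℂ => Z.indicator h (u, v)) (by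
    intro v hv
    rw [Function.mem_support] at hv
    have : (u, v) ∈ Z := by
      by_contra hc
      exact hv (Set.indicator_of_notMem hc _)
    obtain ⟨i, hi⟩ := (hZ v).mp this
    exact ⟨i, hi.symm⟩)
  rw [← h1, tsum_fintype]
  apply Finset.sum_congr rfl
  intro i _
  exact Set.indicator_of_mem ((hZ _).mpr ⟨i, rfl⟩) _

/-- TARGET H1: the value of a Lipschitz function is bounded by an integral along a line -/
theorem line_ineq {d : ℕ} {Z : Set (ℂ × ℂ)} {w : ℂ × ℂ → ℝ} {t : ℂ × ℂ → ℝ≥0∞} {N : Set ℂ}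
    (hS : ∀ u, u ∉ N → Sheets d Z u) (hw : IsSlope Z w) (ht : LipGraph Z t) {r : ℝ≥0} {R : ℝ}
    (hsupp : ∀ p ∈ Z, t p < r → ‖p.1‖ ≤ R) (e : ℂ) (he : ‖e‖ = 1) (u0 : ℂ)
    (hline : ∀ s : ℝ, u0 + s * e ∉ N) :
    su Z (fun p => (r : ℝ≥0∞) - t p) u0 ≤
      ∫⁻ s : ℝ, su Z (fun p => if t p < r then 1 + ENNReal.ofReal (w p) else 0) (u0 + s * e) := by
  set Φ : ℝ → ℝ≥0∞ := fun s => su Z (fun p => (r : ℝ≥0∞) - t p) (u0 + s * e) with hΦ
  set g : ℝ → ℝ≥0∞ := fun s =>
    su Z (fun p => if t p < r then 1 + ENNReal.ofReal (w p) else 0) (u0 + s * e) with hg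
  have hloc : ∀ s : ℝ, ∃ η > 0, ∀ x y : ℝ, s - η < x → x ≤ y → y < s + η →
      Φ y ≤ Φ x + ∫⁻ z in Ioc x y, g z := by
    intro s
    obtain ⟨δ, hδ, f, hf, hinj, hZ⟩ := hS (u0 + s * e) (hline s)
    refine ⟨δ, hδ, fun x y hx hxy hy => ?_⟩
    have hball : ∀ z : ℝ, z ∈ Icc x y → (u0 + z * e) ∈ Metric.ball (u0 + s * e) δ := by
      intro z hz
      rw [Metric.mem_ball, dist_eq_norm]
      have : (u0 + z * e) - (u0 + s * e) = ((z - s : ℝ) : ℂ) * e := by push_cast; ring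
      rw [this, norm_mul, he, mul_one, Complex.norm_real, Real.norm_eq_abs, abs_lt]
      constructor
      · linarith [hz.1]
      · linarith [hz.2]
    have hgr : ∀ i, GraphIn Z (u0 + s * e) δ (f i) := fun i =>
      ⟨hδ, hf i, fun u hu => (hZ u hu _).mpr ⟨i, rfl⟩⟩
    have hΦz : ∀ z ∈ Icc x y, Φ z = ∑ i, ((r : ℝ≥0∞) - t (u0 + z * e, f i (u0 + z * e))) := by
      intro z hz
      exact H1_su (hinj _ (hball z hz)) (hZ _ (hball z hz)) _
    have hgz : ∀ z ∈ Icc x y, g z = ∑ i, (if t (u0 + z * e, f i (u0 + z * e)) < r then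
        ENNReal.ofReal (1 + ‖deriv (f i) (u0 + z * e)‖ ^ 2) else 0) := by
      intro z hz
      have h1 : g z = _ := H1_su (hinj _ (hball z hz)) (hZ _ (hball z hz)) _
      rw [h1]
      apply Finset.sum_congr rfl
      intro i _
      rw [hw _ _ _ (hgr i) _ (hball z hz)]
      rw [ENNReal.ofReal_add zero_le_one (by positivity), ENNReal.ofReal_one]
    have hxm : x ∈ Icc x y := ⟨le_rfl, hxy⟩
    have hym : y ∈ Icc x y := ⟨hxy, le_rfl⟩
    rw [hΦz x hxm, hΦz y hym]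
    have hsheet : ∀ i, (r : ℝ≥0∞) - t (u0 + y * e, f i (u0 + y * e)) ≤
        ((r : ℝ≥0∞) - t (u0 + x * e, f i (u0 + x * e))) +
        ∫⁻ z in Icc x y, (if t (u0 + z * e, f i (u0 + z * e)) < r then
          ENNReal.ofReal (1 + ‖deriv (f i) (u0 + z * e)‖ ^ 2) else 0) := by
      intro i
      have hcont : ContinuousOn (fun z : ℝ => 1 + ‖deriv (f i) (u0 + z * e)‖ ^ 2) (Icc x y) := by
        have h1 : ContinuousOn (deriv (f i)) (Metric.ball (u0 + s * e) δ) :=
          ((hf i).deriv Metric.isOpen_ball).continuousOn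
        have h2 : ContinuousOn (fun z : ℝ => deriv (f i) (u0 + z * e)) (Icc x y) := by
          apply h1.comp (f := fun z : ℝ => u0 + (z : ℂ) * e)
          · fun_prop
          · intro z hz
            exact hball z hz
        fun_prop
      obtain ⟨C, hC⟩ := isCompact_Icc.exists_bound_of_continuousOn hcont
      refine H1_clip (τ := fun z : ℝ => t (u0 + z * e, f i (u0 + z * e)))
        (H := fun z : ℝ => ENNReal.ofReal (1 + ‖deriv (f i) (u0 + z * e)‖ ^ 2)) hxy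
        (K := C.toNNReal) ?_ ?_ r
      · intro z hz
        have h1 := hC z hz
        rw [Real.norm_eq_abs] at h1
        exact ENNReal.ofReal_le_ofReal ((le_abs_self _).trans h1)
      · intro z hz z' hz' hzz'
        have h1 := ht _ _ _ (hgr i) _ (hball z' hz') _ (hball z hz)
        refine h1.trans ?_
        have h2 := H1_change (f' := deriv (f i)) u0 e he hzz'
        gcongr
    calc ∑ i, ((r : ℝ≥0∞) - t (u0 + y * e, f i (u0 + y * e)))
        ≤ ∑ i, (((r : ℝ≥0∞) - t (u0 + x * e, f i (u0 + x * e))) +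
        ∫⁻ z in Icc x y, (if t (u0 + z * e, f i (u0 + z * e)) < r then
          ENNReal.ofReal (1 + ‖deriv (f i) (u0 + z * e)‖ ^ 2) else 0)) :=
          Finset.sum_le_sum (fun i _ => hsheet i)
      _ = ∑ i, ((r : ℝ≥0∞) - t (u0 + x * e, f i (u0 + x * e))) +
        ∑ i, ∫⁻ z in Icc x y, (if t (u0 + z * e, f i (u0 + z * e)) < r then
          ENNReal.ofReal (1 + ‖deriv (f i) (u0 + z * e)‖ ^ 2) else 0) := Finset.sum_add_distrib
      _ ≤ ∑ i, ((r : ℝ≥0∞) - t (u0 + x * e, f i (u0 + x * e))) + ∫⁻ z in Ioc x y, g z := by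
        gcongr
        refine (H1_sum_le _ _ _).trans (le_of_eq ?_)
        rw [← restrict_Ioc_eq_restrict_Icc]
        apply setLIntegral_congr_fun measurableSet_Ioc
        intro z hz
        exact (hgz z (Ioc_subset_Icc_self hz)).symm
  set a : ℝ := -(|R| + ‖u0‖ + 1) with ha
  have ha0 : a ≤ 0 := by
    rw [ha]
    have := abs_nonneg R
    have := norm_nonneg u0
    linarith
  have hΦa : Φ a = 0 := by
    show su Z _ _ = 0
    unfold su
    rw [ENNReal.tsum_eq_zero]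
    intro v
    by_cases hv : (u0 + a * e, v) ∈ Z
    · rw [Set.indicator_of_mem hv]
      apply tsub_eq_zero_of_le
      by_contra hc
      have h1 := hsupp _ hv (not_le.mp hc)
      have h2 : ‖(a : ℂ) * e‖ ≤ ‖u0 + a * e‖ + ‖u0‖ := by
        have h4 : (a : ℂ) * e = (u0 + a * e) - u0 := by ring
        calc ‖(a : ℂ) * e‖ = ‖(u0 + a * e) - u0‖ := by rw [← h4]
          _ ≤ _ := norm_sub_le _ _
      rw [norm_mul, he, mul_one, Complex.norm_real, Real.norm_eq_abs, abs_of_nonpos ha0, ha] at h2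
      have h3 := le_abs_self R
      simp only at h1
      linarith
    · exact Set.indicator_of_notMem hv _
  have hmain := H1_global hloc ha0
  rw [hΦa, zero_add] at hmain
  have h0 : Φ 0 = su Z (fun p => (r : ℝ≥0∞) - t p) u0 := by
    show su Z _ _ = _
    simp
  rw [← h0]
  exact hmain.trans (setLIntegral_le_lintegral _ _)


/-! ### H2a -/

/-- TARGET H2a: Loomis-Whitney in the plane -/
theorem loomis {f g : ℂ → ℝ≥0∞} (hg : Measurable g) {N : Set ℂ} (hN : N.Countable)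
    (h1 : ∀ u0 : ℂ, (∀ s : ℝ, u0 + s * (1 : ℂ) ∉ N) → f u0 ≤ ∫⁻ s : ℝ, g (u0 + s * (1 : ℂ)))
    (h2 : ∀ u0 : ℂ, (∀ s : ℝ, u0 + s * Complex.I ∉ N) →
      f u0 ≤ ∫⁻ s : ℝ, g (u0 + s * Complex.I)) :
    ∫⁻ u, f u ^ 2 ≤ (∫⁻ u, g u) ^ 2 := by
  set G : ℝ × ℝ → ℝ≥0∞ := fun p => g (Complex.measurableEquivRealProd.symm p) with hG
  have hGm : Measurable G := hg.comp Complex.measurableEquivRealProd.symm.measurable
  have hmp := Complex.volume_preserving_equiv_real_prod.symm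
  have hemb := Complex.measurableEquivRealProd.symm.measurableEmbedding
  have hf_eq : ∫⁻ u, f u ^ 2 = ∫⁻ p : ℝ × ℝ, f (Complex.measurableEquivRealProd.symm p) ^ 2 :=
    (hmp.lintegral_comp_emb hemb (fun u => f u ^ 2)).symm
  have hg_eq : ∫⁻ u, g u = ∫⁻ p : ℝ × ℝ, G p := (hmp.lintegral_comp_emb hemb g).symm
  have hvol : (volume : Measure (ℝ × ℝ)) = (volume : Measure ℝ).prod (volume : Measure ℝ) := rfl
  set G2 : ℝ → ℝ≥0∞ := fun x => ∫⁻ y : ℝ, G (x, y) with hG2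
  set G1 : ℝ → ℝ≥0∞ := fun y => ∫⁻ x : ℝ, G (x, y) with hG1
  have hG2m : Measurable G2 := hGm.lintegral_prod_right'
  have hG1m : Measurable G1 := hGm.lintegral_prod_left'
  have e2 : ∫⁻ x, G2 x = ∫⁻ u, g u := by
    rw [hg_eq, hvol, lintegral_prod _ hGm.aemeasurable]
  have e1 : ∫⁻ y, G1 y = ∫⁻ u, g u := by
    rw [hg_eq, hvol, lintegral_prod_symm _ hGm.aemeasurable]
  have hsymm : ∀ p : ℝ × ℝ, Complex.measurableEquivRealProd.symm p = ⟨p.1, p.2⟩ := fun p => rfl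
  have hre : (Complex.re '' N).Countable := hN.image _
  have him : (Complex.im '' N).Countable := hN.image _
  have hae : ∀ᵐ p : ℝ × ℝ, f (Complex.measurableEquivRealProd.symm p) ^ 2 ≤ G2 p.1 * G1 p.2 := by
    have a1 : ∀ᵐ p : ℝ × ℝ, p.1 ∉ Complex.re '' N := by
      rw [hvol]
      have : (volume : Measure ℝ) (Complex.re '' N) = 0 := hre.measure_zero _
      exact Measure.quasiMeasurePreserving_fst.ae (measure_eq_zero_iff_ae_notMem.1 this)
    have a2 : ∀ᵐ p : ℝ × ℝ, p.2 ∉ Complex.im '' N := by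
      rw [hvol]
      have : (volume : Measure ℝ) (Complex.im '' N) = 0 := him.measure_zero _
      exact Measure.quasiMeasurePreserving_snd.ae (measure_eq_zero_iff_ae_notMem.1 this)
    filter_upwards [a1, a2] with p hp1 hp2
    have b1 : f (Complex.measurableEquivRealProd.symm p) ≤ G1 p.2 := by
      refine (h1 _ ?_).trans (le_of_eq ?_)
      · intro s hs
        exact hp2 ⟨_, hs, by simp [hsymm]⟩
      · have : ∀ s : ℝ, g (Complex.measurableEquivRealProd.symm p + s * (1 : ℂ)) =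
            G (p.1 + s, p.2) := by
          intro s
          simp only [hG, hsymm]
          congr 1
          apply Complex.ext <;> simp
        simp_rw [this]
        exact lintegral_add_left_eq_self (fun x => G (x, p.2)) p.1
    have b2 : f (Complex.measurableEquivRealProd.symm p) ≤ G2 p.1 := by
      refine (h2 _ ?_).trans (le_of_eq ?_)
      · intro s hs
        exact hp1 ⟨_, hs, by simp [hsymm]⟩
      · have : ∀ s : ℝ, g (Complex.measurableEquivRealProd.symm p + s * Complex.I) =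
            G (p.1, p.2 + s) := by
          intro s
          simp only [hG, hsymm]
          congr 1
          apply Complex.ext <;> simp
        simp_rw [this]
        exact lintegral_add_left_eq_self (fun y => G (p.1, y)) p.2
    rw [sq]
    exact mul_le_mul' b2 b1
  rw [hf_eq]
  calc ∫⁻ p : ℝ × ℝ, f (Complex.measurableEquivRealProd.symm p) ^ 2
      ≤ ∫⁻ p : ℝ × ℝ, G2 p.1 * G1 p.2 := lintegral_mono_ae hae
    _ = (∫⁻ x, G2 x) * ∫⁻ y, G1 y := by
        rw [hvol]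
        exact lintegral_prod_mul hG2m.aemeasurable hG1m.aemeasurable
    _ = (∫⁻ u, g u) ^ 2 := by rw [e1, e2, sq]


/-! ### H2b -/

theorem H2b_local (g : ℂ → ℝ≥0∞) (N : Set ℂ) (hN : N.Countable)
    (h : ∀ u, u ∉ N → ∃ V : Set ℂ, IsOpen V ∧ u ∈ V ∧ ∃ G : ℂ → ℝ≥0∞, Measurable G ∧
      ∀ x ∈ V, g x = G x) : Measurable g := by
  choose! V hV hu G hG hVG using h
  intro s hs
  obtain ⟨T, hT, hTc, hTU⟩ := TopologicalSpace.isOpen_biUnion_countable (Nᶜ) V
    (fun u hu' => hV u hu')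
  have h1 : g ⁻¹' s = (⋃ u ∈ T, (G u ⁻¹' s ∩ V u)) ∪ (g ⁻¹' s ∩ (⋃ u ∈ Nᶜ, V u)ᶜ) := by
    ext x
    constructor
    · intro hx
      by_cases hxU : x ∈ ⋃ u ∈ Nᶜ, V u
      · left
        rw [← hTU] at hxU
        simp only [mem_iUnion] at hxU ⊢
        obtain ⟨u, huT, hxu⟩ := hxU
        refine ⟨u, huT, ?_, hxu⟩
        have := hVG u (hT huT) x hxu
        simp only [mem_preimage] at hx ⊢
        rwa [← this]
      · right
        exact ⟨hx, hxU⟩
    · rintro (hx | hx)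
      · simp only [mem_iUnion] at hx
        obtain ⟨u, huT, hxs, hxu⟩ := hx
        have := hVG u (hT huT) x hxu
        simp only [mem_preimage] at hxs ⊢
        rwa [this]
      · exact hx.1
  rw [h1]
  apply MeasurableSet.union
  · apply MeasurableSet.biUnion hTc
    intro u huT
    exact (hG u (hT huT) hs).inter (hV u (hT huT)).measurableSet
  · apply Set.Countable.measurableSet
    apply hN.mono
    rintro x ⟨_, hx⟩
    by_contra hxN
    exact hx (mem_biUnion (show x ∈ Nᶜ from hxN) (hu x hxN))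

theorem H2b_open {Z : Set (ℂ × ℂ)} {t : ℂ × ℂ → ℝ≥0∞} (ht : LipGraph Z t) (r : ℝ≥0)
    {c : ℂ} {δ : ℝ} {f : ℂ → ℂ} (hf : GraphIn Z c δ f) :
    IsOpen {u | u ∈ Metric.ball c δ ∧ t (u, f u) < r} := by
  rw [isOpen_iff_mem_nhds]
  rintro u ⟨hu, hut⟩
  have hball : Metric.ball c δ ∈ 𝓝 u := Metric.isOpen_ball.mem_nhds hu
  -- the derivative is bounded near `u`
  have hdc : ContinuousAt (deriv f) u :=
    ((hf.2.1.deriv Metric.isOpen_ball).differentiableAt hball).continuousAt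
  have hb : ∀ᶠ x in 𝓝 u, ‖deriv f x‖ < ‖deriv f u‖ + 1 :=
    hdc.norm.eventually_lt continuousAt_const (by linarith)
  obtain ⟨ρ, hρ, hρ'⟩ := Metric.mem_nhds_iff.1 (Filter.inter_mem hball hb)
  set C : ℝ := ‖deriv f u‖ + 1 with hC
  have hC0 : 0 ≤ C := by positivity
  have hlim : Tendsto (fun u' : ℂ => t (u, f u) + ENNReal.ofReal (‖u' - u‖ * (1 + C ^ 2)))
      (𝓝 u) (𝓝 (t (u, f u) + ENNReal.ofReal (‖u - u‖ * (1 + C ^ 2)))) := by
    apply Tendsto.const_add
    apply ENNReal.tendsto_ofReal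
    have : Continuous (fun u' : ℂ => ‖u' - u‖ * (1 + C ^ 2)) := by fun_prop
    exact this.tendsto u
  have hev := hlim.eventually_lt_const (u := (r : ℝ≥0∞)) (by simpa using hut)
  filter_upwards [hev, Metric.ball_mem_nhds u hρ, hball] with u' h1 h2 h3
  refine ⟨h3, ?_⟩
  refine lt_of_le_of_lt (ht c δ f hf u hu u' h3) (lt_of_le_of_lt ?_ h1)
  gcongr
  calc ∫⁻ s in Icc (0 : ℝ) 1,
        ENNReal.ofReal (‖u' - u‖ * (1 + ‖deriv f (u + (s : ℂ) * (u' - u))‖ ^ 2))
      ≤ ∫⁻ _s in Icc (0 : ℝ) 1, ENNReal.ofReal (‖u' - u‖ * (1 + C ^ 2)) := by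
        apply setLIntegral_mono measurable_const
        intro s hs
        apply ENNReal.ofReal_le_ofReal
        have hmem : u + (s : ℂ) * (u' - u) ∈ Metric.ball u ρ := by
          rw [Metric.mem_ball, dist_eq_norm, add_sub_cancel_left, norm_mul, Complex.norm_real,
            Real.norm_of_nonneg hs.1]
          rw [Metric.mem_ball, dist_eq_norm] at h2
          have := norm_nonneg (u' - u)
          nlinarith [hs.2]
        have h4 : ‖deriv f (u + (s : ℂ) * (u' - u))‖ < C := (hρ' hmem).2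
        gcongr
    _ = _ := by
        rw [setLIntegral_const, Real.volume_Icc]
        simp

theorem H2b_sum {d : ℕ} {Z : Set (ℂ × ℂ)} (h : ℂ × ℂ → ℝ≥0∞) {f : Fin d → ℂ → ℂ} {u : ℂ}
    (hinj : Function.Injective (fun i => f i u)) (hZ : ∀ v, (u, v) ∈ Z ↔ ∃ i, v = f i u) :
    su Z h u = ∑ i, h (u, f i u) := by
  classical
  unfold su
  rw [tsum_eq_sum (s := Finset.univ.image (fun i => f i u))]
  · rw [Finset.sum_image (fun i _ j _ hij => hinj hij)]
    apply Finset.sum_congr rfl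
    intro i _
    rw [indicator_of_mem]
    exact (hZ _).2 ⟨i, rfl⟩
  · intro v hv
    rw [indicator_of_notMem]
    intro hvZ
    obtain ⟨i, hi⟩ := (hZ v).1 hvZ
    apply hv
    rw [Finset.mem_image]
    exact ⟨i, Finset.mem_univ _, hi.symm⟩

/-- TARGET H2b: measurability of sums over the sheets -/
theorem su_measurable {d : ℕ} {Z : Set (ℂ × ℂ)} {w : ℂ × ℂ → ℝ} {t : ℂ × ℂ → ℝ≥0∞} {N : Set ℂ}
    (hN : N.Countable) (hS : ∀ u, u ∉ N → Sheets d Z u) (hw : IsSlope Z w) (ht : LipGraph Z t)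
    (r : ℝ≥0) (α β : ℝ≥0) :
    Measurable (su Z (fun p => if t p < r then α + β * ENNReal.ofReal (w p) else 0)) := by
  apply H2b_local _ N hN
  intro u0 hu0
  obtain ⟨δ, hδ, f, hf, hinj, hZ⟩ := hS u0 hu0
  have hgr : ∀ i, GraphIn Z u0 δ (f i) := fun i => ⟨hδ, hf i, fun u hu => (hZ u hu _).2 ⟨i, rfl⟩⟩
  refine ⟨Metric.ball u0 δ, Metric.isOpen_ball, Metric.mem_ball_self hδ,
    fun u => ∑ i, indicator {u | u ∈ Metric.ball u0 δ ∧ t (u, f i u) < r}
      (fun u => (α : ℝ≥0∞) + β * ENNReal.ofReal (‖deriv (f i) u‖ ^ 2)) u, ?_, ?_⟩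
  · apply Finset.measurable_fun_sum
    intro i _
    apply Measurable.indicator
    · have hm : Measurable (deriv (f i)) := measurable_deriv (f i)
      exact measurable_const.add (measurable_const.mul (hm.norm.pow_const 2).ennreal_ofReal)
    · exact (H2b_open ht r (hgr i)).measurableSet
  · intro u hu
    rw [H2b_sum _ (hinj u hu) (hZ u hu)]
    apply Finset.sum_congr rfl
    intro i _
    simp only [indicator, mem_ofPred_eq, hu, true_and]
    rw [hw u0 δ (f i) (hgr i) u hu]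


/-! ### H3 -/

/-- a real-linear multiplication by a complex number has determinant its squared norm -/
theorem H3_det (a : ℂ) :
    |((ContinuousLinearMap.toSpanSingleton ℂ a).restrictScalars ℝ).det| = ‖a‖ ^ 2 := by
  have h : ((ContinuousLinearMap.toSpanSingleton ℂ a).restrictScalars ℝ).det = ‖a‖ ^ 2 := by
    simp [ContinuousLinearMap.det, LinearMap.det_restrictScalars,
      Algebra.norm_complex_eq, Complex.normSq_eq_norm_sq]
  rw [h, abs_of_nonneg (by positivity)]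

theorem H3_tsum_le {α β : Type*} (a : α → ℝ≥0∞) (b : β → ℝ≥0∞) (P : α → β → Prop)
    (hex : ∀ x, a x ≠ 0 → ∃ y, P x y ∧ a x ≤ b y)
    (hinj : ∀ x x' y, P x y → P x' y → x = x') : ∑' x, a x ≤ ∑' y, b y := by
  classical
  by_cases hne : Nonempty β
  swap
  · have h0 : ∀ x, a x = 0 := by
      intro x
      by_contra h
      obtain ⟨y, _⟩ := hex x h
      exact hne ⟨y⟩
    simp [h0]
  choose! φ hφ using hex
  have h1 : ∑' x : Function.support a, a x = ∑' x, a x :=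
    tsum_subtype_eq_of_support_subset subset_rfl
  rw [← h1]
  have hinj' : Function.Injective (fun x : Function.support a => φ x) := by
    intro x x' h
    have := hφ x x.2
    have h' := hφ x' x'.2
    simp only at h
    rw [h] at this
    exact Subtype.ext (hinj _ _ _ this.1 h'.1)
  calc ∑' x : Function.support a, a x ≤ ∑' x : Function.support a, b (φ x) :=
        ENNReal.tsum_le_tsum (fun x => (hφ x x.2).2)
    _ ≤ ∑' y, b y := ENNReal.tsum_comp_le_tsum_of_injective hinj' b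

/-- a good piece: the graph of an injective holomorphic function on a ball -/
def H3_Good (Z : Set (ℂ × ℂ)) (c : ℂ) (δ : ℝ) (f : ℂ → ℂ) : Prop :=
  GraphIn Z c δ f ∧ InjOn f (Metric.ball c δ)

theorem H3_piece {d : ℕ} {Z : Set (ℂ × ℂ)} {w : ℂ × ℂ → ℝ} {p : ℂ × ℂ}
    (hS : Sheets d Z p.1) (hw : IsSlope Z w) (hp : p ∈ Z) (hwp : w p ≠ 0) :
    ∃ (δ : ℝ) (f : ℂ → ℂ), H3_Good Z p.1 δ f ∧
      ∀ᶠ q in 𝓝 p, q ∈ Z → q.1 ∈ Metric.ball p.1 δ ∧ q.2 = f q.1 := by
  obtain ⟨δ0, hδ0, f, hf, hinj, hZ⟩ := hS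
  have hp1 : p.1 ∈ Metric.ball p.1 δ0 := Metric.mem_ball_self hδ0
  obtain ⟨i0, hi0⟩ := (hZ p.1 hp1 p.2).1 hp
  have hopen : Metric.ball p.1 δ0 ∈ 𝓝 p.1 := Metric.ball_mem_nhds _ hδ0
  have hG0 : GraphIn Z p.1 δ0 (f i0) :=
    ⟨hδ0, hf i0, fun u hu => (hZ u hu _).2 ⟨i0, rfl⟩⟩
  have hder : deriv (f i0) p.1 ≠ 0 := by
    have h1 := hw p.1 δ0 (f i0) hG0 p.1 hp1
    rw [← hi0] at h1
    intro h
    rw [h] at h1
    apply hwp
    rw [h1]
    simp
  have hstrict : HasStrictDerivAt (f i0) (deriv (f i0) p.1) p.1 := by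
    have hA : AnalyticAt ℂ (f i0) p.1 := (hf i0).analyticAt hopen
    exact hA.hasStrictDerivAt
  have hleft := hstrict.eventually_left_inverse hder
  obtain ⟨δ1, hδ1, hb⟩ := Metric.eventually_nhds_iff_ball.1 hleft
  refine ⟨min δ0 δ1, f i0, ⟨⟨lt_min hδ0 hδ1, (hf i0).mono (Metric.ball_subset_ball (min_le_left _ _)),
    fun u hu => hG0.2.2 u (Metric.ball_subset_ball (min_le_left _ _) hu)⟩, ?_⟩, ?_⟩
  · intro x hx y hy hxy
    have h1 := hb x (Metric.ball_subset_ball (min_le_right _ _) hx)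
    have h2 := hb y (Metric.ball_subset_ball (min_le_right _ _) hy)
    rw [← h1, ← h2, hxy]
  · have hball : ∀ᶠ q in 𝓝 p, q.1 ∈ Metric.ball p.1 (min δ0 δ1) :=
      continuous_fst.continuousAt.eventually (Metric.ball_mem_nhds _ (lt_min hδ0 hδ1))
    have hne : ∀ i, i ≠ i0 → ∀ᶠ q in 𝓝 p, q.2 - f i q.1 ≠ 0 := by
      intro i hi
      have hc : ContinuousAt (fun q : ℂ × ℂ => q.2 - f i q.1) p := by
        have h1 : ContinuousAt (f i) p.1 := ((hf i).differentiableAt hopen).continuousAt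
        exact continuous_snd.continuousAt.sub (ContinuousAt.comp (g := f i) h1 continuous_fst.continuousAt)
      apply hc.eventually_ne
      rw [hi0]
      intro h
      exact hi (hinj p.1 hp1 (sub_eq_zero.1 h)).symm
    have hne' : ∀ᶠ q in 𝓝 p, ∀ i, i ≠ i0 → q.2 - f i q.1 ≠ 0 := by
      rw [Filter.eventually_all]
      intro i
      by_cases hi : i = i0
      · simp [hi]
      · filter_upwards [hne i hi] with q hq _
        exact hq
    filter_upwards [hball, hne'] with q hq1 hq2 hqZ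
    refine ⟨hq1, ?_⟩
    obtain ⟨i, hi⟩ := (hZ q.1 (Metric.ball_subset_ball (min_le_left _ _) hq1) q.2).1 hqZ
    by_cases h : i = i0
    · rw [← h]; exact hi
    · exact absurd (sub_eq_zero.2 hi) (hq2 i h)

theorem H3_open {Z : Set (ℂ × ℂ)} {t : ℂ × ℂ → ℝ≥0∞} (ht : LipGraph Z t) (r : ℝ≥0)
    {c : ℂ} {δ : ℝ} {f : ℂ → ℂ} (hG : GraphIn Z c δ f) :
    IsOpen {u | u ∈ Metric.ball c δ ∧ t (u, f u) < r} := by
  rw [isOpen_iff_mem_nhds]
  rintro u ⟨hu, htu⟩
  have hopen : Metric.ball c δ ∈ 𝓝 u := Metric.isOpen_ball.mem_nhds hu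
  have hA : AnalyticOnNhd ℂ f (Metric.ball c δ) := hG.2.1.analyticOnNhd Metric.isOpen_ball
  have hdc : ContinuousAt (deriv f) u := (hA.deriv u hu).continuousAt
  have hbd : ∀ᶠ x in 𝓝 u, ‖deriv f x‖ < ‖deriv f u‖ + 1 :=
    hdc.norm.eventually_lt_const (by linarith)
  obtain ⟨ε, hε, hb⟩ := Metric.eventually_nhds_iff_ball.1 (hbd.and hopen)
  set K : ℝ := 1 + (‖deriv f u‖ + 1) ^ 2 with hK
  have hKpos : 0 < K := by positivity
  -- bound on the increment
  have key : ∀ u' ∈ Metric.ball u ε, t (u', f u') ≤ t (u, f u) + ENNReal.ofReal (‖u' - u‖ * K) := by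
    intro u' hu'
    refine (ht c δ f hG u hu u' (hb u' hu').2).trans ?_
    gcongr
    calc ∫⁻ s in Icc (0 : ℝ) 1,
        ENNReal.ofReal (‖u' - u‖ * (1 + ‖deriv f (u + (s : ℂ) * (u' - u))‖ ^ 2))
        ≤ ∫⁻ s in Icc (0 : ℝ) 1, ENNReal.ofReal (‖u' - u‖ * K) := by
          apply setLIntegral_mono' measurableSet_Icc
          intro s hs
          apply ENNReal.ofReal_le_ofReal
          have hmem : u + (s : ℂ) * (u' - u) ∈ Metric.ball u ε := by
            rw [Metric.mem_ball, dist_eq_norm] at hu' ⊢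
            have : u + (s : ℂ) * (u' - u) - u = (s : ℂ) * (u' - u) := by ring
            rw [this, norm_mul, Complex.norm_real, Real.norm_of_nonneg hs.1]
            calc s * ‖u' - u‖ ≤ 1 * ‖u' - u‖ := by gcongr; exact hs.2
              _ < ε := by rw [one_mul]; exact hu'
          have h1 := (hb _ hmem).1
          have h2 : 1 + ‖deriv f (u + (s : ℂ) * (u' - u))‖ ^ 2 ≤ K := by
            rw [hK]
            gcongr
          gcongr
    _ = ENNReal.ofReal (‖u' - u‖ * K) := by simp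
  have hpos : 0 < (r : ℝ≥0∞) - t (u, f u) := tsub_pos_of_lt htu
  have hlim : Tendsto (fun u' : ℂ => t (u, f u) + ENNReal.ofReal (‖u' - u‖ * K)) (𝓝 u)
      (𝓝 (t (u, f u) + 0)) := by
    apply Tendsto.const_add
    have : Tendsto (fun u' : ℂ => ENNReal.ofReal (‖u' - u‖ * K)) (𝓝 u)
        (𝓝 (ENNReal.ofReal (‖u - u‖ * K))) := by
      apply ENNReal.tendsto_ofReal
      apply Tendsto.mul_const
      exact (continuous_id.sub continuous_const).norm.tendsto u
    simpa using this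
  rw [add_zero] at hlim
  have hev := hlim.eventually_lt_const htu
  filter_upwards [hev, Metric.ball_mem_nhds u hε] with u' h1 h2
  exact ⟨(hb u' h2).2, (key u' h2).trans_lt h1⟩

theorem H3_measeq {c c' : ℂ} {δ δ' : ℝ} {f g : ℂ → ℂ} (hf : ContinuousOn f (Metric.ball c δ))
    (hg : ContinuousOn g (Metric.ball c' δ')) :
    MeasurableSet {u | u ∈ Metric.ball c δ ∧ u ∈ Metric.ball c' δ' ∧ f u = g u} := by
  have ho : IsOpen (Metric.ball c δ ∩ Metric.ball c' δ' ∩ (fun u => f u - g u) ⁻¹' {0}ᶜ) := by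
    apply ContinuousOn.isOpen_inter_preimage _ (Metric.isOpen_ball.inter Metric.isOpen_ball)
      isOpen_compl_singleton
    exact (hf.mono inter_subset_left).sub (hg.mono inter_subset_right)
  have heq : {u | u ∈ Metric.ball c δ ∧ u ∈ Metric.ball c' δ' ∧ f u = g u} =
      (Metric.ball c δ ∩ Metric.ball c' δ') \
        (Metric.ball c δ ∩ Metric.ball c' δ' ∩ (fun u => f u - g u) ⁻¹' {0}ᶜ) := by
    ext u
    simp only [mem_ofPred_eq, Set.mem_sdiff, mem_inter_iff, mem_preimage, mem_compl_iff,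
      mem_singleton_iff, sub_eq_zero, not_and, not_not]
    tauto
  rw [heq]
  exact (Metric.isOpen_ball.measurableSet.inter Metric.isOpen_ball.measurableSet).diff
    ho.measurableSet

/-- the main computation, given a sequence of good pieces -/
theorem H3_main {Z : Set (ℂ × ℂ)} {w : ℂ × ℂ → ℝ} {t : ℂ × ℂ → ℝ≥0∞} {N : Set ℂ}
    (hN : N.Countable) (hw : IsSlope Z w) (ht : LipGraph Z t) (r : ℝ≥0)
    (c : ℕ → ℂ) (δ : ℕ → ℝ) (f : ℕ → ℂ → ℂ) (hgood : ∀ n, H3_Good Z (c n) (δ n) (f n))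
    (hcov : ∀ p ∈ Z, p.1 ∉ N → w p ≠ 0 → ∃ n, p.1 ∈ Metric.ball (c n) (δ n) ∧ p.2 = f n p.1) :
    ∫⁻ u, su Z (fun p => if t p < r then ENNReal.ofReal (w p) else 0) u ≤
      ∫⁻ v, su (Zsw Z) (fun p => if t (p.2, p.1) < r then 1 else 0) v := by
  classical
  set U : ℕ → Set ℂ := fun n => {u | u ∈ Metric.ball (c n) (δ n) ∧ t (u, f n u) < r} ∩
    ⋂ k, ⋂ (_ : k < n), {u | u ∈ Metric.ball (c n) (δ n) ∧ u ∈ Metric.ball (c k) (δ k) ∧
      f n u = f k u}ᶜ with hU
  have hUm : ∀ n, MeasurableSet (U n) := by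
    intro n
    refine (H3_open ht r (hgood n).1).measurableSet.inter ?_
    refine MeasurableSet.iInter fun k => MeasurableSet.iInter fun _ => ?_
    exact (H3_measeq (hgood n).1.2.1.continuousOn (hgood k).1.2.1.continuousOn).compl
  have hUball : ∀ n, U n ⊆ Metric.ball (c n) (δ n) := fun n u hu => hu.1.1
  have hdisj : ∀ n m u, u ∈ U n → u ∈ U m → f n u = f m u → n = m := by
    have aux : ∀ n m u, u ∈ U n → u ∈ U m → f n u = f m u → ¬ n < m := by
      intro n m u hn hm hnm hlt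
      have := hm.2
      simp only [mem_iInter, mem_compl_iff, mem_ofPred_eq] at this
      exact this n hlt ⟨hUball m hm, hUball n hn, hnm.symm⟩
    intro n m u hn hm hnm
    rcases lt_trichotomy n m with h | h | h
    · exact absurd h (aux n m u hn hm hnm)
    · exact h
    · exact absurd h (aux m n u hm hn hnm.symm)
  have hUinj : ∀ n, InjOn (f n) (U n) := fun n => (hgood n).2.mono (hUball n)
  have hfd : ∀ n, ∀ x ∈ U n, HasFDerivWithinAt (f n)
      ((ContinuousLinearMap.toSpanSingleton ℂ (deriv (f n) x)).restrictScalars ℝ) (U n) x := by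
    intro n x hx
    have h1 : HasDerivAt (f n) (deriv (f n) x) x :=
      ((hgood n).1.2.1.differentiableAt (Metric.isOpen_ball.mem_nhds (hUball n hx))).hasDerivAt
    exact (h1.hasFDerivAt.restrictScalars ℝ).hasFDerivWithinAt
  set W : ℕ → Set ℂ := fun n => f n '' U n with hW
  have hWm : ∀ n, MeasurableSet (W n) := fun n =>
    measurable_image_of_fderivWithin (hUm n) (hfd n) (hUinj n)
  have harea : ∀ n, ∫⁻ u, (U n).indicator (fun u => ENNReal.ofReal (‖deriv (f n) u‖ ^ 2)) u =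
      ∫⁻ v, (W n).indicator 1 v := by
    intro n
    rw [lintegral_indicator (hUm n), lintegral_indicator_one (hWm n),
      ← lintegral_abs_det_fderiv_eq_addHaar_image volume (hUm n) (hfd n) (hUinj n)]
    simp_rw [H3_det]
  have hL : ∫⁻ u, su Z (fun p => if t p < r then ENNReal.ofReal (w p) else 0) u ≤
      ∫⁻ u, ∑' n, (U n).indicator (fun u => ENNReal.ofReal (‖deriv (f n) u‖ ^ 2)) u := by
    apply lintegral_mono_ae
    have hae : ∀ᵐ u : ℂ, u ∉ N := by
      have := hN.measure_zero (volume : Measure ℂ)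
      exact measure_eq_zero_iff_ae_notMem.1 this
    filter_upwards [hae] with u hu
    unfold su
    refine H3_tsum_le _ _ (fun v n => v = f n u) ?_ ?_
    · intro v hv
      by_cases hvZ : (u, v) ∈ Z
      · rw [indicator_of_mem hvZ] at hv ⊢
        by_cases htv : t (u, v) < r
        · rw [if_pos htv] at hv ⊢
          have hw0 : w (u, v) ≠ 0 := by
            intro h
            rw [h] at hv
            simp at hv
          have hex := hcov (u, v) hvZ hu hw0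
          simp only at hex
          have hspec := Nat.find_spec hex
          refine ⟨Nat.find hex, hspec.2, ?_⟩
          have hmem : u ∈ U (Nat.find hex) := by
            refine ⟨⟨hspec.1, ?_⟩, ?_⟩
            · rw [← hspec.2]; exact htv
            · simp only [mem_iInter, mem_compl_iff, mem_ofPred_eq]
              rintro k hk ⟨_, h2, h3⟩
              exact Nat.find_min hex hk ⟨h2, by rw [← h3]; exact hspec.2⟩
          rw [indicator_of_mem hmem]
          have h1 := hw _ _ _ (hgood (Nat.find hex)).1 u hspec.1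
          rw [← hspec.2] at h1
          rw [h1]
        · rw [if_neg htv] at hv
          exact absurd rfl hv
      · rw [indicator_of_notMem hvZ] at hv
        exact absurd rfl hv
    · intro v v' n h h'
      rw [h, h']
  have hR : ∫⁻ v, ∑' n, (W n).indicator 1 v ≤
      ∫⁻ v, su (Zsw Z) (fun p => if t (p.2, p.1) < r then 1 else 0) v := by
    apply lintegral_mono
    intro v
    unfold su
    refine H3_tsum_le _ _ (fun n u => u ∈ U n ∧ f n u = v) ?_ ?_
    · intro n hn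
      have hv : v ∈ W n := by
        by_contra h
        rw [indicator_of_notMem h] at hn
        exact hn rfl
      obtain ⟨u, hu, huv⟩ := hv
      refine ⟨u, ⟨hu, huv⟩, ?_⟩
      have hZ : (v, u) ∈ Zsw Z := by
        change (u, v) ∈ Z
        rw [← huv]
        exact (hgood n).1.2.2 u (hUball n hu)
      rw [indicator_of_mem hZ]
      have htu : t (u, v) < r := by
        rw [← huv]; exact hu.1.2
      simp only [htu, if_true]
      exact indicator_le_self' (fun _ _ => zero_le) v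
    · rintro n m u ⟨hn, hn'⟩ ⟨hm, hm'⟩
      exact hdisj n m u hn hm (hn'.trans hm'.symm)
  refine hL.trans (le_trans ?_ hR)
  rw [lintegral_tsum, lintegral_tsum]
  · exact (tsum_congr harea).le
  · intro n
    exact (measurable_one.indicator (hWm n)).aemeasurable
  · intro n
    refine (Measurable.indicator ?_ (hUm n)).aemeasurable
    exact ENNReal.measurable_ofReal.comp ((measurable_deriv (f n)).norm.pow_const 2)


/-- TARGET H3: change of variables between the two projections -/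
theorem change_var {d : ℕ} {Z : Set (ℂ × ℂ)} {w : ℂ × ℂ → ℝ} {t : ℂ × ℂ → ℝ≥0∞} {N : Set ℂ}
    (hN : N.Countable) (hS : ∀ u, u ∉ N → Sheets d Z u) (hw : IsSlope Z w) (ht : LipGraph Z t)
    (r : ℝ≥0) :
    ∫⁻ u, su Z (fun p => if t p < r then ENNReal.ofReal (w p) else 0) u ≤
      ∫⁻ v, su (Zsw Z) (fun p => if t (p.2, p.1) < r then 1 else 0) v := by
  classical
  set R : Set (ℂ × ℂ) := {p | p ∈ Z ∧ p.1 ∉ N ∧ w p ≠ 0} with hR
  have hpc : ∀ p : ℂ × ℂ, ∃ (δ : ℝ) (f : ℂ → ℂ), p ∈ R → H3_Good Z p.1 δ f ∧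
      ∀ᶠ q in 𝓝 p, q ∈ Z → q.1 ∈ Metric.ball p.1 δ ∧ q.2 = f q.1 := by
    intro p
    by_cases hp : p ∈ R
    · obtain ⟨δ, f, h1, h2⟩ := H3_piece (hS p.1 hp.2.1) hw hp.1 hp.2.2
      exact ⟨δ, f, fun _ => ⟨h1, h2⟩⟩
    · exact ⟨0, 0, fun h => absurd h hp⟩
  choose δ f hδf using hpc
  obtain ⟨T, hTR, hTc, hcov⟩ := TopologicalSpace.countable_cover_nhdsWithin
    (f := fun p => {q : ℂ × ℂ | q.1 ∈ Metric.ball p.1 (δ p) ∧ q.2 = f p q.1}) (s := R) (by
      intro p hp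
      rw [mem_nhdsWithin_iff_eventually]
      filter_upwards [(hδf p hp).2] with q hq hqR
      exact hq hqR.1)
  by_cases hT : T.Nonempty
  · obtain ⟨g, hg⟩ := hTc.exists_eq_range hT
    have hgR : ∀ n, g n ∈ R := fun n => hTR (hg ▸ mem_range_self n)
    refine H3_main hN hw ht r (fun n => (g n).1) (fun n => δ (g n)) (fun n => f (g n))
      (fun n => (hδf (g n) (hgR n)).1) ?_
    intro p hp hpN hwp
    have := hcov (show p ∈ R from ⟨hp, hpN, hwp⟩)
    simp only [mem_iUnion] at this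
    obtain ⟨x, hxT, hx⟩ := this
    rw [hg] at hxT
    obtain ⟨n, rfl⟩ := hxT
    exact ⟨n, hx⟩
  · have hRe : R = ∅ := by
      rw [Set.not_nonempty_iff_eq_empty] at hT
      rw [hT] at hcov
      simpa using hcov
    have hzero : ∫⁻ u, su Z (fun p => if t p < r then ENNReal.ofReal (w p) else 0) u = 0 := by
      have hae : ∀ᵐ u : ℂ, u ∉ N := by
        have := hN.measure_zero (volume : Measure ℂ)
        exact measure_eq_zero_iff_ae_notMem.1 this
      have : ∀ᵐ u : ℂ, su Z (fun p => if t p < r then ENNReal.ofReal (w p) else 0) u = 0 := by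
        filter_upwards [hae] with u hu
        unfold su
        rw [ENNReal.tsum_eq_zero]
        intro v
        by_cases hv : (u, v) ∈ Z
        · rw [indicator_of_mem hv]
          have : w (u, v) = 0 := by
            by_contra h
            have : (u, v) ∈ R := ⟨hv, hu, h⟩
            rw [hRe] at this
            exact this
          simp [this]
        · rw [indicator_of_notMem hv]
      rw [lintegral_congr_ae this]
      simp
    rw [hzero]
    exact zero_le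


/-! ### H4a -/

/-- auxiliary: the induction -/
theorem H4a_ind {V : ℝ≥0 → ℝ≥0∞} {r0 : ℝ≥0} (h0 : 0 < r0)
    (h : ∀ r : ℝ≥0, 0 < r → r ≤ r0 → ((r : ℝ≥0∞) / 2) ^ 2 * V (r / 2) ≤ 2 * V r ^ 2)
    {ρ : ℝ≥0} (hρ : V r0 ≤ ((ρ * r0 ^ 2 / 32 : ℝ≥0) : ℝ≥0∞)) (k : ℕ) :
    V (r0 / 2 ^ k) ≤ ((ρ ^ 2 ^ k * (r0 / 2 ^ k) ^ 2 / 32 : ℝ≥0) : ℝ≥0∞) := by
  induction k with
  | zero => simpa using hρ
  | succ k ih =>
    set r : ℝ≥0 := r0 / 2 ^ k with hr
    have hr0 : 0 < r := by positivity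
    have hrr : r ≤ r0 := div_le_self (zero_le) (one_le_pow₀ (by norm_num))
    have h1 := h r hr0 hrr
    have e1 : r0 / 2 ^ (k + 1) = r / 2 := by rw [hr, pow_succ, div_div]
    rw [e1]
    have e2 : ((r : ℝ≥0∞) / 2) ^ 2 = (((r / 2) ^ 2 : ℝ≥0) : ℝ≥0∞) := by
      rw [ENNReal.coe_pow, ENNReal.coe_div (r := 2) (p := r) (by norm_num)]
      rfl
    rw [e2] at h1
    have h2 : 2 * V r ^ 2 ≤ (((r / 2) ^ 2 * (ρ ^ 2 ^ (k + 1) * (r / 2) ^ 2 / 32) : ℝ≥0) : ℝ≥0∞) := by
      calc 2 * V r ^ 2 ≤ 2 * ((ρ ^ 2 ^ k * r ^ 2 / 32 : ℝ≥0) : ℝ≥0∞) ^ 2 := by gcongr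
        _ = ((2 * (ρ ^ 2 ^ k * r ^ 2 / 32) ^ 2 : ℝ≥0) : ℝ≥0∞) := by push_cast; rfl
        _ = _ := by
          congr 1
          rw [pow_succ 2 k, pow_mul]
          field_simp
          ring
    have h3 := h1.trans h2
    rw [ENNReal.coe_mul] at h3
    refine (ENNReal.mul_le_mul_iff_right ?_ ENNReal.coe_ne_top).1 h3
    have : (0 : ℝ≥0) < (r / 2) ^ 2 := by positivity
    exact_mod_cast this.ne'

/-- TARGET H4a: iteration of the growth inequality -/
theorem iterate_growth {V : ℝ≥0 → ℝ≥0∞} {r0 : ℝ≥0} (h0 : 0 < r0)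
    (h : ∀ r : ℝ≥0, 0 < r → r ≤ r0 → ((r : ℝ≥0∞) / 2) ^ 2 * V (r / 2) ≤ 2 * V r ^ 2)
    {c : ℝ≥0∞} (hc : 0 < c) (hpos : ∀ r : ℝ≥0, 0 < r → r ≤ r0 → c * (r : ℝ≥0∞) ^ 2 ≤ V r) :
    (r0 : ℝ≥0∞) ^ 2 / 32 ≤ V r0 := by
  by_contra hcon
  rw [not_le] at hcon
  have hfin : V r0 ≠ ⊤ := hcon.ne_top
  obtain ⟨v, hv⟩ : ∃ v : ℝ≥0, (v : ℝ≥0∞) = V r0 := ⟨(V r0).toNNReal, ENNReal.coe_toNNReal hfin⟩
  have e0 : (r0 : ℝ≥0∞) ^ 2 / 32 = ((r0 ^ 2 / 32 : ℝ≥0) : ℝ≥0∞) := by
    rw [ENNReal.coe_div (by norm_num), ENNReal.coe_pow]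
    rfl
  have hv1 : v < r0 ^ 2 / 32 := by
    rw [← hv, e0] at hcon
    exact_mod_cast hcon
  set ρ : ℝ≥0 := 32 * v / r0 ^ 2 with hρ
  have hr2 : 0 < r0 ^ 2 := by positivity
  have hρ1 : ρ < 1 := by
    rw [hρ, div_lt_one hr2]
    rw [lt_div_iff₀ (by norm_num)] at hv1
    rwa [mul_comm]
  have hρv : V r0 ≤ ((ρ * r0 ^ 2 / 32 : ℝ≥0) : ℝ≥0∞) := by
    rw [← hv]
    have : ρ * r0 ^ 2 / 32 = v := by
      rw [hρ]
      field_simp
    rw [this]
  have hk : ∀ k : ℕ, c ≤ (ρ : ℝ≥0∞) ^ k := by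
    intro k
    have h1 := H4a_ind h0 h hρv k
    have hr0 : 0 < r0 / 2 ^ k := by positivity
    have hrr : r0 / 2 ^ k ≤ r0 := div_le_self (zero_le) (one_le_pow₀ (by norm_num))
    have h2 := (hpos _ hr0 hrr).trans h1
    have h3 : ρ ^ 2 ^ k * (r0 / 2 ^ k) ^ 2 / 32 ≤ ρ ^ k * (r0 / 2 ^ k) ^ 2 := by
      calc ρ ^ 2 ^ k * (r0 / 2 ^ k) ^ 2 / 32 ≤ ρ ^ 2 ^ k * (r0 / 2 ^ k) ^ 2 :=
            div_le_self (zero_le) (by norm_num)
        _ ≤ ρ ^ k * (r0 / 2 ^ k) ^ 2 := by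
            gcongr ?_ * _
            exact pow_le_pow_of_le_one (zero_le) hρ1.le (Nat.lt_pow_self (by norm_num)).le
    have h4 : c * ((r0 / 2 ^ k : ℝ≥0) : ℝ≥0∞) ^ 2 ≤ (ρ : ℝ≥0∞) ^ k * ((r0 / 2 ^ k : ℝ≥0) : ℝ≥0∞) ^ 2 := by
      refine h2.trans ?_
      have h5 : ((ρ ^ k * (r0 / 2 ^ k) ^ 2 : ℝ≥0) : ℝ≥0∞) =
          (ρ : ℝ≥0∞) ^ k * ((r0 / 2 ^ k : ℝ≥0) : ℝ≥0∞) ^ 2 := by push_cast; rfl
      rw [← h5]
      exact_mod_cast h3
    refine (ENNReal.mul_le_mul_iff_left ?_ ?_).1 h4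
    · have : (0 : ℝ≥0) < (r0 / 2 ^ k) ^ 2 := by positivity
      exact_mod_cast this.ne'
    · exact ENNReal.pow_ne_top ENNReal.coe_ne_top
  have hlim : Filter.Tendsto (fun k : ℕ => (ρ : ℝ≥0∞) ^ k) Filter.atTop (nhds 0) :=
    ENNReal.tendsto_pow_atTop_nhds_zero_of_lt_one (by exact_mod_cast hρ1)
  have := ge_of_tendsto' hlim hk
  exact absurd this (not_le.2 hc)


/-! ### H4b -/

/-- TARGET H4b: small balls have positive area -/
theorem area_pos {Z : Set (ℂ × ℂ)} {t : ℂ × ℂ → ℝ≥0∞} (hl : LipGraph Z t) {c : ℂ} {δ : ℝ}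
    {f : ℂ → ℂ} (hf : GraphIn Z c δ f) (h0 : t (c, f c) = 0) {r0 : ℝ≥0} (hr0 : 0 < r0) :
    ∃ κ : ℝ≥0∞, 0 < κ ∧ ∀ r : ℝ≥0, 0 < r → r ≤ r0 →
      κ * (r : ℝ≥0∞) ^ 2 ≤ ∫⁻ u, su Z ({p | t p < r}.indicator 1) u := by
  have hf' := hf
  obtain ⟨hδ, hd, hZ⟩ := hf
  have hcont : ContinuousOn (deriv f) (Metric.ball c δ) :=
    (hd.deriv Metric.isOpen_ball).continuousOn
  have hsub : Metric.closedBall c (δ / 2) ⊆ Metric.ball c δ :=
    Metric.closedBall_subset_ball (by linarith)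
  obtain ⟨B, hB⟩ := (isCompact_closedBall c (δ / 2)).exists_bound_of_continuousOn
    (hcont.mono hsub)
  obtain ⟨L, hLdef⟩ : ∃ L : ℝ, L = 1 + B ^ 2 := ⟨_, rfl⟩
  have hL : 1 ≤ L := by rw [hLdef]; nlinarith [sq_nonneg B]
  have hBd : ∀ z ∈ Metric.closedBall c (δ / 2), 1 + ‖deriv f z‖ ^ 2 ≤ L := by
    intro z hz
    have h1 := hB z hz
    have h2 := norm_nonneg (deriv f z)
    rw [hLdef]
    nlinarith
  have hr0' : (0 : ℝ) < r0 := by exact_mod_cast hr0
  obtain ⟨k, hkdef⟩ : ∃ k : ℝ, k = min (δ / (2 * r0)) (1 / L) := ⟨_, rfl⟩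
  have hk : 0 < k := by
    rw [hkdef]
    exact lt_min (by positivity) (by positivity)
  refine ⟨ENNReal.ofReal k ^ 2 * NNReal.pi, ?_, ?_⟩
  · have h1 : ENNReal.ofReal k ≠ 0 := by
      rw [Ne, ENNReal.ofReal_eq_zero, not_le]; exact hk
    have h2 : (NNReal.pi : ℝ≥0∞) ≠ 0 := by
      rw [Ne, ENNReal.coe_eq_zero]
      exact NNReal.pi_pos.ne'
    exact pos_iff_ne_zero.2 (mul_ne_zero (pow_ne_zero 2 h1) h2)
  · intro r hr hrr
    have hr' : (0 : ℝ) < r := by exact_mod_cast hr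
    have hrr' : (r : ℝ) ≤ r0 := by exact_mod_cast hrr
    have hm1 : k * r ≤ δ / 2 := by
      calc k * r ≤ δ / (2 * r0) * r0 := by
            apply mul_le_mul _ hrr' hr'.le (by positivity)
            rw [hkdef]; exact min_le_left _ _
        _ = δ / 2 := by field_simp
    have hm2 : k * r * L ≤ r := by
      have h1 : k ≤ 1 / L := by rw [hkdef]; exact min_le_right _ _
      have h2 : k * L ≤ 1 := by
        rwa [le_div_iff₀ (by linarith)] at h1
      calc k * r * L = (k * L) * r := by ring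
        _ ≤ 1 * r := mul_le_mul_of_nonneg_right h2 hr'.le
        _ = r := one_mul _
    have key : ∀ u ∈ Metric.ball c (k * r), t (u, f u) < (r : ℝ≥0∞) := by
      intro u hu
      have hu1 : ‖u - c‖ < k * r := by rwa [Metric.mem_ball, dist_eq_norm] at hu
      have hc : c ∈ Metric.ball c δ := Metric.mem_ball_self hδ
      have hu2 : u ∈ Metric.ball c δ := by
        rw [Metric.mem_ball, dist_eq_norm]; linarith
      have h1 := hl c δ f hf' c hc u hu2
      rw [h0, zero_add] at h1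
      refine lt_of_le_of_lt h1 ?_
      have h2 : ∫⁻ s in Icc (0 : ℝ) 1,
          ENNReal.ofReal (‖u - c‖ * (1 + ‖deriv f (c + (s : ℂ) * (u - c))‖ ^ 2))
          ≤ ∫⁻ _s in Icc (0 : ℝ) 1, ENNReal.ofReal (‖u - c‖ * L) := by
        refine MeasureTheory.setLIntegral_mono' measurableSet_Icc ?_
        intro s hs
        refine ENNReal.ofReal_le_ofReal (mul_le_mul_of_nonneg_left (hBd _ ?_) (norm_nonneg _))
        rw [Metric.mem_closedBall, dist_eq_norm]
        have h3 : c + (s : ℂ) * (u - c) - c = (s : ℂ) * (u - c) := by ring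
        rw [h3, norm_mul]
        have h4 : ‖(s : ℂ)‖ ≤ 1 := by
          rw [Complex.norm_real, Real.norm_eq_abs, abs_of_nonneg hs.1]; exact hs.2
        calc ‖(s : ℂ)‖ * ‖u - c‖ ≤ 1 * ‖u - c‖ := mul_le_mul_of_nonneg_right h4 (norm_nonneg _)
          _ ≤ δ / 2 := by linarith
      refine lt_of_le_of_lt h2 ?_
      rw [MeasureTheory.setLIntegral_const, Real.volume_Icc]
      have h5 : ‖u - c‖ * L < r := by
        calc ‖u - c‖ * L < k * r * L := mul_lt_mul_of_pos_right hu1 (by linarith)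
          _ ≤ r := hm2
      have h6 : ENNReal.ofReal (‖u - c‖ * L) < (r : ℝ≥0∞) := by
        rw [← ENNReal.ofReal_coe_nnreal]
        exact (ENNReal.ofReal_lt_ofReal_iff hr').2 h5
      simpa using h6
    have key2 : ∀ u ∈ Metric.ball c (k * r), 1 ≤ su Z ({p | t p < r}.indicator 1) u := by
      intro u hu
      have hu2 : u ∈ Metric.ball c δ := by
        rw [Metric.mem_ball] at hu ⊢; linarith
      have h1 := ENNReal.le_tsum (f := fun v : ℂ => Z.indicator ({p : ℂ × ℂ | t p < r}.indicator 1) (u, v)) (f u)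
      refine le_trans ?_ h1
      show (1 : ℝ≥0∞) ≤ Z.indicator ({p : ℂ × ℂ | t p < r}.indicator 1) (u, f u)
      rw [Set.indicator_of_mem (hZ u hu2)]
      have h2 : (u, f u) ∈ {p : ℂ × ℂ | t p < r} := key u hu
      rw [Set.indicator_of_mem h2]
      rfl
    calc ENNReal.ofReal k ^ 2 * NNReal.pi * (r : ℝ≥0∞) ^ 2
        = volume (Metric.ball c (k * r)) := by
          rw [Complex.volume_ball, ENNReal.ofReal_mul hk.le, ENNReal.ofReal_coe_nnreal]
          ring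
      _ = ∫⁻ _u in Metric.ball c (k * r), 1 := by
          rw [MeasureTheory.setLIntegral_one]
      _ ≤ ∫⁻ u in Metric.ball c (k * r), su Z ({p | t p < r}.indicator 1) u :=
          MeasureTheory.setLIntegral_mono' Metric.isOpen_ball.measurableSet key2
      _ ≤ ∫⁻ u, su Z ({p | t p < r}.indicator 1) u :=
          MeasureTheory.setLIntegral_le_lintegral _ _


/-! ### H4c -/

theorem H4c_point {Z : Set (ℂ × ℂ)} {ι : Type*} (s : Finset ι) (E : ι → Set (ℂ × ℂ))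
    (hdisj : ∀ i ∈ s, ∀ j ∈ s, i ≠ j → ∀ p ∈ Z, p ∈ E i → p ∉ E j) (p : ℂ × ℂ) :
    ∑ i ∈ s, Z.indicator ((E i).indicator (1 : ℂ × ℂ → ℝ≥0∞)) p ≤ 1 := by
  classical
  by_cases hp : p ∈ Z
  · simp only [Set.indicator_of_mem hp]
    by_cases h : ∃ i ∈ s, p ∈ E i
    · obtain ⟨i, hi, hpi⟩ := h
      rw [Finset.sum_eq_single_of_mem i hi]
      · rw [Set.indicator_of_mem hpi]; simp
      · intro j hj hji
        exact Set.indicator_of_notMem (hdisj i hi j hj hji.symm p hp hpi) _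
    · push Not at h
      rw [Finset.sum_eq_zero]
      · exact zero_le_one
      · intro i hi
        exact Set.indicator_of_notMem (h i hi) _
  · simp [Set.indicator_of_notMem hp]

theorem H4c_fibre {d : ℕ} {Z : Set (ℂ × ℂ)} {u : ℂ} (hu : Sheets d Z u)
    {ι : Type*} (s : Finset ι) (E : ι → Set (ℂ × ℂ))
    (hdisj : ∀ i ∈ s, ∀ j ∈ s, i ≠ j → ∀ p ∈ Z, p ∈ E i → p ∉ E j) :
    ∑ i ∈ s, su Z ((E i).indicator 1) u ≤ d := by
  classical
  obtain ⟨δ, hδ, f, -, -, hf⟩ := hu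
  have hf' := hf u (Metric.mem_ball_self hδ)
  set T : Finset ℂ := Finset.univ.image (fun i => f i u) with hT
  have h1 : ∀ i ∈ s, su Z ((E i).indicator 1) u =
      ∑ v ∈ T, Z.indicator ((E i).indicator (1 : ℂ × ℂ → ℝ≥0∞)) (u, v) := by
    intro i _
    unfold su
    refine tsum_eq_sum fun v hv => ?_
    refine Set.indicator_of_notMem (fun hZ => hv ?_) _
    obtain ⟨j, hj⟩ := (hf' v).1 hZ
    rw [hT, Finset.mem_image]
    exact ⟨j, Finset.mem_univ _, hj.symm⟩
  rw [Finset.sum_congr rfl h1, Finset.sum_comm]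
  calc ∑ v ∈ T, ∑ i ∈ s, Z.indicator ((E i).indicator (1 : ℂ × ℂ → ℝ≥0∞)) (u, v)
      ≤ ∑ v ∈ T, 1 := Finset.sum_le_sum fun v _ => H4c_point s E hdisj (u, v)
    _ = (T.card : ℝ≥0∞) := by simp
    _ ≤ d := by
        have : T.card ≤ d := by
          calc T.card ≤ (Finset.univ : Finset (Fin d)).card := Finset.card_image_le
            _ = d := by simp
        exact_mod_cast this

theorem H4c_half {d : ℕ} {Z : Set (ℂ × ℂ)} {Nu : Set ℂ} (hNu : Nu.Countable)
    (hu : ∀ u, u ∉ Nu → Sheets d Z u) {ι : Type*} (s : Finset ι) (E : ι → Set (ℂ × ℂ))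
    (hdisj : ∀ i ∈ s, ∀ j ∈ s, i ≠ j → ∀ p ∈ Z, p ∈ E i → p ∉ E j)
    (hsub : ∀ i ∈ s, ∀ p ∈ Z, p ∈ E i → ‖p.1‖ ≤ 2)
    (hm : ∀ i ∈ s, Measurable (su Z ((E i).indicator 1))) :
    ∑ i ∈ s, ∫⁻ u : ℂ, su Z ((E i).indicator 1) u ≤ ENNReal.ofReal (4 * Real.pi * d) := by
  rw [← lintegral_finsetSum s hm]
  have h1 : ∀ᵐ u : ℂ, ∑ i ∈ s, su Z ((E i).indicator 1) u ≤
      (Metric.closedBall (0 : ℂ) 2).indicator (fun _ => (d : ℝ≥0∞)) u := by
    have h0 : ∀ᵐ u : ℂ, u ∉ Nu := measure_eq_zero_iff_ae_notMem.1 (hNu.measure_zero volume)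
    filter_upwards [h0] with u hN
    by_cases h2 : u ∈ Metric.closedBall (0 : ℂ) 2
    · rw [Set.indicator_of_mem h2]
      exact H4c_fibre (hu u hN) s E hdisj
    · rw [Set.indicator_of_notMem h2, Finset.sum_eq_zero]
      intro i hi
      unfold su
      rw [ENNReal.tsum_eq_zero]
      intro v
      by_cases hZ : (u, v) ∈ Z
      · rw [Set.indicator_of_mem hZ]
        refine Set.indicator_of_notMem (fun hE => h2 ?_) _
        rw [Metric.mem_closedBall, dist_zero_right]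
        exact hsub i hi _ hZ hE
      · exact Set.indicator_of_notMem hZ _
  refine (lintegral_mono_ae h1).trans ?_
  rw [lintegral_indicator Metric.isClosed_closedBall.measurableSet, setLIntegral_const,
    Complex.volume_closedBall]
  have h3 : ENNReal.ofReal (4 * Real.pi * d) = (d : ℝ≥0∞) * (ENNReal.ofReal 2 ^ 2 * NNReal.pi) := by
    rw [ENNReal.ofReal_mul (by positivity), ENNReal.ofReal_mul (by norm_num), ENNReal.ofReal_natCast]
    have e1 : ENNReal.ofReal 4 = ENNReal.ofReal 2 ^ 2 := by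
      rw [← ENNReal.ofReal_pow (by norm_num)]; norm_num
    have e2 : ENNReal.ofReal Real.pi = (NNReal.pi : ℝ≥0∞) := by
      rw [← NNReal.coe_real_pi, ENNReal.ofReal_coe_nnreal]
    rw [e1, e2]
    ring
  rw [h3]

/-- TARGET H4c: total area -/
theorem area_sum {d : ℕ} {Z : Set (ℂ × ℂ)} {Nu Nv : Set ℂ} (hNu : Nu.Countable)
    (hNv : Nv.Countable) (hu : ∀ u, u ∉ Nu → Sheets d Z u)
    (hv : ∀ v, v ∉ Nv → Sheets d (Zsw Z) v) {ι : Type*} (s : Finset ι) (E : ι → Set (ℂ × ℂ))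
    (hdisj : ∀ i ∈ s, ∀ j ∈ s, i ≠ j → ∀ p ∈ Z, p ∈ E i → p ∉ E j)
    (hsub : ∀ i ∈ s, ∀ p ∈ Z, p ∈ E i → ‖p.1‖ ≤ 2 ∧ ‖p.2‖ ≤ 2)
    (hm : ∀ i ∈ s, Measurable (su Z ((E i).indicator 1)))
    (hm' : ∀ i ∈ s, Measurable (su (Zsw Z) ((Zsw (E i)).indicator 1))) :
    ∑ i ∈ s, area Z (E i) ≤ ENNReal.ofReal (8 * Real.pi * d) := by
  have h1 := H4c_half hNu hu s E hdisj (fun i hi p hp hpE => (hsub i hi p hp hpE).1) hm
  have h2 := H4c_half hNv hv s (fun i => Zsw (E i))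
    (fun i hi j hj hij p hp hpE => hdisj i hi j hj hij (p.2, p.1) hp hpE)
    (fun i hi p hp hpE => (hsub i hi (p.2, p.1) hp hpE).2) hm'
  unfold area
  rw [Finset.sum_add_distrib]
  refine (add_le_add h1 h2).trans ?_
  rw [← ENNReal.ofReal_add (by positivity) (by positivity)]
  refine ENNReal.ofReal_le_ofReal (le_of_eq ?_)
  ring


/-! ### S1a -/

open Polynomial in
theorem S1a_deg {R : Type*} [CommRing R] [Algebra ℂ R] {d : ℕ} {G : MvPolynomial (Fin 3) ℂ}
    (hG : G.IsHomogeneous d) (r : R) :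
    (MvPolynomial.aeval (![1, C r, X] : Fin 3 → R[X]) G).natDegree ≤ d ∧
      (MvPolynomial.aeval (![1, C r, X] : Fin 3 → R[X]) G).coeff d =
        algebraMap ℂ R (MvPolynomial.eval ![0, 0, 1] G) := by
  classical
  have hdeg : ∀ m ∈ G.support, m 0 + m 1 + m 2 = d := by
    intro m hm
    have h1 := hG (MvPolynomial.mem_support_iff.1 hm)
    rw [← h1, Finsupp.weight_apply, Finsupp.sum_fintype _ _ (by simp)]
    simp [Fin.sum_univ_three]
  have hsum : MvPolynomial.aeval (![1, C r, X] : Fin 3 → R[X]) G =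
      ∑ m ∈ G.support, C (algebraMap ℂ R (G.coeff m) * r ^ (m 1)) * X ^ (m 2) := by
    rw [MvPolynomial.aeval_def, MvPolynomial.eval₂_eq']
    refine Finset.sum_congr rfl ?_
    intro m _
    rw [Fin.prod_univ_three]
    simp only [Matrix.cons_val_zero, Matrix.cons_val_one, Matrix.cons_val_two, Matrix.head_cons,
      Matrix.tail_cons, one_pow, one_mul, Matrix.cons_val]
    rw [map_mul, map_pow, Polynomial.algebraMap_apply]
    ring
  rw [hsum]
  constructor
  · refine Polynomial.natDegree_sum_le_of_forall_le _ _ ?_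
    intro m hm
    refine (Polynomial.natDegree_C_mul_X_pow_le _ _).trans ?_
    have := hdeg m hm
    omega
  · rw [Polynomial.finsetSum_coeff, MvPolynomial.eval_eq', map_sum]
    refine Finset.sum_congr rfl ?_
    intro m hm
    rw [Fin.prod_univ_three]
    simp only [Matrix.cons_val_zero, Matrix.cons_val_one, Matrix.cons_val_two, Matrix.head_cons,
      Matrix.tail_cons, one_pow, mul_one, Matrix.cons_val]
    have h1 := hdeg m hm
    rw [Polynomial.coeff_C_mul, Polynomial.coeff_X_pow]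
    by_cases h2 : d = m 2
    · have h3 : m 0 = 0 := by omega
      have h4 : m 1 = 0 := by omega
      rw [if_pos h2, h3, h4]
      simp
    · rw [if_neg h2]
      have h3 : m 0 ≠ 0 ∨ m 1 ≠ 0 := by omega
      rcases h3 with h3 | h3 <;> simp [h3]

open Polynomial in
theorem S1a_chain (x : Fin 3 → ℂ[X]) (G : MvPolynomial (Fin 3) ℂ) :
    derivative (MvPolynomial.aeval x G) =
      ∑ i, MvPolynomial.aeval x (MvPolynomial.pderiv i G) * derivative (x i) := by
  induction G using MvPolynomial.induction_on with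
  | C a => simp [MvPolynomial.pderiv_C]
  | add p q hp hq =>
    simp only [map_add, hp, hq, add_mul, Finset.sum_add_distrib]
  | mul_X p j hp =>
    simp only [map_mul, MvPolynomial.aeval_X, derivative_mul, hp]
    have h1 : ∀ i, MvPolynomial.pderiv i (p * MvPolynomial.X j) =
        MvPolynomial.pderiv i p * MvPolynomial.X j + p * MvPolynomial.pderiv i (MvPolynomial.X j) := by
      intro i
      rw [MvPolynomial.pderiv_mul]
    simp only [h1, map_add, map_mul, MvPolynomial.aeval_X, add_mul, Finset.sum_add_distrib]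
    congr 1
    · rw [Finset.sum_mul]
      refine Finset.sum_congr rfl ?_
      intro i _
      ring
    · rw [Finset.sum_eq_single j]
      · simp
      · intro i _ hi
        rw [MvPolynomial.pderiv_X_of_ne (Ne.symm hi)]
        simp
      · simp

open Polynomial in
theorem S1a_ne {d : ℕ} {G : MvPolynomial (Fin 3) ℂ} (hG : IsSmoothForm 3 d G) (u v : ℂ)
    (h0 : MvPolynomial.eval ![1, u, v] G = 0)
    (h1 : MvPolynomial.eval ![1, u, v] (MvPolynomial.pderiv 1 G) = 0)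
    (h2 : MvPolynomial.eval ![1, u, v] (MvPolynomial.pderiv 2 G) = 0) : False := by
  have hne : (![1, u, v] : Fin 3 → ℂ) ≠ 0 := by
    intro h
    have := congrFun h 0
    simp at this
  obtain ⟨i, hi⟩ := hG.2 _ hne h0
  have hE := congrArg (MvPolynomial.eval ![1, u, v]) hG.1.sum_X_mul_pderiv
  rw [map_sum, Fin.sum_univ_three] at hE
  simp only [map_mul, MvPolynomial.eval_X, map_nsmul, h0, h1, h2] at hE
  simp at hE
  fin_cases i
  · exact hi hE
  · exact hi h1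
  · exact hi h2


open Polynomial in
/-- no square of a non constant polynomial divides the equation -/
theorem S1a_sq {d : ℕ} {G : MvPolynomial (Fin 3) ℂ} (hG : IsSmoothForm 3 d G)
    (q s : ℂ[X][X]) (hq : 1 ≤ q.natDegree)
    (h : MvPolynomial.aeval (![1, C X, X] : Fin 3 → ℂ[X][X]) G = q * q * s) : False := by
  have hq0 : q ≠ 0 := by
    intro h0; rw [h0, natDegree_zero] at hq; omega
  have hlc : q.leadingCoeff ≠ 0 := leadingCoeff_ne_zero.2 hq0
  obtain ⟨u, hu⟩ : ∃ u : ℂ, q.leadingCoeff.eval u ≠ 0 := by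
    by_contra hcon
    push Not at hcon
    exact hlc (Polynomial.funext (by simpa using hcon))
  have hdeg : (q.map (evalRingHom u)).natDegree = q.natDegree :=
    natDegree_map_of_leadingCoeff_ne_zero _ (by simpa using hu)
  obtain ⟨v, hv⟩ := IsAlgClosed.exists_root (q.map (evalRingHom u)) (by
    intro h0
    have h9 := natDegree_eq_zero_iff_degree_le_zero.2 (le_of_eq h0)
    omega)
  have hv' : (q.map (evalRingHom u)).eval v = 0 := hv
  -- the v-direction
  have e1 : (MvPolynomial.aeval (![1, C X, X] : Fin 3 → ℂ[X][X]) G).map (evalRingHom u) =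
      MvPolynomial.aeval (![1, C u, X] : Fin 3 → ℂ[X]) G := by
    have h1 : ((mapRingHom (evalRingHom u)).comp (algebraMap ℂ ℂ[X][X])) = algebraMap ℂ ℂ[X] := by
      ext a
      simp [Polynomial.algebraMap_apply]
    rw [← coe_mapRingHom, MvPolynomial.aeval_def, MvPolynomial.aeval_def, MvPolynomial.hom_eval₂, h1]
    congr 1
    funext i
    fin_cases i <;> simp
  have e2 : (MvPolynomial.aeval (![1, C X, X] : Fin 3 → ℂ[X][X]) G).eval (C v) =
      MvPolynomial.aeval (![1, X, C v] : Fin 3 → ℂ[X]) G := by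
    have h1 : ((evalRingHom (C v)).comp (algebraMap ℂ ℂ[X][X])) = algebraMap ℂ ℂ[X] := by
      ext a
      simp [Polynomial.algebraMap_apply]
    rw [← coe_evalRingHom, MvPolynomial.aeval_def, MvPolynomial.aeval_def, MvPolynomial.hom_eval₂, h1]
    congr 1
    funext i
    fin_cases i <;> simp
  have ev1 : ∀ H : MvPolynomial (Fin 3) ℂ,
      (MvPolynomial.aeval (![1, C u, X] : Fin 3 → ℂ[X]) H).eval v = MvPolynomial.eval ![1, u, v] H := by
    intro H
    have h1 : ((evalRingHom v).comp (algebraMap ℂ ℂ[X])) = RingHom.id ℂ := by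
      ext a
      simp [Polynomial.algebraMap_apply]
    rw [← coe_evalRingHom, MvPolynomial.aeval_def, MvPolynomial.hom_eval₂, h1, MvPolynomial.eval]
    simp only [MvPolynomial.coe_eval₂Hom]
    congr 1
    funext i
    fin_cases i <;> simp
  have ev2 : ∀ H : MvPolynomial (Fin 3) ℂ,
      (MvPolynomial.aeval (![1, X, C v] : Fin 3 → ℂ[X]) H).eval u = MvPolynomial.eval ![1, u, v] H := by
    intro H
    have h1 : ((evalRingHom u).comp (algebraMap ℂ ℂ[X])) = RingHom.id ℂ := by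
      ext a
      simp [Polynomial.algebraMap_apply]
    rw [← coe_evalRingHom, MvPolynomial.aeval_def, MvPolynomial.hom_eval₂, h1, MvPolynomial.eval]
    simp only [MvPolynomial.coe_eval₂Hom]
    congr 1
    funext i
    fin_cases i <;> simp
  have hqv : ((q.eval (C v)).eval u) = 0 := by
    have h1 : (q.map (evalRingHom u)).eval v = (q.eval (C v)).eval u := by
      rw [eval_map, ← coe_evalRingHom u, ← coe_evalRingHom (C v)]
      have h2 : (evalRingHom u) ((evalRingHom (C v)) q) = eval₂ (evalRingHom u) ((evalRingHom u) (C v)) q := by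
        rw [coe_evalRingHom (C v), eval, hom_eval₂]
        simp
      rw [h2]
      simp
    rw [← h1]; exact hv'
  refine S1a_ne hG u v ?_ ?_ ?_
  · rw [← ev1, ← e1, h]
    simp [hv']
  · have h3 := S1a_chain (![1, X, C v] : Fin 3 → ℂ[X]) G
    rw [Fin.sum_univ_three] at h3
    simp only [Matrix.cons_val_zero, Matrix.cons_val_one, Matrix.cons_val_two, Matrix.head_cons,
      Matrix.tail_cons, derivative_one, derivative_X, derivative_C, mul_zero, zero_add, add_zero,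
      mul_one] at h3
    rw [← ev2, ← h3, ← e2, h]
    simp only [eval_mul, derivative_mul, eval_add, hqv]
    ring
  · have h3 := S1a_chain (![1, C u, X] : Fin 3 → ℂ[X]) G
    rw [Fin.sum_univ_three] at h3
    simp only [Matrix.cons_val_zero, Matrix.cons_val_one, Matrix.cons_val_two, Matrix.head_cons,
      Matrix.tail_cons, derivative_one, derivative_X, derivative_C, mul_zero, zero_add, add_zero,
      mul_one] at h3
    rw [← ev1, ← h3, ← e1, h]
    simp only [Polynomial.map_mul, derivative_mul, eval_mul, eval_add, hv']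
    ring

open Polynomial in
theorem S1a_prim {d : ℕ} {G : MvPolynomial (Fin 3) ℂ} (hG : IsSmoothForm 3 d G)
    (h2 : MvPolynomial.eval ![0, 0, 1] G ≠ 0) :
    (MvPolynomial.aeval (![1, C X, X] : Fin 3 → ℂ[X][X]) G).IsPrimitive := by
  obtain ⟨_, hc⟩ := S1a_deg hG.1 (X : ℂ[X])
  intro r hr
  have h3 : r ∣ (MvPolynomial.aeval (![1, C X, X] : Fin 3 → ℂ[X][X]) G).coeff d :=
    (C_dvd_iff_dvd_coeff _ _).1 hr d
  rw [hc] at h3
  have hunit : IsUnit (algebraMap ℂ ℂ[X] (MvPolynomial.eval ![0, 0, 1] G)) := by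
    rw [Polynomial.algebraMap_apply]
    exact (isUnit_C).2 (isUnit_iff_ne_zero.2 (by simpa using h2))
  exact isUnit_of_dvd_unit h3 hunit

open Polynomial in
/-- the discriminant -/
theorem S1a_disc {d : ℕ} {G : MvPolynomial (Fin 3) ℂ} (hG : IsSmoothForm 3 d G)
    (h2 : MvPolynomial.eval ![0, 0, 1] G ≠ 0) :
    ∃ (D : ℂ[X]) (A B : ℂ[X][X]), D ≠ 0 ∧
      A * (MvPolynomial.aeval (![1, C X, X] : Fin 3 → ℂ[X][X]) G) +
        B * derivative (MvPolynomial.aeval (![1, C X, X] : Fin 3 → ℂ[X][X]) G) = C D := by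
  classical
  set p : ℂ[X][X] := MvPolynomial.aeval (![1, C X, X] : Fin 3 → ℂ[X][X]) G with hp
  have hprim : p.IsPrimitive := S1a_prim hG h2
  let _ : NormalizedGCDMonoid ℂ[X] := Classical.arbitrary _
  let K := FractionRing ℂ[X]
  have hinj : Function.Injective (algebraMap ℂ[X] K) := IsFractionRing.injective _ _
  have hinjP : Function.Injective (Polynomial.map (algebraMap ℂ[X] K)) := map_injective _ hinj
  have : CharZero K := charZero_of_injective_algebraMap hinj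
  have hsq : Squarefree (p.map (algebraMap ℂ[X] K)) := by
    intro q hq
    by_contra hnu
    have hpK : p.map (algebraMap ℂ[X] K) ≠ 0 := by
      intro h0
      exact hprim.ne_zero (hinjP (by simpa using h0))
    have hq0 : q ≠ 0 := by
      rintro rfl
      simp at hq
      exact hpK hq
    set n := IsLocalization.integerNormalization (nonZeroDivisors ℂ[X]) q with hn
    have hnp : ¬ IsUnit n.primPart := fun hu =>
      hnu (isUnit_or_eq_zero_of_isUnit_integerNormalization_primPart hq0 hu)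
    obtain ⟨b, hb, hbn⟩ := IsLocalization.integerNormalization_spec (nonZeroDivisors ℂ[X]) q
    have hb0 : algebraMap ℂ[X] K b ≠ 0 := by
      intro h0
      exact nonZeroDivisors.ne_zero hb (hinj (by simpa using h0))
    have hprimn : n.primPart.IsPrimitive := n.isPrimitive_primPart
    have hdvd : n.primPart.map (algebraMap ℂ[X] K) ∣ q := by
      have h3 : n.primPart.map (algebraMap ℂ[X] K) ∣ C (algebraMap ℂ[X] K b) * q := by
        have h4 : C (algebraMap ℂ[X] K b) * q = n.map (algebraMap ℂ[X] K) := by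
          rw [hbn, Algebra.smul_def]
          rfl
        rw [h4]
        conv_rhs => rw [n.eq_C_content_mul_primPart]
        rw [Polynomial.map_mul]
        exact dvd_mul_left _ _
      exact (IsUnit.dvd_mul_left (isUnit_C.2 (isUnit_iff_ne_zero.2 hb0))).1 h3
    have hdvd2 : (n.primPart * n.primPart).map (algebraMap ℂ[X] K) ∣ p.map (algebraMap ℂ[X] K) := by
      rw [Polynomial.map_mul]
      exact (mul_dvd_mul hdvd hdvd).trans hq
    have hdvd3 : n.primPart * n.primPart ∣ p :=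
      (hprimn.mul hprimn).dvd_of_fraction_map_dvd_fraction_map hdvd2
    obtain ⟨s, hs⟩ := hdvd3
    refine S1a_sq hG n.primPart s ?_ hs
    by_contra hcon
    have h0 : n.primPart.natDegree = 0 := by omega
    obtain ⟨c, hc⟩ := natDegree_eq_zero.1 h0
    apply hnp
    rw [← hc]
    have h6 : IsUnit c := hprimn c (by rw [hc])
    exact isUnit_C.2 h6
  have hsep : (p.map (algebraMap ℂ[X] K)).Separable := PerfectField.separable_iff_squarefree.2 hsq
  obtain ⟨a, b, hab⟩ := hsep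
  obtain ⟨α, hα, hα'⟩ := IsLocalization.integerNormalization_spec (nonZeroDivisors ℂ[X]) a
  obtain ⟨β, hβ, hβ'⟩ := IsLocalization.integerNormalization_spec (nonZeroDivisors ℂ[X]) b
  refine ⟨α * β, C β * IsLocalization.integerNormalization (nonZeroDivisors ℂ[X]) a,
    C α * IsLocalization.integerNormalization (nonZeroDivisors ℂ[X]) b,
    mul_ne_zero (nonZeroDivisors.ne_zero hα) (nonZeroDivisors.ne_zero hβ), ?_⟩
  apply hinjP
  rw [Polynomial.map_add, Polynomial.map_mul, Polynomial.map_mul, Polynomial.map_mul,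
    Polynomial.map_mul, hα', hβ', ← derivative_map, map_C, map_C, map_C, Algebra.smul_def,
    Algebra.smul_def]
  have e3 : ∀ x : ℂ[X], (algebraMap ℂ[X] K[X]) x = C (algebraMap ℂ[X] K x) := fun x => rfl
  rw [e3, e3, map_mul, map_mul]
  linear_combination (C (algebraMap ℂ[X] K α) * C (algebraMap ℂ[X] K β)) * hab

open Polynomial in
theorem S1a_map (G : MvPolynomial (Fin 3) ℂ) (u : ℂ) :
    (MvPolynomial.aeval (![1, C X, X] : Fin 3 → ℂ[X][X]) G).map (evalRingHom u) =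
      MvPolynomial.aeval (![1, C u, X] : Fin 3 → ℂ[X]) G := by
  have h1 : ((mapRingHom (evalRingHom u)).comp (algebraMap ℂ ℂ[X][X])) = algebraMap ℂ ℂ[X] := by
    ext a
    simp [Polynomial.algebraMap_apply]
  rw [← coe_mapRingHom, MvPolynomial.aeval_def, MvPolynomial.aeval_def, MvPolynomial.hom_eval₂, h1]
  congr 1
  funext i
  fin_cases i <;> simp

open Polynomial in
theorem S1a_ev (G : MvPolynomial (Fin 3) ℂ) (u v : ℂ) :
    (MvPolynomial.aeval (![1, C u, X] : Fin 3 → ℂ[X]) G).eval v =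
      MvPolynomial.eval ![1, u, v] G := by
  have h1 : ((evalRingHom v).comp (algebraMap ℂ ℂ[X])) = RingHom.id ℂ := by
    ext a
    simp [Polynomial.algebraMap_apply]
  rw [← coe_evalRingHom, MvPolynomial.aeval_def, MvPolynomial.hom_eval₂, h1, MvPolynomial.eval]
  simp only [MvPolynomial.coe_eval₂Hom]
  congr 1
  funext i
  fin_cases i <;> simp

theorem S1a_contDiff (G : MvPolynomial (Fin 3) ℂ) (n : ℕ∞ω) :
    ContDiff ℂ n (fun z : ℂ × ℂ => MvPolynomial.eval ![1, z.1, z.2] G) := by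
  induction G using MvPolynomial.induction_on with
  | C a => simpa using contDiff_const
  | add p q hp hq => simpa using hp.add hq
  | mul_X p j hp =>
    have hj : ContDiff ℂ n (fun z : ℂ × ℂ => (![1, z.1, z.2] : Fin 3 → ℂ) j) := by
      fin_cases j
      · simpa using contDiff_const
      · simpa using contDiff_fst
      · simpa using contDiff_snd
    simpa using hp.mul hj

open Polynomial in
theorem S1a_loc {d : ℕ} {G : MvPolynomial (Fin 3) ℂ} (hG : IsSmoothForm 3 d G)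
    (h2 : MvPolynomial.eval ![0, 0, 1] G ≠ 0) (u0 : ℂ)
    (hsep : (MvPolynomial.aeval (![1, C u0, X] : Fin 3 → ℂ[X]) G).Separable) :
    Sheets d (Zaff G) u0 := by
  classical
  set P : ℂ × ℂ → ℂ := fun z => MvPolynomial.eval ![1, z.1, z.2] G with hP
  have hcd : ContDiff ℂ 1 P := S1a_contDiff G 1
  have hlead : ∀ u : ℂ, (MvPolynomial.aeval (![1, C u, X] : Fin 3 → ℂ[X]) G).natDegree = d ∧
      (MvPolynomial.aeval (![1, C u, X] : Fin 3 → ℂ[X]) G) ≠ 0 := by
    intro u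
    obtain ⟨ha, hb⟩ := S1a_deg hG.1 u
    have hb' : (MvPolynomial.aeval (![1, C u, X] : Fin 3 → ℂ[X]) G).coeff d ≠ 0 := by
      rw [hb]; simpa using h2
    refine ⟨le_antisymm ha (le_natDegree_of_ne_zero hb'), ?_⟩
    intro h0
    rw [h0] at hb'
    exact hb' (coeff_zero d)
  set p0 := MvPolynomial.aeval (![1, C u0, X] : Fin 3 → ℂ[X]) G with hp0
  have hcard : p0.roots.toFinset.card = d := by
    rw [Multiset.toFinset_card_of_nodup (nodup_roots hsep)]
    rw [← (hlead u0).1]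
    exact (splits_iff_card_roots.1 (IsAlgClosed.splits p0))
  let e : Fin d ≃ p0.roots.toFinset := (Finset.equivFinOfCardEq hcard).symm
  let v0 : Fin d → ℂ := fun i => (e i : ℂ)
  have hv0inj : Function.Injective v0 := fun i j h => e.injective (Subtype.ext h)
  have hv0root : ∀ i, p0.eval (v0 i) = 0 := by
    intro i
    have h3 := (e i).2
    rw [Multiset.mem_toFinset, mem_roots (hlead u0).2] at h3
    exact h3
  have hder : ∀ i, (derivative p0).eval (v0 i) ≠ 0 := by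
    intro i
    exact Polynomial.Separable.eval₂_derivative_ne_zero (RingHom.id ℂ) hsep (hv0root i)
  -- invertibility
  have hinv : ∀ i, (fderiv ℂ P (u0, v0 i) ∘L .inr ℂ ℂ ℂ).IsInvertible := by
    intro i
    have h3 : HasDerivAt (fun v => P (u0, v)) ((fderiv ℂ P (u0, v0 i)) (0, 1)) (v0 i) := by
      have h4 : HasFDerivAt P (fderiv ℂ P (u0, v0 i)) (u0, v0 i) :=
        (hcd.differentiable (by norm_num)).differentiableAt.hasFDerivAt
      have h5 : HasDerivAt (fun v : ℂ => ((u0, v) : ℂ × ℂ)) ((0, 1) : ℂ × ℂ) (v0 i) :=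
        (hasDerivAt_const (v0 i) u0).prodMk (hasDerivAt_id (v0 i))
      exact h4.comp_hasDerivAt (v0 i) h5
    have h6 : HasDerivAt (fun v => P (u0, v)) ((derivative p0).eval (v0 i)) (v0 i) := by
      have h7 := p0.hasDerivAt (v0 i)
      have h8 : (fun v => P (u0, v)) = fun v => p0.eval v := by
        funext v
        rw [hp0, S1a_ev]
      rw [h8]
      exact h7
    have h9 : (fderiv ℂ P (u0, v0 i)) (0, 1) = (derivative p0).eval (v0 i) := h3.unique h6
    refine ⟨ContinuousLinearEquiv.unitsEquivAut ℂ (Units.mk0 _ (hder i)), ?_⟩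
    ext
    simp [h9]
  have hcda : ∀ i, ContDiffAt ℂ 1 P (u0, v0 i) := fun i => hcd.contDiffAt
  let f : Fin d → ℂ → ℂ := fun i => (hcda i).implicitFunction one_ne_zero (hinv i)
  have hf0 : ∀ i, f i u0 = v0 i := fun i => (hcda i).implicitFunction_apply_self one_ne_zero (hinv i)
  have hfP : ∀ i, ∀ᶠ u in 𝓝 u0, P (u, f i u) = 0 := by
    intro i
    have h3 := (hcda i).eventually_apply_implicitFunction one_ne_zero (hinv i)
    have h4 : P (u0, v0 i) = 0 := by
      have h5 := hv0root i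
      rw [hp0, S1a_ev] at h5
      exact h5
    filter_upwards [h3] with u hu
    rw [h4] at hu
    exact hu
  have hfd : ∀ i, ContDiffAt ℂ 1 (f i) u0 := fun i =>
    (hcda i).contDiffAt_implicitFunction one_ne_zero (hinv i)
  have hfd' : ∀ i, ∀ᶠ u in 𝓝 u0, DifferentiableAt ℂ (f i) u := by
    intro i
    filter_upwards [(hfd i).eventually (by simp)] with u hu
    exact hu.differentiableAt one_ne_zero
  have hinj : ∀ i j, i ≠ j → ∀ᶠ u in 𝓝 u0, f i u ≠ f j u := by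
    intro i j hij
    have h3 : f i u0 ≠ f j u0 := by
      rw [hf0, hf0]
      exact fun h => hij (hv0inj h)
    have h4 : ∀ᶠ u in 𝓝 u0, f i u - f j u ≠ 0 :=
      ((hfd i).continuousAt.sub (hfd j).continuousAt).eventually_ne (sub_ne_zero.2 h3)
    filter_upwards [h4] with u hu
    exact sub_ne_zero.1 hu
  have hall : ∀ᶠ u in 𝓝 u0, (∀ i, P (u, f i u) = 0 ∧ DifferentiableAt ℂ (f i) u) ∧
      ∀ i j, i ≠ j → f i u ≠ f j u := by
    refine Filter.Eventually.and ?_ ?_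
    · exact Filter.eventually_all.2 (fun i => (hfP i).and (hfd' i))
    · refine Filter.eventually_all.2 (fun i => Filter.eventually_all.2 (fun j => ?_))
      by_cases hij : i = j
      · exact Filter.Eventually.of_forall (fun u h => absurd hij h)
      · filter_upwards [hinj i j hij] with u hu _
        exact hu
  obtain ⟨δ, hδ, hball⟩ := Metric.eventually_nhds_iff_ball.1 hall
  refine ⟨δ, hδ, f, ?_, ?_, ?_⟩
  · intro i u hu
    exact (((hball u hu).1 i).2).differentiableWithinAt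
  · intro u hu i j hij
    by_contra hne
    exact (hball u hu).2 i j hne hij
  · intro u hu v
    have hroot : ∀ w, (u, w) ∈ Zaff G ↔
        w ∈ (MvPolynomial.aeval (![1, C u, X] : Fin 3 → ℂ[X]) G).roots.toFinset := by
      intro w
      rw [Multiset.mem_toFinset, mem_roots (hlead u).2, IsRoot, S1a_ev]
      rfl
    have hsub : Finset.univ.image (fun i => f i u) ⊆
        (MvPolynomial.aeval (![1, C u, X] : Fin 3 → ℂ[X]) G).roots.toFinset := by
      intro w hw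
      rw [Finset.mem_image] at hw
      obtain ⟨i, _, rfl⟩ := hw
      rw [← hroot]
      exact ((hball u hu).1 i).1
    have hinj' : Function.Injective (fun i => f i u) := by
      intro i j hij
      by_contra hne
      exact (hball u hu).2 i j hne hij
    have hcard' : (Finset.univ.image (fun i => f i u)).card = d := by
      rw [Finset.card_image_of_injective _ hinj', Finset.card_univ, Fintype.card_fin]
    have heq : Finset.univ.image (fun i => f i u) =
        (MvPolynomial.aeval (![1, C u, X] : Fin 3 → ℂ[X]) G).roots.toFinset := by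
      apply Finset.eq_of_subset_of_card_le hsub
      rw [hcard']
      calc _ ≤ (MvPolynomial.aeval (![1, C u, X] : Fin 3 → ℂ[X]) G).roots.card :=
            Multiset.toFinset_card_le _
        _ ≤ _ := card_roots' _
        _ = d := (hlead u).1
    rw [hroot, ← heq, Finset.mem_image]
    constructor
    · rintro ⟨i, _, rfl⟩
      exact ⟨i, rfl⟩
    · rintro ⟨i, rfl⟩
      exact ⟨i, Finset.mem_univ i, rfl⟩

open Polynomial in
theorem S1a_main {d : ℕ} {G : MvPolynomial (Fin 3) ℂ}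
    (hG : IsSmoothForm 3 d G) (h2 : MvPolynomial.eval ![0, 0, 1] G ≠ 0) :
    ∃ N : Set ℂ, (∀ R : ℝ, (N ∩ Metric.closedBall 0 R).Finite) ∧
      ∀ u, u ∉ N → Sheets d (Zaff G) u := by
  obtain ⟨D, A, B, hD, hAB⟩ := S1a_disc hG h2
  refine ⟨{u | D.eval u = 0}, ?_, ?_⟩
  · intro R
    refine Set.Finite.subset ?_ Set.inter_subset_left
    exact Polynomial.finite_setOfPred_isRoot hD
  · intro u hu
    apply S1a_loc hG h2 u
    have h3 := congrArg (Polynomial.map (evalRingHom u)) hAB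
    rw [Polynomial.map_add, Polynomial.map_mul, Polynomial.map_mul, ← derivative_map, map_C,
      S1a_map] at h3
    have hu' : (evalRingHom u) D ≠ 0 := hu
    refine ⟨C ((evalRingHom u) D)⁻¹ * A.map (evalRingHom u),
      C ((evalRingHom u) D)⁻¹ * B.map (evalRingHom u), ?_⟩
    have h4 : C ((evalRingHom u) D)⁻¹ * C ((evalRingHom u) D) = (1 : ℂ[X]) := by
      rw [← C_mul, inv_mul_cancel₀ hu', C_1]
    linear_combination (C ((evalRingHom u) D)⁻¹) * h3 + h4

/-- TARGET S1a: the sheets of a smooth plane curve -/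
theorem sheets_of_smooth {d : ℕ} (hd : 1 ≤ d) {G : MvPolynomial (Fin 3) ℂ}
    (hG : IsSmoothForm 3 d G) (h2 : MvPolynomial.eval ![0, 0, 1] G ≠ 0) :
    ∃ N : Set ℂ, (∀ R : ℝ, (N ∩ Metric.closedBall 0 R).Finite) ∧
      ∀ u, u ∉ N → Sheets d (Zaff G) u := by
  exact S1a_main hG h2


/-! ### S1b -/

/-- a coordinate -/
noncomputable def S1b_pr (i : Fin 3) : (Fin 3 → ℂ) →L[ℂ] ℂ :=
  ContinuousLinearMap.proj (R := ℂ) (φ := fun _ : Fin 3 => ℂ) i

theorem S1b_pr_apply (i : Fin 3) (v : Fin 3 → ℂ) : S1b_pr i v = v i := rfl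

/-- the differential of a polynomial -/
noncomputable def S1b_D (G : MvPolynomial (Fin 3) ℂ) (x : Fin 3 → ℂ) : (Fin 3 → ℂ) →L[ℂ] ℂ :=
  MvPolynomial.eval x (MvPolynomial.pderiv 0 G) • S1b_pr 0 +
  MvPolynomial.eval x (MvPolynomial.pderiv 1 G) • S1b_pr 1 +
  MvPolynomial.eval x (MvPolynomial.pderiv 2 G) • S1b_pr 2

theorem S1b_D_apply (G : MvPolynomial (Fin 3) ℂ) (x v : Fin 3 → ℂ) :
    S1b_D G x v = MvPolynomial.eval x (MvPolynomial.pderiv 0 G) * v 0 +
      MvPolynomial.eval x (MvPolynomial.pderiv 1 G) * v 1 +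
      MvPolynomial.eval x (MvPolynomial.pderiv 2 G) * v 2 := by
  simp [S1b_D, S1b_pr_apply]

theorem S1b_fderiv (G : MvPolynomial (Fin 3) ℂ) (x : Fin 3 → ℂ) :
    HasFDerivAt (fun x : Fin 3 → ℂ => MvPolynomial.eval x G) (S1b_D G x) x := by
  induction G using MvPolynomial.induction_on with
  | C a =>
    have h : S1b_D (MvPolynomial.C a) x = 0 := by
      ext v
      rw [S1b_D_apply]
      simp
    rw [h]
    simpa using hasFDerivAt_const a x
  | add p q hp hq =>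
    have h := hp.fun_add hq
    have e1 : (fun x : Fin 3 → ℂ => MvPolynomial.eval x (p + q)) =
        fun x : Fin 3 → ℂ => MvPolynomial.eval x p + MvPolynomial.eval x q := by
      funext y; simp
    rw [e1]
    refine h.congr_fderiv ?_
    apply ContinuousLinearMap.ext
    intro v
    rw [S1b_D_apply, add_apply, S1b_D_apply, S1b_D_apply]
    simp only [map_add]
    ring
  | mul_X p j hp =>
    have hX : HasFDerivAt (fun x : Fin 3 → ℂ => x j) (S1b_pr j) x := (S1b_pr j).hasFDerivAt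
    have h := hp.fun_mul hX
    have e1 : (fun x : Fin 3 → ℂ => MvPolynomial.eval x (p * MvPolynomial.X j)) =
        fun x : Fin 3 → ℂ => MvPolynomial.eval x p * x j := by
      funext y; simp
    rw [e1]
    refine h.congr_fderiv ?_
    apply ContinuousLinearMap.ext
    intro v
    rw [S1b_D_apply, add_apply, smul_apply, smul_apply, S1b_D_apply, S1b_pr_apply]
    simp only [MvPolynomial.pderiv_mul, MvPolynomial.pderiv_X, map_add, map_mul,
      MvPolynomial.eval_X, smul_eq_mul]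
    fin_cases j <;> simp <;> ring

/-- the equation of the curve in affine coordinates -/
noncomputable def S1b_P (G : MvPolynomial (Fin 3) ℂ) (p : ℂ × ℂ) : ℂ :=
  MvPolynomial.eval ![1, p.1, p.2] G

/-- Euler's identity and smoothness -/
theorem S1b_ne {d : ℕ} {G : MvPolynomial (Fin 3) ℂ} (hG : IsSmoothForm 3 d G) {p : ℂ × ℂ}
    (hp : p ∈ Zaff G) (h1 : S1b_P (MvPolynomial.pderiv 1 G) p = 0)
    (h2 : S1b_P (MvPolynomial.pderiv 2 G) p = 0) : False := by
  have hE := hG.1.sum_X_mul_pderiv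
  have hE' := congrArg (MvPolynomial.eval ![1, p.1, p.2]) hE
  have hp' : MvPolynomial.eval ![1, p.1, p.2] G = 0 := hp
  unfold S1b_P at h1 h2
  rw [Fin.sum_univ_three] at hE'
  simp only [map_add, map_mul, MvPolynomial.eval_X, map_nsmul, hp', h1, h2] at hE'
  have h0 : MvPolynomial.eval ![1, p.1, p.2] (MvPolynomial.pderiv 0 G) = 0 := by
    simpa using hE'
  have hx : (![1, p.1, p.2] : Fin 3 → ℂ) ≠ 0 := by
    intro h
    have := congrFun h 0
    simp at this
  obtain ⟨i, hi⟩ := hG.2 _ hx hp'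
  fin_cases i
  · exact hi h0
  · exact hi h1
  · exact hi h2

/-- derivative along a graph -/
theorem S1b_graph {G : MvPolynomial (Fin 3) ℂ} {f : ℂ → ℂ} {u : ℂ}
    (hf : DifferentiableAt ℂ f u) :
    HasDerivAt (fun s => S1b_P G (s, f s))
      (S1b_P (MvPolynomial.pderiv 1 G) (u, f u) +
        S1b_P (MvPolynomial.pderiv 2 G) (u, f u) * deriv f u) u := by
  have hc : HasDerivAt (fun s : ℂ => (![1, s, f s] : Fin 3 → ℂ)) ![0, 1, deriv f u] u := by
    rw [hasDerivAt_pi]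
    intro i
    fin_cases i
    · exact hasDerivAt_const u (1 : ℂ)
    · exact hasDerivAt_id u
    · exact hf.hasDerivAt
  have h := (S1b_fderiv G ![1, u, f u]).comp_hasDerivAt u hc
  refine h.congr_deriv ?_
  rw [S1b_D_apply]
  simp [S1b_P]

theorem S1b_contDiff (G : MvPolynomial (Fin 3) ℂ) : ContDiff ℂ 1 (S1b_P G) := by
  have h1 : ContDiff ℂ 1 (fun x : Fin 3 → ℂ => MvPolynomial.eval x G) :=
    (AnalyticOnNhd.eval_mvPolynomial (𝕜 := ℂ) G).contDiff
  have h2 : ContDiff ℂ 1 (fun p : ℂ × ℂ => (![1, p.1, p.2] : Fin 3 → ℂ)) := by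
    rw [contDiff_pi]
    intro i
    fin_cases i
    · exact contDiff_const
    · exact contDiff_fst
    · exact contDiff_snd
  exact h1.comp h2

/-- partial derivative in the second variable -/
theorem S1b_inr (G : MvPolynomial (Fin 3) ℂ) (p : ℂ × ℂ) (y : ℂ) :
    fderiv ℂ (S1b_P G) p (0, y) = S1b_P (MvPolynomial.pderiv 2 G) p * y := by
  have hd : HasFDerivAt (S1b_P G) (fderiv ℂ (S1b_P G) p) p :=
    ((S1b_contDiff G).differentiable (by norm_num) p).hasFDerivAt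
  have hc : HasDerivAt (fun s : ℂ => (p.1, p.2 + s * y)) (0, y) 0 := by
    refine HasDerivAt.prodMk (hasDerivAt_const _ _) ?_
    simpa using ((hasDerivAt_id (0 : ℂ)).mul_const y).const_add p.2
  have h1 : HasDerivAt (fun s : ℂ => S1b_P G (p.1, p.2 + s * y)) (fderiv ℂ (S1b_P G) p (0, y)) 0 := by
    have : HasFDerivAt (S1b_P G) (fderiv ℂ (S1b_P G) p) (p.1, p.2 + (0 : ℂ) * y) := by
      simpa using hd
    exact this.comp_hasDerivAt (0 : ℂ) hc
  have hc2 : HasDerivAt (fun s : ℂ => (![1, p.1, p.2 + s * y] : Fin 3 → ℂ)) ![0, 0, y] 0 := by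
    rw [hasDerivAt_pi]
    intro i
    fin_cases i
    · exact hasDerivAt_const _ (1 : ℂ)
    · exact hasDerivAt_const _ p.1
    · simpa using ((hasDerivAt_id (0 : ℂ)).mul_const y).const_add p.2
  have h2 := (S1b_fderiv G ![1, p.1, p.2 + 0 * y]).comp_hasDerivAt (0 : ℂ) hc2
  have h3 := h1.unique h2
  rw [h3, S1b_D_apply]
  simp [S1b_P]

/-- partial derivative in the first variable -/
theorem S1b_inl (G : MvPolynomial (Fin 3) ℂ) (p : ℂ × ℂ) (y : ℂ) :
    fderiv ℂ (S1b_P G) p (y, 0) = S1b_P (MvPolynomial.pderiv 1 G) p * y := by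
  have hd : HasFDerivAt (S1b_P G) (fderiv ℂ (S1b_P G) p) p :=
    ((S1b_contDiff G).differentiable (by norm_num) p).hasFDerivAt
  have hc : HasDerivAt (fun s : ℂ => (p.1 + s * y, p.2)) (y, 0) 0 := by
    refine HasDerivAt.prodMk ?_ (hasDerivAt_const _ _)
    simpa using ((hasDerivAt_id (0 : ℂ)).mul_const y).const_add p.1
  have h1 : HasDerivAt (fun s : ℂ => S1b_P G (p.1 + s * y, p.2)) (fderiv ℂ (S1b_P G) p (y, 0)) 0 := by
    have : HasFDerivAt (S1b_P G) (fderiv ℂ (S1b_P G) p) (p.1 + (0 : ℂ) * y, p.2) := by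
      simpa using hd
    exact this.comp_hasDerivAt (0 : ℂ) hc
  have hc2 : HasDerivAt (fun s : ℂ => (![1, p.1 + s * y, p.2] : Fin 3 → ℂ)) ![0, y, 0] 0 := by
    rw [hasDerivAt_pi]
    intro i
    fin_cases i
    · exact hasDerivAt_const _ (1 : ℂ)
    · simpa using ((hasDerivAt_id (0 : ℂ)).mul_const y).const_add p.1
    · exact hasDerivAt_const _ p.2
  have h2 := (S1b_fderiv G ![1, p.1 + 0 * y, p.2]).comp_hasDerivAt (0 : ℂ) hc2
  have h3 := h1.unique h2
  rw [h3, S1b_D_apply]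
  simp [S1b_P]

/-- implicit functions -/
theorem S1b_ift {Q : ℂ × ℂ → ℂ} {p : ℂ × ℂ} (hQ : ContDiffAt ℂ 1 Q p) {b : ℂ} (hb : b ≠ 0)
    (hd : ∀ y, fderiv ℂ Q p (0, y) = b * y) (h0 : Q p = 0) :
    ∃ δ > 0, ∃ f : ℂ → ℂ, DifferentiableOn ℂ f (Metric.ball p.1 δ) ∧
      (∀ u ∈ Metric.ball p.1 δ, Q (u, f u) = 0) ∧ f p.1 = p.2 := by
  have hinv : (fderiv ℂ Q p ∘L .inr ℂ ℂ ℂ).IsInvertible := by
    refine ⟨ContinuousLinearEquiv.unitsEquivAut ℂ (Units.mk0 b hb), ?_⟩
    ext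
    simp [hd]
  set f := hQ.implicitFunction one_ne_zero hinv with hf
  have h1 : f p.1 = p.2 := hQ.implicitFunction_apply_self one_ne_zero hinv
  have h2 := hQ.eventually_apply_implicitFunction one_ne_zero hinv
  have h3 : ContDiffAt ℂ 1 f p.1 := hQ.contDiffAt_implicitFunction one_ne_zero hinv
  have h4 : ∀ᶠ x in 𝓝 p.1, ContDiffAt ℂ 1 f x := h3.eventually (by simp)
  obtain ⟨δ, hδ, h5⟩ := Metric.eventually_nhds_iff_ball.1 (h2.and h4)
  refine ⟨δ, hδ, f, ?_, ?_, h1⟩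
  · intro x hx
    exact ((h5 x hx).2.differentiableAt (by norm_num)).differentiableWithinAt
  · intro u hu
    rw [(h5 u hu).1, h0]

/-- TARGET S1b: slopes -/
theorem slope_exists {d : ℕ} {G : MvPolynomial (Fin 3) ℂ} (hG : IsSmoothForm 3 d G) :
    ∃ w : ℂ × ℂ → ℝ, IsSlope (Zaff G) w := by
  refine ⟨fun p => ‖S1b_P (MvPolynomial.pderiv 1 G) p / S1b_P (MvPolynomial.pderiv 2 G) p‖ ^ 2, ?_⟩
  rintro c δ f ⟨hδ, hf, hZ⟩ u hu
  have hfu : DifferentiableAt ℂ f u := (hf u hu).differentiableAt (Metric.isOpen_ball.mem_nhds hu)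
  have h1 := S1b_graph (G := G) hfu
  have h2 : (fun s => S1b_P G (s, f s)) =ᶠ[𝓝 u] fun _ => 0 := by
    filter_upwards [Metric.isOpen_ball.mem_nhds hu] with s hs
    exact hZ s hs
  have h3 := (h1.congr_of_eventuallyEq h2.symm).unique (hasDerivAt_const u (0 : ℂ))
  have hv : S1b_P (MvPolynomial.pderiv 2 G) (u, f u) ≠ 0 := by
    intro hv
    rw [hv, zero_mul, add_zero] at h3
    exact S1b_ne hG (hZ u hu) h3 hv
  have h4 : deriv f u = - (S1b_P (MvPolynomial.pderiv 1 G) (u, f u) /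
      S1b_P (MvPolynomial.pderiv 2 G) (u, f u)) := by
    field_simp
    linear_combination h3
  simp only
  rw [h4, norm_neg]

/-- TARGET S1c: a graph through every point -/
theorem graph_through {d : ℕ} {G : MvPolynomial (Fin 3) ℂ} (hG : IsSmoothForm 3 d G)
    {p : ℂ × ℂ} (hp : p ∈ Zaff G) :
    (∃ δ f, GraphIn (Zaff G) p.1 δ f ∧ f p.1 = p.2) ∨
      ∃ δ f, GraphIn (Zsw (Zaff G)) p.2 δ f ∧ f p.2 = p.1 := by
  by_cases hv : S1b_P (MvPolynomial.pderiv 2 G) p = 0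
  · right
    have hu : S1b_P (MvPolynomial.pderiv 1 G) p ≠ 0 := fun h => S1b_ne hG hp h hv
    have hQ : ContDiffAt ℂ 1 (fun q : ℂ × ℂ => S1b_P G (q.2, q.1)) (p.2, p.1) :=
      ((S1b_contDiff G).comp (contDiff_snd.prodMk contDiff_fst)).contDiffAt
    have hd : ∀ y, fderiv ℂ (fun q : ℂ × ℂ => S1b_P G (q.2, q.1)) (p.2, p.1) (0, y) =
        S1b_P (MvPolynomial.pderiv 1 G) p * y := by
      intro y
      have e1 : (fun q : ℂ × ℂ => S1b_P G (q.2, q.1)) =
          S1b_P G ∘ (ContinuousLinearEquiv.prodComm ℂ ℂ ℂ) := by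
        funext q; rfl
      rw [e1, (ContinuousLinearEquiv.prodComm ℂ ℂ ℂ).comp_right_fderiv]
      exact S1b_inl G p y
    obtain ⟨δ, hδ, f, h1, h2, h3⟩ := S1b_ift hQ hu hd hp
    exact ⟨δ, f, ⟨hδ, h1, fun u hu => h2 u hu⟩, h3⟩
  · left
    obtain ⟨δ, hδ, f, h1, h2, h3⟩ := S1b_ift (S1b_contDiff G).contDiffAt hv
      (fun y => S1b_inr G p y) hp
    exact ⟨δ, f, ⟨hδ, h1, fun u hu => h2 u hu⟩, h3⟩


/-! ### S2 -/





theorem S2_spd_le {x v : CN 3} (hx : 1 ≤ ‖x‖) : spd x v ≤ ‖v‖ := by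
  unfold spd
  have h1 : √(‖x‖ ^ 2 * ‖v‖ ^ 2 - ‖inner ℂ x v‖ ^ 2) ≤ ‖x‖ * ‖v‖ := by
    apply Real.sqrt_le_iff.2
    refine ⟨by positivity, ?_⟩
    nlinarith [sq_nonneg ‖inner ℂ x v‖]
  rw [div_le_iff₀ (by positivity)]
  calc √(‖x‖ ^ 2 * ‖v‖ ^ 2 - ‖inner ℂ x v‖ ^ 2) ≤ ‖x‖ * ‖v‖ := h1
    _ ≤ ‖v‖ * ‖x‖ ^ 2 := by
        have : 0 ≤ ‖v‖ := norm_nonneg v
        nlinarith [mul_nonneg this (norm_nonneg x), mul_nonneg (mul_nonneg this (norm_nonneg x)) (sub_nonneg.2 hx)]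

theorem S2_norm_aff (a b : ℂ) : 1 ≤ ‖aff1 (a, b)‖ := by
  have h : ‖(aff1 (a, b)) 0‖ ≤ ‖aff1 (a, b)‖ := PiLp.norm_apply_le _ _
  simpa [aff1] using h

theorem S2_main (G : MvPolynomial (Fin 3) ℂ) (z : CN 3) (A B A' B' : ℝ → ℂ) (M : ℝ → ℝ)
    (hA : ∀ s ∈ Icc (0 : ℝ) 1, ContDiffAt ℝ ∞ A s) (hB : ∀ s ∈ Icc (0 : ℝ) 1, ContDiffAt ℝ ∞ B s)
    (hA' : ∀ s ∈ Icc (0 : ℝ) 1, HasDerivAt A (A' s) s)
    (hB' : ∀ s ∈ Icc (0 : ℝ) 1, HasDerivAt B (B' s) s)
    (hM : ∀ s ∈ Icc (0 : ℝ) 1, 0 ≤ M s ∧ ‖A' s‖ ^ 2 + ‖B' s‖ ^ 2 ≤ M s ^ 2)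
    (hZ : ∀ s ∈ Icc (0 : ℝ) 1, (A s, B s) ∈ Zaff G) :
    rho (ConeN G) z (aff1 (A 1, B 1)) ≤ rho (ConeN G) z (aff1 (A 0, B 0)) +
      ∫⁻ s in Icc (0 : ℝ) 1, ENNReal.ofReal (M s) := by
  set γ : ℝ → CN 3 := fun s => aff1 (A s, B s) with hγ
  have hd : ∀ s ∈ Icc (0 : ℝ) 1, HasDerivAt γ (WithLp.toLp 2 ![0, A' s, B' s]) s := by
    intro s hs
    rw [hasDerivAt_iff_hasFDerivAt, ← hasFDerivWithinAt_univ, hasFDerivWithinAt_piLp]
    intro i
    have key : ∀ (g : ℝ → ℂ) (g' : ℂ), HasDerivAt g g' s → (∀ t, (γ t) i = g t) →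
        ((WithLp.toLp 2 ![0, A' s, B' s] : CN 3) i = g') →
        HasFDerivWithinAt (fun x => γ x i) ((PiLp.proj (𝕜 := ℝ) 2 (fun _ : Fin 3 => ℂ) i) ∘L
          (ContinuousLinearMap.toSpanSingleton ℝ
            (WithLp.toLp 2 ![0, A' s, B' s] : CN 3))) univ s := by
      intro g g' hg h1 h2
      have e1 : (fun x => γ x i) = g := funext h1
      have e2 : ((PiLp.proj (𝕜 := ℝ) 2 (fun _ : Fin 3 => ℂ) i) ∘L
          (ContinuousLinearMap.toSpanSingleton ℝ
            (WithLp.toLp 2 ![0, A' s, B' s] : CN 3))) =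
          ContinuousLinearMap.toSpanSingleton ℝ g' := by
        ext
        simp only [ContinuousLinearMap.comp_apply, ContinuousLinearMap.toSpanSingleton_apply,
          one_smul]
        exact h2
      rw [e1, e2, hasFDerivWithinAt_univ]
      exact hg.hasFDerivAt
    fin_cases i
    · exact key (fun _ => 1) 0 (hasDerivAt_const _ _) (fun t => by simp [hγ, aff1]) (by simp)
    · exact key A (A' s) (hA' s hs) (fun t => by simp [hγ, aff1]) (by simp)
    · exact key B (B' s) (hB' s hs) (fun t => by simp [hγ, aff1]) (by simp)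
  have hsm : ContDiffOn ℝ ∞ γ (Icc 0 1) := by
    rw [contDiffOn_piLp]
    intro i
    fin_cases i
    · simpa [hγ, aff1] using contDiffOn_const
    · have : ContDiffOn ℝ ∞ A (Icc 0 1) := fun s hs => (hA s hs).contDiffWithinAt
      simpa [hγ, aff1] using this
    · have : ContDiffOn ℝ ∞ B (Icc 0 1) := fun s hs => (hB s hs).contDiffWithinAt
      simpa [hγ, aff1] using this
  have hC : ∀ t ∈ Icc (0 : ℝ) 1, γ t ∈ ConeN G := by
    intro t ht
    refine ⟨?_, ?_⟩
    · intro h0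
      have := S2_norm_aff (A t) (B t)
      rw [show aff1 (A t, B t) = γ t from rfl, h0, norm_zero] at this
      linarith
    · have h := hZ t ht
      have e : (fun i => γ t i) = ![1, A t, B t] := by
        funext i
        simp [hγ, aff1]
      rw [e]
      exact h
  refine (rho_triangle z (γ 0) (γ 1)).trans ?_
  refine add_le_add le_rfl ?_
  refine (rho_le_len zero_le_one hsm hC).trans ?_
  unfold len
  refine setLIntegral_mono' measurableSet_Icc ?_
  intro s hs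
  apply ENNReal.ofReal_le_ofReal
  rw [(hd s hs).deriv]
  refine (S2_spd_le (S2_norm_aff (A s) (B s))).trans ?_
  obtain ⟨h0, h1⟩ := hM s hs
  rw [EuclideanSpace.norm_eq]
  apply Real.sqrt_le_iff.2
  refine ⟨h0, ?_⟩
  rw [Fin.sum_univ_three]
  simpa using h1

theorem S2_path {c : ℂ} {δ : ℝ} {u u' : ℂ} (hu : u ∈ Metric.ball c δ) (hu' : u' ∈ Metric.ball c δ)
    {s : ℝ} (hs : s ∈ Icc (0 : ℝ) 1) : u + (s : ℂ) * (u' - u) ∈ Metric.ball c δ := by
  have h := (convex_ball c δ).add_smul_sub_mem hu hu' hs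
  simpa [Complex.real_smul] using h

theorem S2_pder (u u' : ℂ) (s : ℝ) :
    HasDerivAt (fun s : ℝ => u + (s : ℂ) * (u' - u)) (u' - u) s := by
  have h := ((hasDerivAt_id s).ofReal_comp.mul_const (u' - u)).const_add u
  simpa using h

theorem S2_psm (u u' : ℂ) (s : ℝ) :
    ContDiffAt ℝ ∞ (fun s : ℝ => u + (s : ℂ) * (u' - u)) s := by
  have h : ContDiff ℝ ∞ (fun s : ℝ => u + (s : ℂ) * (u' - u)) :=
    contDiff_const.add (Complex.ofRealCLM.contDiff.mul contDiff_const)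
  exact h.contDiffAt

theorem S2_fder {c : ℂ} {δ : ℝ} {f : ℂ → ℂ} (hf : DifferentiableOn ℂ f (Metric.ball c δ))
    {u u' : ℂ} (hu : u ∈ Metric.ball c δ) (hu' : u' ∈ Metric.ball c δ)
    {s : ℝ} (hs : s ∈ Icc (0 : ℝ) 1) :
    HasDerivAt (fun s : ℝ => f (u + (s : ℂ) * (u' - u)))
      (deriv f (u + (s : ℂ) * (u' - u)) * (u' - u)) s := by
  have h1 := S2_path hu hu' hs
  have h2 : HasDerivAt f (deriv f (u + (s : ℂ) * (u' - u))) (u + (s : ℂ) * (u' - u)) :=
    (hf.differentiableAt (Metric.isOpen_ball.mem_nhds h1)).hasDerivAt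
  exact HasDerivAt.scomp s h2 (S2_pder u u' s) |>.congr_deriv (by simp [mul_comm])

theorem S2_fsm {c : ℂ} {δ : ℝ} {f : ℂ → ℂ} (hf : DifferentiableOn ℂ f (Metric.ball c δ))
    {u u' : ℂ} (hu : u ∈ Metric.ball c δ) (hu' : u' ∈ Metric.ball c δ)
    {s : ℝ} (hs : s ∈ Icc (0 : ℝ) 1) :
    ContDiffAt ℝ ∞ (fun s : ℝ => f (u + (s : ℂ) * (u' - u))) s := by
  have h1 := S2_path hu hu' hs
  have h2 : ContDiffAt ℂ ∞ f (u + (s : ℂ) * (u' - u)) :=
    (hf.contDiffOn Metric.isOpen_ball).contDiffAt (Metric.isOpen_ball.mem_nhds h1)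
  have h3 : ContDiffAt ℝ ∞ f (u + (s : ℂ) * (u' - u)) := h2.restrict_scalars ℝ
  exact ContDiffAt.comp s h3 (S2_psm u u' s)

theorem S2_bound (a d : ℂ) : 0 ≤ ‖a‖ * (1 + ‖d‖ ^ 2) ∧
    ‖a‖ ^ 2 + ‖d * a‖ ^ 2 ≤ (‖a‖ * (1 + ‖d‖ ^ 2)) ^ 2 := by
  refine ⟨by positivity, ?_⟩
  rw [norm_mul]
  have h : 0 ≤ ‖a‖ ^ 2 * (‖d‖ ^ 2 + (‖d‖ ^ 2) ^ 2) := by positivity
  nlinarith

/-- TARGET S2a: the intrinsic distance is Lipschitz along graphs -/
theorem lipGraph_rho (G : MvPolynomial (Fin 3) ℂ) (z : CN 3) :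
    LipGraph (Zaff G) (fun p => rho (ConeN G) z (aff1 p)) := by
  intro c δ f hg u hu u' hu'
  obtain ⟨hδ, hf, hgr⟩ := hg
  have h := S2_main G z (fun s : ℝ => u + (s : ℂ) * (u' - u))
    (fun s : ℝ => f (u + (s : ℂ) * (u' - u))) (fun _ => u' - u)
    (fun s : ℝ => deriv f (u + (s : ℂ) * (u' - u)) * (u' - u))
    (fun s : ℝ => ‖u' - u‖ * (1 + ‖deriv f (u + (s : ℂ) * (u' - u))‖ ^ 2))
    (fun s _ => S2_psm u u' s) (fun s hs => S2_fsm hf hu hu' hs)
    (fun s _ => S2_pder u u' s) (fun s hs => S2_fder hf hu hu' hs)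
    (fun s _ => S2_bound _ _) (fun s hs => hgr _ (S2_path hu hu' hs))
  simpa using h

/-- TARGET S2b -/
theorem lipGraph_rho' (G : MvPolynomial (Fin 3) ℂ) (z : CN 3) :
    LipGraph (Zsw (Zaff G)) (fun p => rho (ConeN G) z (aff1 (p.2, p.1))) := by
  intro c δ f hg u hu u' hu'
  obtain ⟨hδ, hf, hgr⟩ := hg
  have h := S2_main G z (fun s : ℝ => f (u + (s : ℂ) * (u' - u)))
    (fun s : ℝ => u + (s : ℂ) * (u' - u))
    (fun s : ℝ => deriv f (u + (s : ℂ) * (u' - u)) * (u' - u)) (fun _ => u' - u)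
    (fun s : ℝ => ‖u' - u‖ * (1 + ‖deriv f (u + (s : ℂ) * (u' - u))‖ ^ 2))
    (fun s hs => S2_fsm hf hu hu' hs) (fun s _ => S2_psm u u' s)
    (fun s hs => S2_fder hf hu hu' hs) (fun s _ => S2_pder u u' s)
    (fun s _ => by
      obtain ⟨h1, h2⟩ := S2_bound (u' - u) (deriv f (u + (s : ℂ) * (u' - u)))
      exact ⟨h1, by linarith⟩)
    (fun s hs => hgr _ (S2_path hu hu' hs))
  simpa using h

/-- TARGET S2c: exchanging the coordinates -/
theorem swap_form {d : ℕ} {G : MvPolynomial (Fin 3) ℂ} (hG : IsSmoothForm 3 d G) :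
    IsSmoothForm 3 d (MvPolynomial.rename (Equiv.swap (1 : Fin 3) 2) G) ∧
      Zaff (MvPolynomial.rename (Equiv.swap (1 : Fin 3) 2) G) = Zsw (Zaff G) ∧
      MvPolynomial.eval ![0, 0, 1] (MvPolynomial.rename (Equiv.swap (1 : Fin 3) 2) G) =
        MvPolynomial.eval ![0, 1, 0] G := by
  have e0 : (Equiv.swap (1 : Fin 3) 2) 0 = 0 := by decide
  have e1 : (Equiv.swap (1 : Fin 3) 2) 1 = 2 := by decide
  have e2 : (Equiv.swap (1 : Fin 3) 2) 2 = 1 := by decide
  have hcomp : ∀ a b c : ℂ, (![a, b, c] : Fin 3 → ℂ) ∘ (Equiv.swap (1 : Fin 3) 2) =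
      ![a, c, b] := by
    intro a b c
    funext i
    fin_cases i
    · show (![a, b, c] : Fin 3 → ℂ) ((Equiv.swap (1 : Fin 3) 2) 0) = a
      rw [e0]; rfl
    · show (![a, b, c] : Fin 3 → ℂ) ((Equiv.swap (1 : Fin 3) 2) 1) = c
      rw [e1]; rfl
    · show (![a, b, c] : Fin 3 → ℂ) ((Equiv.swap (1 : Fin 3) 2) 2) = b
      rw [e2]; rfl
  refine ⟨⟨hG.1.rename_isHomogeneous, ?_⟩, ?_, ?_⟩
  · intro x hx hev
    rw [MvPolynomial.eval_rename] at hev
    have hx' : x ∘ (Equiv.swap (1 : Fin 3) 2) ≠ 0 := by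
      intro h
      apply hx
      funext i
      have := congrFun h ((Equiv.swap (1 : Fin 3) 2) i)
      simpa using this
    obtain ⟨i, hi⟩ := hG.2 _ hx' hev
    refine ⟨(Equiv.swap (1 : Fin 3) 2) i, ?_⟩
    rw [MvPolynomial.pderiv_rename (Equiv.injective _), MvPolynomial.eval_rename]
    exact hi
  · ext ⟨a, b⟩
    show MvPolynomial.eval ![1, a, b] (MvPolynomial.rename (Equiv.swap (1 : Fin 3) 2) G) = 0 ↔
      MvPolynomial.eval ![1, b, a] G = 0
    rw [MvPolynomial.eval_rename, hcomp]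
  · rw [MvPolynomial.eval_rename, hcomp]


/-! ### P1 -/






theorem P1_hasFDeriv {n : ℕ} (F : MvPolynomial (Fin n) ℂ) (x : CN n) :
    ∃ L : CN n →L[ℂ] ℂ, HasFDerivAt (fun y : CN n => MvPolynomial.eval (fun i => y i) F) L x ∧
      ∀ i, L (EuclideanSpace.single i 1) =
        MvPolynomial.eval (fun i => x i) (MvPolynomial.pderiv i F) := by
  induction F using MvPolynomial.induction_on with
  | C a =>
    refine ⟨0, ?_, ?_⟩
    · simpa using hasFDerivAt_const a x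
    · intro i; simp
  | add p q hp hq =>
    obtain ⟨L1, h1, h1'⟩ := hp
    obtain ⟨L2, h2, h2'⟩ := hq
    refine ⟨L1 + L2, ?_, ?_⟩
    · have h3 : HasFDerivAt (fun y : CN n => MvPolynomial.eval (fun i => y i) p +
          MvPolynomial.eval (fun i => y i) q) (L1 + L2) x := h1.add h2
      simpa using h3
    · intro i; simp [h1', h2']
  | mul_X p j hp =>
    obtain ⟨L1, h1, h1'⟩ := hp
    have hj : HasFDerivAt (fun y : CN n => y j) (EuclideanSpace.proj j : CN n →L[ℂ] ℂ) x :=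
      (EuclideanSpace.proj j : CN n →L[ℂ] ℂ).hasFDerivAt
    have h3 : HasFDerivAt (fun y : CN n => MvPolynomial.eval (fun i => y i) p * y j)
        (MvPolynomial.eval (fun i => x i) p • (EuclideanSpace.proj j : CN n →L[ℂ] ℂ) +
          x j • L1) x := h1.mul hj
    refine ⟨MvPolynomial.eval (fun i => x i) p • (EuclideanSpace.proj j : CN n →L[ℂ] ℂ) +
          x j • L1, ?_, ?_⟩
    · simpa using h3
    · intro i
      rw [Derivation.leibniz]
      simp only [ContinuousLinearMap.add_apply, ContinuousLinearMap.smul_apply, h1',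
        smul_eq_mul, map_add, map_mul, MvPolynomial.eval_X, MvPolynomial.pderiv_X]
      by_cases hij : j = i
      · subst hij; simp
      · simp [hij, Pi.single_apply, Ne.symm hij]

theorem P1_contDiff {n : ℕ} (F : MvPolynomial (Fin n) ℂ) :
    ContDiff ℂ ω (fun y : CN n => MvPolynomial.eval (fun i => y i) F) := by
  induction F using MvPolynomial.induction_on with
  | C a => simpa using contDiff_const
  | add p q hp hq => simpa using hp.add hq
  | mul_X p j hp =>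
    have hj : ContDiff ℂ ω (fun y : CN n => y j) :=
      (EuclideanSpace.proj j : CN n →L[ℂ] ℂ).contDiff
    simpa using hp.mul hj

/-- the straightening map -/
noncomputable def P1_Phi {n : ℕ} (F : MvPolynomial (Fin n) ℂ) (i : Fin n) (x : CN n) : CN n :=
  x + (MvPolynomial.eval (fun i => x i) F - x i) • EuclideanSpace.single i (1 : ℂ)

theorem P1_Phi_i {n : ℕ} (F : MvPolynomial (Fin n) ℂ) (i : Fin n) (x : CN n) :
    (P1_Phi F i x) i = MvPolynomial.eval (fun i => x i) F := by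
  simp [P1_Phi]

theorem P1_Phi_contDiff {n : ℕ} (F : MvPolynomial (Fin n) ℂ) (i : Fin n) :
    ContDiff ℂ ω (P1_Phi F i) := by
  have hj : ContDiff ℂ ω (fun y : CN n => y i) :=
      (EuclideanSpace.proj i : CN n →L[ℂ] ℂ).contDiff
  exact contDiff_id.add (((P1_contDiff F).sub hj).smul contDiff_const)

theorem P1_Phi_deriv {n : ℕ} (F : MvPolynomial (Fin n) ℂ) (i : Fin n) (x : CN n)
    (hi : MvPolynomial.eval (fun i => x i) (MvPolynomial.pderiv i F) ≠ 0) :
    ∃ e : CN n ≃L[ℂ] CN n, HasFDerivAt (P1_Phi F i) (e : CN n →L[ℂ] CN n) x := by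
  obtain ⟨L, hL, hL'⟩ := P1_hasFDeriv F x
  have hj : HasFDerivAt (fun y : CN n => y i) (EuclideanSpace.proj i : CN n →L[ℂ] ℂ) x :=
      (EuclideanSpace.proj i : CN n →L[ℂ] ℂ).hasFDerivAt
  have h1 : HasFDerivAt (P1_Phi F i) (ContinuousLinearMap.id ℂ (CN n) +
      (L - (EuclideanSpace.proj i : CN n →L[ℂ] ℂ)).smulRight
        (EuclideanSpace.single i (1 : ℂ))) x :=
    (hasFDerivAt_id x).add ((hL.sub hj).smul_const _)
  set D : CN n →L[ℂ] CN n := ContinuousLinearMap.id ℂ (CN n) +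
      (L - (EuclideanSpace.proj i : CN n →L[ℂ] ℂ)).smulRight
        (EuclideanSpace.single i (1 : ℂ)) with hD
  have hinj : Function.Injective (D : CN n →ₗ[ℂ] CN n) := by
    rw [← LinearMap.ker_eq_bot, LinearMap.ker_eq_bot']
    intro v hv
    have hv' : v + (L v - v i) • EuclideanSpace.single i (1 : ℂ) = 0 := by
      simpa [hD] using hv
    have hvi : ∀ j, j ≠ i → v j = 0 := by
      intro j hji
      have := congrArg (fun w : CN n => w j) hv'
      simpa [hji] using this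
    have hv2 : v = (v i) • EuclideanSpace.single i (1 : ℂ) := by
      ext j
      by_cases hji : j = i
      · subst hji; simp
      · simp [hji, hvi j hji]
    have h3 : L v = 0 := by
      have := congrArg (fun w : CN n => w i) hv'
      simpa using this
    have h4 : v i * MvPolynomial.eval (fun i => x i) (MvPolynomial.pderiv i F) = 0 := by
      rw [← hL' i, ← smul_eq_mul, ← map_smul, ← hv2, h3]
    have h5 : v i = 0 := by
      rcases mul_eq_zero.1 h4 with h | h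
      · exact h
      · exact absurd h hi
    rw [hv2, h5, zero_smul]
  refine ⟨(LinearEquiv.ofInjectiveEndo (D : CN n →ₗ[ℂ] CN n) hinj).toContinuousLinearEquiv, ?_⟩
  convert h1 using 1
  ext v
  rfl

theorem P1_spd_le {n : ℕ} (x v : CN n) : spd x v ≤ ‖v‖ / ‖x‖ := by
  unfold spd
  by_cases hx : ‖x‖ = 0
  · simp [hx]
  have hx' : 0 < ‖x‖ := lt_of_le_of_ne (norm_nonneg x) (Ne.symm hx)
  have h1 : √(‖x‖ ^ 2 * ‖v‖ ^ 2 - ‖inner ℂ x v‖ ^ 2) ≤ ‖x‖ * ‖v‖ := by
    rw [Real.sqrt_le_left (by positivity)]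
    nlinarith [sq_nonneg ‖inner ℂ x v‖]
  rw [div_le_div_iff₀ (by positivity) hx']
  calc √(‖x‖ ^ 2 * ‖v‖ ^ 2 - ‖inner ℂ x v‖ ^ 2) * ‖x‖ ≤ (‖x‖ * ‖v‖) * ‖x‖ := by gcongr
    _ = ‖v‖ * ‖x‖ ^ 2 := by ring

/-- TARGET P1: the cone is locally path connected with short paths -/
theorem local_path {n : ℕ} {F : MvPolynomial (Fin n) ℂ} {X : CN n} (hX : X ∈ ConeN F)
    (hs : ∃ i, MvPolynomial.eval (fun i => X i) (MvPolynomial.pderiv i F) ≠ 0) {ε : ℝ}
    (hε : 0 < ε) :
    ∃ δ > 0, ∀ X' ∈ ConeN F, ‖X' - X‖ < δ → rho (ConeN F) X X' ≤ ENNReal.ofReal ε := by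
  obtain ⟨i, hi⟩ := hs
  obtain ⟨e, he⟩ := P1_Phi_deriv F i X hi
  have hcd : ContDiffAt ℂ ω (P1_Phi F i) X := (P1_Phi_contDiff F i).contDiffAt
  have hω : (ω : WithTop ℕ∞) ≠ 0 := by decide
  have hst := hcd.hasStrictFDerivAt' he hω
  set Φ := P1_Phi F i with hΦ
  set Ψ := hcd.localInverse he hω with hΨ
  have hΨcd : ContDiffAt ℂ ω Ψ (Φ X) := hcd.to_localInverse he hω
  have hXn : 0 < ‖X‖ := norm_pos_iff.2 hX.1
  have hΨX : Ψ (Φ X) = X := hcd.localInverse_apply_image he hω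
  have hev1 : ∀ᶠ y in 𝓝 (Φ X), ContDiffAt ℂ ω Ψ y := hΨcd.eventually (by decide)
  have hev2 : ∀ᶠ y in 𝓝 (Φ X), Φ (Ψ y) = y := hst.eventually_right_inverse
  have hev3 : ∀ᶠ x in 𝓝 X, Ψ (Φ x) = x := hst.eventually_left_inverse
  have hfc : ContinuousAt (fderiv ℂ Ψ) (Φ X) :=
    (hΨcd.fderiv_right (m := 0) (by simp)).continuousAt
  set M : ℝ := ‖fderiv ℂ Ψ (Φ X)‖ + 1 with hM
  have hMpos : 0 < M := by positivity
  have hev4 : ∀ᶠ y in 𝓝 (Φ X), ‖fderiv ℂ Ψ y‖ < M := by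
    have := hfc.norm.eventually_lt_const (u := M) (by rw [hM]; linarith)
    exact this
  have hev5 : ∀ᶠ y in 𝓝 (Φ X), ‖Ψ y - X‖ < ‖X‖ / 2 := by
    have h1 : ContinuousAt (fun y => ‖Ψ y - X‖) (Φ X) :=
      (hΨcd.continuousAt.sub continuousAt_const).norm
    exact h1.eventually_lt_const (u := ‖X‖ / 2) (by
      show ‖Ψ (Φ X) - X‖ < ‖X‖ / 2
      rw [hΨX]; simpa using hXn)
  obtain ⟨r, hr, hball⟩ := Metric.eventually_nhds_iff_ball.1
    (hev1.and (hev2.and (hev4.and hev5)))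
  have hΦc : ContinuousAt Φ X := hcd.continuousAt
  set κ : ℝ := min r (ε * ‖X‖ / (2 * M)) with hκ
  have hκpos : 0 < κ := lt_min hr (by positivity)
  have hev6 : ∀ᶠ x in 𝓝 X, dist (Φ x) (Φ X) < κ := by
    exact hΦc.eventually (Metric.ball_mem_nhds _ hκpos)
  obtain ⟨δ, hδ, hball2⟩ := Metric.eventually_nhds_iff_ball.1 (hev3.and hev6)
  refine ⟨δ, hδ, fun X' hX' hd => ?_⟩
  obtain ⟨hl, hd2⟩ := hball2 X' (by simpa [dist_eq_norm] using hd)
  rw [dist_eq_norm] at hd2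
  set w := Φ X' - Φ X with hw
  have hwr : ‖w‖ < r := lt_of_lt_of_le hd2 (min_le_left _ _)
  have hwe : ‖w‖ < ε * ‖X‖ / (2 * M) := lt_of_lt_of_le hd2 (min_le_right _ _)
  set γ : ℝ → CN n := fun s => Ψ (Φ X + s • w) with hγ
  have hmem : ∀ s ∈ Icc (0 : ℝ) 1, Φ X + s • w ∈ Metric.ball (Φ X) r := by
    intro s hs
    rw [Metric.mem_ball, dist_eq_norm, add_sub_cancel_left, norm_smul, Real.norm_eq_abs,
      abs_of_nonneg hs.1]
    calc s * ‖w‖ ≤ 1 * ‖w‖ := by gcongr; exact hs.2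
      _ < r := by rw [one_mul]; exact hwr
  have hγ0 : γ 0 = X := by simp [hγ, hΨX]
  have hγ1 : γ 1 = X' := by simp [hγ, hw, hl]
  have hcdγ : ContDiffOn ℝ ∞ γ (Icc 0 1) := by
    intro s hs
    have h1 := (hball _ (hmem s hs)).1
    have h2 : ContDiffAt ℝ ∞ Ψ (Φ X + s • w) :=
      (h1.restrict_scalars ℝ).of_le (by exact le_top)
    have h3 : ContDiffAt ℝ ∞ (fun s : ℝ => Φ X + s • w) s :=
      (contDiff_const.add (contDiff_id.smul contDiff_const)).contDiffAt
    exact (h2.comp s h3).contDiffWithinAt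
  have hder : ∀ s ∈ Icc (0 : ℝ) 1, HasDerivAt γ (fderiv ℂ Ψ (Φ X + s • w) w) s := by
    intro s hs
    have h1 := (hball _ (hmem s hs)).1
    have h2 : HasFDerivAt Ψ (fderiv ℂ Ψ (Φ X + s • w)) (Φ X + s • w) :=
      (h1.differentiableAt hω).hasFDerivAt
    have h3 : HasDerivAt (fun s : ℝ => Φ X + s • w) w s := by
      simpa using ((hasDerivAt_id s).smul_const w).const_add (Φ X)
    exact (h2.restrictScalars ℝ).comp_hasDerivAt s h3
  have hin : ∀ s ∈ Icc (0 : ℝ) 1, γ s ∈ ConeN F := by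
    intro s hs
    obtain ⟨-, h2, -, h5⟩ := hball _ (hmem s hs)
    refine ⟨?_, ?_⟩
    · intro h0
      have : ‖γ s - X‖ < ‖X‖ / 2 := h5
      rw [h0, zero_sub, norm_neg] at this
      linarith
    · have h6 : (Φ (γ s)) i = (Φ X + s • w) i := by
        show (Φ (Ψ (Φ X + s • w))) i = _
        rw [h2]
      have h7 : (Φ X) i = 0 := by
        rw [hΦ, P1_Phi_i]; exact hX.2
      have h8 : (Φ X') i = 0 := by
        rw [hΦ, P1_Phi_i]; exact hX'.2
      have h9 : (Φ (γ s)) i = MvPolynomial.eval (fun i => (γ s) i) F := by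
        rw [hΦ, P1_Phi_i]
      rw [← h9, h6]
      simp [hw, h7, h8]
  have hlen : len γ 0 1 ≤ ENNReal.ofReal ε := by
    unfold len
    calc ∫⁻ t in Icc (0 : ℝ) 1, ENNReal.ofReal (spd (γ t) (deriv γ t))
        ≤ ∫⁻ t in Icc (0 : ℝ) 1, ENNReal.ofReal ε := by
          refine setLIntegral_mono measurable_const ?_
          intro t ht
          apply ENNReal.ofReal_le_ofReal
          refine (P1_spd_le _ _).trans ?_
          rw [(hder t ht).deriv]
          obtain ⟨-, -, h4, h5⟩ := hball _ (hmem t ht)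
          have h6 : ‖fderiv ℂ Ψ (Φ X + t • w) w‖ ≤ M * ‖w‖ :=
            (ContinuousLinearMap.le_opNorm _ _).trans (by gcongr)
          have h7 : ‖X‖ / 2 ≤ ‖γ t‖ := by
            have h8 : ‖γ t - X‖ < ‖X‖ / 2 := h5
            have h9 : ‖X‖ ≤ ‖γ t‖ + ‖γ t - X‖ := by
              have := norm_sub_le (γ t) (γ t - X)
              simpa using this
            linarith
          have h10 : M * ‖w‖ ≤ ε * (‖X‖ / 2) := by
            have h11 : M * ‖w‖ ≤ M * (ε * ‖X‖ / (2 * M)) := by gcongr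
            have h12 : M * (ε * ‖X‖ / (2 * M)) = ε * (‖X‖ / 2) := by
              field_simp
            linarith
          rw [div_le_iff₀ (by linarith)]
          calc _ ≤ M * ‖w‖ := h6
            _ ≤ ε * (‖X‖ / 2) := h10
            _ ≤ ε * ‖γ t‖ := by gcongr
      _ = ENNReal.ofReal ε := by
          simp
  have := (rho_le_len (S := ConeN F) zero_le_one hcdγ hin).trans hlen
  rwa [hγ0, hγ1] at this


/-! ### L1 -/

/-- local structure of both families -/
theorem L1_local {d : ℕ} {Z A B : Set (ℂ × ℂ)} {u0 : ℂ} (hS : Sheets d Z u0)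
    (hAB : Z = A ∪ B) (hdisj : Disjoint A B)
    (hgraph : ∀ (c : ℂ) (δ : ℝ) (f : ℂ → ℂ), GraphIn Z c δ f →
      (∀ u ∈ Metric.ball c δ, (u, f u) ∈ A) ∨ ∀ u ∈ Metric.ball c δ, (u, f u) ∈ B) :
    ∃ δ > 0, ∃ f : Fin d → ℂ → ℂ, ∃ IA IB : Finset (Fin d),
      (∀ i, DifferentiableOn ℂ (f i) (Metric.ball u0 δ)) ∧
      (∀ u ∈ Metric.ball u0 δ, Function.Injective (fun i => f i u)) ∧
      Disjoint IA IB ∧
      (∀ u ∈ Metric.ball u0 δ, ∀ v, (u, v) ∈ A ↔ ∃ i ∈ IA, v = f i u) ∧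
      (∀ u ∈ Metric.ball u0 δ, ∀ v, (u, v) ∈ B ↔ ∃ i ∈ IB, v = f i u) := by
  classical
  obtain ⟨δ, hδ, f, hf, hinj, hZ⟩ := hS
  have hgr : ∀ i, GraphIn Z u0 δ (f i) := fun i =>
    ⟨hδ, hf i, fun u hu => (hZ u hu _).2 ⟨i, rfl⟩⟩
  have hc : u0 ∈ Metric.ball u0 δ := Metric.mem_ball_self hδ
  have hno : ∀ p, p ∈ A → p ∈ B → False := fun p h1 h2 => Set.disjoint_left.1 hdisj h1 h2
  refine ⟨δ, hδ, f, Finset.univ.filter (fun i => (u0, f i u0) ∈ A),
    Finset.univ.filter (fun i => (u0, f i u0) ∈ B), hf, hinj, ?_, ?_, ?_⟩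
  · rw [Finset.disjoint_left]
    intro i h1 h2
    simp only [Finset.mem_filter, Finset.mem_univ, true_and] at h1 h2
    exact hno _ h1 h2
  · intro u hu v
    constructor
    · intro h
      obtain ⟨i, hi⟩ := (hZ u hu v).1 (by rw [hAB]; exact Or.inl h)
      refine ⟨i, ?_, hi⟩
      simp only [Finset.mem_filter, Finset.mem_univ, true_and]
      rcases hgraph _ _ _ (hgr i) with h1 | h1
      · exact h1 u0 hc
      · exact absurd (h1 u hu) (fun h2 => hno _ (hi ▸ h) h2)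
    · rintro ⟨i, hi, rfl⟩
      simp only [Finset.mem_filter, Finset.mem_univ, true_and] at hi
      rcases hgraph _ _ _ (hgr i) with h1 | h1
      · exact h1 u hu
      · exact absurd (h1 u0 hc) (fun h2 => hno _ hi h2)
  · intro u hu v
    constructor
    · intro h
      obtain ⟨i, hi⟩ := (hZ u hu v).1 (by rw [hAB]; exact Or.inr h)
      refine ⟨i, ?_, hi⟩
      simp only [Finset.mem_filter, Finset.mem_univ, true_and]
      rcases hgraph _ _ _ (hgr i) with h1 | h1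
      · exact absurd (h1 u hu) (fun h2 => hno _ h2 (hi ▸ h))
      · exact h1 u0 hc
    · rintro ⟨i, hi, rfl⟩
      simp only [Finset.mem_filter, Finset.mem_univ, true_and] at hi
      rcases hgraph _ _ _ (hgr i) with h1 | h1
      · exact absurd (h1 u0 hc) (fun h2 => hno _ h2 hi)
      · exact h1 u hu

/-- the product of the inverse differences -/
noncomputable def L1_P (A B : Set (ℂ × ℂ)) (u : ℂ) : ℂ :=
  ∏ᶠ p ∈ {p : ℂ × ℂ | (u, p.1) ∈ A ∧ (u, p.2) ∈ B}, (p.1 - p.2)⁻¹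

theorem L1_P_eq {d : ℕ} {A B : Set (ℂ × ℂ)} {u : ℂ} {f : Fin d → ℂ → ℂ}
    {IA IB : Finset (Fin d)} (hinj : Function.Injective (fun i => f i u))
    (hA : ∀ v, (u, v) ∈ A ↔ ∃ i ∈ IA, v = f i u) (hB : ∀ v, (u, v) ∈ B ↔ ∃ i ∈ IB, v = f i u) :
    L1_P A B u = ∏ q ∈ IA ×ˢ IB, (f q.1 u - f q.2 u)⁻¹ := by
  classical
  unfold L1_P
  have hset : {p : ℂ × ℂ | (u, p.1) ∈ A ∧ (u, p.2) ∈ B} =
      ↑((IA ×ˢ IB).image (fun q => (f q.1 u, f q.2 u))) := by
    ext ⟨v, w⟩
    simp only [Set.mem_ofPred_eq, Finset.coe_image, Set.mem_image, Finset.mem_coe,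
      Finset.mem_product, Prod.mk.injEq, Prod.exists, hA, hB]
    constructor
    · rintro ⟨⟨i, hi, h1⟩, ⟨j, hj, h2⟩⟩
      exact ⟨i, j, ⟨hi, hj⟩, h1.symm, h2.symm⟩
    · rintro ⟨i, j, ⟨hi, hj⟩, h1, h2⟩
      exact ⟨⟨i, hi, h1.symm⟩, ⟨j, hj, h2.symm⟩⟩
  rw [hset, finprod_mem_coe_finset, Finset.prod_image]
  rintro ⟨i, j⟩ _ ⟨i', j'⟩ _ h
  simp only [Prod.mk.injEq] at h
  exact Prod.ext (hinj h.1) (hinj h.2)

theorem L1_ncard {d : ℕ} {A : Set (ℂ × ℂ)} {u : ℂ} {f : Fin d → ℂ → ℂ}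
    {IA : Finset (Fin d)} (hinj : Function.Injective (fun i => f i u))
    (hA : ∀ v, (u, v) ∈ A ↔ ∃ i ∈ IA, v = f i u) :
    {v | (u, v) ∈ A}.ncard = IA.card := by
  classical
  have hset : {v | (u, v) ∈ A} = ↑(IA.image (fun i => f i u)) := by
    ext v
    simp only [Set.mem_ofPred_eq, Finset.coe_image, Set.mem_image, Finset.mem_coe, hA]
    constructor
    · rintro ⟨i, hi, h⟩; exact ⟨i, hi, h.symm⟩
    · rintro ⟨i, hi, h⟩; exact ⟨i, hi, h.symm⟩
  rw [hset, Set.ncard_coe_finset, Finset.card_image_of_injective _ hinj]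

/-- TARGET L1: a family of sheets over the plane cannot split -/
theorem liouville_sheets {d : ℕ} {Z A B : Set (ℂ × ℂ)} {N : Set ℂ}
    (hN : ∀ R : ℝ, (N ∩ Metric.closedBall 0 R).Finite) (hS : ∀ u, u ∉ N → Sheets d Z u)
    (hAB : Z = A ∪ B) (hdisj : Disjoint A B)
    (hgraph : ∀ (c : ℂ) (δ : ℝ) (f : ℂ → ℂ), GraphIn Z c δ f →
      (∀ u ∈ Metric.ball c δ, (u, f u) ∈ A) ∨ ∀ u ∈ Metric.ball c δ, (u, f u) ∈ B)
    (hnear : ∀ R : ℝ, ∃ κ > 0, ∀ u v w : ℂ, ‖u‖ ≤ R → (u, v) ∈ A → (u, w) ∈ B → κ ≤ ‖v - w‖)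
    (hinf : ∃ R κ : ℝ, 0 < κ ∧ ∀ u v w : ℂ, R ≤ ‖u‖ → (u, v) ∈ A → (u, w) ∈ B →
      κ * ‖u‖ ≤ ‖v - w‖)
    (hA : ∃ u, u ∉ N ∧ ∃ v, (u, v) ∈ A) (hB : ∃ u, u ∉ N ∧ ∃ v, (u, v) ∈ B) : False := by
  classical
  have hloc := fun u0 (h : u0 ∉ N) => L1_local (hS u0 h) hAB hdisj hgraph
  -- N is countable
  have hNc : N.Countable := by
    have : N = ⋃ n : ℕ, N ∩ Metric.closedBall 0 (n : ℝ) := by
      ext u
      simp only [Set.mem_iUnion, Set.mem_inter_iff, Metric.mem_closedBall, dist_zero_right]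
      constructor
      · intro h
        obtain ⟨n, hn⟩ := exists_nat_ge ‖u‖
        exact ⟨n, h, hn⟩
      · rintro ⟨n, h, _⟩; exact h
    rw [this]
    exact Set.countable_iUnion (fun n => (hN n).countable)
  have hconn : IsPreconnected (Nᶜ : Set ℂ) := by
    refine (hNc.isConnected_compl_of_one_lt_rank ?_).isPreconnected
    rw [Complex.rank_real_complex]
    exact Cardinal.one_lt_two
  have hdense : Dense (Nᶜ : Set ℂ) := hNc.dense_compl ℝ
  -- every point has a neighbourhood meeting N in at most that point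
  have hiso : ∀ c : ℂ, ∀ᶠ u in 𝓝[≠] c, u ∉ N := by
    intro c
    have h1 : ((N ∩ Metric.closedBall 0 (‖c‖ + 1)) \ {c}).Finite := (hN _).subset Set.sdiff_subset
    have h2 : ((N ∩ Metric.closedBall 0 (‖c‖ + 1)) \ {c})ᶜ ∈ 𝓝 c :=
      h1.isClosed.isOpen_compl.mem_nhds (by simp)
    have h3 : Metric.ball c 1 ∈ 𝓝 c := Metric.ball_mem_nhds c one_pos
    have h4 := Filter.inter_mem h2 h3
    rw [eventually_nhdsWithin_iff]
    filter_upwards [h4] with u hu hne hun
    apply hu.1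
    refine ⟨⟨hun, ?_⟩, hne⟩
    rw [Metric.mem_closedBall, dist_zero_right]
    have h5 := Metric.mem_ball.1 hu.2
    have h6 : ‖u‖ ≤ ‖c‖ + ‖u - c‖ := by
      calc ‖u‖ = ‖c + (u - c)‖ := by ring_nf
        _ ≤ _ := norm_add_le _ _
    rw [dist_eq_norm] at h5
    linarith
  have hopen : ∀ c : ℂ, c ∉ N → ∀ᶠ u in 𝓝 c, u ∉ N := by
    intro c hc
    have := hiso c
    rw [eventually_nhdsWithin_iff] at this
    filter_upwards [this] with u hu
    by_cases h : u = c
    · rw [h]; exact hc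
    · exact hu h
  -- counts are constant
  have hcount : ∀ (S : Set (ℂ × ℂ)), (∀ u0, u0 ∉ N → ∃ δ > 0, ∃ k : ℕ, ∀ u ∈ Metric.ball u0 δ,
      {v | (u, v) ∈ S}.ncard = k) → ∀ x y, x ∉ N → y ∉ N →
      {v | (x, v) ∈ S}.ncard = {v | (y, v) ∈ S}.ncard := by
    intro S hS x y hx hy
    have hcont : ContinuousOn (fun u => {v | (u, v) ∈ S}.ncard) (Nᶜ : Set ℂ) := by
      intro u0 hu0
      obtain ⟨δ, hδ, k, hk⟩ := hS u0 hu0
      apply ContinuousAt.continuousWithinAt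
      have : (fun u => {v | (u, v) ∈ S}.ncard) =ᶠ[𝓝 u0] fun _ => k := by
        filter_upwards [Metric.ball_mem_nhds u0 hδ] with u hu using hk u hu
      exact continuousAt_const.congr this.symm
    exact hconn.constant hcont hx hy
  have hcA := hcount A (by
    intro u0 hu0
    obtain ⟨δ, hδ, f, IA, IB, hf, hinj, _, hA', hB'⟩ := hloc u0 hu0
    exact ⟨δ, hδ, IA.card, fun u hu => L1_ncard (hinj u hu) (hA' u hu)⟩)
  have hcB := hcount B (by
    intro u0 hu0
    obtain ⟨δ, hδ, f, IA, IB, hf, hinj, _, hA', hB'⟩ := hloc u0 hu0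
    exact ⟨δ, hδ, IB.card, fun u hu => L1_ncard (hinj u hu) (hB' u hu)⟩)
  obtain ⟨ua, hua, va, hva⟩ := hA
  obtain ⟨ub, hub, vb, hvb⟩ := hB
  set a := {v | (ua, v) ∈ A}.ncard with ha
  set b := {v | (ub, v) ∈ B}.ncard with hb
  have ha1 : 1 ≤ a := by
    obtain ⟨δ, hδ, f, IA, IB, hf, hinj, _, hA', hB'⟩ := hloc ua hua
    rw [ha, L1_ncard (hinj ua (Metric.mem_ball_self hδ)) (hA' ua (Metric.mem_ball_self hδ))]
    obtain ⟨i, hi, _⟩ := (hA' ua (Metric.mem_ball_self hδ) va).1 hva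
    exact Finset.card_pos.2 ⟨i, hi⟩
  have hb1 : 1 ≤ b := by
    obtain ⟨δ, hδ, f, IA, IB, hf, hinj, _, hA', hB'⟩ := hloc ub hub
    rw [hb, L1_ncard (hinj ub (Metric.mem_ball_self hδ)) (hB' ub (Metric.mem_ball_self hδ))]
    obtain ⟨i, hi, _⟩ := (hB' ub (Metric.mem_ball_self hδ) vb).1 hvb
    exact Finset.card_pos.2 ⟨i, hi⟩
  have hab1 : 1 ≤ a * b := Nat.one_le_iff_ne_zero.2 (by positivity)
  -- bounds of the product
  have hbound : ∀ u, u ∉ N → ∀ κ : ℝ, 0 < κ → (∀ v w : ℂ, (u, v) ∈ A → (u, w) ∈ B → κ ≤ ‖v - w‖) →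
      ‖L1_P A B u‖ ≤ (κ⁻¹) ^ (a * b) := by
    intro u hu κ hκ h
    obtain ⟨δ, hδ, f, IA, IB, hf, hinj, _, hA', hB'⟩ := hloc u hu
    have hm := Metric.mem_ball_self (x := u) hδ
    rw [L1_P_eq (hinj u hm) (hA' u hm) (hB' u hm), norm_prod]
    have e1 : IA.card = a := by
      rw [← L1_ncard (hinj u hm) (hA' u hm)]
      exact hcA u ua hu hua
    have e2 : IB.card = b := by
      rw [← L1_ncard (hinj u hm) (hB' u hm)]
      exact hcB u ub hu hub
    calc ∏ q ∈ IA ×ˢ IB, ‖(f q.1 u - f q.2 u)⁻¹‖ ≤ ∏ q ∈ IA ×ˢ IB, κ⁻¹ := by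
          apply Finset.prod_le_prod
          · intro q _; exact norm_nonneg _
          · intro q hq
            rw [Finset.mem_product] at hq
            rw [norm_inv]
            apply inv_anti₀ hκ
            exact h _ _ ((hA' u hm _).2 ⟨q.1, hq.1, rfl⟩) ((hB' u hm _).2 ⟨q.2, hq.2, rfl⟩)
      _ = (κ⁻¹) ^ (a * b) := by
          rw [Finset.prod_const, Finset.card_product, e1, e2]
  have hne : ∀ u, u ∉ N → L1_P A B u ≠ 0 := by
    intro u hu
    obtain ⟨δ, hδ, f, IA, IB, hf, hinj, hd, hA', hB'⟩ := hloc u hu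
    have hm := Metric.mem_ball_self (x := u) hδ
    rw [L1_P_eq (hinj u hm) (hA' u hm) (hB' u hm), Finset.prod_ne_zero_iff]
    intro q hq
    rw [Finset.mem_product] at hq
    apply inv_ne_zero
    rw [sub_ne_zero]
    intro h
    have : q.1 = q.2 := hinj u hm h
    exact Finset.disjoint_left.1 hd hq.1 (this ▸ hq.2)
  have hdiff : ∀ u, u ∉ N → DifferentiableAt ℂ (L1_P A B) u := by
    intro u0 hu
    obtain ⟨δ, hδ, f, IA, IB, hf, hinj, hd, hA', hB'⟩ := hloc u0 hu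
    have h1 : (L1_P A B) =ᶠ[𝓝 u0] fun u => ∏ q ∈ IA ×ˢ IB, (f q.1 u - f q.2 u)⁻¹ := by
      filter_upwards [Metric.ball_mem_nhds u0 hδ] with u hu
      exact L1_P_eq (hinj u hu) (hA' u hu) (hB' u hu)
    refine DifferentiableAt.congr_of_eventuallyEq ?_ h1
    have hm := Metric.mem_ball_self (x := u0) hδ
    have hdf : ∀ i, DifferentiableAt ℂ (f i) u0 := fun i =>
      (hf i).differentiableAt (Metric.ball_mem_nhds u0 hδ)
    apply DifferentiableAt.fun_finsetProd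
    intro q hq
    rw [Finset.mem_product] at hq
    apply DifferentiableAt.fun_inv ((hdf q.1).fun_sub (hdf q.2))
    rw [sub_ne_zero]
    intro h
    have : q.1 = q.2 := hinj u0 hm h
    exact Finset.disjoint_left.1 hd hq.1 (this ▸ hq.2)
  -- entire extension
  set G : ℂ → ℂ := fun u => if u ∈ N then limUnder (𝓝[≠] u) (L1_P A B) else L1_P A B u with hG
  have hGeq : ∀ u, u ∉ N → G u = L1_P A B u := fun u hu => by simp [hG, hu]
  have hGdiff : Differentiable ℂ G := by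
    intro c
    by_cases hc : c ∈ N
    · -- isolated point
      have h1 : ∀ᶠ u in 𝓝 c, u ≠ c → u ∉ N := eventually_nhdsWithin_iff.1 (hiso c)
      obtain ⟨ε, hε, hball⟩ := Metric.eventually_nhds_iff_ball.1 h1
      obtain ⟨κ, hκ, hk⟩ := hnear (‖c‖ + ε)
      have h2 : DifferentiableOn ℂ (Function.update (L1_P A B) c
          (limUnder (𝓝[≠] c) (L1_P A B))) (Metric.ball c ε) := by
        apply Complex.differentiableOn_update_limUnder_of_bddAbove (Metric.ball_mem_nhds c hε)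
        · intro u hu
          exact (hdiff u (hball u hu.1 hu.2)).differentiableWithinAt
        · refine ⟨(κ⁻¹) ^ (a * b), ?_⟩
          rintro _ ⟨u, hu, rfl⟩
          apply hbound u (hball u hu.1 hu.2) κ hκ
          intro v w hv hw
          apply hk u v w _ hv hw
          have h5 := Metric.mem_ball.1 hu.1
          have h6 : ‖u‖ ≤ ‖c‖ + ‖u - c‖ := by
            calc ‖u‖ = ‖c + (u - c)‖ := by ring_nf
              _ ≤ _ := norm_add_le _ _
          rw [dist_eq_norm] at h5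
          linarith
      have h3 := h2.differentiableAt (Metric.ball_mem_nhds c hε)
      refine h3.congr_of_eventuallyEq ?_
      filter_upwards [Metric.ball_mem_nhds c hε] with u hu
      by_cases huc : u = c
      · subst huc
        simp [hG, hc]
      · rw [Function.update_of_ne huc]
        exact hGeq u (hball u hu huc)
    · refine (hdiff c hc).congr_of_eventuallyEq ?_
      filter_upwards [hopen c hc] with u hu using hGeq u hu
  obtain ⟨R, κ, hκ, hk⟩ := hinf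
  have hGb : ∀ u, max R (max 1 κ⁻¹) < ‖u‖ → ‖G u‖ ≤ (κ * ‖u‖)⁻¹ := by
    have hcl : IsClosed ({u : ℂ | ‖u‖ ≤ max R (max 1 κ⁻¹)} ∪ {u : ℂ | ‖G u‖ * (κ * ‖u‖) ≤ 1}) := by
      apply IsClosed.union
      · exact isClosed_le continuous_norm continuous_const
      · exact isClosed_le (hGdiff.continuous.norm.mul (continuous_const.mul continuous_norm))
          continuous_const
    have hsub : (Nᶜ : Set ℂ) ⊆
        ({u : ℂ | ‖u‖ ≤ max R (max 1 κ⁻¹)} ∪ {u : ℂ | ‖G u‖ * (κ * ‖u‖) ≤ 1}) := by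
      intro u hu
      by_cases hle : ‖u‖ ≤ max R (max 1 κ⁻¹)
      · exact Or.inl hle
      · right
        push Not at hle
        have hR : R < ‖u‖ := lt_of_le_of_lt (le_max_left _ _) hle
        have h1 : 1 < ‖u‖ := lt_of_le_of_lt ((le_max_left _ _).trans (le_max_right _ _)) hle
        have h2 : κ⁻¹ < ‖u‖ := lt_of_le_of_lt ((le_max_right _ _).trans (le_max_right _ _)) hle
        have h3 : 1 ≤ κ * ‖u‖ := by
          have := mul_lt_mul_of_pos_left h2 hκ
          rw [mul_inv_cancel₀ hκ.ne'] at this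
          exact this.le
        have h4 := hbound u hu (κ * ‖u‖) (by positivity) (fun v w hv hw => hk u v w hR.le hv hw)
        have h5 : ((κ * ‖u‖)⁻¹) ^ (a * b) ≤ (κ * ‖u‖)⁻¹ := by
          apply pow_le_of_le_one (by positivity) (inv_le_one_of_one_le₀ h3) (by omega)
        show ‖G u‖ * (κ * ‖u‖) ≤ 1
        rw [hGeq u hu]
        calc ‖L1_P A B u‖ * (κ * ‖u‖) ≤ (κ * ‖u‖)⁻¹ * (κ * ‖u‖) := by
              apply mul_le_mul_of_nonneg_right (h4.trans h5) (by positivity)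
          _ = 1 := inv_mul_cancel₀ (by positivity)
    have huniv := hdense.closure_eq ▸ closure_minimal hsub hcl
    intro u hu
    rcases huniv (Set.mem_univ u) with h | h
    · exact absurd h (not_le.2 hu)
    · have h1 : 1 < ‖u‖ := lt_of_le_of_lt ((le_max_left _ _).trans (le_max_right _ _)) hu
      have h2 : 0 < κ * ‖u‖ := by positivity
      rw [← one_div, le_div_iff₀ h2]
      exact h
  have hlim : Tendsto G (cocompact ℂ) (𝓝 0) := by
    rw [tendsto_zero_iff_norm_tendsto_zero]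
    have h1 : Tendsto (fun u : ℂ => (κ * ‖u‖)⁻¹) (cocompact ℂ) (𝓝 0) := by
      apply Tendsto.inv_tendsto_atTop
      exact Tendsto.const_mul_atTop hκ (tendsto_norm_cocompact_atTop (E := ℂ))
    refine squeeze_zero' (Eventually.of_forall (fun _ => norm_nonneg _)) ?_ h1
    filter_upwards [(tendsto_norm_cocompact_atTop (E := ℂ)).eventually_gt_atTop
      (max R (max 1 κ⁻¹))] with u hu using hGb u hu
  have hzero := hGdiff.apply_eq_of_tendsto_cocompact ua hlim
  rw [hGeq ua hua] at hzero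
  exact hne ua hua hzero


/-! ### G1 -/

/-- the pull-back of a form under the linear map with columns `B j` -/
noncomputable def pull {n m : ℕ} (B : Fin m → Fin n → ℂ) (F : MvPolynomial (Fin n) ℂ) :
    MvPolynomial (Fin m) ℂ :=
  MvPolynomial.bind₁ (fun i : Fin n => ∑ j, MvPolynomial.C (B j i) * MvPolynomial.X j) F

/-- TARGET G1a -/
theorem eval_pull {n m : ℕ} (B : Fin m → Fin n → ℂ) (F : MvPolynomial (Fin n) ℂ)
    (ξ : Fin m → ℂ) :
    MvPolynomial.eval ξ (pull B F) = MvPolynomial.eval (fun i => ∑ j, B j i * ξ j) F := by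
  induction F using MvPolynomial.induction_on with
  | C a => simp [pull]
  | add p q hp hq =>
    simp only [pull, map_add] at hp hq ⊢
    rw [hp, hq]
  | mul_X p i hp =>
    simp only [pull, map_mul, MvPolynomial.bind₁_X_right, MvPolynomial.eval_X, map_sum,
      MvPolynomial.eval_C] at hp ⊢
    rw [hp]

/-- TARGET G1b -/
theorem pull_homog {n m d : ℕ} (B : Fin m → Fin n → ℂ) {F : MvPolynomial (Fin n) ℂ}
    (hF : F.IsHomogeneous d) : (pull B F).IsHomogeneous d := by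
  have h := hF.aeval (fun i : Fin n => (∑ j, MvPolynomial.C (B j i) * MvPolynomial.X j :
    MvPolynomial (Fin m) ℂ)) (n := 1) (fun i => ?_)
  · rw [one_mul] at h
    exact h
  · refine MvPolynomial.IsHomogeneous.sum _ _ _ (fun j _ => ?_)
    have := (MvPolynomial.isHomogeneous_C (Fin m) (B j i)).mul
      (MvPolynomial.isHomogeneous_X ℂ j)
    simpa using this

theorem G1_pderiv_lin {n m : ℕ} (B : Fin m → Fin n → ℂ) (i : Fin n) (j : Fin m) :
    MvPolynomial.pderiv j (∑ k, MvPolynomial.C (B k i) * MvPolynomial.X k :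
      MvPolynomial (Fin m) ℂ) = MvPolynomial.C (B j i) := by
  rw [map_sum, Finset.sum_eq_single j]
  · rw [MvPolynomial.pderiv_C_mul, MvPolynomial.pderiv_X_self, mul_one]
  · intro k _ hk
    rw [MvPolynomial.pderiv_C_mul, MvPolynomial.pderiv_X_of_ne hk, mul_zero]
  · intro h
    exact absurd (Finset.mem_univ j) h

/-- TARGET G1c -/
theorem eval_pderiv_pull {n m : ℕ} (B : Fin m → Fin n → ℂ) (F : MvPolynomial (Fin n) ℂ)
    (ξ : Fin m → ℂ) (j : Fin m) :
    MvPolynomial.eval ξ (MvPolynomial.pderiv j (pull B F)) =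
      ∑ i, B j i * MvPolynomial.eval (fun i => ∑ j, B j i * ξ j) (MvPolynomial.pderiv i F) := by
  induction F using MvPolynomial.induction_on with
  | C a => simp [pull]
  | add p q hp hq =>
    have h1 : pull B (p + q) = pull B p + pull B q := by simp [pull]
    rw [h1, map_add, map_add, hp, hq, ← Finset.sum_add_distrib]
    refine Finset.sum_congr rfl (fun i _ => ?_)
    rw [map_add, map_add]
    ring
  | mul_X p i hp =>
    have h1 : pull B (p * MvPolynomial.X i) = pull B p *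
        (∑ k, MvPolynomial.C (B k i) * MvPolynomial.X k) := by
      simp [pull]
    rw [h1, Derivation.leibniz, smul_eq_mul, smul_eq_mul, map_add, map_mul, map_mul,
      G1_pderiv_lin, MvPolynomial.eval_C, hp, eval_pull]
    have h2 : MvPolynomial.eval ξ (∑ k, MvPolynomial.C (B k i) * MvPolynomial.X k) =
        ∑ k, B k i * ξ k := by
      simp
    rw [h2]
    have h3 : ∀ i', MvPolynomial.eval (fun i => ∑ j, B j i * ξ j)
        (MvPolynomial.pderiv i' (p * MvPolynomial.X i)) =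
        MvPolynomial.eval (fun i => ∑ j, B j i * ξ j) p * (if i' = i then 1 else 0) +
        (∑ k, B k i * ξ k) * MvPolynomial.eval (fun i => ∑ j, B j i * ξ j)
          (MvPolynomial.pderiv i' p) := by
      intro i'
      rw [Derivation.leibniz, smul_eq_mul, smul_eq_mul, map_add, map_mul, map_mul,
        MvPolynomial.eval_X]
      congr 2
      by_cases h : i' = i
      · subst h
        simp
      · rw [MvPolynomial.pderiv_X_of_ne (Ne.symm h), if_neg h, map_zero]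
    simp only [h3, mul_add, Finset.sum_add_distrib, Finset.mul_sum]
    congr 1
    · rw [Finset.sum_eq_single i]
      · rw [if_pos rfl]; ring
      · intro i' _ h
        rw [if_neg h]; ring
      · intro h
        exact absurd (Finset.mem_univ i) h
    · refine Finset.sum_congr rfl (fun i' _ => ?_)
      ring


/-! ### G2 -/





theorem G2_inst : (volume : Measure (Fin 3 → Fin 4 → ℂ)).IsAddHaarMeasure := by
  have : ∀ i : Fin 3, (volume : Measure (Fin 4 → ℂ)).IsAddHaarMeasure := fun _ => inferInstance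
  refine @Measure.pi.isAddHaarMeasure (Fin 3) (fun _ => Fin 4 → ℂ) _ _ (fun _ => volume) _ _ _ this
    (fun _ => inferInstance)

theorem G2_eval_scale {n d : ℕ} {F : MvPolynomial (Fin n) ℂ} (hF : F.IsHomogeneous d) (c : ℂ)
    (x : Fin n → ℂ) : MvPolynomial.eval (c • x) F = c ^ d * MvPolynomial.eval x F := by
  rw [MvPolynomial.eval_eq', MvPolynomial.eval_eq', Finset.mul_sum]
  apply Finset.sum_congr rfl
  intro m hm
  have h1 : ∑ i, m i = d := by
    have := hF (MvPolynomial.mem_support_iff.1 hm)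
    rw [← this, Finsupp.weight_apply, Finsupp.sum_fintype]
    · simp
    · simp
  have h2 : ∏ i, (c • x) i ^ m i = c ^ d * ∏ i, x i ^ m i := by
    rw [← h1, ← Finset.prod_pow_eq_pow_sum, ← Finset.prod_mul_distrib]
    apply Finset.prod_congr rfl
    intro i _
    rw [Pi.smul_apply, smul_eq_mul, mul_pow]
  rw [h2]
  ring

theorem G2_eval_line {n : ℕ} (F : MvPolynomial (Fin n) ℂ) (g : Fin n → Polynomial ℂ) (t : ℂ) :
    (MvPolynomial.aeval g F : Polynomial ℂ).eval t =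
      MvPolynomial.eval (fun i => (g i).eval t) F := by
  induction F using MvPolynomial.induction_on with
  | C a => simp
  | add p q hp hq => simp [hp, hq]
  | mul_X p i hp => simp [hp]

theorem G2_null_line {n d : ℕ} {F : MvPolynomial (Fin n) ℂ} (hF : F.IsHomogeneous d)
    {v : Fin n → ℂ} (hv : MvPolynomial.eval v F ≠ 0) (y : Fin n → ℂ) :
    ∀ᵐ t : ℂ, MvPolynomial.eval (y + t • v) F ≠ 0 := by
  set q : Polynomial ℂ := MvPolynomial.aeval
    (fun i => Polynomial.C (y i) + Polynomial.X * Polynomial.C (v i)) F with hq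
  have hq1 : ∀ t, q.eval t = MvPolynomial.eval (y + t • v) F := by
    intro t
    rw [hq, G2_eval_line]
    congr 1
    congr 1
    funext i
    simp only [Polynomial.eval_add, Polynomial.eval_mul, Polynomial.eval_C, Polynomial.eval_X,
      Pi.add_apply, Pi.smul_apply, smul_eq_mul]
  have hq0 : q ≠ 0 := by
    intro h0
    set q2 : Polynomial ℂ := MvPolynomial.aeval
      (fun i => Polynomial.C (y i) * Polynomial.X + Polynomial.C (v i)) F with hq2
    have hq21 : ∀ t, q2.eval t = MvPolynomial.eval (t • y + v) F := by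
      intro t
      rw [hq2, G2_eval_line]
      congr 1
      congr 1
      funext i
      simp only [Polynomial.eval_add, Polynomial.eval_mul, Polynomial.eval_C, Polynomial.eval_X,
        Pi.add_apply, Pi.smul_apply, smul_eq_mul]
      rw [mul_comm (y i) t]
    have h1 : ∀ t : ℂ, t ≠ 0 → q2.eval t = 0 := by
      intro t ht
      rw [hq21]
      have h2 : t • y + v = t • (y + t⁻¹ • v) := by
        rw [smul_add, smul_smul, mul_inv_cancel₀ ht, one_smul]
      rw [h2, G2_eval_scale hF, ← hq1, h0, Polynomial.eval_zero, mul_zero]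
    have h3 : q2 = 0 := by
      apply Polynomial.eq_zero_of_infinite_isRoot
      apply Set.Infinite.mono (s := {0}ᶜ)
      · intro t ht
        exact h1 t ht
      · exact (Set.finite_singleton (0 : ℂ)).infinite_compl
    apply hv
    have h4 := hq21 0
    rw [h3] at h4
    simpa using h4.symm
  have hfin : {t : ℂ | q.IsRoot t}.Finite := Polynomial.finite_setOfPred_isRoot hq0
  have h5 : ∀ᵐ t : ℂ, t ∉ {t : ℂ | q.IsRoot t} := by
    rw [ae_iff]
    simpa using hfin.measure_zero volume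
  filter_upwards [h5] with t ht h
  apply ht
  show q.eval t = 0
  rw [hq1, h]

theorem G2_exists_ne {n d : ℕ} (hn : 0 < n) {F : MvPolynomial (Fin n) ℂ} (hF : IsSmoothForm n d F) :
    ∃ v, MvPolynomial.eval v F ≠ 0 := by
  by_contra h
  push Not at h
  have h0 : F = 0 := by
    apply MvPolynomial.funext
    intro x
    rw [h x, map_zero]
  obtain ⟨i, hi⟩ := hF.2 (Pi.single ⟨0, hn⟩ 1) (by
    intro h
    have := congrFun h ⟨0, hn⟩
    simp at this) (h _)
  rw [h0] at hi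
  simp at hi

theorem G2_cont {n : ℕ} (F : MvPolynomial (Fin n) ℂ) :
    Continuous (fun x : Fin n → ℂ => MvPolynomial.eval x F) :=
  continuousOn_univ.1 (AnalyticOnNhd.eval_mvPolynomial F).continuousOn

theorem G2_diff {n : ℕ} (F : MvPolynomial (Fin n) ℂ) :
    Differentiable ℂ (fun x : Fin n → ℂ => MvPolynomial.eval x F) := fun x =>
  ((AnalyticOnNhd.eval_mvPolynomial F) x (mem_univ _)).differentiableAt

/-- almost every triple of vectors is independent -/
theorem G2_rank : ∀ᵐ B : Fin 3 → Fin 4 → ℂ,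
    (Matrix.of fun (j l : Fin 3) => B j (Fin.castSucc l)).det ≠ 0 := by
  have := G2_inst
  have hmeas : MeasurableSet {B : Fin 3 → Fin 4 → ℂ |
      (Matrix.of fun (j l : Fin 3) => B j (Fin.castSucc l)).det ≠ 0} := by
    apply IsOpen.measurableSet
    apply isOpen_ne_fun _ continuous_const
    apply Continuous.matrix_det
    apply continuous_matrix
    intro i j
    simp only [Matrix.of_apply]
    fun_prop
  let V : Fin 3 → Fin 4 → ℂ := fun j i => if i = Fin.castSucc j then 1 else 0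
  apply ae_mem_of_ae_add_linearMap_mem (LinearMap.toSpanSingleton ℂ (Fin 3 → Fin 4 → ℂ) V)
    (volume : Measure ℂ) (volume : Measure (Fin 3 → Fin 4 → ℂ)) hmeas
  intro y
  set M : Matrix (Fin 3) (Fin 3) ℂ := Matrix.of fun (j l : Fin 3) => y j (Fin.castSucc l) with hM
  have hq0 : (-M).charpoly ≠ 0 := (Matrix.charpoly_monic (-M)).ne_zero
  have hfin : {t : ℂ | (-M).charpoly.IsRoot t}.Finite := Polynomial.finite_setOfPred_isRoot hq0
  have h5 : ∀ᵐ t : ℂ, t ∉ {t : ℂ | (-M).charpoly.IsRoot t} := by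
    rw [ae_iff]
    simpa using hfin.measure_zero volume
  filter_upwards [h5] with t ht h
  apply ht
  show (-M).charpoly.eval t = 0
  rw [Matrix.eval_charpoly, ← h]
  congr 1
  ext a b
  simp only [Matrix.sub_apply, Matrix.neg_apply, Matrix.of_apply, hM, Pi.add_apply,
    LinearMap.toSpanSingleton_apply, Pi.smul_apply, V, Matrix.scalar_apply, Matrix.diagonal_apply,
    Fin.castSucc_inj, smul_eq_mul]
  by_cases hab : a = b
  · subst hab
    simp
    ring
  · simp [hab, Ne.symm hab, fun h : b = a => hab h.symm]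

/-- the auxiliary space -/
abbrev G2_E : Type := (Fin 4 → ℂ) × (Fin 3 → Fin 4 → ℂ)

/-- its measure -/
noncomputable def G2_mu : Measure G2_E :=
  (volume : Measure (Fin 4 → ℂ)).prod (volume : Measure (Fin 3 → Fin 4 → ℂ))

theorem G2_inst2 : G2_mu.IsAddHaarMeasure := by
  have := G2_inst
  have h1 : MeasurableAdd (Fin 3 → Fin 4 → ℂ) := inferInstance
  have h2 : MeasurableAdd (Fin 4 → ℂ) := inferInstance
  have h3 : SFinite (volume : Measure (Fin 3 → Fin 4 → ℂ)) := inferInstance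
  exact @Measure.prod.instIsAddHaarMeasure (Fin 4 → ℂ) _ _ _ (Fin 3 → Fin 4 → ℂ) _ _ _
    volume volume _ _ _ _ h2 h1

/-- the bad set, with indices -/
def G2_bad (F : MvPolynomial (Fin 4) ℂ) (k i : Fin 4) : Set (Fin 3 → Fin 4 → ℂ) :=
  {B | ∃ p : Fin 4 → ℂ, MvPolynomial.eval p F = 0 ∧ p k ≠ 0 ∧
    MvPolynomial.eval p (MvPolynomial.pderiv i F) ≠ 0 ∧
    ∀ j, ∑ l, B j l * MvPolynomial.eval p (MvPolynomial.pderiv l F) = 0}

theorem G2_bad_null {d : ℕ} {F : MvPolynomial (Fin 4) ℂ} (hF : IsSmoothForm 4 d F) (k i : Fin 4) :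
    volume (G2_bad F k i) = 0 := by
  classical
  have := G2_inst
  have := G2_inst2
  obtain ⟨v, hv⟩ := G2_exists_ne (by norm_num) hF
  let a : Fin 4 → (Fin 4 → ℂ) → ℂ := fun l p => MvPolynomial.eval p (MvPolynomial.pderiv l F)
  let s : Set G2_E := {x | MvPolynomial.eval x.1 F = 0 ∧ a i x.1 ≠ 0}
  have hs : G2_mu s = 0 := by
    have hmeas : MeasurableSet {x : G2_E | MvPolynomial.eval x.1 F ≠ 0} := by
      apply IsOpen.measurableSet
      exact isOpen_ne_fun ((G2_cont F).comp continuous_fst) continuous_const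
    have h1 : ∀ᵐ x ∂G2_mu, x ∈ {x : G2_E | MvPolynomial.eval x.1 F ≠ 0} := by
      apply ae_mem_of_ae_add_linearMap_mem (LinearMap.toSpanSingleton ℂ G2_E (v, 0))
        (volume : Measure ℂ) G2_mu hmeas
      intro y
      filter_upwards [G2_null_line hF.1 hv y.1] with t ht
      show MvPolynomial.eval (y + LinearMap.toSpanSingleton ℂ G2_E (v, 0) t).1 F ≠ 0
      simpa using ht
    rw [ae_iff] at h1
    apply measure_mono_null _ h1
    rintro x ⟨hx, -⟩
    simpa using hx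
  let Ψ : G2_E → G2_E := fun x => (fun l => if h : l.val < 3 then x.2 ⟨l.val, h⟩ i else x.1 k,
    fun j l => if l = i then -(∑ l' ∈ Finset.univ.erase i, x.2 j l' * a l' x.1) / a i x.1
      else x.2 j l)
  have hda : ∀ l, Differentiable ℂ (fun x : G2_E => a l x.1) := fun l =>
    (G2_diff (MvPolynomial.pderiv l F)).comp differentiable_fst
  have hdc : ∀ j l, Differentiable ℂ (fun x : G2_E => x.2 j l) := by
    intro j l
    fun_prop
  have hΨ : DifferentiableOn ℝ Ψ s := by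
    have h1 : DifferentiableOn ℂ Ψ s := by
      apply DifferentiableOn.prodMk
      · rw [differentiableOn_pi]
        intro l
        by_cases h : l.val < 3
        · simp only [h, dif_pos]
          exact (hdc _ _).differentiableOn
        · simp only [h, dif_neg, not_false_eq_true]
          fun_prop
      · rw [differentiableOn_pi]
        intro j
        rw [differentiableOn_pi]
        intro l
        by_cases h : l = i
        · simp only [h, if_true]
          simp only [div_eq_mul_inv]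
          apply DifferentiableOn.mul
          · apply DifferentiableOn.neg
            apply DifferentiableOn.fun_sum
            intro l' _
            exact ((hdc j l').mul (hda l')).differentiableOn
          · apply DifferentiableOn.inv
            · exact (hda i).differentiableOn
            · rintro x ⟨-, hx⟩
              exact hx
        · simp only [h, if_false]
          exact (hdc _ _).differentiableOn
    exact h1.restrictScalars ℝ
  have himg : G2_mu (Ψ '' s) = 0 :=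
    addHaar_image_eq_zero_of_differentiableOn_of_addHaar_eq_zero G2_mu hΨ hs
  have hsub : {q : Fin 4 → ℂ | q 3 ≠ 0} ×ˢ G2_bad F k i ⊆ Ψ '' s := by
    rintro ⟨q, B⟩ ⟨hq, p, hp0, hpk, hpi, hpB⟩
    have hq : q 3 ≠ 0 := hq
    set c : ℂ := q 3 / p k with hc
    have hc0 : c ≠ 0 := div_ne_zero hq hpk
    have hac : ∀ l, a l (c • p) = c ^ (d - 1) * a l p := fun l =>
      G2_eval_scale (hF.1.pderiv) c p
    refine ⟨(c • p, fun j l => if l = i then q (Fin.castSucc j) else B j l), ⟨?_, ?_⟩, ?_⟩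
    · show MvPolynomial.eval (c • p) F = 0
      rw [G2_eval_scale hF.1, hp0, mul_zero]
    · show a i (c • p) ≠ 0
      rw [hac]
      exact mul_ne_zero (pow_ne_zero _ hc0) hpi
    · apply Prod.ext
      · funext l
        show (if h : l.val < 3 then _ else _) = q l
        by_cases h : l.val < 3
        · rw [dif_pos h]
          simp only [if_true]
          rfl
        · rw [dif_neg h]
          have hl : l = 3 := by
            apply Fin.ext
            have := l.2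
            show l.val = 3
            omega
          show (c • p) k = q l
          rw [hl, Pi.smul_apply, smul_eq_mul, hc, div_mul_cancel₀ _ hpk]
      · funext j l
        show (if l = i then _ else _) = B j l
        by_cases h : l = i
        · rw [if_pos h]
          subst h
          have h1 : ∑ l' ∈ Finset.univ.erase l, (if l' = l then q (Fin.castSucc j) else B j l') *
              a l' (c • p) = c ^ (d - 1) * ∑ l' ∈ Finset.univ.erase l, B j l' * a l' p := by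
            rw [Finset.mul_sum]
            apply Finset.sum_congr rfl
            intro l' hl'
            rw [if_neg (Finset.ne_of_mem_erase hl'), hac]
            ring
          have h2 : B j l * a l p + ∑ l' ∈ Finset.univ.erase l, B j l' * a l' p = 0 := by
            rw [Finset.add_sum_erase _ (fun l' => B j l' * a l' p) (Finset.mem_univ l)]
            exact hpB j
          show -(∑ l' ∈ Finset.univ.erase l, (if l' = l then q (Fin.castSucc j) else B j l') *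
              a l' (c • p)) / a l (c • p) = B j l
          rw [h1, hac, div_eq_iff (mul_ne_zero (pow_ne_zero _ hc0) hpi)]
          have h3 : ∑ l' ∈ Finset.univ.erase l, B j l' * a l' p = -(B j l * a l p) := by
            rw [eq_neg_iff_add_eq_zero, add_comm]
            exact h2
          rw [h3]
          ring
        · rw [if_neg h]
          simp only [if_neg h]
  have hprod : G2_mu ({q : Fin 4 → ℂ | q 3 ≠ 0} ×ˢ G2_bad F k i) = 0 := measure_mono_null hsub himg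
  rw [G2_mu, Measure.prod_prod] at hprod
  have hopen : IsOpen {q : Fin 4 → ℂ | q 3 ≠ 0} := isOpen_ne_fun (continuous_apply 3) continuous_const
  have hpos : 0 < volume {q : Fin 4 → ℂ | q 3 ≠ 0} :=
    hopen.measure_pos volume ⟨fun _ => 1, by simp⟩
  exact (mul_eq_zero.1 hprod).resolve_left hpos.ne'

/-- TARGET G2: generic plane sections of a smooth surface are smooth -/
theorem generic_section {d : ℕ} (hd : 1 ≤ d) {F : MvPolynomial (Fin 4) ℂ}
    (hF : IsSmoothForm 4 d F) : ∀ᵐ B : Fin 3 → Fin 4 → ℂ, IsSmoothForm 3 d (pull B F) := by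
  have hb : ∀ k i : Fin 4, ∀ᵐ B : Fin 3 → Fin 4 → ℂ, B ∉ G2_bad F k i := by
    intro k i
    rw [ae_iff]
    simpa using G2_bad_null hF k i
  have hb' : ∀ᵐ B : Fin 3 → Fin 4 → ℂ, ∀ k i : Fin 4, B ∉ G2_bad F k i := by
    rw [ae_all_iff]
    intro k
    rw [ae_all_iff]
    exact hb k
  filter_upwards [G2_rank, hb'] with B hB hbad
  refine ⟨pull_homog B hF.1, ?_⟩
  intro ξ hξ hξ0
  rw [eval_pull] at hξ0
  set p : Fin 4 → ℂ := fun i => ∑ j, B j i * ξ j with hp
  have hp0 : p ≠ 0 := by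
    intro h
    apply hξ
    apply Matrix.eq_zero_of_vecMul_eq_zero hB
    funext l
    have := congrFun h (Fin.castSucc l)
    simp only [hp, Pi.zero_apply] at this
    rw [Pi.zero_apply, ← this]
    simp only [Matrix.vecMul, dotProduct, Matrix.of_apply]
    apply Finset.sum_congr rfl
    intro j _
    ring
  obtain ⟨k, hk⟩ : ∃ k, p k ≠ 0 := by
    by_contra h
    push Not at h
    exact hp0 (funext h)
  obtain ⟨i, hi⟩ := hF.2 p hp0 hξ0
  by_contra hcon
  push Not at hcon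
  apply hbad k i
  refine ⟨p, hξ0, hk, hi, ?_⟩
  intro j
  have := hcon j
  rw [eval_pderiv_pull] at this
  exact this

/-- TARGET G3: a form does not vanish at a generic vector -/
theorem generic_nonzero {d : ℕ} {F : MvPolynomial (Fin 4) ℂ} (hF : IsSmoothForm 4 d F)
    (j : Fin 3) : ∀ᵐ B : Fin 3 → Fin 4 → ℂ, MvPolynomial.eval (B j) F ≠ 0 := by
  have := G2_inst
  obtain ⟨v, hv⟩ := G2_exists_ne (by norm_num) hF
  have hmeas : MeasurableSet {B : Fin 3 → Fin 4 → ℂ | MvPolynomial.eval (B j) F ≠ 0} := by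
    apply IsOpen.measurableSet
    exact isOpen_ne_fun ((G2_cont F).comp (continuous_apply j)) continuous_const
  apply ae_mem_of_ae_add_linearMap_mem (LinearMap.toSpanSingleton ℂ (Fin 3 → Fin 4 → ℂ)
    (Pi.single j v)) (volume : Measure ℂ) (volume : Measure (Fin 3 → Fin 4 → ℂ)) hmeas
  intro y
  filter_upwards [G2_null_line hF.1 hv (y j)] with t ht
  show MvPolynomial.eval ((y + LinearMap.toSpanSingleton ℂ (Fin 3 → Fin 4 → ℂ)
    (Pi.single j v) t) j) F ≠ 0
  simpa using ht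


/-! ### G4 -/

theorem G4_exists_e (x y : C4) (a b : C4 →ₗ[ℂ] ℂ) (ha : a ≠ 0) (hb : b ≠ 0) :
    ∃ e : C4, a e ≠ 0 ∧ b e ≠ 0 ∧ e ∉ Submodule.span ℂ (Set.range ![x, y]) := by
  classical
  set p : Fin 3 → Subspace ℂ C4 :=
    ![LinearMap.ker a, LinearMap.ker b, Submodule.span ℂ (Set.range ![x, y])] with hp
  have hnot : ⋃ i, (p i : Set C4) ≠ Set.univ := by
    intro h
    obtain ⟨i, hi⟩ := Subspace.exists_eq_top_of_iUnion_eq_univ h
    fin_cases i
    · exact ha (LinearMap.ker_eq_top.1 hi)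
    · exact hb (LinearMap.ker_eq_top.1 hi)
    · have h1 : Submodule.span ℂ (Set.range ![x, y]) = ⊤ := hi
      have h2 := finrank_range_le_card (R := ℂ) ![x, y]
      rw [Set.finrank, h1, finrank_top, finrank_euclideanSpace] at h2
      simp at h2
  rw [Set.ne_univ_iff_exists_notMem] at hnot
  obtain ⟨e, he⟩ := hnot
  rw [Set.mem_iUnion, not_exists] at he
  exact ⟨e, fun h => he 0 h, fun h => he 1 h, fun h => he 2 h⟩

/-- TARGET G4: linear algebra, the first plane -/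
theorem base_frame {x y : C4} (hxy : LinearIndependent ℂ ![x, y]) (a b : C4 →ₗ[ℂ] ℂ) (ha : a ≠ 0)
    (hb : b ≠ 0) :
    ∃ (B : Fin 3 → C4) (ξ η : Fin 3 → ℂ), Orthonormal ℂ B ∧ x = ∑ j, ξ j • B j ∧
      y = ∑ j, η j • B j ∧ ξ 0 ≠ 0 ∧ η 0 ≠ 0 ∧ (∃ j, a (B j) ≠ 0) ∧ ∃ j, b (B j) ≠ 0 := by
  classical
  obtain ⟨e, hae, hbe, he⟩ := G4_exists_e x y a b ha hb
  have hx0 : x ≠ 0 := hxy.ne_zero 0
  have hy0 : y ≠ 0 := hxy.ne_zero 1
  have hlin : LinearIndependent ℂ (Fin.cons e ![x, y] : Fin 3 → C4) :=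
    linearIndependent_finCons.2 ⟨hxy, he⟩
  set W : Submodule ℂ C4 := Submodule.span ℂ (Set.range (Fin.cons e ![x, y] : Fin 3 → C4)) with hW
  have hfr : Module.finrank ℂ W = Fintype.card (Fin 3) := finrank_span_eq_card hlin
  have heW : e ∈ W := Submodule.subset_span ⟨0, rfl⟩
  have hxW : x ∈ W := Submodule.subset_span ⟨1, rfl⟩
  have hyW : y ∈ W := Submodule.subset_span ⟨2, rfl⟩
  -- the first vector
  obtain ⟨u, huW, hux, huy⟩ : ∃ u ∈ W, inner ℂ u x ≠ 0 ∧ inner ℂ u y ≠ 0 := by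
    by_cases h : inner ℂ x y = 0
    · refine ⟨x + y, W.add_mem hxW hyW, ?_, ?_⟩
      · have h' : inner ℂ y x = 0 := by
          rw [← inner_conj_symm, h, map_zero]
        rw [inner_add_left, h', add_zero]
        exact inner_self_ne_zero.2 hx0
      · rw [inner_add_left, h, zero_add]
        exact inner_self_ne_zero.2 hy0
    · exact ⟨x, hxW, inner_self_ne_zero.2 hx0, h⟩
  have hu0 : u ≠ 0 := by
    rintro rfl
    exact hux (inner_zero_left _)
  have hun : (‖u‖ : ℂ) ≠ 0 := by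
    exact_mod_cast norm_ne_zero_iff.2 hu0
  set v0 : W := ⟨((‖u‖ : ℂ)⁻¹) • u, W.smul_mem _ huW⟩ with hv0
  have hv0n : ‖v0‖ = 1 := by
    rw [hv0, Submodule.coe_norm, norm_smul, norm_inv, Complex.norm_real, norm_norm]
    exact inv_mul_cancel₀ (norm_ne_zero_iff.2 hu0)
  have hon : Orthonormal ℂ (({0} : Set (Fin 3)).domRestrict (fun _ : Fin 3 => v0)) := by
    constructor
    · intro i
      exact hv0n
    · intro i j hij
      exfalso
      apply hij
      apply Subtype.ext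
      have h1 : i.1 = 0 := i.2
      have h2 : j.1 = 0 := j.2
      rw [h1, h2]
  obtain ⟨bb, hbb⟩ := hon.exists_orthonormalBasis_extension_of_card_eq hfr
  have hb0 : bb 0 = v0 := hbb 0 rfl
  have hsum : ∀ z (hz : z ∈ W), z = ∑ j, (inner ℂ (bb j) (⟨z, hz⟩ : W)) • ((bb j : W) : C4) := by
    intro z hz
    have h1 := congrArg (fun t : W => (t : C4)) (bb.sum_repr' (⟨z, hz⟩ : W))
    simp only [Submodule.coe_sum, Submodule.coe_smul] at h1
    exact h1.symm
  have hin : ∀ z (hz : z ∈ W), inner ℂ u z ≠ 0 → inner ℂ (bb 0) (⟨z, hz⟩ : W) ≠ 0 := by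
    intro z hz h
    rw [hb0, hv0, Submodule.coe_inner, inner_smul_left]
    exact mul_ne_zero ((map_ne_zero _).2 (inv_ne_zero hun)) h
  have hfun : ∀ f : C4 →ₗ[ℂ] ℂ, f e ≠ 0 → ∃ j, f ((bb j : W) : C4) ≠ 0 := by
    intro f hf
    by_contra hcon
    push Not at hcon
    apply hf
    rw [hsum e heW, map_sum]
    apply Finset.sum_eq_zero
    intro j _
    rw [map_smul, hcon j, smul_zero]
  refine ⟨fun j => ((bb j : W) : C4), fun j => inner ℂ (bb j) (⟨x, hxW⟩ : W),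
    fun j => inner ℂ (bb j) (⟨y, hyW⟩ : W), ?_, hsum x hxW, hsum y hyW, hin x hxW hux,
    hin y hyW huy, hfun a hae, hfun b hbe⟩
  exact bb.orthonormal.comp_linearIsometry W.subtypeₗᵢ


/-! ### G5 -/





theorem G5_contDiff {σ : Type} {E : Type} [NormedAddCommGroup E] [NormedSpace ℂ E]
    (c : E → σ → ℂ) (hc : ∀ i, ContDiff ℂ 1 (fun q => c q i)) (P : MvPolynomial σ ℂ) :
    ContDiff ℂ 1 (fun q => MvPolynomial.eval (c q) P) := by
  induction P using MvPolynomial.induction_on with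
  | C a => simp only [MvPolynomial.eval_C]; exact contDiff_const
  | add p q hp hq => simp only [map_add]; exact hp.add hq
  | mul_X p i hp => simp only [map_mul, MvPolynomial.eval_X]; exact hp.mul (hc i)

theorem G5_deriv {m : ℕ} (ξ : Fin m → ℂ) (j : Fin m) (P : MvPolynomial (Fin m) ℂ) :
    HasDerivAt (fun s : ℂ => MvPolynomial.eval
      (fun k => ξ k + s * (Pi.single j 1 : Fin m → ℂ) k) P)
      (MvPolynomial.eval ξ (MvPolynomial.pderiv j P)) 0 := by
  have hz : (fun k => ξ k + (0:ℂ) * (Pi.single j 1 : Fin m → ℂ) k) = ξ := by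
    funext k; simp
  induction P using MvPolynomial.induction_on with
  | C a =>
    simp only [MvPolynomial.eval_C, MvPolynomial.pderiv_C, map_zero]
    exact hasDerivAt_const _ _
  | add p q hp hq => simp only [map_add]; exact hp.add hq
  | mul_X p i hp =>
    have h1 : HasDerivAt (fun s : ℂ => ξ i + s * (Pi.single j 1 : Fin m → ℂ) i)
        ((Pi.single j 1 : Fin m → ℂ) i) 0 := by
      simpa using ((hasDerivAt_id (0:ℂ)).mul_const ((Pi.single j 1 : Fin m → ℂ) i)).const_add (ξ i)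
    have h2 := hp.mul h1
    simp only [map_mul, MvPolynomial.eval_X]
    rw [MvPolynomial.pderiv_mul, MvPolynomial.pderiv_X]
    refine h2.congr_deriv ?_
    rw [hz, map_add, map_mul, map_mul, MvPolynomial.eval_X, zero_mul, add_zero]
    congr 2
    by_cases h : i = j
    · subst h; simp
    · rw [Pi.single_eq_of_ne h, Pi.single_eq_of_ne h, map_zero]

/-- TARGET G5: simple zeros persist under small perturbations -/
theorem zero_perturb {F : MvPolynomial (Fin 4) ℂ} {B0 : Fin 3 → Fin 4 → ℂ} {ξ : Fin 3 → ℂ}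
    (h0 : MvPolynomial.eval ξ (pull B0 F) = 0)
    (h1 : ∃ j, MvPolynomial.eval ξ (MvPolynomial.pderiv j (pull B0 F)) ≠ 0) {ε : ℝ}
    (hε : 0 < ε) :
    ∃ δ > 0, ∀ B : Fin 3 → Fin 4 → ℂ, ‖B - B0‖ < δ →
      ∃ ξ' : Fin 3 → ℂ, ‖ξ' - ξ‖ < ε ∧ MvPolynomial.eval ξ' (pull B F) = 0 := by
  obtain ⟨j, hj⟩ := h1
  -- the function
  obtain ⟨h, hh⟩ : ∃ h : (Fin 3 → Fin 4 → ℂ) × ℂ → ℂ, ∀ q, h q = MvPolynomial.eval
      (fun i => ∑ k, q.1 k i * (ξ k + q.2 * (Pi.single j 1 : Fin 3 → ℂ) k)) F :=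
    ⟨_, fun q => rfl⟩
  have hh' : ∀ B s, h (B, s) = MvPolynomial.eval
      (fun k => ξ k + s * (Pi.single j 1 : Fin 3 → ℂ) k) (pull B F) := by
    intro B s
    rw [hh, eval_pull]
  have hC : ContDiff ℂ 1 h := by
    have : h = fun q => MvPolynomial.eval
      (fun i => ∑ k, q.1 k i * (ξ k + q.2 * (Pi.single j 1 : Fin 3 → ℂ) k)) F := funext hh
    rw [this]
    refine G5_contDiff _ (fun i => ?_) F
    fun_prop
  have hs : HasStrictFDerivAt h (fderiv ℂ h (B0, 0)) (B0, 0) :=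
    hC.contDiffAt.hasStrictFDerivAt (by norm_num)
  have hd : fderiv ℂ h (B0, 0) (0, 1) = MvPolynomial.eval ξ (MvPolynomial.pderiv j (pull B0 F)) := by
    have a1 : HasDerivAt (fun s : ℂ => h (B0, s)) (fderiv ℂ h (B0, 0) (0, 1)) 0 := by
      have a2 : HasDerivAt (fun s : ℂ => (B0, s)) ((0 : Fin 3 → Fin 4 → ℂ), (1:ℂ)) 0 :=
        (hasDerivAt_const (0:ℂ) B0).prodMk (hasDerivAt_id (0:ℂ))
      exact hs.hasFDerivAt.comp_hasDerivAt (0:ℂ) a2
    have a3 : HasDerivAt (fun s : ℂ => h (B0, s))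
        (MvPolynomial.eval ξ (MvPolynomial.pderiv j (pull B0 F))) 0 := by
      have a4 := G5_deriv ξ j (pull B0 F)
      have a5 : (fun s : ℂ => h (B0, s)) = (fun s : ℂ => MvPolynomial.eval
        (fun k => ξ k + s * (Pi.single j 1 : Fin 3 → ℂ) k) (pull B0 F)) :=
        funext (fun s => hh' B0 s)
      rw [a5]; exact a4
    exact a1.unique a3
  have hΦ : HasStrictFDerivAt (fun q : (Fin 3 → Fin 4 → ℂ) × ℂ => (q.1, h q))
      ((ContinuousLinearMap.fst ℂ (Fin 3 → Fin 4 → ℂ) ℂ).prod (fderiv ℂ h (B0, 0))) (B0, 0) :=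
    hasStrictFDerivAt_fst.prodMk hs
  have hsurj : ((ContinuousLinearMap.fst ℂ (Fin 3 → Fin 4 → ℂ) ℂ).prod
      (fderiv ℂ h (B0, 0))).range = ⊤ := by
    rw [LinearMap.range_eq_top]
    rintro ⟨b, c⟩
    refine ⟨(b, (c - fderiv ℂ h (B0, 0) (b, 0)) / fderiv ℂ h (B0, 0) (0, 1)), ?_⟩
    have hne : fderiv ℂ h (B0, 0) (0, 1) ≠ 0 := by rw [hd]; exact hj
    have e1 : ∀ t : ℂ, ((b, t) : (Fin 3 → Fin 4 → ℂ) × ℂ) = (b, 0) + t • (0, 1) := by
      intro t; simp
    refine Prod.ext rfl ?_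
    change fderiv ℂ h (B0, 0) (b, _) = c
    rw [e1, map_add, map_smul, smul_eq_mul, div_mul_cancel₀ _ hne]
    ring
  have hmap := hΦ.map_nhds_eq_of_surj hsurj
  have hz : h (B0, 0) = 0 := by
    rw [hh']
    have : (fun k => ξ k + (0:ℂ) * (Pi.single j 1 : Fin 3 → ℂ) k) = ξ := by funext k; simp
    rw [this, h0]
  have hU : {q : (Fin 3 → Fin 4 → ℂ) × ℂ | ‖q.2‖ < ε} ∈ 𝓝 ((B0, 0) : (Fin 3 → Fin 4 → ℂ) × ℂ) := by
    have : IsOpen {q : (Fin 3 → Fin 4 → ℂ) × ℂ | ‖q.2‖ < ε} :=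
      isOpen_lt (by fun_prop) continuous_const
    refine this.mem_nhds ?_
    simpa using hε
  have hV := Filter.image_mem_map (m := fun q : (Fin 3 → Fin 4 → ℂ) × ℂ => (q.1, h q)) hU
  rw [hmap] at hV
  have hV' : (fun q : (Fin 3 → Fin 4 → ℂ) × ℂ => (q.1, h q)) ''
      {q : (Fin 3 → Fin 4 → ℂ) × ℂ | ‖q.2‖ < ε} ∈ 𝓝 ((B0, 0) : (Fin 3 → Fin 4 → ℂ) × ℂ) := by
    have e2 : ((B0, 0) : (Fin 3 → Fin 4 → ℂ) × ℂ) = (B0, h (B0, 0)) := by rw [hz]
    rw [e2]; exact hV
  obtain ⟨δ, hδ, hball⟩ := Metric.mem_nhds_iff.1 hV'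
  refine ⟨δ, hδ, fun B hB => ?_⟩
  have hmem : ((B, 0) : (Fin 3 → Fin 4 → ℂ) × ℂ) ∈ Metric.ball (B0, 0) δ := by
    rw [Metric.mem_ball, Prod.dist_eq, dist_self]
    simp only [dist_eq_norm]
    exact max_lt hB hδ
  obtain ⟨⟨B', s⟩, hs1, hs2⟩ := hball hmem
  have e3 : B' = B := congrArg Prod.fst hs2
  have e4 : h (B', s) = 0 := congrArg Prod.snd hs2
  subst e3
  refine ⟨fun k => ξ k + s * (Pi.single j 1 : Fin 3 → ℂ) k, ?_, by rw [← hh', e4]⟩
  have e5 : (fun k => ξ k + s * (Pi.single j 1 : Fin 3 → ℂ) k) - ξ = fun k =>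
      s * (Pi.single j 1 : Fin 3 → ℂ) k := by
    funext k; simp
  rw [e5, pi_norm_lt_iff hε]
  intro k
  have hs1' : ‖s‖ < ε := hs1
  by_cases hk : k = j
  · subst hk; simpa using hs1'
  · rw [Pi.single_eq_of_ne hk]; simpa using hε


/-! ### C1 -/












theorem C1_eval_smul {n d : ℕ} {F : MvPolynomial (Fin n) ℂ} (hF : F.IsHomogeneous d) (c : ℂ)
    (x : Fin n → ℂ) :
    MvPolynomial.eval (fun i => c * x i) F = c ^ d * MvPolynomial.eval x F := by
  rw [MvPolynomial.eval_eq', MvPolynomial.eval_eq', Finset.mul_sum]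
  refine Finset.sum_congr rfl fun m hm => ?_
  have h1 : ∑ i, m i = d := by
    have h2 := hF (MvPolynomial.mem_support_iff.1 hm)
    rw [Finsupp.weight_apply, Finsupp.sum_fintype _ _ (by simp)] at h2
    simpa using h2
  simp only [mul_pow]
  rw [Finset.prod_mul_distrib, Finset.prod_pow_eq_pow_sum, h1]
  ring

theorem C1_cone {n d : ℕ} {F : MvPolynomial (Fin n) ℂ} (hF : F.IsHomogeneous d) :
    ∀ x ∈ ConeN F, ∀ c : ℂ, c ≠ 0 → c • x ∈ ConeN F := by
  rintro x ⟨hx, hx0⟩ c hc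
  refine ⟨smul_ne_zero hc hx, ?_⟩
  have h := C1_eval_smul hF c (fun i => x i)
  rw [hx0, mul_zero] at h
  exact h

theorem C1_aff {G : MvPolynomial (Fin 3) ℂ} (p : ℂ × ℂ) : aff1 p ∈ ConeN G ↔ p ∈ Zaff G := by
  have h0 : aff1 p ≠ 0 := by
    intro h
    have h1 : (aff1 p) 0 = (0 : CN 3) 0 := by rw [h]
    simp [aff1] at h1
  constructor
  · rintro ⟨_, h⟩
    exact h
  · intro h
    exact ⟨h0, h⟩

theorem C1_smul_aff {x : CN 3} (hx0 : x 0 ≠ 0) :
    aff1 (x 1 / x 0, x 2 / x 0) = (x 0)⁻¹ • x := by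
  ext i
  fin_cases i
  · simp [aff1, hx0]
  · simp [aff1, div_eq_inv_mul]
  · simp [aff1, div_eq_inv_mul]

theorem C1_continuous_eval (G : MvPolynomial (Fin 3) ℂ) :
    Continuous (fun p : ℂ × ℂ × ℂ => MvPolynomial.eval ![p.1, p.2.1, p.2.2] G) := by
  have h1 : Continuous (fun p : ℂ × ℂ × ℂ => (![p.1, p.2.1, p.2.2] : Fin 3 → ℂ)) := by
    refine continuous_pi fun i => ?_
    fin_cases i
    · exact continuous_fst
    · exact continuous_fst.comp continuous_snd
    · exact continuous_snd.comp continuous_snd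
  exact (MvPolynomial.continuous_eval G).comp h1

theorem C1_bound {d : ℕ} {G : MvPolynomial (Fin 3) ℂ} (hG : G.IsHomogeneous d)
    (h2 : MvPolynomial.eval ![0, 0, 1] G ≠ 0) :
    ∃ M : ℝ, 0 < M ∧ ∀ u v : ℂ, (u, v) ∈ Zaff G → ‖v‖ ≤ M * (1 + ‖u‖) := by
  by_contra hcon
  push Not at hcon
  have h3 : ∀ n : ℕ, ∃ p : ℂ × ℂ, p ∈ Zaff G ∧ ((n : ℝ) + 1) * (1 + ‖p.1‖) < ‖p.2‖ := by
    intro n
    obtain ⟨u, v, h, h'⟩ := hcon ((n : ℝ) + 1) (by positivity)
    exact ⟨(u, v), h, h'⟩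
  choose p hp hp' using h3
  have hv : ∀ n, 0 < ‖(p n).2‖ := fun n => lt_of_le_of_lt (by positivity) (hp' n)
  have hv0 : ∀ n, (p n).2 ≠ 0 := fun n => norm_pos_iff.1 (hv n)
  have hlim0 : Tendsto (fun n : ℕ => 1 / ((n : ℝ) + 1)) atTop (𝓝 0) :=
    tendsto_one_div_add_atTop_nhds_zero_nat
  have t1 : Tendsto (fun n => ((p n).2)⁻¹) atTop (𝓝 0) := by
    refine squeeze_zero_norm (fun n => ?_) hlim0
    rw [norm_inv, ← one_div]
    refine one_div_le_one_div_of_le (by positivity) ?_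
    have := hp' n
    have h0 := norm_nonneg (p n).1
    nlinarith
  have t2 : Tendsto (fun n => ((p n).2)⁻¹ * (p n).1) atTop (𝓝 0) := by
    refine squeeze_zero_norm (fun n => ?_) hlim0
    rw [norm_mul, norm_inv, inv_mul_eq_div, div_le_div_iff₀ (hv n) (by positivity)]
    have := hp' n
    have h0 := norm_nonneg (p n).1
    nlinarith
  have t3 := ((C1_continuous_eval G).tendsto (0, 0, 1)).comp
    (t1.prodMk_nhds (t2.prodMk_nhds (tendsto_const_nhds (x := (1 : ℂ)))))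
  have t4 : ∀ n, MvPolynomial.eval ![((p n).2)⁻¹, ((p n).2)⁻¹ * (p n).1, 1] G = 0 := by
    intro n
    have h4 := C1_eval_smul hG ((p n).2)⁻¹ ![1, (p n).1, (p n).2]
    have h5 : MvPolynomial.eval ![1, (p n).1, (p n).2] G = 0 := hp n
    rw [h5, mul_zero] at h4
    rw [← h4]
    congr 1
    congr 1
    ext i
    fin_cases i
    · simp
    · simp
    · simp [hv0 n]
  have t5 : Tendsto (fun _ : ℕ => (0 : ℂ)) atTop (𝓝 (MvPolynomial.eval ![0, 0, 1] G)) := by
    refine t3.congr fun n => ?_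
    exact t4 n
  exact h2 (tendsto_nhds_unique t5 tendsto_const_nhds)

theorem C1_int {c : ℂ} {δ : ℝ} {f : ℂ → ℂ} (hf : DifferentiableOn ℂ f (Metric.ball c δ))
    {u u' : ℂ} (hu : u ∈ Metric.ball c δ) (hu' : u' ∈ Metric.ball c δ) :
    ∫⁻ s in Icc (0 : ℝ) 1,
      ENNReal.ofReal (‖u' - u‖ * (1 + ‖deriv f (u + (s : ℂ) * (u' - u))‖ ^ 2)) ≠ ⊤ := by
  have h1 : ContinuousOn (deriv f) (Metric.ball c δ) :=
    (hf.deriv Metric.isOpen_ball).continuousOn
  have h2 : ∀ s ∈ Icc (0 : ℝ) 1, u + (s : ℂ) * (u' - u) ∈ Metric.ball c δ := by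
    intro s hs
    have h3 := (convex_ball c δ).add_smul_sub_mem hu hu' hs
    simpa using h3
  have h4 : ContinuousOn (fun s : ℝ => ‖u' - u‖ * (1 + ‖deriv f (u + (s : ℂ) * (u' - u))‖ ^ 2))
      (Icc 0 1) := by
    refine continuousOn_const.mul (continuousOn_const.add ((ContinuousOn.norm ?_).pow 2))
    refine h1.comp (Continuous.continuousOn ?_) h2
    fun_prop
  have h5 := h4.integrableOn_compact (μ := volume) isCompact_Icc
  exact h5.lintegral_lt_top.ne

theorem C1_dich (G : MvPolynomial (Fin 3) ℂ) (x : CN 3) {c : ℂ} {δ : ℝ} {f : ℂ → ℂ}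
    (h : GraphIn (Zaff G) c δ f) {u u' : ℂ} (hu : u ∈ Metric.ball c δ)
    (hu' : u' ∈ Metric.ball c δ) (hfin : rho (ConeN G) x (aff1 (u, f u)) ≠ ⊤) :
    rho (ConeN G) x (aff1 (u', f u')) ≠ ⊤ := by
  have h1 := lipGraph_rho G x c δ f h u hu u' hu'
  exact ne_top_of_le_ne_top (ENNReal.add_ne_top.2 ⟨hfin, C1_int h.2.1 hu hu'⟩) h1

theorem C1_dich' (G : MvPolynomial (Fin 3) ℂ) (x : CN 3) {c : ℂ} {δ : ℝ} {f : ℂ → ℂ}
    (h : GraphIn (Zsw (Zaff G)) c δ f) {u u' : ℂ} (hu : u ∈ Metric.ball c δ)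
    (hu' : u' ∈ Metric.ball c δ) (hfin : rho (ConeN G) x (aff1 (f u, u)) ≠ ⊤) :
    rho (ConeN G) x (aff1 (f u', u')) ≠ ⊤ := by
  have h1 := lipGraph_rho' G x c δ f h u hu u' hu'
  exact ne_top_of_le_ne_top (ENNReal.add_ne_top.2 ⟨hfin, C1_int h.2.1 hu hu'⟩) h1

theorem C1_ball_infinite (c : ℂ) {δ : ℝ} (hδ : 0 < δ) : (Metric.ball c δ).Infinite := by
  have h1 : (Metric.ball c δ).Nontrivial := by
    refine ⟨c, Metric.mem_ball_self hδ, c + (δ / 2 : ℝ), ?_, ?_⟩
    · rw [Metric.mem_ball, dist_eq_norm]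
      simp only [add_sub_cancel_left, Complex.norm_real, Real.norm_eq_abs]
      rw [abs_of_pos (by positivity)]
      linarith
    · intro h2
      have h3 : ((δ / 2 : ℝ) : ℂ) = 0 := by
        have := congrArg (fun z => z - c) h2
        simpa using this.symm
      rw [Complex.ofReal_eq_zero] at h3
      linarith
  exact (convex_ball c δ).isPreconnected.infinite_of_nontrivial h1

theorem C1_finite_inter {N : Set ℂ} (hN : ∀ R : ℝ, (N ∩ Metric.closedBall 0 R).Finite) {s : Set ℂ}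
    (hs : Bornology.IsBounded s) : (N ∩ s).Finite := by
  obtain ⟨R, hR⟩ := hs.subset_closedBall 0
  exact (hN R).subset (inter_subset_inter_right _ hR)

/-- no vertical line -/
theorem C1_no_vertical {d : ℕ} {G : MvPolynomial (Fin 3) ℂ} (hG : G.IsHomogeneous d)
    (h2 : MvPolynomial.eval ![0, 0, 1] G ≠ 0) (u0 : ℂ) {s : Set ℂ} (hs : s.Infinite)
    (h : ∀ v ∈ s, (u0, v) ∈ Zaff G) : False := by
  let Q : Polynomial ℂ := MvPolynomial.aeval ![1, Polynomial.C u0, Polynomial.X] G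
  have hQ : ∀ v : ℂ, Q.eval v = MvPolynomial.eval ![1, u0, v] G := by
    intro v
    have h3 : (Polynomial.evalRingHom v).comp
        ((MvPolynomial.aeval (![1, Polynomial.C u0, Polynomial.X] :
          Fin 3 → Polynomial ℂ) : MvPolynomial (Fin 3) ℂ →ₐ[ℂ] Polynomial ℂ) :
            MvPolynomial (Fin 3) ℂ →+* Polynomial ℂ) = MvPolynomial.eval ![1, u0, v] := by
      apply MvPolynomial.ringHom_ext
      · intro r
        simp
      · intro i
        fin_cases i <;> simp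
    have h4 := DFunLike.congr_fun h3 G
    exact h4
  have hQ0 : Q = 0 := by
    apply Polynomial.eq_zero_of_infinite_isRoot
    refine hs.mono fun v hv => ?_
    show Q.eval v = 0
    rw [hQ]
    exact h v hv
  obtain ⟨M, hM, hb⟩ := C1_bound hG h2
  have h5 : ∀ v : ℂ, (u0, v) ∈ Zaff G := by
    intro v
    show MvPolynomial.eval ![1, u0, v] G = 0
    rw [← hQ, hQ0]
    simp
  have h6 := hb u0 ((M * (1 + ‖u0‖) + 1 : ℝ) : ℂ) (h5 _)
  rw [Complex.norm_real, Real.norm_eq_abs, abs_of_pos (by positivity)] at h6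
  linarith

theorem C1_offN {d : ℕ} {G : MvPolynomial (Fin 3) ℂ} (hG : IsSmoothForm 3 d G)
    (h2 : MvPolynomial.eval ![0, 0, 1] G ≠ 0) (x : CN 3) {N : Set ℂ}
    (hN : ∀ R : ℝ, (N ∩ Metric.closedBall 0 R).Finite) {p : ℂ × ℂ} (hp : p ∈ Zaff G) :
    ∃ u, u ∉ N ∧ ∃ v, (u, v) ∈ Zaff G ∧
      (rho (ConeN G) x (aff1 (u, v)) ≠ ⊤ ↔ rho (ConeN G) x (aff1 p) ≠ ⊤) := by
  rcases graph_through hG hp with ⟨δ, f, hf, hfp⟩ | ⟨δ, f, hf, hfp⟩
  · have hδ := hf.1
    have h3 : ¬ (Metric.ball p.1 δ ⊆ N) := by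
      intro hsub
      have h4 := C1_finite_inter hN (Metric.isBounded_ball (x := p.1) (r := δ))
      rw [inter_eq_self_of_subset_right hsub] at h4
      exact C1_ball_infinite p.1 hδ h4
    obtain ⟨u, hu, huN⟩ := not_subset.1 h3
    have hpp : p = (p.1, f p.1) := by rw [hfp]
    refine ⟨u, huN, f u, hf.2.2 u hu, ?_, ?_⟩
    · intro h
      rw [hpp]
      exact C1_dich G x hf hu (Metric.mem_ball_self hδ) h
    · intro h
      rw [hpp] at h
      exact C1_dich G x hf (Metric.mem_ball_self hδ) hu h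
  · have hδ := hf.1
    have hpp : p = (f p.2, p.2) := by rw [hfp]
    by_cases hex : ∃ v ∈ Metric.ball p.2 δ, f v ∉ N
    · obtain ⟨v, hv, hvN⟩ := hex
      refine ⟨f v, hvN, v, hf.2.2 v hv, ?_, ?_⟩
      · intro h
        rw [hpp]
        exact C1_dich' G x hf hv (Metric.mem_ball_self hδ) h
      · intro h
        rw [hpp] at h
        exact C1_dich' G x hf (Metric.mem_ball_self hδ) hv h
    · exfalso
      push Not at hex
      have hsub : Metric.closedBall p.2 (δ / 2) ⊆ Metric.ball p.2 δ :=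
        Metric.closedBall_subset_ball (by linarith)
      have hc : ContinuousOn f (Metric.closedBall p.2 (δ / 2)) :=
        hf.2.1.continuousOn.mono hsub
      have hcomp : IsCompact (f '' Metric.closedBall p.2 (δ / 2)) :=
        (isCompact_closedBall _ _).image_of_continuousOn hc
      have hfin : (f '' Metric.closedBall p.2 (δ / 2)).Finite := by
        refine (C1_finite_inter hN hcomp.isBounded).subset ?_
        rintro _ ⟨v, hv, rfl⟩
        exact ⟨hex v (hsub hv), mem_image_of_mem _ hv⟩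
      have hpre : IsPreconnected (f '' Metric.closedBall p.2 (δ / 2)) :=
        (convex_closedBall _ _).isPreconnected.image f hc
      have hss : (f '' Metric.closedBall p.2 (δ / 2)).Subsingleton := by
        by_contra hnt
        exact (hpre.infinite_of_nontrivial (not_subsingleton_iff.1 hnt)) hfin
      refine C1_no_vertical hG.1 h2 (f p.2) (C1_ball_infinite p.2 (half_pos hδ)) ?_
      intro v hv
      have hv' : v ∈ Metric.closedBall p.2 (δ / 2) := Metric.ball_subset_closedBall hv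
      have h4 : f v = f p.2 := hss (mem_image_of_mem _ hv')
        (mem_image_of_mem _ (Metric.mem_closedBall_self (by positivity)))
      rw [← h4]
      exact hf.2.2 v (hsub hv')

theorem C1_close {d : ℕ} {G : MvPolynomial (Fin 3) ℂ} (hG : IsSmoothForm 3 d G) (x : CN 3)
    {X : CN 3} (hX : X ∈ ConeN G) {a b : ℕ → CN 3} (ha : ∀ n, a n ∈ ConeN G)
    (hb : ∀ n, b n ∈ ConeN G) (hal : Tendsto a atTop (𝓝 X)) (hbl : Tendsto b atTop (𝓝 X))
    (hfa : ∀ n, rho (ConeN G) x (a n) ≠ ⊤) (hfb : ∀ n, rho (ConeN G) x (b n) = ⊤) : False := by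
  obtain ⟨δ, hδ, h⟩ := local_path hX (hG.2 _ (fun h0 => hX.1 (by ext i; exact congrFun h0 i)) hX.2)
    one_pos
  have h1 : ∀ᶠ n in atTop, ‖a n - X‖ < δ := by
    have := hal (Metric.ball_mem_nhds X hδ)
    filter_upwards [this] with n hn
    rwa [← dist_eq_norm]
  have h2 : ∀ᶠ n in atTop, ‖b n - X‖ < δ := by
    have := hbl (Metric.ball_mem_nhds X hδ)
    filter_upwards [this] with n hn
    rwa [← dist_eq_norm]
  obtain ⟨n, hn1, hn2⟩ := (h1.and h2).exists
  have h3 := h (a n) (ha n) hn1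
  have h4 := h (b n) (hb n) hn2
  have h5 : rho (ConeN G) x (b n) ≤ rho (ConeN G) x (a n) + rho (ConeN G) X (a n) +
      rho (ConeN G) X (b n) := by
    refine (rho_triangle x X (b n)).trans ?_
    gcongr
    refine (rho_triangle x (a n) X).trans ?_
    rw [rho_symm (a n) X]
  rw [hfb n, top_le_iff] at h5
  have h6 : rho (ConeN G) x (a n) + rho (ConeN G) X (a n) + rho (ConeN G) X (b n) ≠ ⊤ :=
    ENNReal.add_ne_top.2 ⟨ENNReal.add_ne_top.2 ⟨hfa n, ne_top_of_le_ne_top ENNReal.ofReal_ne_top h3⟩,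
      ne_top_of_le_ne_top ENNReal.ofReal_ne_top h4⟩
  exact h6 h5

theorem C1_continuous_vec : Continuous
    (fun p : ℂ × ℂ × ℂ => (WithLp.toLp 2 ![p.1, p.2.1, p.2.2] : CN 3)) := by
  have h1 : Continuous (fun p : ℂ × ℂ × ℂ => (![p.1, p.2.1, p.2.2] : Fin 3 → ℂ)) := by
    refine continuous_pi fun i => ?_
    fin_cases i
    · exact continuous_fst
    · exact continuous_fst.comp continuous_snd
    · exact continuous_snd.comp continuous_snd
  exact (PiLp.continuous_toLp 2 _).comp h1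

/-- TARGET C1: a smooth plane curve is connected by chains of arcs -/
theorem plane_connected {d : ℕ} (hd : 1 ≤ d) {G : MvPolynomial (Fin 3) ℂ}
    (hG : IsSmoothForm 3 d G) (h2 : MvPolynomial.eval ![0, 0, 1] G ≠ 0) {x y : CN 3}
    (hx : x ∈ ConeN G) (hy : y ∈ ConeN G) (hx0 : x 0 ≠ 0) (hy0 : y 0 ≠ 0) :
    rho (ConeN G) x y ≠ ⊤ := by
  intro hxy
  have hcone := C1_cone hG.1
  obtain ⟨N, hN, hsh⟩ := sheets_of_smooth hd hG h2
  obtain ⟨M, hM, hb⟩ := C1_bound hG.1 h2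
  let A : Set (ℂ × ℂ) := {p | p ∈ Zaff G ∧ rho (ConeN G) x (aff1 p) ≠ ⊤}
  let B : Set (ℂ × ℂ) := {p | p ∈ Zaff G ∧ rho (ConeN G) x (aff1 p) = ⊤}
  have hxr : rho (ConeN G) x (aff1 (x 1 / x 0, x 2 / x 0)) = 0 := by
    rw [C1_smul_aff hx0]
    exact rho_smul hcone hx (inv_ne_zero hx0)
  have hyr : rho (ConeN G) y (aff1 (y 1 / y 0, y 2 / y 0)) = 0 := by
    rw [C1_smul_aff hy0]
    exact rho_smul hcone hy (inv_ne_zero hy0)
  have hxZ : (x 1 / x 0, x 2 / x 0) ∈ Zaff G := by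
    rw [← C1_aff, C1_smul_aff hx0]
    exact hcone x hx _ (inv_ne_zero hx0)
  have hyZ : (y 1 / y 0, y 2 / y 0) ∈ Zaff G := by
    rw [← C1_aff, C1_smul_aff hy0]
    exact hcone y hy _ (inv_ne_zero hy0)
  have hyT : rho (ConeN G) x (aff1 (y 1 / y 0, y 2 / y 0)) = ⊤ := by
    by_contra hne
    have h3 := rho_triangle (S := ConeN G) x (aff1 (y 1 / y 0, y 2 / y 0)) y
    rw [rho_symm (aff1 (y 1 / y 0, y 2 / y 0)) y, hyr, add_zero, hxy, top_le_iff] at h3
    exact hne h3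
  refine liouville_sheets (A := A) (B := B) hN hsh ?_ ?_ ?_ ?_ ?_ ?_ ?_
  · ext p
    constructor
    · intro hp
      by_cases h : rho (ConeN G) x (aff1 p) = ⊤
      · exact Or.inr ⟨hp, h⟩
      · exact Or.inl ⟨hp, h⟩
    · rintro (⟨h, _⟩ | ⟨h, _⟩) <;> exact h
  · rw [Set.disjoint_left]
    rintro p ⟨_, h⟩ ⟨_, h'⟩
    exact h h'
  · intro c δ f hf
    by_cases h : rho (ConeN G) x (aff1 (c, f c)) = ⊤
    · right
      intro u hu
      refine ⟨hf.2.2 u hu, ?_⟩
      by_contra hne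
      exact C1_dich G x hf hu (Metric.mem_ball_self hf.1) hne h
    · left
      intro u hu
      exact ⟨hf.2.2 u hu, C1_dich G x hf (Metric.mem_ball_self hf.1) hu h⟩
  · -- hnear
    intro R
    by_contra hcon
    push Not at hcon
    have h3 : ∀ n : ℕ, ∃ q : ℂ × ℂ × ℂ, ‖q.1‖ ≤ R ∧ (q.1, q.2.1) ∈ A ∧ (q.1, q.2.2) ∈ B ∧
        ‖q.2.1 - q.2.2‖ < 1 / ((n : ℝ) + 1) := by
      intro n
      obtain ⟨u, v, w, h1, h2, h3, h4⟩ := hcon (1 / ((n : ℝ) + 1)) (by positivity)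
      exact ⟨(u, v, w), h1, h2, h3, h4⟩
    choose q hq1 hq2 hq3 hq4 using h3
    have hbd : ∀ n, ((q n).1, (q n).2.1) ∈ Metric.closedBall (0 : ℂ × ℂ) (max R (M * (1 + R))) := by
      intro n
      rw [mem_closedBall_zero_iff, Prod.norm_def]
      refine max_le_max (hq1 n) ((hb _ _ (hq2 n).1).trans ?_)
      have := hq1 n
      gcongr
    obtain ⟨L, _, φ, hφ, hlim⟩ := (isCompact_closedBall (0 : ℂ × ℂ)
      (max R (M * (1 + R)))).tendsto_subseq hbd
    have l1 : Tendsto (fun n => (q (φ n)).1) atTop (𝓝 L.1) :=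
      (continuous_fst.tendsto L).comp hlim
    have l2 : Tendsto (fun n => (q (φ n)).2.1) atTop (𝓝 L.2) :=
      (continuous_snd.tendsto L).comp hlim
    have l0 : Tendsto (fun n => (q (φ n)).2.1 - (q (φ n)).2.2) atTop (𝓝 0) := by
      refine squeeze_zero_norm (fun n => (hq4 (φ n)).le) ?_
      exact tendsto_one_div_add_atTop_nhds_zero_nat.comp hφ.tendsto_atTop
    have l3 : Tendsto (fun n => (q (φ n)).2.2) atTop (𝓝 L.2) := by
      have := l2.sub l0
      simpa using this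
    have m1 := (C1_continuous_vec.tendsto (1, L.1, L.2)).comp
      ((tendsto_const_nhds (x := (1 : ℂ))).prodMk_nhds (l1.prodMk_nhds l2))
    have m2 := (C1_continuous_vec.tendsto (1, L.1, L.2)).comp
      ((tendsto_const_nhds (x := (1 : ℂ))).prodMk_nhds (l1.prodMk_nhds l3))
    have e0 : MvPolynomial.eval ![1, L.1, L.2] G = 0 := by
      have m3 := ((C1_continuous_eval G).tendsto (1, L.1, L.2)).comp
        ((tendsto_const_nhds (x := (1 : ℂ))).prodMk_nhds (l1.prodMk_nhds l2))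
      have m4 : Tendsto (fun _ : ℕ => (0 : ℂ)) atTop (𝓝 (MvPolynomial.eval ![1, L.1, L.2] G)) :=
        m3.congr fun n => (hq2 (φ n)).1
      exact (tendsto_nhds_unique m4 tendsto_const_nhds)
    have hX : aff1 (L.1, L.2) ∈ ConeN G := (C1_aff _).2 e0
    exact C1_close hG x hX (a := fun n => aff1 ((q (φ n)).1, (q (φ n)).2.1))
      (b := fun n => aff1 ((q (φ n)).1, (q (φ n)).2.2))
      (fun n => (C1_aff _).2 (hq2 (φ n)).1) (fun n => (C1_aff _).2 (hq3 (φ n)).1) m1 m2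
      (fun n => (hq2 (φ n)).2) (fun n => (hq3 (φ n)).2)
  · -- hinf
    by_contra hcon
    push Not at hcon
    have h3 : ∀ n : ℕ, ∃ q : ℂ × ℂ × ℂ, (n : ℝ) + 1 ≤ ‖q.1‖ ∧ (q.1, q.2.1) ∈ A ∧
        (q.1, q.2.2) ∈ B ∧ ‖q.2.1 - q.2.2‖ < 1 / ((n : ℝ) + 1) * ‖q.1‖ := by
      intro n
      obtain ⟨u, v, w, h1, h2, h3, h4⟩ := hcon ((n : ℝ) + 1) (1 / ((n : ℝ) + 1)) (by positivity)
      exact ⟨(u, v, w), h1, h2, h3, h4⟩
    choose q hq1 hq2 hq3 hq4 using h3
    have hu1 : ∀ n, 1 ≤ ‖(q n).1‖ := fun n => by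
      have := hq1 n
      have h0 : (0 : ℝ) ≤ n := Nat.cast_nonneg n
      linarith
    have hu0 : ∀ n, (q n).1 ≠ 0 := fun n => norm_pos_iff.1 (lt_of_lt_of_le one_pos (hu1 n))
    have hbd : ∀ n, ((q n).1⁻¹ * (q n).2.1) ∈ Metric.closedBall (0 : ℂ) (2 * M) := by
      intro n
      rw [mem_closedBall_zero_iff, norm_mul, norm_inv, inv_mul_eq_div,
        div_le_iff₀ (lt_of_lt_of_le one_pos (hu1 n))]
      refine (hb _ _ (hq2 n).1).trans ?_
      have := hu1 n
      show M * (1 + ‖(q n).1‖) ≤ _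
      nlinarith
    obtain ⟨L, _, φ, hφ, hlim⟩ := (isCompact_closedBall (0 : ℂ) (2 * M)).tendsto_subseq hbd
    have l1 : Tendsto (fun n => ((q (φ n)).1)⁻¹) atTop (𝓝 0) := by
      refine squeeze_zero_norm (a := fun n => 1 / ((φ n : ℝ) + 1)) (fun n => ?_)
        (tendsto_one_div_add_atTop_nhds_zero_nat.comp hφ.tendsto_atTop)
      rw [norm_inv, ← one_div]
      exact one_div_le_one_div_of_le (by positivity) (hq1 (φ n))
    have l2 : Tendsto (fun n => ((q (φ n)).1)⁻¹ * (q (φ n)).2.1) atTop (𝓝 L) := hlim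
    have l0 : Tendsto (fun n => ((q (φ n)).1)⁻¹ * (q (φ n)).2.1 -
        ((q (φ n)).1)⁻¹ * (q (φ n)).2.2) atTop (𝓝 0) := by
      refine squeeze_zero_norm (a := fun n => 1 / ((φ n : ℝ) + 1)) (fun n => ?_)
        (tendsto_one_div_add_atTop_nhds_zero_nat.comp hφ.tendsto_atTop)
      rw [← mul_sub, norm_mul, norm_inv, inv_mul_eq_div,
        div_le_iff₀ (lt_of_lt_of_le one_pos (hu1 (φ n)))]
      exact (hq4 (φ n)).le
    have l3 : Tendsto (fun n => ((q (φ n)).1)⁻¹ * (q (φ n)).2.2) atTop (𝓝 L) := by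
      have := l2.sub l0
      simpa using this
    have m1 := (C1_continuous_vec.tendsto (0, 1, L)).comp
      (l1.prodMk_nhds ((tendsto_const_nhds (x := (1 : ℂ))).prodMk_nhds l2))
    have m2 := (C1_continuous_vec.tendsto (0, 1, L)).comp
      (l1.prodMk_nhds ((tendsto_const_nhds (x := (1 : ℂ))).prodMk_nhds l3))
    have key : ∀ (u v : ℂ), u ≠ 0 →
        (WithLp.toLp 2 ![u⁻¹, 1, u⁻¹ * v] : CN 3) = u⁻¹ • aff1 (u, v) := by
      intro u v hu
      ext i
      fin_cases i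
      · simp [aff1]
      · simp [aff1, hu]
      · simp [aff1]
    have hmem : ∀ (u v : ℂ), u ≠ 0 → (u, v) ∈ Zaff G →
        (WithLp.toLp 2 ![u⁻¹, 1, u⁻¹ * v] : CN 3) ∈ ConeN G := by
      intro u v hu h
      rw [key u v hu]
      exact hcone _ ((C1_aff _).2 h) _ (inv_ne_zero hu)
    have hrho : ∀ (u v : ℂ), u ≠ 0 → (u, v) ∈ Zaff G →
        rho (ConeN G) (aff1 (u, v)) (WithLp.toLp 2 ![u⁻¹, 1, u⁻¹ * v] : CN 3) = 0 := by
      intro u v hu h
      rw [key u v hu]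
      exact rho_smul hcone ((C1_aff _).2 h) (inv_ne_zero hu)
    have e0 : MvPolynomial.eval ![0, 1, L] G = 0 := by
      have m3 := ((C1_continuous_eval G).tendsto (0, 1, L)).comp
        (l1.prodMk_nhds ((tendsto_const_nhds (x := (1 : ℂ))).prodMk_nhds l2))
      have m4 : Tendsto (fun _ : ℕ => (0 : ℂ)) atTop (𝓝 (MvPolynomial.eval ![0, 1, L] G)) :=
        m3.congr fun n => (hmem _ _ (hu0 (φ n)) (hq2 (φ n)).1).2
      exact (tendsto_nhds_unique m4 tendsto_const_nhds)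
    have hX : (WithLp.toLp 2 ![0, 1, L] : CN 3) ∈ ConeN G := by
      refine ⟨?_, e0⟩
      intro h
      have h1 : (WithLp.toLp 2 ![0, 1, L] : CN 3) 1 = (0 : CN 3) 1 := by rw [h]
      simp at h1
    refine C1_close hG x hX
      (a := fun n => WithLp.toLp 2 ![((q (φ n)).1)⁻¹, 1, ((q (φ n)).1)⁻¹ * (q (φ n)).2.1])
      (b := fun n => WithLp.toLp 2 ![((q (φ n)).1)⁻¹, 1, ((q (φ n)).1)⁻¹ * (q (φ n)).2.2])
      (fun n => hmem _ _ (hu0 (φ n)) (hq2 (φ n)).1) (fun n => hmem _ _ (hu0 (φ n)) (hq3 (φ n)).1)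
      m1 m2 ?_ ?_
    · intro n
      have h4 := rho_triangle (S := ConeN G) x (aff1 ((q (φ n)).1, (q (φ n)).2.1))
        (WithLp.toLp 2 ![((q (φ n)).1)⁻¹, 1, ((q (φ n)).1)⁻¹ * (q (φ n)).2.1])
      rw [hrho _ _ (hu0 (φ n)) (hq2 (φ n)).1, add_zero] at h4
      exact ne_top_of_le_ne_top (hq2 (φ n)).2 h4
    · intro n
      have h4 := rho_triangle (S := ConeN G) x
        (WithLp.toLp 2 ![((q (φ n)).1)⁻¹, 1, ((q (φ n)).1)⁻¹ * (q (φ n)).2.2])
        (aff1 ((q (φ n)).1, (q (φ n)).2.2))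
      rw [rho_symm (WithLp.toLp 2 ![((q (φ n)).1)⁻¹, 1, ((q (φ n)).1)⁻¹ * (q (φ n)).2.2])
        (aff1 ((q (φ n)).1, (q (φ n)).2.2)), hrho _ _ (hu0 (φ n)) (hq3 (φ n)).1,
        add_zero, (hq3 (φ n)).2, top_le_iff] at h4
      exact h4
  · obtain ⟨u, hu, v, hv, hiff⟩ := C1_offN hG h2 x hN hxZ
    exact ⟨u, hu, v, hv, hiff.2 (by rw [hxr]; exact ENNReal.zero_ne_top)⟩
  · obtain ⟨u, hu, v, hv, hiff⟩ := C1_offN hG h2 x hN hyZ
    refine ⟨u, hu, v, hv, ?_⟩
    by_contra hne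
    exact (hiff.1 hne) hyT


lemma C2_zsw_zsw (Z : Set (ℂ × ℂ)) : Zsw (Zsw Z) = Z := by
  ext p
  simp [Zsw]

lemma C2_swap {d : ℕ} {Z : Set (ℂ × ℂ)} {w w' : ℂ × ℂ → ℝ} {t : ℂ × ℂ → ℝ≥0∞}
    {Nu Nv : Set ℂ} (D : AreaData d Z w w' t Nu Nv) :
    AreaData d (Zsw Z) w' w (fun p => t (p.2, p.1)) Nv Nu where
  closed := D.closed.preimage continuous_swap
  cu := D.cv
  cv := D.cu
  shu := D.shv
  shv := by
    rw [C2_zsw_zsw]
    exact D.shu
  slu := D.slv
  slv := by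
    rw [C2_zsw_zsw]
    exact D.slu
  lu := D.lv
  lv := by
    rw [C2_zsw_zsw]
    exact D.lu

lemma C2_area_swap (Z E : Set (ℂ × ℂ)) : area (Zsw Z) (Zsw E) = area Z E := by
  unfold area
  rw [C2_zsw_zsw, C2_zsw_zsw, add_comm]

lemma C2_ind (Z : Set (ℂ × ℂ)) (t : ℂ × ℂ → ℝ≥0∞) (r : ℝ≥0∞) :
    su Z ({p | t p < r}.indicator 1) = su Z (fun p => if t p < r then 1 else 0) := by
  congr 1
  funext p
  by_cases h : t p < r
  · simp [h]
  · simp [h]

lemma C2_meas {d : ℕ} {Z : Set (ℂ × ℂ)} {w : ℂ × ℂ → ℝ} {t : ℂ × ℂ → ℝ≥0∞} {N : Set ℂ}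
    (hN : N.Countable) (hS : ∀ u, u ∉ N → Sheets d Z u) (hw : IsSlope Z w) (ht : LipGraph Z t)
    (r : ℝ≥0) : Measurable (su Z (fun p => if t p < r then 1 else 0)) := by
  have := su_measurable hN hS hw ht r 1 0
  simpa using this

lemma C2_half {d : ℕ} {Z : Set (ℂ × ℂ)} {w w' : ℂ × ℂ → ℝ} {t : ℂ × ℂ → ℝ≥0∞}
    {Nu Nv : Set ℂ} (D : AreaData d Z w w' t Nu Nv) {r : ℝ≥0} {R : ℝ}
    (hsupp : ∀ p ∈ Z, t p < r → ‖p.1‖ ≤ R) :
    ((r : ℝ≥0∞) / 2) ^ 2 * ∫⁻ u, su Z ({p | t p < ((r / 2 : ℝ≥0) : ℝ≥0∞)}.indicator 1) u ≤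
      area Z {p | t p < r} ^ 2 := by
  have hcoe : ((r / 2 : ℝ≥0) : ℝ≥0∞) = (r : ℝ≥0∞) / 2 := by
    rw [ENNReal.coe_div two_ne_zero]
    norm_cast
  set g : ℂ → ℝ≥0∞ := su Z (fun p => if t p < r then 1 + ENNReal.ofReal (w p) else 0) with hg
  have hgm : Measurable g := by
    have := su_measurable D.cu D.shu D.slu D.lu r 1 1
    simpa using this
  have h1 : ∫⁻ u, su Z (fun p => (r : ℝ≥0∞) - t p) u ^ 2 ≤ (∫⁻ u, g u) ^ 2 := by
    refine loomis hgm D.cu ?_ ?_
    · intro u0 hu0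
      exact line_ineq D.shu D.slu D.lu hsupp 1 (by simp) u0 hu0
    · intro u0 hu0
      exact line_ineq D.shu D.slu D.lu hsupp Complex.I (by simp) u0 hu0
  have h2 : ∀ u, ((r : ℝ≥0∞) / 2) ^ 2 *
      su Z ({p | t p < ((r / 2 : ℝ≥0) : ℝ≥0∞)}.indicator 1) u ≤
      su Z (fun p => (r : ℝ≥0∞) - t p) u ^ 2 := by
    intro u
    set S := su Z ({p | t p < ((r / 2 : ℝ≥0) : ℝ≥0∞)}.indicator 1) u with hS
    have h3 : (r : ℝ≥0∞) / 2 * S ≤ su Z (fun p => (r : ℝ≥0∞) - t p) u := by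
      rw [hS]
      unfold su
      rw [← ENNReal.tsum_mul_left]
      refine ENNReal.tsum_le_tsum fun v => ?_
      by_cases hv : (u, v) ∈ Z
      · rw [indicator_of_mem hv, indicator_of_mem hv]
        by_cases ht : t (u, v) < ((r / 2 : ℝ≥0) : ℝ≥0∞)
        · rw [indicator_of_mem (show (u, v) ∈ {p | t p < ((r / 2 : ℝ≥0) : ℝ≥0∞)} from ht)]
          rw [hcoe] at ht
          simp only [Pi.one_apply, mul_one]
          rw [ENNReal.le_sub_iff_add_le_right]
          · calc (r : ℝ≥0∞) / 2 + t (u, v) ≤ (r : ℝ≥0∞) / 2 + (r : ℝ≥0∞) / 2 := by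
                  gcongr
              _ = r := ENNReal.add_halves _
          · exact (ht.trans_le le_top).ne
          · exact ht.le.trans ENNReal.half_le_self
        · rw [indicator_of_notMem (show (u, v) ∉ {p | t p < ((r / 2 : ℝ≥0) : ℝ≥0∞)} from ht)]
          simp
      · rw [indicator_of_notMem hv, indicator_of_notMem hv]
        simp
    have h4 : S ≤ S ^ 2 := by
      by_cases h0 : S = 0
      · rw [h0]; simp
      · have : 1 ≤ S := by
          rw [hS] at h0 ⊢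
          unfold su at h0 ⊢
          rw [ENNReal.tsum_eq_zero] at h0
          push Not at h0
          obtain ⟨v, hv⟩ := h0
          refine le_trans ?_ (ENNReal.le_tsum v)
          by_cases hvZ : (u, v) ∈ Z
          · rw [indicator_of_mem hvZ] at hv ⊢
            by_cases ht : (u, v) ∈ {p | t p < ((r / 2 : ℝ≥0) : ℝ≥0∞)}
            · rw [indicator_of_mem ht]
              simp
            · rw [indicator_of_notMem ht] at hv
              exact absurd rfl hv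
          · rw [indicator_of_notMem hvZ] at hv
            exact absurd rfl hv
        calc S = S * 1 := (mul_one S).symm
          _ ≤ S * S := by gcongr
          _ = S ^ 2 := (sq S).symm
    calc ((r : ℝ≥0∞) / 2) ^ 2 * S ≤ ((r : ℝ≥0∞) / 2) ^ 2 * S ^ 2 := by gcongr
      _ = ((r : ℝ≥0∞) / 2 * S) ^ 2 := by rw [mul_pow]
      _ ≤ _ := by gcongr
  have h5 : ∫⁻ u, g u ≤ area Z {p | t p < r} := by
    have h6 : ∀ u, g u = su Z (fun p => if t p < r then 1 else 0) u +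
        su Z (fun p => if t p < r then ENNReal.ofReal (w p) else 0) u := by
      intro u
      rw [hg]
      unfold su
      rw [← ENNReal.tsum_add]
      congr 1
      funext v
      by_cases hv : (u, v) ∈ Z
      · rw [indicator_of_mem hv, indicator_of_mem hv, indicator_of_mem hv]
        by_cases ht : t (u, v) < r
        · simp [ht]
        · simp [ht]
      · rw [indicator_of_notMem hv, indicator_of_notMem hv, indicator_of_notMem hv]
        simp
    calc ∫⁻ u, g u = ∫⁻ u, (su Z (fun p => if t p < r then 1 else 0) u +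
        su Z (fun p => if t p < r then ENNReal.ofReal (w p) else 0) u) := by
          simp_rw [h6]
      _ = (∫⁻ u, su Z (fun p => if t p < r then 1 else 0) u) +
        ∫⁻ u, su Z (fun p => if t p < r then ENNReal.ofReal (w p) else 0) u :=
          lintegral_add_left (C2_meas D.cu D.shu D.slu D.lu r) _
      _ ≤ (∫⁻ u, su Z (fun p => if t p < r then 1 else 0) u) +
        ∫⁻ v, su (Zsw Z) (fun p => if t (p.2, p.1) < r then 1 else 0) v := by
          exact add_le_add le_rfl (change_var D.cu D.shu D.slu D.lu r)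
      _ = area Z {p | t p < r} := by
          unfold area
          rw [C2_ind]
          have h7 : Zsw {p | t p < (r : ℝ≥0∞)} = {p | (fun p : ℂ × ℂ => t (p.2, p.1)) p < r} := by
            ext p
            simp [Zsw]
          rw [h7, C2_ind]
  have hr2 : ((r : ℝ≥0∞) / 2) ^ 2 ≠ ⊤ := by
    apply ENNReal.pow_ne_top
    exact (ENNReal.div_lt_top ENNReal.coe_ne_top two_ne_zero).ne
  calc ((r : ℝ≥0∞) / 2) ^ 2 * ∫⁻ u, su Z ({p | t p < ((r / 2 : ℝ≥0) : ℝ≥0∞)}.indicator 1) u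
      = ∫⁻ u, ((r : ℝ≥0∞) / 2) ^ 2 *
        su Z ({p | t p < ((r / 2 : ℝ≥0) : ℝ≥0∞)}.indicator 1) u :=
        (lintegral_const_mul' _ _ hr2).symm
    _ ≤ ∫⁻ u, su Z (fun p => (r : ℝ≥0∞) - t p) u ^ 2 := lintegral_mono h2
    _ ≤ (∫⁻ u, g u) ^ 2 := h1
    _ ≤ area Z {p | t p < r} ^ 2 := by gcongr

/-- the growth of the area of intrinsic balls -/
theorem growth_step {d : ℕ} {Z : Set (ℂ × ℂ)} {w w' : ℂ × ℂ → ℝ} {t : ℂ × ℂ → ℝ≥0∞}
    {Nu Nv : Set ℂ} (D : AreaData d Z w w' t Nu Nv) {r : ℝ≥0} {R : ℝ}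
    (hsupp : ∀ p ∈ Z, t p < r → ‖p.1‖ ≤ R ∧ ‖p.2‖ ≤ R) :
    ((r : ℝ≥0∞) / 2) ^ 2 * area Z {p | t p < ((r / 2 : ℝ≥0) : ℝ≥0∞)} ≤
      2 * area Z {p | t p < r} ^ 2 := by
  have h1 := C2_half D (r := r) (R := R) (fun p hp htp => (hsupp p hp htp).1)
  have h2 := C2_half (C2_swap D) (r := r) (R := R)
    (fun p hp htp => (hsupp (p.2, p.1) hp htp).2)
  have h3 : ∀ q : ℝ≥0∞, Zsw {p | t p < q} = {p | (fun p : ℂ × ℂ => t (p.2, p.1)) p < q} := by
    intro q
    ext p
    simp [Zsw]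
  rw [← h3, ← h3, C2_area_swap] at h2
  calc ((r : ℝ≥0∞) / 2) ^ 2 * area Z {p | t p < ((r / 2 : ℝ≥0) : ℝ≥0∞)}
      = ((r : ℝ≥0∞) / 2) ^ 2 * (∫⁻ u, su Z ({p | t p < ((r / 2 : ℝ≥0) : ℝ≥0∞)}.indicator 1) u) +
        ((r : ℝ≥0∞) / 2) ^ 2 * ∫⁻ v, su (Zsw Z)
          ((Zsw {p | t p < ((r / 2 : ℝ≥0) : ℝ≥0∞)}).indicator 1) v := by
        unfold area
        rw [mul_add]
    _ ≤ area Z {p | t p < r} ^ 2 + area Z {p | t p < r} ^ 2 := by gcongr
    _ = 2 * area Z {p | t p < r} ^ 2 := by rw [two_mul]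


lemma C3_aff1_mem {G : MvPolynomial (Fin 3) ℂ} {z : CN 3} (hz : z ∈ ConeN G) (h0 : z 0 = 1) :
    (z 1, z 2) ∈ Zaff G ∧ aff1 (z 1, z 2) = z := by
  have h1 : aff1 (z 1, z 2) = z := by
    unfold aff1
    ext i
    fin_cases i
    · simp [h0]
    · simp
    · simp
  refine ⟨?_, h1⟩
  have h2 := hz.2
  have h3 : (fun i => z i) = ![1, z 1, z 2] := by
    funext i
    fin_cases i
    · simp [h0]
    · simp
    · simp
  rw [h3] at h2
  exact h2

lemma C3_aff1_cone {G : MvPolynomial (Fin 3) ℂ} {p : ℂ × ℂ} (hp : p ∈ Zaff G) :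
    aff1 p ∈ ConeN G := by
  refine ⟨?_, hp⟩
  intro h
  have := congrArg (fun v : CN 3 => v 0) h
  simp [aff1] at this

lemma C3_support {G : MvPolynomial (Fin 3) ℂ} {z : CN 3} (h0 : z 0 = 1) (h1 : ‖z 1‖ ≤ 1)
    (h2 : ‖z 2‖ ≤ 1) (p : ℂ × ℂ) (hp : rho (ConeN G) z (aff1 p) < ENNReal.ofReal (1 / 15)) :
    ‖p.1‖ ≤ 2 ∧ ‖p.2‖ ≤ 2 := by
  have hg := gsq_rho (S := ConeN G) (fun h => h.1 rfl) 0 z (aff1 p)
  have h3 : ENNReal.ofReal |‖z 0‖ ^ 2 / ‖z‖ ^ 2 - ‖(aff1 p) 0‖ ^ 2 / ‖aff1 p‖ ^ 2| <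
      ENNReal.ofReal (2 / 15) := by
    refine hg.trans_lt ?_
    rw [show (2 / 15 : ℝ) = 2 * (1 / 15) by norm_num, ENNReal.ofReal_mul (by norm_num)]
    have : ENNReal.ofReal 2 = 2 := by simp
    rw [this]
    exact ENNReal.mul_lt_mul_right (by norm_num) (by norm_num) hp
  rw [ENNReal.ofReal_lt_ofReal_iff (by norm_num)] at h3
  have hz : ‖z‖ ^ 2 = 1 + ‖z 1‖ ^ 2 + ‖z 2‖ ^ 2 := by
    rw [EuclideanSpace.norm_sq_eq, Fin.sum_univ_three, h0]
    simp
  have hq : ‖aff1 p‖ ^ 2 = 1 + ‖p.1‖ ^ 2 + ‖p.2‖ ^ 2 := by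
    rw [EuclideanSpace.norm_sq_eq, Fin.sum_univ_three]
    simp [aff1]
  have hq0 : ‖(aff1 p) 0‖ = 1 := by simp [aff1]
  rw [hz, hq, hq0, h0] at h3
  have h4 := (abs_lt.mp h3).2
  simp only [norm_one, one_pow] at h4
  have h5 : (1 : ℝ) / 3 ≤ 1 / (1 + ‖z 1‖ ^ 2 + ‖z 2‖ ^ 2) := by
    rw [div_le_div_iff₀ (by norm_num) (by positivity)]
    nlinarith [norm_nonneg (z 1), norm_nonneg (z 2)]
  have h6 : (1 : ℝ) / 5 < 1 / (1 + ‖p.1‖ ^ 2 + ‖p.2‖ ^ 2) := by linarith
  rw [div_lt_div_iff₀ (by norm_num) (by positivity)] at h6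
  constructor
  · nlinarith [norm_nonneg p.1, norm_nonneg p.2, sq_nonneg (‖p.2‖)]
  · nlinarith [norm_nonneg p.1, norm_nonneg p.2, sq_nonneg (‖p.1‖)]

lemma C3_zaff_closed (G : MvPolynomial (Fin 3) ℂ) : IsClosed (Zaff G) := by
  have hc : Continuous fun p : ℂ × ℂ => MvPolynomial.eval ![1, p.1, p.2] G := by
    refine (MvPolynomial.continuous_eval G).comp ?_
    refine continuous_pi fun i => ?_
    fin_cases i
    · exact continuous_const
    · exact continuous_fst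
    · exact continuous_snd
  exact isClosed_singleton.preimage hc

lemma C3_countable {N : Set ℂ} (hN : ∀ R : ℝ, (N ∩ Metric.closedBall 0 R).Finite) :
    N.Countable := by
  have : N = ⋃ n : ℕ, N ∩ Metric.closedBall 0 n := by
    ext u
    simp only [mem_iUnion, mem_inter_iff, Metric.mem_closedBall, dist_zero_right]
    constructor
    · intro hu
      obtain ⟨n, hn⟩ := exists_nat_ge ‖u‖
      exact ⟨n, hu, hn⟩
    · rintro ⟨n, hu, _⟩
      exact hu
  rw [this]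
  exact countable_iUnion fun n => (hN n).countable

/-- the area data of a smooth plane curve -/
lemma C3_data {d : ℕ} (hd : 1 ≤ d) {G : MvPolynomial (Fin 3) ℂ} (hG : IsSmoothForm 3 d G)
    (h1 : MvPolynomial.eval ![0, 1, 0] G ≠ 0) (h2 : MvPolynomial.eval ![0, 0, 1] G ≠ 0) :
    ∃ (w w' : ℂ × ℂ → ℝ) (Nu Nv : Set ℂ), ∀ z : CN 3,
      AreaData d (Zaff G) w w' (fun p => rho (ConeN G) z (aff1 p)) Nu Nv := by
  obtain ⟨hG', hZ', he'⟩ := swap_form hG
  obtain ⟨Nu, hNu, hSu⟩ := sheets_of_smooth hd hG h2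
  obtain ⟨Nv, hNv, hSv⟩ := sheets_of_smooth hd hG' (by rw [he']; exact h1)
  obtain ⟨w, hw⟩ := slope_exists hG
  obtain ⟨w', hw'⟩ := slope_exists hG'
  rw [hZ'] at hSv hw'
  exact ⟨w, w', Nu, Nv, fun z =>
    { closed := C3_zaff_closed G
      cu := C3_countable hNu
      cv := C3_countable hNv
      shu := hSu
      shv := hSv
      slu := hw
      slv := hw'
      lu := lipGraph_rho G z
      lv := lipGraph_rho' G z }⟩

/-- intrinsic balls have large area -/
lemma C3_area {d : ℕ} {G : MvPolynomial (Fin 3) ℂ} (hG : IsSmoothForm 3 d G)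
    {w w' : ℂ × ℂ → ℝ} {Nu Nv : Set ℂ} {z : CN 3} (hz : z ∈ ConeN G) (h0 : z 0 = 1)
    (hz1 : ‖z 1‖ ≤ 1) (hz2 : ‖z 2‖ ≤ 1)
    (D : AreaData d (Zaff G) w w' (fun p => rho (ConeN G) z (aff1 p)) Nu Nv) :
    ENNReal.ofReal (1 / 7200) ≤ area (Zaff G)
      {p | rho (ConeN G) z (aff1 p) < (((1 / 15 : ℝ≥0)) : ℝ≥0∞)} := by
  set t : ℂ × ℂ → ℝ≥0∞ := fun p => rho (ConeN G) z (aff1 p) with ht
  have hcoe : (((1 / 15 : ℝ≥0)) : ℝ≥0∞) = ENNReal.ofReal (1 / 15) := by
    rw [ENNReal.ofReal, Real.toNNReal_div (by norm_num)]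
    simp
  have hsupp : ∀ r : ℝ≥0, r ≤ 1 / 15 → ∀ p ∈ Zaff G, t p < r → ‖p.1‖ ≤ 2 ∧ ‖p.2‖ ≤ 2 := by
    intro r hr p _ htp
    refine C3_support (G := G) h0 hz1 hz2 p ?_
    rw [← hcoe]
    exact htp.trans_le (by exact_mod_cast hr)
  obtain ⟨hp, hpz⟩ := C3_aff1_mem hz h0
  have htz : t (z 1, z 2) = 0 := by
    rw [ht]
    simp only
    rw [hpz]
    exact rho_self hz
  obtain ⟨κ, hκ, hpos⟩ : ∃ κ : ℝ≥0∞, 0 < κ ∧ ∀ r : ℝ≥0, 0 < r → r ≤ 1 / 15 →
      κ * (r : ℝ≥0∞) ^ 2 ≤ area (Zaff G) {p | t p < r} := by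
    rcases graph_through hG hp with ⟨δ, f, hf, hfz⟩ | ⟨δ, f, hf, hfz⟩
    · obtain ⟨κ, hκ, h⟩ := area_pos D.lu hf (by rw [hfz]; exact htz)
        (show (0 : ℝ≥0) < 1 / 15 by norm_num)
      refine ⟨κ, hκ, fun r hr hr' => (h r hr hr').trans ?_⟩
      unfold area
      exact le_self_add
    · obtain ⟨κ, hκ, h⟩ := area_pos D.lv hf (by simp only [hfz]; exact htz)
        (show (0 : ℝ≥0) < 1 / 15 by norm_num)
      refine ⟨κ, hκ, fun r hr hr' => (h r hr hr').trans ?_⟩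
      unfold area
      exact le_add_self
  have hit := iterate_growth (V := fun r => area (Zaff G) {p | t p < r})
    (show (0 : ℝ≥0) < 1 / 15 by norm_num)
    (fun r _ hr => growth_step D (hsupp r hr)) hκ hpos
  refine le_trans (le_of_eq ?_) hit
  rw [hcoe, ← ENNReal.ofReal_pow (by norm_num)]
  have h32 : (32 : ℝ≥0∞) = ENNReal.ofReal 32 := by simp
  rw [h32, ← ENNReal.ofReal_div_of_pos (by norm_num)]
  norm_num

/-- separated points in one chart -/
theorem chart_bound {d : ℕ} (hd : 1 ≤ d) {G : MvPolynomial (Fin 3) ℂ} (hG : IsSmoothForm 3 d G)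
    (h1 : MvPolynomial.eval ![0, 1, 0] G ≠ 0) (h2 : MvPolynomial.eval ![0, 0, 1] G ≠ 0)
    {ι : Type} (s : Finset ι) (z : ι → CN 3)
    (hz : ∀ i ∈ s, z i ∈ ConeN G ∧ z i 0 = 1 ∧ ‖z i 1‖ ≤ 1 ∧ ‖z i 2‖ ≤ 1)
    (hsep : ∀ i ∈ s, ∀ j ∈ s, i ≠ j → ENNReal.ofReal (2 / 15) ≤ rho (ConeN G) (z i) (z j)) :
    (s.card : ℝ) ≤ 181000 * d := by
  obtain ⟨w, w', Nu, Nv, hD⟩ := C3_data hd hG h1 h2
  have hcoe : (((1 / 15 : ℝ≥0)) : ℝ≥0∞) = ENNReal.ofReal (1 / 15) := by
    rw [ENNReal.ofReal, Real.toNNReal_div (by norm_num)]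
    simp
  set E : ι → Set (ℂ × ℂ) := fun i =>
    {p | rho (ConeN G) (z i) (aff1 p) < (((1 / 15 : ℝ≥0)) : ℝ≥0∞)} with hE
  have hsum := area_sum (hD 0).cu (hD 0).cv (hD 0).shu (hD 0).shv s E ?_ ?_ ?_ ?_
  · have hlow : ∀ i ∈ s, ENNReal.ofReal (1 / 7200) ≤ area (Zaff G) (E i) := fun i hi =>
      C3_area hG (hz i hi).1 (hz i hi).2.1 (hz i hi).2.2.1 (hz i hi).2.2.2 (hD (z i))
    have h3 : ∑ i ∈ s, ENNReal.ofReal (1 / 7200) ≤ ENNReal.ofReal (8 * Real.pi * d) :=
      (Finset.sum_le_sum hlow).trans hsum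
    rw [Finset.sum_const, nsmul_eq_mul, ← ENNReal.ofReal_natCast,
      ← ENNReal.ofReal_mul (Nat.cast_nonneg _)] at h3
    have h4 := (ENNReal.ofReal_le_ofReal_iff (by positivity)).mp h3
    have hpi := Real.pi_lt_d4
    have hd0 : (0 : ℝ) ≤ d := Nat.cast_nonneg _
    nlinarith
  · intro i hi j hj hij p _ hpi hpj
    have h5 := hsep i hi j hj hij
    have h6 := rho_triangle (S := ConeN G) (z i) (aff1 p) (z j)
    rw [rho_symm (aff1 p) (z j)] at h6
    have h7 : rho (ConeN G) (z i) (aff1 p) + rho (ConeN G) (z j) (aff1 p) <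
        ENNReal.ofReal (1 / 15) + ENNReal.ofReal (1 / 15) := by
      rw [← hcoe]
      exact ENNReal.add_lt_add hpi hpj
    rw [← ENNReal.ofReal_add (by norm_num) (by norm_num)] at h7
    have h8 : ENNReal.ofReal (2 / 15) < ENNReal.ofReal (1 / 15 + 1 / 15) :=
      (h5.trans h6).trans_lt h7
    norm_num at h8
  · intro i hi p _ hp
    refine C3_support (G := G) (hz i hi).2.1 (hz i hi).2.2.1 (hz i hi).2.2.2 p ?_
    rw [← hcoe]
    exact hp
  · intro i hi
    rw [hE]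
    simp only
    rw [C2_ind]
    exact C2_meas (hD (z i)).cu (hD (z i)).shu (hD (z i)).slu (hD (z i)).lu _
  · intro i hi
    have h7 : Zsw (E i) = {p | (fun p : ℂ × ℂ => rho (ConeN G) (z i) (aff1 (p.2, p.1))) p <
        (((1 / 15 : ℝ≥0)) : ℝ≥0∞)} := by
      ext p
      simp [Zsw, hE]
    rw [h7, C2_ind]
    exact C2_meas (hD (z i)).cv (hD (z i)).shv (hD (z i)).slv (hD (z i)).lv _


lemma C4_rename {d : ℕ} {G : MvPolynomial (Fin 3) ℂ} (hG : IsSmoothForm 3 d G)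
    (σ : Equiv.Perm (Fin 3)) : IsSmoothForm 3 d (MvPolynomial.rename σ G) := by
  refine ⟨hG.1.rename_isHomogeneous, ?_⟩
  intro x hx h0
  rw [MvPolynomial.eval_rename] at h0
  have hx' : x ∘ σ ≠ 0 := by
    intro h
    apply hx
    funext i
    have := congrFun h (σ.symm i)
    simpa using this
  obtain ⟨i, hi⟩ := hG.2 (x ∘ σ) hx' h0
  refine ⟨σ i, ?_⟩
  rw [MvPolynomial.pderiv_rename σ.injective, MvPolynomial.eval_rename]
  exact hi

/-- coordinate permutation -/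
noncomputable def C4_P (σ : Equiv.Perm (Fin 3)) : CN 3 →ₗ[ℂ] CN 3 :=
  (LinearIsometryEquiv.piLpCongrLeft 2 ℂ ℂ σ).toLinearEquiv.toLinearMap

lemma C4_P_norm (σ : Equiv.Perm (Fin 3)) (x : CN 3) : ‖C4_P σ x‖ = ‖x‖ :=
  (LinearIsometryEquiv.piLpCongrLeft 2 ℂ ℂ σ).norm_map x

lemma C4_P_apply (σ : Equiv.Perm (Fin 3)) (x : CN 3) (i : Fin 3) :
    (C4_P σ x) i = x (σ.symm i) := by
  unfold C4_P
  simp [LinearIsometryEquiv.piLpCongrLeft_apply, Equiv.piCongrLeft'_apply]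

lemma C4_P_swap (j : Fin 3) (x : CN 3) :
    C4_P (Equiv.swap 0 j) (C4_P (Equiv.swap 0 j) x) = x := by
  ext i
  rw [C4_P_apply, C4_P_apply]
  simp

lemma C4_mem {G : MvPolynomial (Fin 3) ℂ} (j : Fin 3) {x : CN 3} :
    C4_P (Equiv.swap 0 j) x ∈ ConeN (MvPolynomial.rename (Equiv.swap 0 j) G) ↔ x ∈ ConeN G := by
  have h1 : (fun i => (C4_P (Equiv.swap 0 j) x) i) ∘ (Equiv.swap 0 j) = fun i => x i := by
    funext i
    simp only [Function.comp_apply]
    rw [C4_P_apply]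
    simp
  constructor
  · rintro ⟨hne, h0⟩
    rw [MvPolynomial.eval_rename, h1] at h0
    refine ⟨fun h => hne ?_, h0⟩
    rw [h, map_zero]
  · rintro ⟨hne, h0⟩
    refine ⟨fun h => hne ?_, ?_⟩
    · rw [← C4_P_swap j x, h, map_zero]
    · rw [MvPolynomial.eval_rename, h1]
      exact h0

lemma C4_rho {G : MvPolynomial (Fin 3) ℂ} (j : Fin 3) (x y : CN 3) :
    rho (ConeN G) x y ≤ rho (ConeN (MvPolynomial.rename (Equiv.swap 0 j) G))
      (C4_P (Equiv.swap 0 j) x) (C4_P (Equiv.swap 0 j) y) := by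
  have h := rho_map (S := ConeN (MvPolynomial.rename (Equiv.swap 0 j) G)) (S' := ConeN G)
    (fun h => h.1 rfl) (C4_P (Equiv.swap 0 j)) (c := 1) (C := 1) one_pos one_pos
    (fun x => by rw [C4_P_norm, one_mul]) (fun x => by rw [C4_P_norm, one_mul])
    (fun x hx => by
      rw [← C4_P_swap j x] at hx
      rw [C4_mem] at hx
      exact hx)
    (C4_P (Equiv.swap 0 j) x) (C4_P (Equiv.swap 0 j) y)
  rw [C4_P_swap, C4_P_swap] at h
  simpa using h

lemma C4_cone {n d : ℕ} {F : MvPolynomial (Fin n) ℂ} (hF : F.IsHomogeneous d) :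
    ∀ x ∈ ConeN F, ∀ c : ℂ, c ≠ 0 → c • x ∈ ConeN F := by
  rintro x ⟨hx, h0⟩ c hc
  refine ⟨smul_ne_zero hc hx, ?_⟩
  have : (fun i => (c • x) i) = fun i => c * x i := by
    funext i
    simp
  rw [this, MvPolynomial.eval_eq']
  rw [MvPolynomial.eval_eq'] at h0
  have h2 : ∀ μ ∈ F.support, MvPolynomial.coeff μ F * ∏ i, (c * x i) ^ μ i =
      c ^ d * (MvPolynomial.coeff μ F * ∏ i, x i ^ μ i) := by
    intro μ hμ
    have h1 : ∑ i, μ i = d := by
      have := hF (MvPolynomial.mem_support_iff.mp hμ)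
      rw [Finsupp.weight_apply] at this
      rw [← this, Finsupp.sum_fintype]
      · simp
      · simp
    simp only [mul_pow, Finset.prod_mul_distrib]
    rw [Finset.prod_pow_eq_pow_sum, h1]
    ring
  rw [Finset.sum_congr rfl h2, ← Finset.mul_sum, h0, mul_zero]

/-- the intrinsic diameter of a smooth plane curve -/
theorem plane_bound {d : ℕ} (hd : 1 ≤ d) {G : MvPolynomial (Fin 3) ℂ} (hG : IsSmoothForm 3 d G)
    (hE : ∀ j : Fin 3, MvPolynomial.eval (Pi.single j 1) G ≠ 0) {x y : CN 3}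
    (hx : x ∈ ConeN G) (hy : y ∈ ConeN G) (hx0 : x 0 ≠ 0) (hy0 : y 0 ≠ 0) :
    rho (ConeN G) x y ≤ ENNReal.ofReal (80000 * d) := by
  classical
  have he2 : (![0, 0, 1] : Fin 3 → ℂ) = Pi.single 2 1 := by
    funext i; fin_cases i <;> simp
  have he1 : (![0, 1, 0] : Fin 3 → ℂ) = Pi.single 1 1 := by
    funext i; fin_cases i <;> simp
  have hfin : rho (ConeN G) x y ≠ ⊤ :=
    plane_connected hd hG (by rw [he2]; exact hE 2) hx hy hx0 hy0
  by_contra hneg
  push Not at hneg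
  set δ : ℝ≥0 := 2 / 15 with hδ
  have hcoe : (δ : ℝ≥0∞) = ENNReal.ofReal (2 / 15) := by
    rw [ENNReal.ofReal, Real.toNNReal_div (by norm_num)]
    simp [hδ]
  set N : ℕ := 543000 * d with hN
  have hNle : (N : ℝ≥0∞) * δ ≤ rho (ConeN G) x y := by
    refine le_trans ?_ hneg.le
    rw [hcoe, ← ENNReal.ofReal_natCast, ← ENNReal.ofReal_mul (Nat.cast_nonneg _)]
    apply ENNReal.ofReal_le_ofReal
    rw [hN]
    push_cast
    have hd0 : (0 : ℝ) ≤ d := Nat.cast_nonneg _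
    nlinarith
  obtain ⟨z, hz⟩ := exists_points (S := ConeN G) (fun h => h.1 rfl) hfin hNle
  have hsep : ∀ k ≤ N, ∀ l ≤ N, k ≠ l → ENNReal.ofReal (2 / 15) ≤ rho (ConeN G) (z k) (z l) := by
    have key : ∀ k ≤ N, ∀ l ≤ N, k < l →
        ENNReal.ofReal (2 / 15) ≤ rho (ConeN G) (z k) (z l) := by
      intro k hk l hl hkl
      have h1 := rho_triangle (S := ConeN G) x (z k) (z l)
      rw [(hz k hk).2, (hz l hl).2] at h1
      have h2 : (k : ℝ≥0∞) * δ + δ ≤ (l : ℝ≥0∞) * δ := by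
        calc (k : ℝ≥0∞) * δ + δ = ((k + 1 : ℕ) : ℝ≥0∞) * δ := by push_cast; ring
          _ ≤ (l : ℝ≥0∞) * δ := by gcongr; omega
      have h3 := h2.trans h1
      rw [← hcoe]
      have hne : (k : ℝ≥0∞) * δ ≠ ⊤ := ENNReal.mul_ne_top (ENNReal.natCast_ne_top k)
        ENNReal.coe_ne_top
      exact (ENNReal.add_le_add_iff_left hne).mp h3
    intro k hk l hl hkl
    rcases lt_or_gt_of_ne hkl with h | h
    · exact key k hk l hl h
    · rw [rho_symm]
      exact key l hl k hk h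
  -- the dominant coordinate
  have hmax : ∀ k : ℕ, ∃ j : Fin 3, ∀ i : Fin 3, ‖z k i‖ ≤ ‖z k j‖ := fun k =>
    Finite.exists_max fun i => ‖z k i‖
  choose J hJ using hmax
  have hJne : ∀ k ≤ N, z k (J k) ≠ 0 := by
    intro k hk h0
    apply (hz k hk).1.1
    ext i
    have := hJ k i
    rw [h0, norm_zero] at this
    simpa using this
  -- the bound in each chart
  have hchart : ∀ j : Fin 3, (((Finset.range (N + 1)).filter fun k => J k = j).card : ℝ) ≤
      181000 * d := by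
    intro j
    set s := (Finset.range (N + 1)).filter fun k => J k = j with hs
    set σ : Equiv.Perm (Fin 3) := Equiv.swap 0 j with hσ
    have hmem : ∀ k ∈ s, k ≤ N ∧ J k = j := by
      intro k hk
      rw [hs, Finset.mem_filter, Finset.mem_range] at hk
      exact ⟨by omega, hk.2⟩
    refine chart_bound hd (C4_rename hG σ) ?_ ?_ s (fun k => C4_P σ ((z k (J k))⁻¹ • z k)) ?_ ?_
    · rw [MvPolynomial.eval_rename, he1]
      have : (Pi.single 1 1 : Fin 3 → ℂ) ∘ σ = Pi.single (σ.symm 1) 1 := by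
        funext i
        simp only [Function.comp_apply, Pi.single_apply]
        congr 1
        rw [eq_iff_iff]
        exact ⟨fun h => by rw [← h]; simp, fun h => by rw [h]; simp⟩
      rw [this]
      exact hE _
    · rw [MvPolynomial.eval_rename, he2]
      have : (Pi.single 2 1 : Fin 3 → ℂ) ∘ σ = Pi.single (σ.symm 2) 1 := by
        funext i
        simp only [Function.comp_apply, Pi.single_apply]
        congr 1
        rw [eq_iff_iff]
        exact ⟨fun h => by rw [← h]; simp, fun h => by rw [h]; simp⟩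
      rw [this]
      exact hE _
    · intro k hk
      obtain ⟨hkN, hkj⟩ := hmem k hk
      have hc : (z k (J k))⁻¹ ≠ 0 := inv_ne_zero (hJne k hkN)
      have hle : ∀ i, ‖((z k (J k))⁻¹ • z k) i‖ ≤ 1 := by
        intro i
        simp only [PiLp.smul_apply, smul_eq_mul, norm_mul, norm_inv]
        have h1 := hJ k i
        have h2 : 0 < ‖z k (J k)‖ := norm_pos_iff.mpr (hJne k hkN)
        rw [inv_mul_le_iff₀ h2, mul_one]
        exact h1
      refine ⟨?_, ?_, ?_, ?_⟩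
      · exact (C4_mem j).mpr (C4_cone hG.1 _ (hz k hkN).1 _ hc)
      · rw [C4_P_apply]
        have : σ.symm 0 = J k := by
          rw [hσ, hkj]
          simp
        rw [this]
        simp only [PiLp.smul_apply, smul_eq_mul]
        exact inv_mul_cancel₀ (hJne k hkN)
      · rw [C4_P_apply]
        exact hle _
      · rw [C4_P_apply]
        exact hle _
    · intro k hk l hl hkl
      obtain ⟨hkN, hkj⟩ := hmem k hk
      obtain ⟨hlN, hlj⟩ := hmem l hl
      refine le_trans ?_ (C4_rho (G := G) j _ _)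
      have hck : (z k (J k))⁻¹ ≠ 0 := inv_ne_zero (hJne k hkN)
      have hcl : (z l (J l))⁻¹ ≠ 0 := inv_ne_zero (hJne l hlN)
      have e1 := rho_smul (C4_cone hG.1) (hz k hkN).1 hck
      have e2 := rho_smul (C4_cone hG.1) (hz l hlN).1 hcl
      calc ENNReal.ofReal (2 / 15) ≤ rho (ConeN G) (z k) (z l) := hsep k hkN l hlN hkl
        _ ≤ rho (ConeN G) (z k) ((z k (J k))⁻¹ • z k) +
            rho (ConeN G) ((z k (J k))⁻¹ • z k) (z l) := rho_triangle _ _ _
        _ ≤ rho (ConeN G) (z k) ((z k (J k))⁻¹ • z k) +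
            (rho (ConeN G) ((z k (J k))⁻¹ • z k) ((z l (J l))⁻¹ • z l) +
            rho (ConeN G) ((z l (J l))⁻¹ • z l) (z l)) := by
              gcongr
              exact rho_triangle _ _ _
        _ = rho (ConeN G) ((z k (J k))⁻¹ • z k) ((z l (J l))⁻¹ • z l) := by
              rw [e1, rho_symm ((z l (J l))⁻¹ • z l) (z l), e2]
              simp
  have hcard : (Finset.range (N + 1)).card =
      ∑ j : Fin 3, ((Finset.range (N + 1)).filter fun k => J k = j).card := by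
    rw [← Finset.card_eq_sum_card_fiberwise]
    intro k _
    simp
  rw [Finset.card_range, Fin.sum_univ_three] at hcard
  have h0 := hchart 0
  have h1 := hchart 1
  have h2 := hchart 2
  have h3 : ((N + 1 : ℕ) : ℝ) ≤ 543000 * d := by
    rw [hcard]
    push_cast
    linarith
  rw [hN] at h3
  push_cast at h3
  linarith


/-! ### C5 -/

















theorem C5_eval_smul {n d : ℕ} {F : MvPolynomial (Fin n) ℂ} (hF : F.IsHomogeneous d) (c : ℂ)
    (x : Fin n → ℂ) :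
    MvPolynomial.eval (fun i => c * x i) F = c ^ d * MvPolynomial.eval x F := by
  rw [MvPolynomial.eval_eq', MvPolynomial.eval_eq', Finset.mul_sum]
  apply Finset.sum_congr rfl
  intro m hm
  have h1 : m.degree = d := by
    have := hF (MvPolynomial.mem_support_iff.mp hm)
    rw [← this, Finsupp.degree_eq_weight_one]
    rfl
  have h2 : ∏ i, (c * x i) ^ (m i) = c ^ d * ∏ i, x i ^ (m i) := by
    simp_rw [mul_pow]
    rw [Finset.prod_mul_distrib, Finset.prod_pow_eq_pow_sum]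
    congr 2
    rw [← h1, Finsupp.degree_eq_sum]
  rw [h2]
  ring

theorem C5_cone_smul {n d : ℕ} {F : MvPolynomial (Fin n) ℂ} (hF : F.IsHomogeneous d) :
    ∀ x ∈ ConeN F, ∀ c : ℂ, c ≠ 0 → c • x ∈ ConeN F := by
  intro x hx c hc
  refine ⟨smul_ne_zero hc hx.1, ?_⟩
  have : (fun i => (c • x) i) = fun i => c * x i := by
    funext i; simp
  rw [this, C5_eval_smul hF, hx.2, mul_zero]

/-- the linear map with columns `B j` -/
noncomputable def C5_LB (B : Fin 3 → Fin 4 → ℂ) : CN 3 →ₗ[ℂ] CN 4 where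
  toFun ξ := WithLp.toLp 2 (fun i => ∑ j, B j i * ξ j)
  map_add' u v := by
    ext i
    simp [mul_add, Finset.sum_add_distrib]
  map_smul' c v := by
    ext i
    simp only [PiLp.smul_apply, smul_eq_mul, RingHom.id_apply, Finset.mul_sum]
    apply Finset.sum_congr rfl
    intro j _
    ring

theorem C5_LB_apply (B : Fin 3 → Fin 4 → ℂ) (ξ : CN 3) (i : Fin 4) :
    C5_LB B ξ i = ∑ j, B j i * ξ j := rfl

theorem C5_norm4 (v : CN 4) {M : ℝ} (hM : 0 ≤ M) (h : ∀ i, ‖v i‖ ≤ M) : ‖v‖ ≤ 2 * M := by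
  apply le_of_sq_le_sq _ (by positivity)
  rw [EuclideanSpace.norm_sq_eq]
  calc ∑ i, ‖v i‖ ^ 2 ≤ ∑ _i : Fin 4, M ^ 2 := by
        apply Finset.sum_le_sum
        intro i _
        exact pow_le_pow_left₀ (norm_nonneg _) (h i) 2
    _ = (2 * M) ^ 2 := by simp; ring

theorem C5_norm3 (v : CN 3) {M : ℝ} (hM : 0 ≤ M) (h : ∀ i, ‖v i‖ ≤ M) : ‖v‖ ≤ 2 * M := by
  apply le_of_sq_le_sq _ (by positivity)
  rw [EuclideanSpace.norm_sq_eq]
  calc ∑ i, ‖v i‖ ^ 2 ≤ ∑ _i : Fin 3, M ^ 2 := by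
        apply Finset.sum_le_sum
        intro i _
        exact pow_le_pow_left₀ (norm_nonneg _) (h i) 2
    _ ≤ (2 * M) ^ 2 := by
        simp only [Finset.sum_const, Finset.card_univ, Fintype.card_fin, nsmul_eq_mul]
        push_cast
        nlinarith [sq_nonneg M]

theorem C5_LB_sub (B B' : Fin 3 → Fin 4 → ℂ) (ξ : CN 3) :
    ‖C5_LB B ξ - C5_LB B' ξ‖ ≤ 6 * ‖B - B'‖ * ‖ξ‖ := by
  have h : ∀ i, ‖(C5_LB B ξ - C5_LB B' ξ) i‖ ≤ 3 * (‖B - B'‖ * ‖ξ‖) := by
    intro i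
    rw [PiLp.sub_apply, C5_LB_apply, C5_LB_apply, ← Finset.sum_sub_distrib]
    calc ‖∑ j, (B j i * ξ j - B' j i * ξ j)‖ ≤ ∑ j : Fin 3, ‖B - B'‖ * ‖ξ‖ := by
          apply norm_sum_le_of_le
          intro j _
          rw [← sub_mul, norm_mul]
          apply mul_le_mul _ (PiLp.norm_apply_le ξ j) (norm_nonneg _) (norm_nonneg _)
          have h1 : ‖(B - B') j i‖ ≤ ‖(B - B') j‖ := norm_le_pi_norm _ i
          have h2 : ‖(B - B') j‖ ≤ ‖B - B'‖ := norm_le_pi_norm _ j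
          exact h1.trans h2
      _ = 3 * (‖B - B'‖ * ‖ξ‖) := by simp
  have := C5_norm4 _ (by positivity) h
  linarith

theorem C5_isom {B0 : Fin 3 → C4} (hB : Orthonormal ℂ B0) (ξ : CN 3) :
    ‖C5_LB (fun j i => B0 j i) ξ‖ = ‖ξ‖ := by
  have h1 : C5_LB (fun j i => B0 j i) ξ = ∑ j, ξ j • B0 j := by
    ext i
    rw [C5_LB_apply]
    simp [mul_comm]
  rw [h1]
  have h2 : ‖∑ j, ξ j • B0 j‖ ^ 2 = ‖ξ‖ ^ 2 := by
    rw [EuclideanSpace.norm_sq_eq ξ, @norm_sq_eq_re_inner ℂ, hB.inner_sum]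
    rw [map_sum]
    apply Finset.sum_congr rfl
    intro j _
    rw [RCLike.conj_mul]
    norm_cast
  exact (sq_eq_sq₀ (norm_nonneg _) (norm_nonneg _)).mp h2

theorem C5_bounds {B0 : Fin 3 → C4} (hB : Orthonormal ℂ B0) {B : Fin 3 → Fin 4 → ℂ}
    (h : ‖B - (fun j i => B0 j i)‖ < 1 / 12) (ξ : CN 3) :
    1 / 2 * ‖ξ‖ ≤ ‖C5_LB B ξ‖ ∧ ‖C5_LB B ξ‖ ≤ 2 * ‖ξ‖ := by
  have h1 := C5_LB_sub B (fun j i => B0 j i) ξ
  have h2 := C5_isom hB ξ
  have h3 : 6 * ‖B - (fun j i => B0 j i)‖ * ‖ξ‖ ≤ 1 / 2 * ‖ξ‖ := by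
    apply mul_le_mul_of_nonneg_right _ (norm_nonneg _)
    linarith
  have h4 := norm_sub_norm_le (C5_LB (fun j i => B0 j i) ξ) (C5_LB B ξ)
  have h5 := norm_sub_norm_le (C5_LB B ξ) (C5_LB (fun j i => B0 j i) ξ)
  rw [norm_sub_rev] at h4
  constructor
  · linarith
  · have := norm_nonneg ξ
    linarith

theorem C5_point {F : MvPolynomial (Fin 4) ℂ}
    {x : C4} (hx : x ∈ ConeN F)
    (hs : ∃ i, MvPolynomial.eval (fun i => x i) (MvPolynomial.pderiv i F) ≠ 0)
    {B0 : Fin 3 → C4} {ξ : Fin 3 → ℂ} (hB : Orthonormal ℂ B0) (hxB : x = ∑ j, ξ j • B0 j)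
    (hξ0 : ξ 0 ≠ 0) (ha : ∃ j, ∑ i, B0 j i * MvPolynomial.eval (fun i => x i)
      (MvPolynomial.pderiv i F) ≠ 0) {ε : ℝ} (hε : 0 < ε) :
    ∃ δ > 0, ∀ B : Fin 3 → Fin 4 → ℂ, ‖B - (fun j i => B0 j i)‖ < δ →
      ∃ ξ' : CN 3, ξ' ∈ ConeN (pull B F) ∧ ξ' 0 ≠ 0 ∧ C5_LB B ξ' ∈ ConeN F ∧
        rho (ConeN F) x (C5_LB B ξ') ≤ ENNReal.ofReal ε := by
  obtain ⟨δ1, hδ1, h1⟩ := local_path hx hs hε
  have hxe : (fun i => ∑ j, (fun j i => B0 j i : Fin 3 → Fin 4 → ℂ) j i * ξ j) = fun i => x i := by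
    funext i
    rw [hxB]
    simp [mul_comm]
  have h0 : MvPolynomial.eval ξ (pull (fun j i => B0 j i) F) = 0 := by
    rw [eval_pull, hxe]
    exact hx.2
  have h0' : ∃ j, MvPolynomial.eval ξ (MvPolynomial.pderiv j (pull (fun j i => B0 j i) F)) ≠ 0 := by
    obtain ⟨j, hj⟩ := ha
    refine ⟨j, ?_⟩
    rw [eval_pderiv_pull, hxe]
    exact hj
  have he1 : 0 < min (δ1 / 8) ‖ξ 0‖ := lt_min (by positivity) (norm_pos_iff.mpr hξ0)
  obtain ⟨δ2, hδ2, h2⟩ := zero_perturb h0 h0' he1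
  set X : CN 3 := WithLp.toLp 2 ξ with hX
  have hδ3 : 0 < δ1 / (12 * (‖X‖ + 1)) := by positivity
  refine ⟨min (min δ2 (1 / 12)) (δ1 / (12 * (‖X‖ + 1))), lt_min (lt_min hδ2 (by norm_num)) hδ3, ?_⟩
  intro B hBB
  have hb1 : ‖B - (fun j i => B0 j i)‖ < δ2 :=
    lt_of_lt_of_le hBB ((min_le_left _ _).trans (min_le_left _ _))
  have hb2 : ‖B - (fun j i => B0 j i)‖ < 1 / 12 :=
    lt_of_lt_of_le hBB ((min_le_left _ _).trans (min_le_right _ _))
  have hb3 : ‖B - (fun j i => B0 j i)‖ < δ1 / (12 * (‖X‖ + 1)) :=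
    lt_of_lt_of_le hBB (min_le_right _ _)
  obtain ⟨ξ', hξ', hev⟩ := h2 B hb1
  set X' : CN 3 := WithLp.toLp 2 ξ' with hX'
  have hne0 : X' 0 ≠ 0 := by
    intro h
    have h3 : ‖ξ' 0 - ξ 0‖ ≤ ‖ξ' - ξ‖ := norm_le_pi_norm (ξ' - ξ) 0
    have h4 : ξ' 0 = 0 := h
    rw [h4, zero_sub, norm_neg] at h3
    have h5 : ‖ξ' - ξ‖ < ‖ξ 0‖ := lt_of_lt_of_le hξ' (min_le_right _ _)
    linarith
  have hX'ne : X' ≠ 0 := by
    intro h
    apply hne0
    rw [h]
    rfl
  have hcone : C5_LB B X' ∈ ConeN F := by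
    refine ⟨?_, ?_⟩
    · intro h
      have h6 := (C5_bounds hB hb2 X').1
      rw [h, norm_zero] at h6
      have h7 : 0 < ‖X'‖ := norm_pos_iff.mpr hX'ne
      linarith
    · rw [eval_pull] at hev
      exact hev
  refine ⟨X', ⟨hX'ne, hev⟩, hne0, hcone, h1 _ hcone ?_⟩
  have hxL : x = C5_LB (fun j i => B0 j i) X := by
    ext i
    rw [C5_LB_apply]
    exact (congrFun hxe i).symm
  have h8 : C5_LB B X' - x = C5_LB B (X' - X) + (C5_LB B X - C5_LB (fun j i => B0 j i) X) := by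
    rw [hxL, map_sub]
    abel
  have h9 : ‖X' - X‖ ≤ 2 * ‖ξ' - ξ‖ := by
    apply C5_norm3 _ (norm_nonneg _)
    intro i
    exact norm_le_pi_norm (ξ' - ξ) i
  have h10 : ‖C5_LB B (X' - X)‖ ≤ 2 * ‖X' - X‖ := (C5_bounds hB hb2 _).2
  have h11 := C5_LB_sub B (fun j i => B0 j i) X
  have h12 : ‖ξ' - ξ‖ < δ1 / 8 := lt_of_lt_of_le hξ' (min_le_left _ _)
  have h13 : 6 * ‖B - (fun j i => B0 j i)‖ * ‖X‖ < δ1 / 2 := by
    rw [lt_div_iff₀ (by positivity)] at hb3
    have h14 : 0 ≤ ‖B - (fun j i => B0 j i)‖ := norm_nonneg _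
    nlinarith [norm_nonneg X]
  rw [h8]
  calc ‖C5_LB B (X' - X) + (C5_LB B X - C5_LB (fun j i => B0 j i) X)‖
      ≤ ‖C5_LB B (X' - X)‖ + ‖C5_LB B X - C5_LB (fun j i => B0 j i) X‖ := norm_add_le _ _
    _ < δ1 := by linarith

/-- the linear functional of the derivative -/
noncomputable def C5_fun (g : Fin 4 → ℂ) : C4 →ₗ[ℂ] ℂ where
  toFun v := ∑ i, v i * g i
  map_add' u v := by simp [add_mul, Finset.sum_add_distrib]
  map_smul' c v := by
    simp only [PiLp.smul_apply, smul_eq_mul, RingHom.id_apply, Finset.mul_sum]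
    apply Finset.sum_congr rfl
    intro j _
    ring

theorem C5_fun_ne {g : Fin 4 → ℂ} (hg : ∃ i, g i ≠ 0) : C5_fun g ≠ 0 := by
  obtain ⟨i, hi⟩ := hg
  intro h
  apply hi
  have := LinearMap.congr_fun h (EuclideanSpace.single i (1 : ℂ))
  simpa [C5_fun] using this

theorem C5_indep {d : ℕ} (hd : 1 ≤ d) {F : MvPolynomial (Fin 4) ℂ}
    (hF : IsSmoothForm 4 d F) {x y : C4} (hx : x ∈ ConeN F) (hy : y ∈ ConeN F)
    (hxy : LinearIndependent ℂ ![x, y]) {ε : ℝ} (hε : 0 < ε) :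
    rho (ConeN F) x y ≤ ENNReal.ofReal (1280000 * d) + 2 * ENNReal.ofReal ε := by
  have hx0 : (fun i => x i) ≠ (0 : Fin 4 → ℂ) := by
    intro h
    apply hx.1
    ext i
    exact congrFun h i
  have hy0 : (fun i => y i) ≠ (0 : Fin 4 → ℂ) := by
    intro h
    apply hy.1
    ext i
    exact congrFun h i
  have hsx := hF.2 _ hx0 hx.2
  have hsy := hF.2 _ hy0 hy.2
  obtain ⟨B0, ξ, η, hB, hxB, hyB, hξ0, hη0, ha, hb⟩ := base_frame hxy
    (C5_fun fun i => MvPolynomial.eval (fun i => x i) (MvPolynomial.pderiv i F))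
    (C5_fun fun i => MvPolynomial.eval (fun i => y i) (MvPolynomial.pderiv i F))
    (C5_fun_ne hsx) (C5_fun_ne hsy)
  obtain ⟨δ1, hδ1, h1⟩ := C5_point hx hsx hB hxB hξ0 ha hε
  obtain ⟨δ2, hδ2, h2⟩ := C5_point hy hsy hB hyB hη0 hb hε
  have hae : ∀ᵐ B : Fin 3 → Fin 4 → ℂ, IsSmoothForm 3 d (pull B F) ∧
      ∀ j : Fin 3, MvPolynomial.eval (B j) F ≠ 0 :=
    (generic_section hd hF).and (ae_all_iff.mpr fun j => generic_nonzero hF j)
  have hop4 : (volume : Measure (Fin 4 → ℂ)).IsOpenPosMeasure := by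
    rw [volume_pi]; infer_instance
  have hop3 : (volume : Measure (Fin 3 → Fin 4 → ℂ)).IsOpenPosMeasure := by
    rw [volume_pi]; infer_instance
  have hdense := MeasureTheory.Measure.dense_of_ae hae
  have hball : (Metric.ball (fun j i => B0 j i : Fin 3 → Fin 4 → ℂ)
      (min (min δ1 δ2) (1 / 12))).Nonempty :=
    ⟨_, Metric.mem_ball_self (lt_min (lt_min hδ1 hδ2) (by norm_num))⟩
  obtain ⟨B, hB1, hB2⟩ := hdense.inter_open_nonempty _ Metric.isOpen_ball hball
  rw [Metric.mem_ball, dist_eq_norm] at hB1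
  obtain ⟨hsm, hnz⟩ := hB2
  have hb1 : ‖B - (fun j i => B0 j i)‖ < δ1 :=
    lt_of_lt_of_le hB1 ((min_le_left _ _).trans (min_le_left _ _))
  have hb2 : ‖B - (fun j i => B0 j i)‖ < δ2 :=
    lt_of_lt_of_le hB1 ((min_le_left _ _).trans (min_le_right _ _))
  have hb3 : ‖B - (fun j i => B0 j i)‖ < 1 / 12 :=
    lt_of_lt_of_le hB1 (min_le_right _ _)
  obtain ⟨ξ', hξ1, hξ2, hξ3, hξ4⟩ := h1 B hb1
  obtain ⟨η', hη1, hη2, hη3, hη4⟩ := h2 B hb2
  have hE : ∀ j : Fin 3, MvPolynomial.eval (Pi.single j 1) (pull B F) ≠ 0 := by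
    intro j
    rw [eval_pull]
    have : (fun i => ∑ k, B k i * (Pi.single j 1 : Fin 3 → ℂ) k) = B j := by
      funext i
      rw [Finset.sum_eq_single j]
      · simp
      · intro k _ hk
        rw [Pi.single_eq_of_ne hk, mul_zero]
      · intro h; exact absurd (Finset.mem_univ j) h
    rw [this]
    exact hnz j
  have h3 := plane_bound hd hsm hE hξ1 hη1 hξ2 hη2
  have h4 : rho (ConeN F) (C5_LB B ξ') (C5_LB B η') ≤
      ENNReal.ofReal ((2 / (1 / 2)) ^ 2) * rho (ConeN (pull B F)) ξ' η' := by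
    apply rho_map (fun h => h.1 rfl) (C5_LB B) (by norm_num : (0:ℝ) < 1 / 2)
      (by norm_num : (0:ℝ) < 2) (fun v => (C5_bounds hB hb3 v).1) (fun v => (C5_bounds hB hb3 v).2)
    intro v hv
    refine ⟨?_, ?_⟩
    · intro h
      have h6 := (C5_bounds hB hb3 v).1
      rw [h, norm_zero] at h6
      have h7 : 0 < ‖v‖ := norm_pos_iff.mpr hv.1
      linarith
    · have := hv.2
      rw [eval_pull] at this
      exact this
  have h5 : rho (ConeN F) (C5_LB B ξ') (C5_LB B η') ≤ ENNReal.ofReal (1280000 * d) := by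
    refine h4.trans ?_
    calc ENNReal.ofReal ((2 / (1 / 2)) ^ 2) * rho (ConeN (pull B F)) ξ' η'
        ≤ ENNReal.ofReal ((2 / (1 / 2)) ^ 2) * ENNReal.ofReal (80000 * d) := by gcongr
      _ = ENNReal.ofReal (1280000 * d) := by
          rw [← ENNReal.ofReal_mul (by norm_num)]
          congr 1
          ring
  calc rho (ConeN F) x y ≤ rho (ConeN F) x (C5_LB B ξ') + rho (ConeN F) (C5_LB B ξ') y :=
        rho_triangle _ _ _
    _ ≤ rho (ConeN F) x (C5_LB B ξ') +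
          (rho (ConeN F) (C5_LB B ξ') (C5_LB B η') + rho (ConeN F) (C5_LB B η') y) := by
        gcongr
        exact rho_triangle _ _ _
    _ ≤ ENNReal.ofReal ε + (ENNReal.ofReal (1280000 * d) + ENNReal.ofReal ε) := by
        rw [rho_symm (C5_LB B η') y]
        gcongr
    _ = _ := by ring

/-- TARGET C5: the intrinsic distance on a smooth surface -/
theorem surface_bound {d : ℕ} (hd : 1 ≤ d) {F : MvPolynomial (Fin 4) ℂ}
    (hF : IsSmoothForm 4 d F) {x y : C4} (hx : x ∈ ConeN F) (hy : y ∈ ConeN F) :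
    rho (ConeN F) x y ≤ ENNReal.ofReal (1280000 * d) := by
  by_cases hxy : LinearIndependent ℂ ![x, y]
  · apply ENNReal.le_of_forall_pos_le_add
    intro ε hε _
    have h := C5_indep hd hF hx hy hxy (ε := (ε : ℝ) / 2) (by positivity)
    refine h.trans (le_of_eq ?_)
    congr 1
    rw [show (2 : ℝ≥0∞) = ENNReal.ofReal 2 by simp, ← ENNReal.ofReal_mul (by norm_num)]
    rw [show (2 : ℝ) * ((ε : ℝ) / 2) = (ε : ℝ) by ring, ENNReal.ofReal_coe_nnreal]
  · rw [LinearIndependent.pair_iff' hx.1] at hxy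
    push Not at hxy
    obtain ⟨c, hc⟩ := hxy
    have hc0 : c ≠ 0 := by
      rintro rfl
      apply hy.1
      rw [← hc, zero_smul]
    rw [← hc, rho_smul (C5_cone_smul hF.1) hx hc0]
    exact bot_le


/-- **Upper bound.** -/
theorem DD_upper {d : ℕ} (hd : 1 ≤ d) : DD d ≤ ENNReal.ofReal (1280000 * d) := by
  unfold DD diamS
  refine iSup₂_le fun F hF => iSup₂_le fun x hx => iSup₂_le fun y hy => ?_
  exact (fsDist_le_rho F x y).trans (surface_bound hd hF hx hy)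

end Pool.Agent.Results.MP_a3b544_ag.Growth
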